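import Pool.Statements.S00287
import Pool.Agent.H20.OPF.Main

set_option autoImplicit false
open Pool Pool.MP_85ff8f_ag

namespace Pool.Agent.S00287

/-- For n,d ≥ 1 and p < 3d−2, over ℂ, the Koszul complex of the degree-d forms acting on degree-qd forms is exact at every exterior degree i ≤ p and every q ≥ 2, i.e. O_{P^n}(d) satisfies property N_p. -/
theorem result :
    ∀ n d p : ℕ, 1 ≤ n → 1 ≤ d → p + 2 < 3 * d →
    ∀ N : ℕ, ∀ φ : Fin N → MvPolynomial (Fin (n + 1)) ℂ,
      (∀ k, φ k ∈ MvPolynomial.homogeneousSubmodule (Fin (n + 1)) ℂ d) →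
      LinearIndependent ℂ φ →
      Submodule.span ℂ (Set.range φ) = MvPolynomial.homogeneousSubmodule (Fin (n + 1)) ℂ d →
      ∀ i : ℕ, i ≤ p → ∀ q : ℕ, 2 ≤ q →
      ∀ f : Finset (Fin N) → MvPolynomial (Fin (n + 1)) ℂ,
        (∀ I, f I ∈ MvPolynomial.homogeneousSubmodule (Fin (n + 1)) ℂ (q * d)) →
        (∀ I : Finset (Fin N), I.card ≠ i → f I = 0) →
        (∀ J : Finset (Fin N), J.card + 1 = i →
          ∑ b ∈ Jᶜ, (-1 : MvPolynomial (Fin (n + 1)) ℂ) ^ (J.filter (fun c => c < b)).card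
            * φ b * f (insert b J) = 0) →
        ∃ g : Finset (Fin N) → MvPolynomial (Fin (n + 1)) ℂ,
          (∀ I, g I ∈ MvPolynomial.homogeneousSubmodule (Fin (n + 1)) ℂ ((q - 1) * d)) ∧
          (∀ I : Finset (Fin N), I.card ≠ i + 1 → g I = 0) ∧
          ∀ I : Finset (Fin N), I.card = i →
            f I = ∑ b ∈ Iᶜ, (-1 : MvPolynomial (Fin (n + 1)) ℂ) ^ (I.filter (fun c => c < b)).card
              * φ b * g (insert b I) := by
  exact Pool.Agent.H38.OPM.frozen_of Pool.Agent.H20.OPF.known_all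

end Pool.Agent.S00287
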