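import Pool.Statements.S00388
import Pool.Agent.H40.SD.ModelFin
import Pool.Agent.H40.SD.Level

set_option autoImplicit false
open MvPolynomial
open Pool Pool.MP_b3ecde_ag

namespace Pool.Agent.S00388

/-- The negation of the preceding statement: For every field and graph with edge ideal I, and every t ≥ 1, any length of a regular sequence in the maximal ideal (x_1,…,x_n) on S/I^(t+1) is also such a length on S/I^(t). So depth S/I^(t) is non-increasing in t. -/
theorem result :
    ¬ (∀ (K : Type) [Field K] (n : ℕ) (G : SimpleGraph (Fin n)) (t k : ℕ), 1 ≤ t →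
      (∃ rs : List (MvPolynomial (Fin n) K),
        (∀ r ∈ rs, r ∈ Ideal.span (Set.range (X : Fin n → MvPolynomial (Fin n) K))) ∧
        rs.length = k ∧
        RingTheory.Sequence.IsRegular
          (MvPolynomial (Fin n) K ⧸
            (⨅ P ∈ (Ideal.span {f : MvPolynomial (Fin n) K |
                ∃ i j, G.Adj i j ∧ f = X i * X j}).minimalPrimes, P ^ (t + 1))) rs) →
      (∃ rs : List (MvPolynomial (Fin n) K),
        (∀ r ∈ rs, r ∈ Ideal.span (Set.range (X : Fin n → MvPolynomial (Fin n) K))) ∧
        rs.length = k ∧
        RingTheory.Sequence.IsRegular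
          (MvPolynomial (Fin n) K ⧸
            (⨅ P ∈ (Ideal.span {f : MvPolynomial (Fin n) K |
                ∃ i j, G.Adj i j ∧ f = X i * X j}).minimalPrimes, P ^ t)) rs)) := by
  intro h
  exact Pool.Agent.H40.SD.Design.not_monotone Pool.Agent.H40.SD.Model.model h

end Pool.Agent.S00388
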