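import Pool.Statements.S00446
import Pool.Agent.H92.WR.Final

set_option autoImplicit false
open Pool Pool.MP_c9e5d4_ag

namespace Pool.Agent.S00446

open Pool.Agent.H92.WR in
theorem numeric : ∀ t r i : ℕ, 2 * t ≤ 3 * 1000000 ^ 4 + 16 * 1000000 ^ 3 + 12 * 1000000 ^ 2 →
    62500000000000000000 * r ≤ t → 1000 * i ≤ t →
      2 * (Fintype.card (KK 250000000000) * Fintype.card (QQ 1000000)) ≤
        6 * (t * Fintype.card (PP 1000000 250000000000)) + 2 * (i * t) +
        Fintype.card (KK 250000000000) * t +
        Fintype.card (KK 250000000000) * (1000 + 62500000000000000000 * 1000) +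
        2 * (Fintype.card (KK 250000000000) * Fintype.card (KK 250000000000)) +
        Fintype.card (KK 250000000000) * (Fintype.card (PP 1000000 250000000000) * r) → False := by
  intro t r i ht hr hi h
  simp only [Fintype.card_prod, Fintype.card_sum, Fintype.card_fin] at h
  norm_num at h ht
  have h1 : t ≤ 1500008000006000000000000 := by omega
  have h2 : i ≤ 1500008000006000000000 := by omega
  have h3 : i * t ≤ 1500008000006000000000 * 1500008000006000000000000 := Nat.mul_le_mul h2 h1
  norm_num at h3
  have h4 : r ≤ 24001 := by omega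
  omega

/-- The negation of the preceding statement: For any number of complex forms of the same degree d at least 2, each in its own disjoint set of variables, the Waring rank of their sum equals the sum of their individual Waring ranks. -/
theorem result :
    ¬ (∀ (s : ℕ) (n : Fin s → ℕ) (d : ℕ), 2 ≤ d →
  ∀ (F : (i : Fin s) → MvPolynomial (Fin (n i + 1)) ℂ),
    (∀ i, (F i).IsHomogeneous d) →
    sInf {r : ℕ | ∃ L : Fin r → MvPolynomial (Σ i : Fin s, Fin (n i + 1)) ℂ,
        (∀ j, (L j).IsHomogeneous 1) ∧
        ∑ i, MvPolynomial.rename (Sigma.mk (β := fun k => Fin (n k + 1)) i) (F i)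
          = ∑ j, (L j) ^ d}
    = ∑ i, sInf {r : ℕ | ∃ L : Fin r → MvPolynomial (Fin (n i + 1)) ℂ,
        (∀ j, (L j).IsHomogeneous 1) ∧ F i = ∑ j, (L j) ^ d}) := by
  exact Pool.Agent.H92.WR.main 1000000 250000000000 1000 62500000000000000000 (by norm_num) numeric

end Pool.Agent.S00446
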