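import Pool.Statements.S01121
import Pool.Agent.H77.EngelMain

set_option autoImplicit false
open Pool Pool.MP_32f798_al

namespace Pool.Agent.S01121

/-- For every n, every group that is n-Engel and admits a right-invariant strict total order also admits a right-invariant strict total order < in which 1<f<g implies g < f g^m f⁻¹ for some positive integer m. -/
theorem result :
    ∀ (n : ℕ) (G : Type) [Group G],
      (∀ x y : G, (fun z : G => z⁻¹ * y⁻¹ * z * y)^[n] x = 1) →
      (∃ r : G → G → Prop,
        (∀ a, ¬ r a a) ∧ (∀ a b c, r a b → r b c → r a c) ∧
        (∀ a b, a = b ∨ r a b ∨ r b a) ∧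
        (∀ a b c, r a b → r (a * c) (b * c))) →
      ∃ r : G → G → Prop,
        (∀ a, ¬ r a a) ∧ (∀ a b c, r a b → r b c → r a c) ∧
        (∀ a b, a = b ∨ r a b ∨ r b a) ∧
        (∀ a b c, r a b → r (a * c) (b * c)) ∧
        (∀ f g : G, r 1 f → r f g → ∃ m : ℕ, 0 < m ∧ r g (f * g ^ m * f⁻¹)) := by
  classical
  rintro n G _ hE ⟨r, hirr, htr, htot, hinv⟩
  refine ⟨r, hirr, htr, htot, hinv, ?_⟩
  cases n with
  | zero =>
    intro f g h1f _
    exact absurd ((hE f 1).symm ▸ h1f : r 1 1) (hirr 1)
  | succ n =>
    intro f g h1f hfg
    letI : LinearOrder G :=
      { le := fun a b => a = b ∨ r a b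
        lt := r
        le_refl := fun a => Or.inl rfl
        le_trans := by
          rintro a b c (rfl | hab) (rfl | hbc)
          · exact Or.inl rfl
          · exact Or.inr hbc
          · exact Or.inr hab
          · exact Or.inr (htr a b c hab hbc)
        lt_iff_le_not_ge := by
          intro a b
          constructor
          · intro h
            refine ⟨Or.inr h, ?_⟩
            rintro (h' | h')
            · exact hirr b (h' ▸ h)
            · exact hirr a (htr a b a h h')
          · rintro ⟨h | h, h'⟩
            · exact absurd (Or.inl h.symm) h'
            · exact h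
        le_antisymm := by
          rintro a b (h | h) (h' | h')
          · exact h
          · exact h
          · exact h'.symm
          · exact absurd (htr a b a h h') (hirr a)
        le_total := by
          intro a b
          rcases htot a b with h | h | h
          · exact Or.inl (Or.inl h)
          · exact Or.inl (Or.inr h)
          · exact Or.inr (Or.inr h)
        toDecidableLE := Classical.decRel _ }
    exact Pool.Agent.H77.Engel.conrad_of_engel (G := G) hinv n
      (Pool.Agent.H77.Engel.engel_conj hE) f g h1f hfg

end Pool.Agent.S01121
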