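import Pool.Statements.S01457
import Pool.Agent.H84.LG.Final

set_option autoImplicit false
open Pool Pool.MP_51fe29_al

namespace Pool.Agent.S01457

/-- There is a normal-valued lattice-ordered group G (ab ≤ b²a² for all positive a, b) whose lattice of convex l-subgroups is not order-isomorphic to that of any abelian lattice-ordered group. -/
theorem result :
    ∃ (G : Type) (_ : Group G) (_ : Lattice G) (_ : MulLeftMono G) (_ : MulRightMono G),
      (∀ a b : G, 1 ≤ a → 1 ≤ b → a * b ≤ b ^ 2 * a ^ 2) ∧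
      ¬ ∃ (A : Type) (_ : CommGroup A) (_ : Lattice A) (_ : MulLeftMono A),
        Nonempty
          ({H : Subgroup G //
              (∀ x ∈ H, ∀ y ∈ H, x ⊔ y ∈ H ∧ x ⊓ y ∈ H) ∧
              ∀ x ∈ H, ∀ y ∈ H, ∀ z : G, x ≤ z → z ≤ y → z ∈ H} ≃o
           {K : Subgroup A //
              (∀ x ∈ K, ∀ y ∈ K, x ⊔ y ∈ K ∧ x ⊓ y ∈ K) ∧
              ∀ x ∈ K, ∀ y ∈ K, ∀ z : A, x ≤ z → z ≤ y → z ∈ K}) := by
  refine ⟨Pool.H84.LG.GG Pool.H84.LG.Idx, inferInstance, inferInstance, inferInstance, inferInstance,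
    Pool.H84.LG.GG.normal_valued, ?_⟩
  rintro ⟨A, hA1, hA2, hA3, ⟨Φ⟩⟩
  exact Pool.H84.LG.no_iso Pool.H84.LG.Idx Pool.H84.LG.Idx_card A Φ

end Pool.Agent.S01457
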