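import Pool.Statements.S01716
import Pool.Agent.H28.UE.Final
import Pool.Agent.H28.UE.UnitsB

set_option autoImplicit false
open Pool Pool.MP_63d20d_al

namespace Pool.Agent.S01716

/-- The negation of the preceding statement: For every finite alphabet A and word r over A and its formal inverses, the group of units of the inverse monoid Inv⟨A ∣ r=1⟩ embeds, via an injective homomorphism, into some one-relator group ⟨B ∣ s⟩. -/
theorem result :
    ¬ (∀ (A : Type) [Fintype A] (r : FreeMonoid (A ⊕ A)),
      ∃ (B : Type) (s : FreeGroup B)
        (f : (Con.Quotient (conGen (fun x y : FreeMonoid (A ⊕ A) =>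
              (∃ w : FreeMonoid (A ⊕ A),
                  x = w * FreeMonoid.ofList ((FreeMonoid.toList w).reverse.map Sum.swap) * w ∧ y = w) ∨
              (∃ u v : FreeMonoid (A ⊕ A),
                  x = u * FreeMonoid.ofList ((FreeMonoid.toList u).reverse.map Sum.swap) *
                        v * FreeMonoid.ofList ((FreeMonoid.toList v).reverse.map Sum.swap) ∧
                  y = v * FreeMonoid.ofList ((FreeMonoid.toList v).reverse.map Sum.swap) *
                        u * FreeMonoid.ofList ((FreeMonoid.toList u).reverse.map Sum.swap)) ∨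
              (x = r ∧ y = 1))))ˣ →* PresentedGroup ({s} : Set (FreeGroup B))),
        Function.Injective f) := by
  intro H
  obtain ⟨B, s, f, hf⟩ := H (Fin 4) (Pool.Agent.H28.UE.rr 1000000 211)
  obtain ⟨f1, f2, h1, h2⟩ := Pool.Agent.H28.UE.units_embed 1000000 211
  have hp : Nat.Prime 211 := by norm_num
  exact Pool.Agent.H28.UE.not_embed (M := 1000000) (p := 211) le_rfl hp (by norm_num) s
    (f.comp f1) (hf.comp h1) (f.comp f2) (hf.comp h2)

end Pool.Agent.S01716
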