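import Pool.Statements.S01765
import Pool.Agent.H34.Gam.PMain
import Pool.Agent.H34.Gam.SylB
import Pool.Agent.H34.Gam.Lim

set_option autoImplicit false
open CategoryTheory MonoidalCategory
open Pool Pool.MP_6855ec_al

namespace Pool.Agent.S01765

/-- For a finite group G, a field k of characteristic p and a finite-dimensional kG-module M, gamma(M ⊗ M*) = gamma(M)^2, where gamma(X) = limsup of the n-th root of the dimension of the non-projective part of the n-th tensor power of X. -/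
theorem result :
    ∀ (G : Type) [Group G] [Fintype G] (k : Type) [Field k] (p : ℕ) [Fact p.Prime] [CharP k p]
      (V : Type) [AddCommGroup V] [Module k V] [FiniteDimensional k V]
      (ρ : Representation k G V)
      (pow : Rep k G → ℕ → Rep k G) (c : Rep k G → ℕ) (γ : Rep k G → ℝ),
      (∀ X : Rep k G, pow X 0 = X) →
      (∀ (X : Rep k G) (n : ℕ), pow X (n + 1) = pow X n ⊗ X) →
      (∀ X : Rep k G, c X = sInf {d : ℕ | ∃ (P : Rep k G), Projective P ∧
          ∃ (i : P ⟶ X) (r : X ⟶ P), i ≫ r = 𝟙 P ∧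
            d + Module.finrank k P.V = Module.finrank k X.V}) →
      (∀ X : Rep k G, γ X = Filter.limsup
          (fun n : ℕ => ((c (pow X n) : ℕ) : ℝ) ^ ((1 : ℝ) / ((n : ℝ) + 1))) Filter.atTop) →
      γ (Rep.of ρ ⊗ Rep.of (Representation.dual ρ)) = (γ (Rep.of ρ)) ^ 2 := by
  intro G _ _ k _ p _ _ V _ _ _ ρ pow c γ h0 h1 hc hγ
  classical
  -- Sylow subgroup
  obtain ⟨P⟩ : Nonempty (Sylow p G) := inferInstance
  have hP : IsPGroup p P.1 := P.2
  have hi : ((P.1.index : ℕ) : k) ≠ 0 := by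
    intro h
    rw [CharP.cast_eq_zero_iff k p] at h
    exact P.not_dvd_index h
  letI : Fintype P.1 := Fintype.ofFinite P.1
  -- the representations
  let Y : Pool.Agent.H34.Gam.FRep k G := ⟨V, ρ⟩
  let D : Pool.Agent.H34.Gam.FRep k G := Pool.Agent.H34.Gam.FRep.T Y
    (Pool.Agent.H34.Gam.FRep.L Y (Pool.Agent.H34.Gam.FRep.triv k G))
  have hY : Pool.Agent.H34.Gam.RI (Rep.of ρ) Y := Pool.Agent.H34.Gam.RI_of ρ
  have hD : Pool.Agent.H34.Gam.RI (Rep.of ρ ⊗ Rep.of (Representation.dual ρ)) D :=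
    Pool.Agent.H34.Gam.RI_tensor hY (Pool.Agent.H34.Gam.RI_dual ρ)
  have hcr : ∀ X, c X = Pool.Agent.H34.Gam.cRep X := hc
  -- restriction to P
  let M : Pool.Agent.H34.Gam.FRep k P.1 := Pool.Agent.H34.Gam.FRep.res P.1 Y
  let DM : Pool.Agent.H34.Gam.FRep k P.1 := Pool.Agent.H34.Gam.FRep.T M
    (Pool.Agent.H34.Gam.FRep.L M (Pool.Agent.H34.Gam.FRep.triv k P.1))
  have hM : ∀ n, Pool.Agent.H34.Gam.ccS P.1 (Pool.Agent.H34.Gam.FRep.pow Y n) =
      Pool.Agent.H34.Gam.cc (Pool.Agent.H34.Gam.FRep.pow M n) := by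
    intro n
    have := Pool.Agent.H34.Gam.pull_pow P.1.subtype Y n
    show Pool.Agent.H34.Gam.cc (Pool.Agent.H34.Gam.FRep.pull P.1.subtype
      (Pool.Agent.H34.Gam.FRep.pow Y n)) = _
    rw [← this]
  have hDM : ∀ n, Pool.Agent.H34.Gam.ccS P.1 (Pool.Agent.H34.Gam.FRep.pow D n) =
      Pool.Agent.H34.Gam.cc (Pool.Agent.H34.Gam.FRep.pow DM n) := by
    intro n
    have := Pool.Agent.H34.Gam.pull_pow P.1.subtype D n
    show Pool.Agent.H34.Gam.cc (Pool.Agent.H34.Gam.FRep.pull P.1.subtype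
      (Pool.Agent.H34.Gam.FRep.pow D n)) = _
    rw [← this]
    rfl
  rw [hγ, hγ]
  refine Pool.Agent.H34.Gam.lim_final
    (fun n => Pool.Agent.H34.Gam.cc (Pool.Agent.H34.Gam.FRep.pow M n))
    (fun n => Pool.Agent.H34.Gam.cc (Pool.Agent.H34.Gam.FRep.pow DM n))
    (fun n => c (pow (Rep.of ρ) n))
    (fun n => c (pow (Rep.of ρ ⊗ Rep.of (Representation.dual ρ)) n))
    (Module.finrank k V) P.1.index ?_ ?_ ?_ ?_ ?_
  · intro n
    have h1 : ∀ n, Module.finrank k (Pool.Agent.H34.Gam.FRep.pow M n).V =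
        Module.finrank k V ^ n := by
      intro n
      induction n with
      | zero => exact Module.finrank_self k
      | succ n ih =>
        have h2 : Module.finrank k (Pool.Agent.H34.Gam.FRep.pow M (n + 1)).V =
          Module.finrank k (Pool.Agent.H34.Gam.FRep.pow M n).V * Module.finrank k V :=
          Module.finrank_tensorProduct
        rw [h2, ih, pow_succ]
    exact (Nat.sub_le _ _).trans (h1 n).le
  · intro n
    exact Pool.Agent.H34.Gam.cc_powD_le hP M n
  · intro g C0 hg h ε hε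
    exact Pool.Agent.H34.Gam.pmain hP M g C0 hg h ε hε
  · intro n
    rw [← hM]
    show _ ≤ c (pow (Rep.of ρ) n) ∧ c (pow (Rep.of ρ) n) ≤ _
    rw [hcr]
    exact Pool.Agent.H34.Gam.cRep_bounds (p := p) P.1 hP hi _ _
      (Pool.Agent.H34.Gam.RI_pow pow h0 h1 hY n)
  · intro n
    rw [← hDM]
    show _ ≤ c (pow (Rep.of ρ ⊗ Rep.of (Representation.dual ρ)) n) ∧
      c (pow (Rep.of ρ ⊗ Rep.of (Representation.dual ρ)) n) ≤ _
    rw [hcr]
    exact Pool.Agent.H34.Gam.cRep_bounds (p := p) P.1 hP hi _ _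
      (Pool.Agent.H34.Gam.RI_pow pow h0 h1 hD n)

end Pool.Agent.S01765
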