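import Pool.Statements.S02243
import Pool.Agent.H33.RD.Filling
import Pool.Agent.H33.RD.Free
import Pool.Agent.H36.RD.Torsion
import Pool.Agent.H95.RD.Assemble

set_option autoImplicit false
open scoped Pointwise
open Pool Pool.MP_8f292a_al

namespace Pool.Agent.S02243

/-- There is an infinite torsion group with a finite generating set S and constants C, s such that, whenever f is supported in the n-ball of S, the squared ℓ² norm of f∗g is at most C(1+n)^s times the squared ℓ² norms of f and g, i.e. property RD. -/
theorem result :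
    ∃ (G : Type) (_ : Group G), Infinite G ∧ Monoid.IsTorsion G ∧
      ∃ S : Finset G, Subgroup.closure (S : Set G) = ⊤ ∧
        ∃ C s : ℝ, ∀ n : ℕ, ∀ f g : G →₀ ℝ,
          (f.support : Set G) ⊆ ((S : Set G) ∪ (S : Set G)⁻¹ ∪ {1}) ^ n →
            ∀ F : Finset G,
              ∑ x ∈ F, (∑ y ∈ f.support, f y * g (y⁻¹ * x)) ^ 2 ≤
                C * (1 + (n : ℝ)) ^ s * (∑ y ∈ f.support, f y ^ 2) *
                  (∑ z ∈ g.support, g z ^ 2) := by
  exact Pool.Agent.H95.RD.assemble (fun H _ hG => Pool.Agent.H33.RD.filling H hG)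
    Pool.Agent.H33.RD.geo_freeGroup Pool.Agent.H33.RD.exists_torsion

end Pool.Agent.S02243
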