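import Pool.Statements.S02310
import Pool.Agent.H3.HP.Avg

set_option autoImplicit false
open Pool Pool.MP_936ccd_al

namespace Pool.Agent.S02310

/-- The negation of the preceding statement: For every word w, every partition λ of k≥2, and every r at most the primitivity rank of w, the average of the character of λ with a long first row added, over uniformly random word-map values in S_n, is O(dim^{-(r-1)}) as n→∞. -/
theorem result :
    ¬ (∀ (m : ℕ) (w : FreeGroup (Fin m)) (k : ℕ) (lam : Nat.Partition k) (r : ℕ),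
    2 ≤ k →
    (∀ (j : ℕ), j < r → ∀ (H : Subgroup (FreeGroup (Fin m))),
        Nonempty (FreeGroupBasis (Fin j) H) → w ∈ H →
        ∃ (ι : Type) (c : FreeGroupBasis ι H) (i : ι), ((c i : H) : FreeGroup (Fin m)) = w) →
    ∀ (χ : (n : ℕ) → Equiv.Perm (Fin n) → ℤ),
      (∀ (n : ℕ) (σ : Equiv.Perm (Fin n)), χ n σ =
        MvPolynomial.coeff
          (Finsupp.equivFunOnFinite.symm (fun i : Fin n =>
            (if (i : ℕ) = 0 then n - k
              else ((Finset.range k).filter (fun t =>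
                (i : ℕ) ≤ Multiset.card (lam.parts.filter (fun p => t + 1 ≤ p)))).card)
            + (n - 1 - (i : ℕ))))
          ((∏ i : Fin n, ∏ j : Fin n,
              (if i < j then (MvPolynomial.X i - MvPolynomial.X j : MvPolynomial (Fin n) ℤ) else 1)) *
            (σ.cycleType.map (fun c => MvPolynomial.psum (Fin n) ℤ c)).prod *
            MvPolynomial.psum (Fin n) ℤ 1 ^ (Finset.univ.filter (fun x => σ x = x)).card)) →
      Asymptotics.IsBigO Filter.atTop
        (fun n : ℕ => (1 / ((Nat.factorial n : ℝ) ^ m)) *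
          ∑ s : Fin m → Equiv.Perm (Fin n), (χ n (FreeGroup.lift s w) : ℝ))
        (fun n : ℕ => ((χ n 1 : ℝ)) ^ (1 - (r : ℤ)))) := by
  intro h
  have hprim : ∀ (j : ℕ), j < 4 → ∀ (H : Subgroup (FreeGroup (Fin 4))),
        Nonempty (FreeGroupBasis (Fin j) H) → Pool.Agent.H3.HP.ww ∈ H →
        ∃ (ι : Type) (c : FreeGroupBasis ι H) (i : ι),
          ((c i : H) : FreeGroup (Fin 4)) = Pool.Agent.H3.HP.ww := by
    intro j hj H hb hw
    exact Pool.Agent.H3.HP.ww_primitive j hj H hb hw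
  have hO := h 4 Pool.Agent.H3.HP.ww 2 Pool.Agent.H3.HP.lam2 4 le_rfl hprim _
    (fun n σ => rfl)
  rw [Asymptotics.isBigO_iff] at hO
  obtain ⟨C, hC⟩ := hO
  rw [Filter.eventually_atTop] at hC
  obtain ⟨N, hN⟩ := hC
  obtain ⟨M, hM⟩ := exists_nat_gt (2 * |C| + 3)
  obtain ⟨n, hNn, hMn, hn5⟩ : ∃ n : ℕ, N ≤ n ∧ M ≤ n ∧ 5 ≤ n :=
    ⟨N + M + 5, by omega, by omega, by omega⟩
  have hb := hN n hNn
  have hval : ∀ σ : Equiv.Perm (Fin n), ((MvPolynomial.coeff
          (Finsupp.equivFunOnFinite.symm (fun i : Fin n =>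
            (if (i : ℕ) = 0 then n - 2
              else ((Finset.range 2).filter (fun t =>
                (i : ℕ) ≤ Multiset.card
                  (Pool.Agent.H3.HP.lam2.parts.filter (fun p => t + 1 ≤ p)))).card)
            + (n - 1 - (i : ℕ))))
          ((∏ i : Fin n, ∏ j : Fin n,
              (if i < j then (MvPolynomial.X i - MvPolynomial.X j : MvPolynomial (Fin n) ℤ) else 1)) *
            (σ.cycleType.map (fun c => MvPolynomial.psum (Fin n) ℤ c)).prod *
            MvPolynomial.psum (Fin n) ℤ 1 ^ (Finset.univ.filter (fun x => σ x = x)).card) : ℤ) : ℝ) =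
      Pool.Agent.H3.HP.ch (Pool.Agent.H3.HP.E2 n) σ := by
    intro σ
    rw [Pool.Agent.H3.HP.frobenius_formula (by omega) σ,
      Pool.Agent.H3.HP.ch_E2 (by omega) σ, Pool.Agent.H3.HP.trace_R, Pool.Agent.H3.HP.trace_R]
    push_cast
    rfl
  simp only [hval] at hb
  have hD : Pool.Agent.H3.HP.ch (Pool.Agent.H3.HP.E2 n) (1 : Equiv.Perm (Fin n)) =
      (n : ℝ) * (n - 3) / 2 := by
    rw [Pool.Agent.H3.HP.ch_one, Pool.Agent.H3.HP.trace_E2 (by omega)]
  have hlow := Pool.Agent.H3.HP.avg_lower hn5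
  rw [Pool.Agent.H3.HP.trace_E2 (by omega), Fintype.card_perm, Fintype.card_fin] at hlow
  rw [hD] at hb
  have hz : ((n : ℝ) * (n - 3) / 2) ^ (1 - ((4 : ℕ) : ℤ)) = (((n : ℝ) * (n - 3) / 2) ^ 3)⁻¹ := by
    have h1 : (1 - ((4 : ℕ) : ℤ)) = -((3 : ℕ) : ℤ) := by norm_num
    rw [h1, zpow_neg, zpow_natCast]
  rw [hz, Real.norm_eq_abs, Real.norm_eq_abs] at hb
  have hF : (0 : ℝ) < (Nat.factorial n : ℝ) ^ 4 := by
    have : 0 < Nat.factorial n := Nat.factorial_pos n
    positivity
  exact Pool.Agent.H3.HP.final_ineq (n : ℝ) _ _ C _ (by exact_mod_cast hn5) rfl hF hlow hb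
    (lt_of_lt_of_le hM (by exact_mod_cast hMn))

end Pool.Agent.S02310
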