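import Pool.Statements.S02730
-- import your own Pool.Agent.* helpers here

set_option autoImplicit false
open Pool Pool.MP_b0fe5a_al

/-!
# A finite cut group whose Sylow `3`-subgroups are not cut groups

The counterexample is `G = N ⋊ SL₂(3)`, of order `3 ^ 16 * 8`.  Here `N` is the group of order
`3 ^ 15` with coordinates `a, z, b` in the field `𝔽₃` and `X, Y, Z` in `M₂(𝔽₃)`, and product

  `(a, z, b, X, Y, Z) (a', z', b', X', Y', Z') =`
  `(a + a', z + z' - a² a' - a a'² + a b' + B(X, Y'), b + b', X + X', Y + Y',`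
  `  Z + Z' + a Y' + b X')`,

where `B` is the polarisation of the determinant (`(a, z)` are Witt vector coordinates of `ℤ/9`).
An element `g` of `SL₂(3)` acts by `T ↦ g T w(g)` on the three matrix coordinates and by
`z ↦ z + χ(g) a`, where `χ : SL₂(3) → ℤ/3` is a surjective homomorphism and
`w(g) = !![1, -χ(g); 0, 1]`.

Every `x : G` satisfies `x ^ 36 = 1` and is conjugate to `x ^ 7` (theorem `good`), which makes `G`
a cut group.  In `N`, the element `(a, z, b, X, Y, Z)` with `a ≠ 0` is conjugate to its fourth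
power unless `det X = 1` and `Y = - a b X`; the elements of this last kind are conjugate to their
fourth power only through those Sylow `3`-subgroups of `SL₂(3)` fixing `X`, and not in the others.
-/

namespace Pool.Agent.S02730

open SemidirectProduct

/-- `2 × 2` matrices over the field with three elements. -/
abbrev M := Matrix (Fin 2) (Fin 2) (ZMod 3)

/-- `SL₂(3)`. -/
abbrev SL := Matrix.SpecialLinearGroup (Fin 2) (ZMod 3)

/-- The polarisation of the determinant. -/
def B (X Y : M) : ZMod 3 := X 0 0 * Y 1 1 + X 1 1 * Y 0 0 - X 0 1 * Y 1 0 - X 1 0 * Y 0 1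

lemma B_add_left (X X' Y : M) : B (X + X') Y = B X Y + B X' Y := by
  simp only [B, Matrix.add_apply]; ring
lemma B_add_right (X Y Y' : M) : B X (Y + Y') = B X Y + B X Y' := by
  simp only [B, Matrix.add_apply]; ring
lemma B_neg_left (X Y : M) : B (-X) Y = - B X Y := by
  simp only [B, Matrix.neg_apply]; ring
lemma B_neg_right (X Y : M) : B X (-Y) = - B X Y := by
  simp only [B, Matrix.neg_apply]; ring
lemma B_sub_left (X X' Y : M) : B (X - X') Y = B X Y - B X' Y := by
  simp only [B, Matrix.sub_apply]; ring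
lemma B_sub_right (X Y Y' : M) : B X (Y - Y') = B X Y - B X Y' := by
  simp only [B, Matrix.sub_apply]; ring
lemma B_smul_left (c : ZMod 3) (X Y : M) : B (c • X) Y = c * B X Y := by
  simp only [B, Matrix.smul_apply, smul_eq_mul]; ring
lemma B_smul_right (c : ZMod 3) (X Y : M) : B X (c • Y) = c * B X Y := by
  simp only [B, Matrix.smul_apply, smul_eq_mul]; ring
lemma B_zero_left (Y : M) : B 0 Y = 0 := by simp [B]
lemma B_zero_right (X : M) : B X 0 = 0 := by simp [B]
lemma B_comm (X Y : M) : B X Y = B Y X := by simp only [B]; ring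
lemma B_mul (A X Y C : M) : B (A * X * C) (A * Y * C) = A.det * C.det * B X Y := by
  simp only [B, Matrix.det_fin_two, Matrix.mul_apply, Fin.sum_univ_two]; ring

/-- The normal `3`-subgroup. -/
@[ext] structure N where
  a : ZMod 3
  z : ZMod 3
  b : ZMod 3
  X : M
  Y : M
  Z : M

namespace N

instance : Mul N := ⟨fun m n => ⟨m.a + n.a,
  m.z + n.z - m.a ^ 2 * n.a - m.a * n.a ^ 2 + m.a * n.b + B m.X n.Y,
  m.b + n.b, m.X + n.X, m.Y + n.Y, m.Z + n.Z + m.a • n.Y + m.b • n.X⟩⟩
instance : One N := ⟨⟨0, 0, 0, 0, 0, 0⟩⟩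
instance : Inv N := ⟨fun n => ⟨-n.a, -n.z + n.a * n.b + B n.X n.Y, -n.b, -n.X, -n.Y,
  -n.Z + n.a • n.Y + n.b • n.X⟩⟩

lemma mul_def (m n : N) : m * n = ⟨m.a + n.a,
  m.z + n.z - m.a ^ 2 * n.a - m.a * n.a ^ 2 + m.a * n.b + B m.X n.Y,
  m.b + n.b, m.X + n.X, m.Y + n.Y, m.Z + n.Z + m.a • n.Y + m.b • n.X⟩ := rfl
lemma one_def : (1 : N) = ⟨0, 0, 0, 0, 0, 0⟩ := rfl
lemma inv_def (n : N) : n⁻¹ = ⟨-n.a, -n.z + n.a * n.b + B n.X n.Y, -n.b, -n.X, -n.Y,
  -n.Z + n.a • n.Y + n.b • n.X⟩ := rfl

instance : Group N := Group.ofLeftAxioms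
  (by
    intro x y z
    simp only [mul_def, B_add_left, B_add_right]
    ext i j
    · simp; ring
    · simp; ring
    · simp; ring
    · simp; ring
    · simp; ring
    · simp; ring)
  (by
    intro x
    simp only [mul_def, one_def]
    ext i j <;> simp [B_zero_left])
  (by
    intro x
    simp only [mul_def, one_def, inv_def]
    ext i j
    · simp
    · simp [B_neg_left]
      ring
    · simp
    · simp
    · simp
    · simp
      ring)

instance : Finite N :=
  Finite.of_injective (fun n : N => (n.a, n.z, n.b, n.X, n.Y, n.Z)) (by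
    intro m n h
    simp only [Prod.mk.injEq] at h
    obtain ⟨h1, h2, h3, h4, h5, h6⟩ := h
    exact N.ext h1 h2 h3 h4 h5 h6)

end N

/-- The homomorphism `SL₂(3) → ℤ/3`, as a polynomial in the entries. -/
def chiM (g : M) : ZMod 3 := (1 - g 1 0 ^ 2) * g 0 1 * g 1 1 + g 1 0 * (g 0 0 + g 1 1)

def chi (g : SL) : ZMod 3 := chiM g.1

lemma chi_aux : ∀ p q r s p' q' r' s' : ZMod 3, p * s - q * r = 1 → p' * s' - q' * r' = 1 →
    (1 - (r * p' + s * r') ^ 2) * (p * q' + q * s') * (r * q' + s * s') +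
      (r * p' + s * r') * ((p * p' + q * r') + (r * q' + s * s')) =
    ((1 - r ^ 2) * q * s + r * (p + s)) + ((1 - r' ^ 2) * q' * s' + r' * (p' + s')) := by
  decide +kernel

lemma det_entries (g : SL) : g.1 0 0 * g.1 1 1 - g.1 0 1 * g.1 1 0 = 1 := by
  have := g.2
  rwa [Matrix.det_fin_two] at this

lemma chi_mul (g h : SL) : chi (g * h) = chi g + chi h := by
  have hg := det_entries g
  have hh := det_entries h
  have := chi_aux _ _ _ _ _ _ _ _ hg hh
  simpa [chi, chiM, Matrix.mul_apply, Fin.sum_univ_two] using this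

lemma chi_one : chi 1 = 0 := by
  simp [chi, chiM]

/-- The unipotent matrix by which `g` acts on the right. -/
def w (g : SL) : M := !![1, -chi g; 0, 1]

lemma w_mul (g h : SL) : w (g * h) = w h * w g := by
  ext i j
  fin_cases i <;> fin_cases j <;> simp [w, chi_mul, Matrix.mul_apply, Fin.sum_univ_two]
  ring

lemma w_one : w 1 = 1 := by
  ext i j
  fin_cases i <;> fin_cases j <;> simp [w, chi_one]

lemma det_w (g : SL) : (w g).det = 1 := by
  simp [w, Matrix.det_fin_two]

/-- The action of `g` on `2 × 2` matrices. -/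
def rho (g : SL) (T : M) : M := g.1 * T * w g

lemma rho_add (g : SL) (S T : M) : rho g (S + T) = rho g S + rho g T := by
  simp [rho, mul_add, add_mul]
lemma rho_neg (g : SL) (T : M) : rho g (-T) = - rho g T := by
  simp [rho]
lemma rho_sub (g : SL) (S T : M) : rho g (S - T) = rho g S - rho g T := by
  simp [rho, mul_sub, sub_mul]
lemma rho_smul (g : SL) (c : ZMod 3) (T : M) : rho g (c • T) = c • rho g T := by
  simp [rho]
lemma rho_zero (g : SL) : rho g 0 = 0 := by simp [rho]
lemma rho_one (T : M) : rho 1 T = T := by simp [rho, w_one]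
lemma rho_mul (g h : SL) (T : M) : rho (g * h) T = rho g (rho h T) := by
  simp [rho, w_mul, mul_assoc]
lemma B_rho (g : SL) (S T : M) : B (rho g S) (rho g T) = B S T := by
  simp only [rho, B_mul, det_w, g.2, one_mul]

/-- `SL₂(3)` acts on `N` by automorphisms. -/
def actHom (g : SL) : N →* N where
  toFun n := ⟨n.a, n.z + chi g * n.a, n.b, rho g n.X, rho g n.Y, rho g n.Z⟩
  map_one' := by
    simp only [N.one_def, rho_zero]
    ext i j <;> simp
  map_mul' m n := by
    simp only [N.mul_def, rho_add, rho_smul, B_rho]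
    ext i j
    · simp
    · simp; ring
    · simp
    · simp
    · simp
    · simp

lemma actHom_one : actHom 1 = MonoidHom.id N := by
  ext n i j <;> simp [actHom, chi_one, rho_one]

lemma actHom_mul (g h : SL) : actHom (g * h) = (actHom g).comp (actHom h) := by
  ext n i j <;> simp [actHom, chi_mul, rho_mul]
  ring

def act : SL →* MulAut N where
  toFun g :=
    { toFun := actHom g
      invFun := actHom g⁻¹
      left_inv := by
        intro n
        have h := actHom_mul g⁻¹ g
        rw [inv_mul_cancel, actHom_one] at h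
        exact (DFunLike.congr_fun h n).symm
      right_inv := by
        intro n
        have h := actHom_mul g g⁻¹
        rw [mul_inv_cancel, actHom_one] at h
        exact (DFunLike.congr_fun h n).symm
      map_mul' := map_mul (actHom g) }
  map_one' := by
    apply MulEquiv.ext
    intro n
    exact DFunLike.congr_fun actHom_one n
  map_mul' g h := by
    apply MulEquiv.ext
    intro n
    exact DFunLike.congr_fun (actHom_mul g h) n

lemma act_apply (g : SL) (n : N) :
    act g n = ⟨n.a, n.z + chi g * n.a, n.b, rho g n.X, rho g n.Y, rho g n.Z⟩ := rfl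

abbrev G := N ⋊[act] SL

instance : Finite G :=
  Finite.of_injective (fun x : G => (x.left, x.right)) (by
    intro x y h
    simp only [Prod.mk.injEq] at h
    exact SemidirectProduct.ext h.1 h.2)


lemma three_eq : (3 : ZMod 3) = 0 := by decide

namespace N

/-- cubes in `N` -/
lemma cube (n : N) : n * n * n = ⟨0, n.a, 0, 0, 0, 0⟩ := by
  have h1 : ∀ x : ZMod 3, x + x + x = 0 := by decide
  have h2 : ∀ X : M, X + X + X = 0 := by
    intro X; ext i j; simp [h1]
  have h3 : ∀ a z b t : ZMod 3, z + z - a ^ 2 * a - a * a ^ 2 + a * b + t + z - (a + a) ^ 2 * a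
      - (a + a) * a ^ 2 + (a + a) * b + (t + t) = a := by decide +kernel
  simp only [mul_def, B_add_left]
  ext i j
  · exact h1 _
  · exact h3 _ _ _ _
  · exact h1 _
  · simp [h1]
  · simp [h1]
  · simp only [Matrix.add_apply, Matrix.smul_apply, smul_eq_mul, Matrix.zero_apply]
    generalize n.Z i j = u
    generalize n.Y i j = v
    generalize n.X i j = w
    generalize n.a = x
    generalize n.b = y
    revert u v w x y
    decide +kernel

lemma pow_seven (n : N) : n ^ 7 = ⟨n.a, n.z - n.a, n.b, n.X, n.Y, n.Z⟩ := by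
  have : n ^ 7 = (n * n * n) * (n * n * n) * n := by
    simp only [pow_succ, pow_zero, one_mul, mul_assoc]
  rw [this, cube]
  simp only [mul_def]
  have h3 : ∀ a : ZMod 3, a + a = -a := by decide
  ext i j
  · simp
  · simp [B_zero_left, h3]
    ring
  · simp
  · simp
  · simp
  · simp

end N


lemma sq_one : ∀ a : ZMod 3, a ≠ 0 → a * a = 1 := by decide

lemma exists_B {V : M} (hV : V ≠ 0) (t : ZMod 3) : ∃ W : M, B W V = t := by
  have key : V 0 0 ≠ 0 ∨ V 0 1 ≠ 0 ∨ V 1 0 ≠ 0 ∨ V 1 1 ≠ 0 := by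
    by_contra hcon
    push Not at hcon
    obtain ⟨h1, h2, h3, h4⟩ := hcon
    apply hV
    ext i j
    fin_cases i <;> fin_cases j <;> simp [h1, h2, h3, h4]
  rcases key with h | h | h | h
  · refine ⟨!![0, 0; 0, t * V 0 0], ?_⟩
    simp [B, mul_assoc, sq_one _ h]
  · refine ⟨!![0, 0; -(t * V 0 1), 0], ?_⟩
    simp [B, mul_assoc, sq_one _ h]
  · refine ⟨!![0, -(t * V 1 0); 0, 0], ?_⟩
    simp [B, mul_assoc, sq_one _ h]
  · refine ⟨!![t * V 1 1, 0; 0, 0], ?_⟩
    simp [B, mul_assoc, sq_one _ h]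

lemma conj_inl (m n n' : N) (h : SL) (H : m * act h n = n' * m) :
    (⟨m, h⟩ : G) * inl n = inl n' * ⟨m, h⟩ := by
  ext1
  · simpa using H
  · simp

/-- the unipotent element -/
def v : SL := ⟨!![1, 1; 0, 1], by simp [Matrix.det_fin_two]⟩

lemma chi_v : chi v = 1 := by
  simp [chi, chiM, v]

lemma chi_inv (g : SL) : chi g⁻¹ = - chi g := by
  have := chi_mul g⁻¹ g
  rw [inv_mul_cancel, chi_one] at this
  exact (neg_eq_of_add_eq_zero_left this.symm).symm

lemma rho_inv_of_fixed {g : SL} {X : M} (h : rho g X = X) : rho g⁻¹ X = X := by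
  conv_lhs => rw [← h]
  rw [← rho_mul, inv_mul_cancel, rho_one]

lemma B_self (X : M) : B X X = - X.det := by
  have : ∀ p q r s : ZMod 3, p * s + s * p - q * r - r * q = -(p * s - q * r) := by
    decide +kernel
  simp only [B, Matrix.det_fin_two]
  exact this _ _ _ _

lemma v_inv_coe : ((v⁻¹ : SL) : M) = !![1, -1; 0, 1] := by
  rw [Matrix.SpecialLinearGroup.coe_inv]
  simp [v, Matrix.adjugate_fin_two_of]

lemma w_of_chi {q : SL} (hq : chi q = 1) : w q = ((v⁻¹ : SL) : M) := by
  rw [v_inv_coe, w, hq]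

lemma case_one (n : N) : ∃ c : G, c * SemidirectProduct.inl n =
    SemidirectProduct.inl (n ^ 7) * c := by
  rw [N.pow_seven]
  obtain ⟨a, z, b, X, Y, Z⟩ := n
  simp only
  by_cases ha : a = 0
  · subst ha
    exact ⟨1, by simp⟩
  have haa := sq_one a ha
  by_cases hX : X.det = 1
  · by_cases hY : Y + (a * b) • X = 0
    · -- use an element of `SL₂(3)`
      have hY' : Y = -((a * b) • X) := eq_neg_of_add_eq_zero_left hY
      let Xs : SL := ⟨X, hX⟩
      let q : SL := Xs * v * Xs⁻¹
      have hq : chi q = 1 := by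
        simp only [q, chi_mul, chi_inv, chi_v]
        ring
      have hfix : rho q X = X := by
        have h1 : rho q X = ((q * Xs * v⁻¹ : SL) : M) := by
          rw [rho, w_of_chi hq]
          rfl
        have h2 : q * Xs * v⁻¹ = Xs := by simp [q]
        rw [h1, h2]
      have hfix' := rho_inv_of_fixed hfix
      refine ⟨⟨⟨0, 0, 0, 0, -a • (Z - rho q⁻¹ Z), 0⟩, q⁻¹⟩, conj_inl _ _ _ _ ?_⟩
      have hB : B X (rho q⁻¹ Z) = B X Z := by
        conv_lhs => rw [← hfix']
        rw [B_rho]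
      rw [act_apply]
      simp only [N.mul_def, hfix', chi_inv, hq]
      ext i j
      · simp
      · simp [B_zero_left, B_neg_right, B_smul_right, B_sub_right, hB]
        ring
      · simp
      · simp
      · simp only [hY', rho_neg, rho_smul, hfix']
        simp
        ring
      · simp
        generalize Z i j = x
        generalize rho q⁻¹ Z i j = y
        revert haa
        clear * -
        revert a x y
        decide
    · obtain ⟨W, hW⟩ := exists_B hY (-a)
      refine ⟨⟨⟨0, 0, 0, W, -(a * b) • W, 0⟩, 1⟩, conj_inl _ _ _ _ ?_⟩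
      rw [B_add_right, B_smul_right] at hW
      rw [map_one]
      simp only [N.mul_def, MulAut.one_apply]
      ext i j
      · simp
      · simp [B_smul_right, B_neg_right]
        rw [B_comm X W]
        linear_combination hW
      · simp
      · simp
        ring
      · simp
        ring
      · simp
        linear_combination (b * W i j) * haa
  · -- use `y`
    have hd : (1 - X.det) * (1 - X.det) = 1 := by
      have : ∀ d : ZMod 3, d ≠ 1 → (1 - d) * (1 - d) = 1 := by decide
      exact this _ hX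
    refine ⟨⟨⟨0, 0, 1 - X.det, 0, (a * (1 - X.det)) • X, 0⟩, 1⟩, conj_inl _ _ _ _ ?_⟩
    rw [map_one]
    simp only [N.mul_def, MulAut.one_apply]
    ext i j
    · simp
    · simp [B_smul_right, B_self, B_zero_left]
      linear_combination (-a) * hd
    · simp
      ring
    · simp
    · simp
      ring
    · simp
      linear_combination (-(1 - X.det) * X i j) * haa



lemma G_mul (m n : N) (g h : SL) : (⟨m, g⟩ : G) * ⟨n, h⟩ = ⟨m * act g n, g * h⟩ := rfl

lemma reduce (g : SL) (hs : ∀ T : M, ∃ S : M, rho g S - S = T) (n : N) :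
    ∃ (c : G) (z0 : ZMod 3), c * (⟨n, g⟩ : G) = (⟨⟨n.a, z0, n.b, 0, 0, 0⟩, g⟩ : G) * c := by
  obtain ⟨X', hX⟩ := hs n.X
  obtain ⟨Y', hY⟩ := hs n.Y
  obtain ⟨Z', hZ⟩ := hs (n.Z - n.a • rho g Y' - n.b • rho g X')
  refine ⟨⟨⟨0, 0, 0, X', Y', Z'⟩, 1⟩, n.z + B X' n.Y, ?_⟩
  rw [G_mul, G_mul, one_mul, mul_one, map_one]
  congr 1
  simp only [MulAut.one_apply, act_apply, N.mul_def]
  ext i j
  · simp
  · simp [B_zero_left]
  · simp
  · simp [← hX]
  · simp [← hY]
  · have := congrFun (congrFun hZ i) j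
    simp only [Matrix.sub_apply, Matrix.smul_apply, smul_eq_mul] at this
    simp
    linear_combination (-1) * this

lemma L0_mul (a z b a' z' b' : ZMod 3) (g h : SL) :
    (⟨⟨a, z, b, 0, 0, 0⟩, g⟩ : G) * ⟨⟨a', z', b', 0, 0, 0⟩, h⟩ =
      ⟨⟨a + a', z + (z' + chi g * a') - a ^ 2 * a' - a * a' ^ 2 + a * b', b + b', 0, 0, 0⟩,
        g * h⟩ := by
  rw [G_mul]
  congr 1
  simp only [act_apply, N.mul_def, rho_zero]
  ext i j <;> simp [B_zero_left]

lemma L0_pow (a z b : ZMod 3) (g : SL) :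
    (⟨⟨a, z, b, 0, 0, 0⟩, g⟩ : G) ^ 7 = ⟨⟨a, z - a, b, 0, 0, 0⟩, g ^ 7⟩ := by
  simp only [pow_succ, pow_zero, one_mul, L0_mul, chi_mul]
  generalize chi g = k
  congr 1
  ext i j
  · revert a z b k; decide +kernel
  · revert a z b k; decide +kernel
  · revert a z b k; decide +kernel
  · rfl
  · rfl
  · rfl

lemma case_even (n : N) (g : SL) (hs : ∀ T : M, ∃ S : M, rho g S - S = T)
    (hh : ∃ h : SL, chi h = 0 ∧ h * g = g ^ 7 * h) :
    ∃ c : G, c * ⟨n, g⟩ = (⟨n, g⟩ : G) ^ 7 * c := by
  obtain ⟨c, z0, hc⟩ := reduce g hs n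
  obtain ⟨h, hh0, hh⟩ := hh
  set x : G := ⟨n, g⟩
  set x0 : G := ⟨⟨n.a, z0, n.b, 0, 0, 0⟩, g⟩ with hx0
  let d : G := ⟨⟨0, 0, 1, 0, 0, 0⟩, h⟩
  have hd : d * x0 = x0 ^ 7 * d := by
    rw [hx0, L0_pow, L0_mul, L0_mul, hh0, hh]
    congr 1
    ext i j
    · simp
    · simp
    · simp [add_comm]
    · rfl
    · rfl
    · rfl
  have hx : x = c⁻¹ * x0 * c := by
    rw [mul_assoc, ← hc, inv_mul_cancel_left]
  refine ⟨c⁻¹ * d * c, ?_⟩
  have hx7 : x ^ 7 = c⁻¹ * x0 ^ 7 * c := by
    rw [hx, ← inv_inv c, inv_inv c⁻¹]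
    simpa using (conj_pow (a := c⁻¹) (b := x0) (i := 7))
  rw [hx7, hx]
  calc c⁻¹ * d * c * (c⁻¹ * x0 * c) = c⁻¹ * (d * x0) * c := by group
    _ = c⁻¹ * (x0 ^ 7 * d) * c := by rw [hd]
    _ = c⁻¹ * x0 ^ 7 * c * (c⁻¹ * d * c) := by group

lemma SL_cases : ∀ g : SL, g = 1 ∨ g ^ 3 = -1 ∨ (g ^ 2 = -1 ∧ ∃ h : SL, chi h = 0 ∧
    h * g = g ^ 7 * h) ∨ (∃ h : SL, h * g = v * h) ∨ (∃ h : SL, h * g = v⁻¹ * h) := by
  decide +kernel

lemma rho_neg_one (T : M) : rho (-1) T = -T := by
  have : w (-1) = 1 := by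
    have : chi (-1) = 0 := by decide +kernel
    ext i j
    fin_cases i <;> fin_cases j <;> simp [w, this]
  simp [rho, this]

lemma surj_of_cube {g : SL} (hg : g ^ 3 = -1) (T : M) : ∃ S : M, rho g S - S = T := by
  refine ⟨T + rho g T + rho g (rho g T), ?_⟩
  have h : rho g (rho g (rho g T)) = -T := by
    rw [← rho_neg_one T, ← hg, pow_succ, pow_succ, pow_one, rho_mul, rho_mul]
  simp only [rho_add, h]
  ext i j
  simp
  generalize T i j = t
  generalize rho g T i j = t1
  generalize rho g (rho g T) i j = t2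
  revert t t1 t2
  decide +kernel

lemma surj_of_sq {g : SL} (hg : g ^ 2 = -1) (T : M) : ∃ S : M, rho g S - S = T := by
  refine ⟨T + rho g T, ?_⟩
  have h : rho g (rho g T) = -T := by
    rw [← rho_neg_one T, ← hg, pow_succ, pow_one, rho_mul]
  simp only [rho_add, h]
  ext i j
  simp
  generalize T i j = t
  generalize rho g T i j = t1
  revert t t1
  decide +kernel


lemma rho_v (T : M) : rho v T = !![T 0 0 + T 1 0, -T 0 0 - T 1 0 + T 0 1 + T 1 1;
    T 1 0, -T 1 0 + T 1 1] := by
  rw [rho, w_of_chi chi_v, v_inv_coe]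
  ext i j
  fin_cases i <;> fin_cases j <;>
    simp [v, Matrix.mul_apply, Matrix.vecMul, dotProduct, Fin.sum_univ_two]
  ring

lemma v_cube : v ^ 3 = 1 := by decide +kernel

lemma rho_v_cube (T : M) : rho v (rho v (rho v T)) = T := by
  conv_rhs => rw [← rho_one T, ← v_cube, pow_succ, pow_succ, pow_one, rho_mul, rho_mul]

/-- The cube of `n v`. -/
def cub (n : N) : N := ⟨0, n.a + 2 * B n.X (rho v n.Y) + B n.X (rho v (rho v n.Y)), 0,
  n.X + rho v n.X + rho v (rho v n.X), n.Y + rho v n.Y + rho v (rho v n.Y),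
  n.Z + rho v n.Z + rho v (rho v n.Z) + n.a • (rho v n.Y - rho v (rho v n.Y)) +
    n.b • (rho v n.X - rho v (rho v n.X))⟩

lemma cub_eq (n : N) : n * act v n * act (v * v) n = cub n := by
  have h1 : B (rho v n.X) (rho v (rho v n.Y)) = B n.X (rho v n.Y) := B_rho _ _ _
  simp only [act_apply, N.mul_def, rho_mul, chi_mul, chi_v, B_add_left, h1, cub]
  generalize B n.X (rho v n.Y) = t1
  generalize B n.X (rho v (rho v n.Y)) = t2
  ext i j
  · simp
    generalize n.a = a
    revert a; decide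
  · simp
    generalize n.a = a
    generalize n.b = b
    generalize n.z = z
    revert t1 t2 a b z
    decide +kernel
  · simp
    generalize n.b = a
    revert a; decide
  · simp
  · simp
  · simp
    generalize n.a = a
    generalize n.b = b
    generalize rho v n.Y i j = y1
    generalize rho v (rho v n.Y) i j = y2
    generalize rho v n.X i j = x1
    generalize rho v (rho v n.X) i j = x2
    have : ∀ a y1 y2 : ZMod 3, a * y1 + (a + a) * y2 = a * (y1 - y2) := by decide
    linear_combination this a y1 y2 + this b x1 x2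

lemma pow_seven_v (n : N) : (⟨n, v⟩ : G) ^ 7 = ⟨cub n * cub n * n, v⟩ := by
  have h3 : (⟨n, v⟩ : G) * ⟨n, v⟩ * ⟨n, v⟩ = ⟨cub n, 1⟩ := by
    rw [G_mul, G_mul, cub_eq]
    have : v * v * v = 1 := by decide +kernel
    rw [this]
  have : (⟨n, v⟩ : G) ^ 7 = (⟨n, v⟩ * ⟨n, v⟩ * ⟨n, v⟩) * (⟨n, v⟩ * ⟨n, v⟩ * ⟨n, v⟩) * ⟨n, v⟩ := by
    simp only [pow_succ, pow_zero, one_mul, mul_assoc]
  rw [this, h3, G_mul, G_mul]
  simp

lemma case_v_aux (n : N) (a' b' : ZMod 3) (K K' W : M) (hK : rho v K = K) (hK' : rho v K' = K')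
    (hW : rho v W - W = a' • n.Y + b' • n.X - n.a • K' - n.b • K)
    (hz : a' * (n.b - 1) - n.a * b' + B K n.Y - B n.X K' =
      -n.a - B n.X (rho v n.Y) + B n.X (rho v (rho v n.Y))) :
    ∃ c : G, c * ⟨n, v⟩ = (⟨n, v⟩ : G) ^ 7 * c := by
  refine ⟨⟨⟨a', 0, b', rho v n.X - n.X + K, rho v n.Y - n.Y + K',
    W + rho v n.Z - n.Z + n.a • rho v n.Y + n.b • rho v n.X⟩, 1⟩, ?_⟩
  rw [pow_seven_v, G_mul, G_mul, one_mul, mul_one, map_one, MulAut.one_apply]
  congr 1
  obtain ⟨a, z, b, X, Y, Z⟩ := n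
  simp only at hW hz ⊢
  have e1 : B (rho v X) (rho v (rho v Y)) = B X (rho v Y) := B_rho _ _ _
  have e2 : B (rho v (rho v X)) Y = B X (rho v Y) := by
    rw [← e1]
    conv_lhs => rw [← rho_v_cube Y]
    rw [B_rho]
  have e3 : B (rho v X) Y = B X (rho v (rho v Y)) := by
    conv_lhs => rw [← rho_v_cube Y]
    rw [B_rho]
  have e4 : B (rho v (rho v X)) (rho v Y) = B X (rho v (rho v Y)) := by
    rw [B_rho, e3]
  have e5 : B (rho v X) (rho v Y) = B X Y := B_rho _ _ _
  have e6 : B (rho v (rho v X)) (rho v (rho v Y)) = B X Y := by rw [B_rho, B_rho]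
  have e7 : B (rho v X) K' = B X K' := by
    conv_lhs => rw [← hK']
    rw [B_rho]
  have e8 : B (rho v (rho v X)) K' = B X K' := by
    conv_lhs => rw [← hK']
    rw [B_rho, e7]
  simp only [cub, N.mul_def, act_apply, B_add_left, B_add_right, B_sub_left, B_sub_right,
    rho_add, rho_sub, rho_smul, hK, hK', chi_v, e1, e2, e3, e4, e5, e6, e7, e8]
  ext i j
  · simp
    ring
  · simp only []
    generalize B X (rho v Y) = t1 at hz ⊢
    generalize B X (rho v (rho v Y)) = t2 at hz ⊢
    generalize B X Y = t0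
    generalize B K Y = k at hz ⊢
    generalize B X K' = k' at hz ⊢
    clear hW e1 e2 e3 e4 e5 e6 e7 e8
    have h3 : (3 : ZMod 3) = 0 := by decide
    linear_combination hz + (-2 * k' - a - 2 * t0 - 3 * t1 - 2 * t2) * h3
  · simp
    ring
  · simp
    generalize X i j = x0
    generalize rho v X i j = x1
    generalize rho v (rho v X) i j = x2
    generalize K i j = x3
    ring_nf
    reduce_mod_char
  · simp
    generalize Y i j = x0
    generalize rho v Y i j = x1
    generalize rho v (rho v Y) i j = x2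
    generalize K' i j = x3
    ring_nf
    reduce_mod_char
  · have := congrFun (congrFun hW i) j
    simp only [Matrix.sub_apply, Matrix.smul_apply, smul_eq_mul, Matrix.add_apply] at this
    simp
    rw [← sub_eq_zero] at this ⊢
    rw [← neg_eq_zero, ← this]
    ring_nf
    reduce_mod_char
    try ring


lemma solve : ∀ a b s t x y R : ZMod 3, (s = 0 → t = 0 → R = -a) →
    ∃ a' b' p q p' q' : ZMod 3, a' * t + b' * s = 0 ∧ a' * y + b' * x + a * p' + b * p = 0 ∧
      a' * (b - 1) - a * b' + p * y - q * t - p' * x + q' * s = R := by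
  intro a b s t x y R h
  by_cases hs : s = 0
  · by_cases ht : t = 0
    · obtain rfl := h hs ht
      subst hs ht
      by_cases ha : a = 0
      · subst ha
        exact ⟨0, 0, 0, 0, 0, 0, by simp⟩
      · have haa := sq_one a ha
        by_cases hx : x = 0
        · subst hx
          refine ⟨0, 1, 0, 0, 0, 0, ?_⟩
          simp
        · have hxx := sq_one x hx
          by_cases hy : y + a * b * x = 0
          · have hy' : y = -(a * b * x) := eq_neg_of_add_eq_zero_left hy
            subst hy'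
            refine ⟨a, 0, 0, 0, a * b * x, 0, ?_, ?_, ?_⟩
            · simp
            · ring
            · linear_combination (-a * b) * hxx
          · have hyy := sq_one _ hy
            refine ⟨0, 0, -a * (y + a * b * x), 0, b * (y + a * b * x), 0, ?_, ?_, ?_⟩
            · simp
            · ring
            · linear_combination (-a) * hyy + ((y + a * b * x) * b * x) * haa
    · have htt := sq_one t ht
      refine ⟨0, 0, 0, -(t * R), 0, 0, by simp, by simp, ?_⟩
      linear_combination R * htt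
  · have hss := sq_one s hs
    refine ⟨0, 0, 0, 0, 0, s * R, by simp, by simp, ?_⟩
    linear_combination R * hss


lemma case_v (n : N) : ∃ c : G, c * ⟨n, v⟩ = (⟨n, v⟩ : G) ^ 7 * c := by
  obtain ⟨a', b', p, q, p', q', h1, h2, h3⟩ := solve n.a n.b (n.X 1 0) (n.Y 1 0)
    (n.X 0 0 + n.X 1 1) (n.Y 0 0 + n.Y 1 1)
    (-n.a - B n.X (rho v n.Y) + B n.X (rho v (rho v n.Y))) (by
      intro hs ht
      have h1 : B n.X (rho v n.Y) = n.X 0 0 * n.Y 1 1 + n.X 1 1 * n.Y 0 0 := by
        simp [rho_v, B, hs, ht]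
      have h2 : B n.X (rho v (rho v n.Y)) = n.X 0 0 * n.Y 1 1 + n.X 1 1 * n.Y 0 0 := by
        simp [rho_v, B, hs, ht]
      rw [h1, h2]
      ring)
  set D : M := a' • n.Y + b' • n.X - n.a • !![p', q'; 0, p'] - n.b • !![p, q; 0, p] with hD
  have hD10 : D 1 0 = 0 := by
    simp [hD]
    linear_combination h1
  have hD11 : D 1 1 = - D 0 0 := by
    have three : (3 : ZMod 3) = 0 := by decide
    simp [hD]
    linear_combination h2 - (n.a * p' + n.b * p) * three
  refine case_v_aux n a' b' !![p, q; 0, p] !![p', q'; 0, p']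
    !![0, 0; D 0 0, D 0 1 + D 0 0] ?_ ?_ ?_ ?_
  · rw [rho_v]
    ext i j
    fin_cases i <;> fin_cases j <;> simp
  · rw [rho_v]
    ext i j
    fin_cases i <;> fin_cases j <;> simp
  · rw [← hD, rho_v]
    ext i j
    fin_cases i <;> fin_cases j <;> simp [hD10, hD11]
  · rw [← h3]
    simp [B]
    ring

lemma good_of_conj {x y c : G} (hc : c * x = y * c) (hy : ∃ d : G, d * y = y ^ 7 * d) :
    ∃ d : G, d * x = x ^ 7 * d := by
  obtain ⟨d, hd⟩ := hy
  have hx : x = c⁻¹ * y * c := by
    rw [mul_assoc, ← hc, inv_mul_cancel_left]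
  have hx7 : x ^ 7 = c⁻¹ * y ^ 7 * c := by
    rw [hx]
    simpa using (conj_pow (a := c⁻¹) (b := y) (i := 7))
  refine ⟨c⁻¹ * d * c, ?_⟩
  rw [hx7, hx]
  calc c⁻¹ * d * c * (c⁻¹ * y * c) = c⁻¹ * (d * y) * c := by group
    _ = c⁻¹ * (y ^ 7 * d) * c := by rw [hd]
    _ = c⁻¹ * y ^ 7 * c * (c⁻¹ * d * c) := by group

lemma good_of_inv {x : G} (hy : ∃ d : G, d * x⁻¹ = (x⁻¹) ^ 7 * d) :
    ∃ d : G, d * x = x ^ 7 * d := by
  obtain ⟨d, hd⟩ := hy
  refine ⟨d, ?_⟩
  have h : d * x⁻¹ * d⁻¹ = (x⁻¹) ^ 7 := by rw [hd]; group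
  have h' : d * x * d⁻¹ = x ^ 7 := by
    have := congrArg (·⁻¹) h
    simpa [mul_assoc] using this
  rw [← h']
  group

/-- Every element of `G` is conjugate to its seventh power. -/
theorem good (x : G) : ∃ c : G, c * x = x ^ 7 * c := by
  obtain ⟨n, g⟩ := x
  rcases SL_cases g with hg | hg | ⟨hg, hh⟩ | ⟨h, hh⟩ | ⟨h, hh⟩
  · subst hg
    obtain ⟨c, hc⟩ := case_one n
    refine ⟨c, ?_⟩
    have h1 : (⟨n, 1⟩ : G) = inl n := rfl
    rw [h1, ← map_pow]
    exact hc
  · apply case_even n g (surj_of_cube hg)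
    refine ⟨1, chi_one, ?_⟩
    have : g ^ 7 = g := by
      have : g ^ 7 = (g ^ 3) * (g ^ 3) * g := by
        rw [← pow_add, ← pow_succ]
      rw [this, hg]
      simp
    rw [this]
    simp
  · exact case_even n g (surj_of_sq hg) hh
  · apply good_of_conj (x := ⟨n, g⟩) (y := ⟨act h n, v⟩) (c := inr h) _ (case_v _)
    ext1
    · simp
    · simpa using hh
  · apply good_of_inv
    have h1 : (⟨n, g⟩ : G)⁻¹ = ⟨act g⁻¹ n⁻¹, g⁻¹⟩ := rfl
    rw [h1]
    apply good_of_conj (y := ⟨act h (act g⁻¹ n⁻¹), v⟩) (c := inr h) _ (case_v _)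
    ext1
    · simp
    · simp
      have : h * g * g⁻¹ = v⁻¹ * h * g⁻¹ := by rw [hh]
      rw [mul_inv_cancel_right] at this
      conv_rhs => rw [this]
      group


lemma a_pow (x : G) (k : ℕ) : (x ^ k).left.a = k * x.left.a := by
  induction k with
  | zero => simp [N.one_def]
  | succ k ih =>
    rw [pow_succ]
    have : (x ^ k * x).left.a = (x ^ k).left.a + x.left.a := rfl
    rw [this, ih]
    push_cast
    ring

lemma SL_exp : ∀ g : SL, g ^ 12 = 1 := by decide +kernel

lemma cube_inl_of_a {m : N} (h : m.a = 0) : m ^ 3 = 1 := by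
  have : m ^ 3 = m * m * m := by simp only [pow_succ, pow_zero, one_mul]
  rw [this, N.cube, h]
  rfl

lemma eq_inl {x : G} (h : x.right = 1) : x = inl x.left := by
  ext1
  · rfl
  · simp [h]

lemma exp36 (x : G) : x ^ 36 = 1 := by
  have h1 : (x ^ 12).right = 1 := by
    have : (x ^ 12).right = x.right ^ 12 := map_pow rightHom x 12
    rw [this, SL_exp]
  have h2 : (x ^ 12).left.a = 0 := by
    rw [a_pow]
    have : ((12 : ℕ) : ZMod 3) = 0 := by decide
    rw [this, zero_mul]
  have h3 : x ^ 36 = (x ^ 12) ^ 3 := by rw [← pow_mul]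
  rw [h3, eq_inl h1, ← map_pow, cube_inl_of_a h2, map_one]

lemma isConj_seven (x : G) : IsConj x (x ^ 7) := by
  obtain ⟨c, hc⟩ := good x
  rw [isConj_iff]
  exact ⟨c, by rw [hc, mul_inv_cancel_right]⟩

lemma isConj_seven_pow (x : G) (i : ℕ) : IsConj x (x ^ (7 ^ i)) := by
  induction i with
  | zero =>
    rw [pow_zero, pow_one]
  | succ i ih =>
    rw [pow_succ, pow_mul]
    exact ih.trans (isConj_seven _)

lemma arith : ∀ o ∈ Nat.divisors 36, ∀ k < 36, Nat.Coprime o k →
    ∃ i < 6, k % o = 7 ^ i % o ∨ (k + 7 ^ i) % o = 0 := by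
  decide +kernel

/-- `G` is a cut group. -/
theorem G_cut (x y : G) (h : Subgroup.zpowers y = Subgroup.zpowers x) :
    IsConj y x ∨ IsConj y x⁻¹ := by
  classical
  have ho : orderOf y = orderOf x := by
    rw [← Nat.card_zpowers, ← Nat.card_zpowers, h]
  have hd : orderOf x ∣ 36 := orderOf_dvd_of_pow_eq_one (exp36 x)
  have hpos : 0 < orderOf x := orderOf_pos x
  have hle : orderOf x ≤ 36 := Nat.le_of_dvd (by norm_num) hd
  have hy : y ∈ Subgroup.zpowers x := by
    rw [← h]
    exact Subgroup.mem_zpowers y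
  rw [← mem_powers_iff_mem_zpowers, (isOfFinOrder_of_finite x).mem_powers_iff_mem_range_orderOf]
    at hy
  obtain ⟨k, hk, hky⟩ := Finset.mem_image.1 hy
  rw [Finset.mem_range] at hk
  have hcop : Nat.Coprime (orderOf x) k := by
    rcases Nat.eq_zero_or_pos k with rfl | hk0
    · rw [pow_zero] at hky
      rw [← hky, orderOf_one] at ho
      rw [← ho]
      simp
    · have h1 : orderOf y = orderOf x / Nat.gcd (orderOf x) k := by
        rw [← hky]
        exact orderOf_pow' x hk0.ne'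
      rw [ho] at h1
      have h2 : Nat.gcd (orderOf x) k ∣ orderOf x := Nat.gcd_dvd_left _ _
      have h3 : 0 < Nat.gcd (orderOf x) k := Nat.gcd_pos_of_pos_left _ hpos
      have h4 : Nat.gcd (orderOf x) k * (orderOf x / Nat.gcd (orderOf x) k) = orderOf x :=
        Nat.mul_div_cancel' h2
      rw [← h1] at h4
      have : Nat.gcd (orderOf x) k = 1 := by
        exact Nat.eq_of_mul_eq_mul_right hpos (by rw [h4, one_mul])
      exact this
  obtain ⟨i, -, hi⟩ := arith (orderOf x) (Nat.mem_divisors.2 ⟨hd, by norm_num⟩) k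
    (lt_of_lt_of_le hk hle) hcop
  rcases hi with hi | hi
  · left
    have : y = x ^ (7 ^ i) := by
      rw [← hky]
      exact pow_eq_pow_iff_modEq.2 hi
    rw [this]
    exact (isConj_seven_pow x i).symm
  · right
    have h1 : y * x ^ (7 ^ i) = 1 := by
      rw [← hky, ← pow_add]
      exact orderOf_dvd_iff_pow_eq_one.1 (Nat.dvd_of_mod_eq_zero hi)
    have h2 : y = (x ^ (7 ^ i))⁻¹ := eq_inv_of_mul_eq_one_left h1
    obtain ⟨c, hc⟩ := isConj_iff.1 (isConj_seven_pow x i).symm
    rw [h2, isConj_iff]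
    refine ⟨c, ?_⟩
    have := congrArg (·⁻¹) hc
    simpa [mul_assoc] using this

/-- a generator of another Sylow `3`-subgroup of `SL₂(3)` -/
def q2 : SL := ⟨!![1, 0; 1, 1], by simp [Matrix.det_fin_two]⟩

lemma q2_cube : q2 ^ 3 = 1 := by decide +kernel

/-- The preimage in `G` of the subgroup generated by `q2`. -/
def H : Subgroup G := (Subgroup.zpowers q2).comap rightHom

lemma H_isPGroup : IsPGroup 3 H := by
  rintro ⟨x, hx⟩
  refine ⟨3, ?_⟩
  apply Subtype.ext
  have h1 : x.right ^ 3 = 1 := by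
    have : x.right ∈ Subgroup.zpowers q2 := hx
    obtain ⟨k, hk⟩ := Subgroup.mem_zpowers_iff.1 this
    rw [← hk, ← zpow_natCast, ← zpow_mul, mul_comm, zpow_mul]
    have : q2 ^ ((3 : ℕ) : ℤ) = 1 := by rw [zpow_natCast, q2_cube]
    rw [this, one_zpow]
  have h2 : (x ^ 3).right = 1 := by
    have : (x ^ 3).right = x.right ^ 3 := map_pow rightHom x 3
    rw [this, h1]
  have h3 : ∀ m : N, m ^ 9 = 1 := by
    intro m
    have : m ^ 9 = (m ^ 3) ^ 3 := by rw [← pow_mul]
    rw [this]
    apply cube_inl_of_a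
    have : m ^ 3 = m * m * m := by simp only [pow_succ, pow_zero, one_mul]
    rw [this, N.cube]
  show x ^ 3 ^ 3 = 1
  have h4 : x ^ 3 ^ 3 = (x ^ 3) ^ 9 := by
    rw [← pow_mul]
    norm_num
  rw [h4, eq_inl h2, ← map_pow, h3, map_one]

lemma SL_sub : ∀ g : SL, g ^ 3 = 1 → (g * q2) ^ 3 = 1 → (g * q2 * q2) ^ 3 = 1 →
    g = 1 ∨ (g.1 * 1 * w g ≠ 1) := by
  decide +kernel

lemma cube_of_pgroup {g : SL} {k : ℕ} (h : g ^ 3 ^ k = 1) : g ^ 3 = 1 := by
  have h1 : orderOf g ∣ 3 ^ k := orderOf_dvd_of_pow_eq_one h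
  have h2 : orderOf g ∣ 4 * 3 := orderOf_dvd_of_pow_eq_one (SL_exp g)
  have h3 : Nat.Coprime (orderOf g) 4 :=
    Nat.Coprime.coprime_dvd_left h1 (Nat.Coprime.pow_left k (by norm_num))
  exact orderOf_dvd_iff_pow_eq_one.1 (h3.dvd_of_dvd_mul_left h2)


/-- the element witnessing that a Sylow `3`-subgroup is not a cut group -/
def n0 : N := ⟨1, 0, 0, 1, 0, 0⟩

lemma n0_pow : n0 ^ 4 = ⟨1, 1, 0, 1, 0, 0⟩ := by
  have : n0 ^ 4 = n0 * n0 * n0 * n0 := by simp only [pow_succ, pow_zero, one_mul]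
  rw [this, N.cube]
  simp only [N.mul_def, n0]
  ext i j <;> simp [B_zero_left]

lemma n0_conj {c : G} (hc : (c * inl (n0 ^ 4) = inl n0 * c)) :
    c.right.1 * 1 * w c.right = 1 ∧ c.right ≠ 1 := by
  obtain ⟨m, g⟩ := c
  rw [n0_pow] at hc
  have hl : m * act g ⟨1, 1, 0, 1, 0, 0⟩ = n0 * m := by
    have := congrArg SemidirectProduct.left hc
    simpa using this
  have hX : rho g 1 = 1 := by
    have := congrArg N.X hl
    simp only [act_apply, N.mul_def, n0] at this
    rw [add_comm] at this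
    exact add_right_cancel this
  refine ⟨hX, ?_⟩
  rintro (rfl : g = 1)
  have hz := congrArg N.z hl
  have hZ := congrArg N.Z hl
  simp only [act_apply, N.mul_def, n0, rho_one, rho_zero, chi_one] at hz hZ
  have hY : m.Y = m.b • (1 : M) := by
    ext i j
    have := congrFun (congrFun hZ i) j
    simp at this ⊢
    linear_combination (-1) * this
  have hB : B 1 m.Y = m.b * 2 := by
    rw [hY, B_smul_right]
    congr 1
  rw [hB] at hz
  rw [B_zero_right] at hz
  have three : (3 : ZMod 3) = 0 := by decide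
  have : (1 : ZMod 3) = 0 := by
    linear_combination hz + m.b * three
  exact absurd this (by decide)


/-- The negation of the preceding statement: For every finite group G in which each generator of every cyclic subgroup ⟨x⟩ is conjugate to x or x⁻¹, every Sylow 3-subgroup P has the same property, with conjugacy taken inside P. -/
theorem result :
    ¬ (∀ (G : Type) [Group G] [Finite G],
      (∀ x y : G, Subgroup.zpowers y = Subgroup.zpowers x → IsConj y x ∨ IsConj y x⁻¹) →
      ∀ P : Sylow 3 G,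
        ∀ x y : ↥(P : Subgroup G),
          Subgroup.zpowers y = Subgroup.zpowers x → IsConj y x ∨ IsConj y x⁻¹) := by
  intro hall
  obtain ⟨P, hP⟩ := H_isPGroup.exists_le_sylow
  have hx : (inl n0 : G) ∈ (P : Subgroup G) := hP (by
    show rightHom (inl n0 : G) ∈ Subgroup.zpowers q2
    rw [rightHom_inl]
    exact one_mem _)
  have hq : (inr q2 : G) ∈ (P : Subgroup G) := hP (by
    show rightHom (inr q2 : G) ∈ Subgroup.zpowers q2
    rw [rightHom_inr]
    exact Subgroup.mem_zpowers _)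
  let x : ↥(P : Subgroup G) := ⟨inl n0, hx⟩
  have hx27 : x ^ 27 = 1 := by
    apply Subtype.ext
    show (inl n0 : G) ^ 27 = 1
    have : n0 ^ 27 = 1 := by
      have h1 : n0 ^ 27 = ((n0 ^ 3) ^ 3) ^ 3 := by rw [← pow_mul, ← pow_mul]
      have h2 : (n0 ^ 3) ^ 3 = 1 := by
        apply cube_inl_of_a
        have : n0 ^ 3 = n0 * n0 * n0 := by simp only [pow_succ, pow_zero, one_mul]
        rw [this, N.cube]
      rw [h1, h2, one_pow]
    rw [← map_pow, this, map_one]
  have hzp : Subgroup.zpowers (x ^ 4) = Subgroup.zpowers x := by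
    apply le_antisymm
    · rw [Subgroup.zpowers_le]
      exact Subgroup.pow_mem _ (Subgroup.mem_zpowers x) 4
    · rw [Subgroup.zpowers_le]
      have e : (x ^ 4) ^ 7 = x := by
        rw [← pow_mul]
        have : x ^ (4 * 7) = x ^ 27 * x := by rw [← pow_succ]
        rw [this, hx27, one_mul]
      exact Subgroup.mem_zpowers_iff.2 ⟨7, by exact_mod_cast e⟩
  have key : ∀ c : ↥(P : Subgroup G), (c : G).right ^ 3 = 1 := by
    intro c
    obtain ⟨k, hk⟩ := P.isPGroup' c
    apply cube_of_pgroup (k := k)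
    have h1 : ((c : G) ^ 3 ^ k) = 1 := by
      have := congrArg (Subtype.val) hk
      rwa [Subgroup.coe_pow, Subgroup.coe_one] at this
    have h2 : ((c : G) ^ 3 ^ k).right = (c : G).right ^ 3 ^ k := map_pow rightHom _ _
    rw [← h2, h1]
    rfl
  rcases hall G G_cut P x (x ^ 4) hzp with hc | hc
  · obtain ⟨c, hc⟩ := isConj_iff.1 hc
    have hc' : (c : G) * inl (n0 ^ 4) = inl n0 * (c : G) := by
      have h1 : (c : G) * (inl n0) ^ 4 * (c : G)⁻¹ = inl n0 := congrArg Subtype.val hc
      rw [map_pow]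
      exact mul_inv_eq_iff_eq_mul.1 h1
    obtain ⟨h1, h2⟩ := n0_conj hc'
    have k1 := key c
    have k2 := key (c * ⟨inr q2, hq⟩)
    have k3 := key (c * ⟨inr q2, hq⟩ * ⟨inr q2, hq⟩)
    simp only [Subgroup.coe_mul, SemidirectProduct.mul_right, right_inr] at k2 k3
    rcases SL_sub _ k1 k2 k3 with h | h
    · exact h2 h
    · exact h h1
  · obtain ⟨c, hc⟩ := isConj_iff.1 hc
    have h1 : (c : G) * (inl n0) ^ 4 * (c : G)⁻¹ = (inl n0)⁻¹ := congrArg Subtype.val hc
    have h2 : (c : G) * (inl n0) ^ 4 = (inl n0)⁻¹ * (c : G) := mul_inv_eq_iff_eq_mul.1 h1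
    have h3 := congrArg (fun t : G => t.left.a) h2
    have h4 : ((inl n0 : G) ^ 4).left.a = 1 := by
      rw [a_pow]
      decide
    have e1 : ((c : G) * (inl n0) ^ 4).left.a = (c : G).left.a + ((inl n0 : G) ^ 4).left.a := rfl
    have e2 : ((inl n0 : G)⁻¹ * (c : G)).left.a = -1 + (c : G).left.a := rfl
    simp only [e1, e2, h4] at h3
    have : (1 : ZMod 3) = -1 := by linear_combination h3
    exact absurd this (by decide)

end Pool.Agent.S02730
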