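import Pool.Statements.S03428

set_option autoImplicit false
open scoped TensorProduct
open Pool Pool.MP_e9d015_al

namespace Pool.Agent.S03428

section Deletion

variable {α : Type*}

/-- Del m w: the word w can be brought to the empty word by deleting letters, the multiset of the
deleted letters being m, and cancelling adjacent pairs of mutually inverse letters. -/
inductive Del : Multiset (α × Bool) → List (α × Bool) → Prop
  | nil : Del 0 []
  | del (u v : List (α × Bool)) (l : α × Bool) (m : Multiset (α × Bool)) :
      Del m (u ++ v) → Del (l ::ₘ m) (u ++ l :: v)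
  | can (u v : List (α × Bool)) (x : α) (b : Bool) (m : Multiset (α × Bool)) :
      Del m (u ++ v) → Del m (u ++ (x, b) :: (x, !b) :: v)

theorem split_one {β : Type*} {u₀ v₀ u v : List β} {l₀ l : β}
    (h : u₀ ++ l₀ :: v₀ = u ++ l :: v) :
    (u₀ = u ∧ l₀ = l ∧ v₀ = v) ∨ (∃ r, u₀ = u ++ l :: r ∧ v = r ++ l₀ :: v₀) ∨
      (∃ r, u = u₀ ++ l₀ :: r ∧ v₀ = r ++ l :: v) := by
  rw [List.append_eq_append_iff] at h
  rcases h with ⟨a, h1, h2⟩ | ⟨a, h1, h2⟩
  · cases a with
    | nil =>
      left
      simp only [List.append_nil, List.nil_append, List.cons.injEq] at h1 h2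
      exact ⟨h1.symm, h2.1, h2.2⟩
    | cons a r =>
      right; right
      simp only [List.cons_append, List.cons.injEq] at h2
      refine ⟨r, ?_, h2.2⟩
      rw [h1, h2.1]
  · cases a with
    | nil =>
      left
      simp only [List.append_nil, List.nil_append, List.cons.injEq] at h1 h2
      exact ⟨h1, h2.1.symm, h2.2.symm⟩
    | cons a r =>
      right; left
      simp only [List.cons_append, List.cons.injEq] at h2
      refine ⟨r, ?_, h2.2⟩
      rw [h1, h2.1]

theorem Del.del' {w : List (α × Bool)} {m m' : Multiset (α × Bool)} (u v : List (α × Bool))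
    (l : α × Bool) (h : Del m (u ++ v)) (hw : w = u ++ l :: v) (hm : m' = l ::ₘ m) :
    Del m' w := by
  subst hw hm
  exact Del.del u v l m h

theorem Del.can' {w : List (α × Bool)} {m : Multiset (α × Bool)} (u v : List (α × Bool))
    (x : α) (b : Bool) (h : Del m (u ++ v)) (hw : w = u ++ (x, b) :: (x, !b) :: v) :
    Del m w := by
  subst hw
  exact Del.can u v x b m h

theorem Del.cast {w w' : List (α × Bool)} {m m' : Multiset (α × Bool)} (h : Del m w)
    (hw : w = w') (hm : m = m') : Del m' w' := by
  subst hw hm
  exact h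

/-- A letter of the word is either deleted, or its partner can be deleted instead. -/
theorem Del.transfer {m : Multiset (α × Bool)} {w : List (α × Bool)} (h : Del m w) :
    ∀ (u : List (α × Bool)) (x : α) (b : Bool) (v : List (α × Bool)), w = u ++ (x, b) :: v →
      Del ((x, !b) ::ₘ m) (u ++ v) ∨ ∃ m1, m = (x, b) ::ₘ m1 ∧ Del m1 (u ++ v) := by
  induction h with
  | nil =>
    intro u x b v hw
    simp at hw
  | del u₀ v₀ l₀ m₀ h₀ ih =>
    intro u x b v hw
    rcases split_one hw with ⟨rfl, rfl, rfl⟩ | ⟨r, rfl, rfl⟩ | ⟨r, rfl, rfl⟩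
    · exact Or.inr ⟨m₀, rfl, h₀⟩
    · rcases ih u x b (r ++ v₀) (by simp) with h1 | ⟨m1, hm1, h1⟩
      · left
        exact Del.del' (u ++ r) v₀ l₀ (h1.cast (by simp) rfl) (by simp)
          (Multiset.cons_swap _ _ _)
      · right
        refine ⟨l₀ ::ₘ m1, by rw [hm1, Multiset.cons_swap], ?_⟩
        exact Del.del' (u ++ r) v₀ l₀ (h1.cast (by simp) rfl) (by simp) rfl
    · rcases ih (u₀ ++ r) x b v (by simp) with h1 | ⟨m1, hm1, h1⟩
      · left
        exact Del.del' u₀ (r ++ v) l₀ (h1.cast (by simp) rfl) (by simp)
          (Multiset.cons_swap _ _ _)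
      · right
        refine ⟨l₀ ::ₘ m1, by rw [hm1, Multiset.cons_swap], ?_⟩
        exact Del.del' u₀ (r ++ v) l₀ (h1.cast (by simp) rfl) (by simp) rfl
  | can u₀ v₀ y c m₀ h₀ ih =>
    intro u x b v hw
    rcases split_one hw with ⟨rfl, h2, rfl⟩ | ⟨r, rfl, rfl⟩ | ⟨r, rfl, hr⟩
    · obtain ⟨rfl, rfl⟩ := Prod.mk.inj h2
      left
      exact Del.del' u₀ v₀ (y, !c) h₀ rfl rfl
    · rcases ih u x b (r ++ v₀) (by simp) with h1 | ⟨m1, hm1, h1⟩
      · left
        exact Del.can' (u ++ r) v₀ y c (h1.cast (by simp) rfl) (by simp)
      · right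
        refine ⟨m1, hm1, ?_⟩
        exact Del.can' (u ++ r) v₀ y c (h1.cast (by simp) rfl) (by simp)
    · cases r with
      | nil =>
        simp only [List.nil_append, List.cons.injEq] at hr
        obtain ⟨h2, rfl⟩ := hr
        obtain ⟨rfl, rfl⟩ := Prod.mk.inj h2
        left
        exact Del.del' u₀ v₀ (y, c) h₀ (by simp) (by simp)
      | cons a r =>
        simp only [List.cons_append, List.cons.injEq] at hr
        obtain ⟨rfl, rfl⟩ := hr
        rcases ih (u₀ ++ r) x b v (by simp) with h1 | ⟨m1, hm1, h1⟩
        · left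
          exact Del.can' u₀ (r ++ v) y c (h1.cast (by simp) rfl) (by simp)
        · right
          refine ⟨m1, hm1, ?_⟩
          exact Del.can' u₀ (r ++ v) y c (h1.cast (by simp) rfl) (by simp)

/-- Cancelling a pair of mutually inverse letters keeps the deletion property, up to removing an
inverse pair from the multiset. -/
theorem Del.step {m : Multiset (α × Bool)} {w : List (α × Bool)} (h : Del m w) :
    ∀ (u : List (α × Bool)) (x : α) (b : Bool) (v : List (α × Bool)),
      w = u ++ (x, b) :: (x, !b) :: v →
      Del m (u ++ v) ∨ ∃ m1, m = (x, b) ::ₘ (x, !b) ::ₘ m1 ∧ Del m1 (u ++ v) := by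
  induction h with
  | nil =>
    intro u x b v hw
    simp at hw
  | del u₀ v₀ l₀ m₀ h₀ ih =>
    intro u x b v hw
    rcases split_one hw with ⟨rfl, rfl, rfl⟩ | ⟨r, rfl, hr⟩ | ⟨r, rfl, rfl⟩
    · rcases h₀.transfer u₀ x (!b) v rfl with h1 | ⟨m1, hm1, h1⟩
      · left
        exact h1.cast rfl (by simp)
      · right
        exact ⟨m1, by rw [hm1], h1⟩
    · cases r with
      | nil =>
        simp only [List.nil_append, List.cons.injEq] at hr
        obtain ⟨rfl, rfl⟩ := hr
        rcases h₀.transfer u x b v (by simp) with h1 | ⟨m1, hm1, h1⟩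
        · left
          exact h1
        · right
          exact ⟨m1, by rw [hm1, Multiset.cons_swap], h1⟩
      | cons a r =>
        simp only [List.cons_append, List.cons.injEq] at hr
        obtain ⟨rfl, rfl⟩ := hr
        rcases ih u x b (r ++ v₀) (by simp) with h1 | ⟨m1, hm1, h1⟩
        · left
          exact Del.del' (u ++ r) v₀ l₀ (h1.cast (by simp) rfl) (by simp) rfl
        · right
          refine ⟨l₀ ::ₘ m1, ?_, Del.del' (u ++ r) v₀ l₀ (h1.cast (by simp) rfl) (by simp) rfl⟩
          rw [hm1, Multiset.cons_swap, Multiset.cons_swap l₀]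
    · rcases ih (u₀ ++ r) x b v (by simp) with h1 | ⟨m1, hm1, h1⟩
      · left
        exact Del.del' u₀ (r ++ v) l₀ (h1.cast (by simp) rfl) (by simp) rfl
      · right
        refine ⟨l₀ ::ₘ m1, ?_, Del.del' u₀ (r ++ v) l₀ (h1.cast (by simp) rfl) (by simp) rfl⟩
        rw [hm1, Multiset.cons_swap, Multiset.cons_swap l₀]
  | can u₀ v₀ y c m₀ h₀ ih =>
    intro u x b v hw
    rcases split_one hw with ⟨rfl, h2, h3⟩ | ⟨r, rfl, hr⟩ | ⟨r, rfl, hr⟩
    · left
      simp only [List.cons.injEq] at h3
      obtain ⟨-, rfl⟩ := h3
      exact h₀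
    · cases r with
      | nil =>
        simp only [List.nil_append, List.cons.injEq] at hr
        obtain ⟨h2, rfl⟩ := hr
        obtain ⟨rfl, rfl⟩ := Prod.mk.inj h2
        left
        exact h₀.cast (by simp) rfl
      | cons a r =>
        simp only [List.cons_append, List.cons.injEq] at hr
        obtain ⟨rfl, rfl⟩ := hr
        rcases ih u x b (r ++ v₀) (by simp) with h1 | ⟨m1, hm1, h1⟩
        · left
          exact Del.can' (u ++ r) v₀ y c (h1.cast (by simp) rfl) (by simp)
        · right
          exact ⟨m1, hm1, Del.can' (u ++ r) v₀ y c (h1.cast (by simp) rfl) (by simp)⟩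
    · cases r with
      | nil =>
        simp only [List.nil_append, List.cons.injEq] at hr
        obtain ⟨h2, rfl⟩ := hr
        obtain ⟨rfl, rfl⟩ := Prod.mk.inj h2
        left
        exact h₀.cast (by simp) rfl
      | cons a r =>
        simp only [List.cons_append, List.cons.injEq] at hr
        obtain ⟨rfl, rfl⟩ := hr
        rcases ih (u₀ ++ r) x b v (by simp) with h1 | ⟨m1, hm1, h1⟩
        · left
          exact Del.can' u₀ (r ++ v) y c (h1.cast (by simp) rfl) (by simp)
        · right
          exact ⟨m1, hm1, Del.can' u₀ (r ++ v) y c (h1.cast (by simp) rfl) (by simp)⟩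

/-- Free reduction keeps the deletion property within a family of multisets closed under removing
inverse pairs. -/
theorem Del.red {K : Multiset (α × Bool) → Prop}
    (hK : ∀ m x b m1, K m → m = (x, b) ::ₘ (x, !b) ::ₘ m1 → K m1)
    {w w' : List (α × Bool)} (hr : FreeGroup.Red w w') :
    ∀ m, K m → Del m w → ∃ m', K m' ∧ Del m' w' := by
  induction hr with
  | refl => exact fun m h1 h2 => ⟨m, h1, h2⟩
  | tail _ hs ih =>
    intro m h1 h2
    obtain ⟨m', h3, h4⟩ := ih m h1 h2
    cases hs with
    | not =>
      rename_i L₁ L₂ x b _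
      rcases h4.step L₁ x b L₂ rfl with h5 | ⟨m1, h5, h6⟩
      · exact ⟨m', h3, h5⟩
      · exact ⟨m1, hK m' x b m1 h3 h5, h6⟩

theorem Del.insert_pair {m : Multiset (α × Bool)} (u : List (α × Bool)) :
    ∀ (a v : List (α × Bool)), Del m (a ++ v) → Del m (a ++ (u ++ (FreeGroup.invRev u ++ v))) := by
  induction u with
  | nil => intro a v h; simpa using h
  | cons l u ih =>
    intro a v h
    have h1 : Del m ((a ++ [l]) ++ ((l.1, !l.2) :: v)) := by
      refine Del.can' a v l.1 l.2 h ?_
      simp
    have h2 := ih (a ++ [l]) ((l.1, !l.2) :: v) h1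
    refine h2.cast ?_ rfl
    simp [FreeGroup.invRev]

/-- A product of conjugates of letters is represented by a word with the deletion property. -/
theorem exists_word (q : List (FreeGroup α × (α × Bool))) :
    ∃ w : List (α × Bool),
      FreeGroup.mk w = (q.map fun p => p.1 * FreeGroup.mk [p.2] * p.1⁻¹).prod ∧
      Del (↑(q.map Prod.snd) : Multiset (α × Bool)) w := by
  classical
  induction q with
  | nil => exact ⟨[], rfl, Del.nil⟩
  | cons p q ih =>
    obtain ⟨w, h1, h2⟩ := ih
    obtain ⟨c, l⟩ := p
    refine ⟨c.toWord ++ l :: (FreeGroup.invRev c.toWord ++ w), ?_, ?_⟩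
    · rw [List.map_cons, List.prod_cons, ← h1]
      have h3 : c.toWord ++ l :: (FreeGroup.invRev c.toWord ++ w)
          = c.toWord ++ ([l] ++ (FreeGroup.invRev c.toWord ++ w)) := by simp
      rw [h3, ← FreeGroup.mul_mk, ← FreeGroup.mul_mk, ← FreeGroup.mul_mk, ← FreeGroup.inv_mk,
        FreeGroup.mk_toWord]
      group
    · have h3 := Del.insert_pair (m := (↑(q.map Prod.snd) : Multiset (α × Bool)))
        c.toWord [] w (by simpa using h2)
      have h4 := Del.del c.toWord (FreeGroup.invRev c.toWord ++ w) l _ h3
      exact h4.cast rfl (by simp)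

end Deletion

section Check

variable {α : Type*}

/-- Reading the word from left to right, keeping or deleting each letter: the kept letters have
trivial product (with start value g), and m is the multiset of the deleted letters. -/
def Rd : List (α × Bool) → FreeGroup α → Multiset (α × Bool) → Prop
  | [], g, m => g = 1 ∧ m = 0
  | l :: w, g, m => Rd w (FreeGroup.mk [l] * g) m ∨ ∃ m', m = l ::ₘ m' ∧ Rd w g m'

theorem Rd.insert_del (l : α × Bool) (v : List (α × Bool)) (u : List (α × Bool)) :
    ∀ (g : FreeGroup α) (m : Multiset (α × Bool)),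
      Rd (u ++ v) g m → Rd (u ++ l :: v) g (l ::ₘ m) := by
  induction u with
  | nil =>
    intro g m h
    exact Or.inr ⟨m, rfl, h⟩
  | cons a u ih =>
    intro g m h
    rcases h with h | ⟨m', rfl, h⟩
    · exact Or.inl (ih _ _ h)
    · exact Or.inr ⟨l ::ₘ m', Multiset.cons_swap _ _ _, ih _ _ h⟩

theorem Rd.insert_can (x : α) (b : Bool) (v : List (α × Bool)) (u : List (α × Bool)) :
    ∀ (g : FreeGroup α) (m : Multiset (α × Bool)),
      Rd (u ++ v) g m → Rd (u ++ (x, b) :: (x, !b) :: v) g m := by
  induction u with
  | nil =>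
    intro g m h
    refine Or.inl (Or.inl ?_)
    have h1 : FreeGroup.mk [(x, !b)] * (FreeGroup.mk [(x, b)] * g) = g := by
      have h2 : (FreeGroup.mk [(x, !b)] : FreeGroup α) = (FreeGroup.mk [(x, b)])⁻¹ := by
        rw [FreeGroup.inv_mk]
        rfl
      rw [h2]
      group
    rw [h1]
    exact h
  | cons a u ih =>
    intro g m h
    rcases h with h | ⟨m', rfl, h⟩
    · exact Or.inl (ih _ _ h)
    · exact Or.inr ⟨m', rfl, ih _ _ h⟩

theorem Del.rd {m : Multiset (α × Bool)} {w : List (α × Bool)} (h : Del m w) : Rd w 1 m := by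
  induction h with
  | nil => exact ⟨rfl, rfl⟩
  | del u v l m _ ih => exact Rd.insert_del l v u 1 m ih
  | can u v x b m _ ih => exact Rd.insert_can x b v u 1 m ih

variable [DecidableEq α]

/-- Push a letter on a reduced stack. -/
def push (l : α × Bool) : List (α × Bool) → List (α × Bool)
  | [] => [l]
  | h :: t => if l.1 = h.1 ∧ l.2 = !h.2 then t else l :: h :: t

theorem toWord_mul_push (l : α × Bool) (g : FreeGroup α) :
    (FreeGroup.mk [l] * g).toWord = push l g.toWord := by
  conv_lhs => rw [← FreeGroup.mk_toWord (x := g)]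
  rw [FreeGroup.mul_mk, FreeGroup.toWord_mk, List.singleton_append, FreeGroup.reduce.cons,
    FreeGroup.reduce_toWord]
  cases g.toWord <;> rfl

/-- The search over all ways of deleting letters. -/
def chk : List (α × Bool) → List (α × Bool) → List (α × Bool) → Bool
  | [], st, r => st.isEmpty && r.isEmpty
  | l :: w, st, r => chk w (push l st) r ||
      (decide (l ∈ r) && chk w st (@List.erase (α × Bool) instBEqOfDecidableEq r l))

theorem Rd.chk (w : List (α × Bool)) : ∀ (g : FreeGroup α) (r : List (α × Bool)),
    Rd w g (↑r : Multiset (α × Bool)) → chk w g.toWord r = true := by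
  induction w with
  | nil =>
    intro g r h
    obtain ⟨h1, h2⟩ := h
    have h3 : r = [] := by simpa using h2
    subst h3
    rw [h1, FreeGroup.toWord_one]
    rfl
  | cons l w ih =>
    intro g r h
    rcases h with h | ⟨m', hm, h⟩
    · have h1 := ih _ _ h
      rw [toWord_mul_push] at h1
      rw [Pool.Agent.S03428.chk, h1]
      rfl
    · have hl : l ∈ r := by
        have : l ∈ (↑r : Multiset (α × Bool)) := by rw [hm]; exact Multiset.mem_cons_self l m'
        simpa using this
      have hm' : m' = (↑(@List.erase (α × Bool) instBEqOfDecidableEq r l) :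
          Multiset (α × Bool)) := by
        have h0 : (↑r : Multiset (α × Bool)).erase l = m' := by
          rw [hm, Multiset.erase_cons_head]
        exact h0.symm.trans (Multiset.coe_erase r l)
      rw [hm'] at h
      have h1 := ih _ _ h
      rw [Pool.Agent.S03428.chk, h1]
      simp [hl]

end Check

/-- The word of a: the inverse of
x^4 z^2 x^-1 z^2 x^-1 z^-1 x z^2 x^-1 z^-1 x z x^-1 z^-1, with false for x and true for z. -/
def w0 : List (Bool × Bool) :=
  [(true, true), (false, true), (true, false), (false, false), (true, true), (false, true),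
   (true, false), (true, false), (false, false), (true, true), (false, true), (true, false),
   (true, false), (false, true), (true, false), (true, false),
   (false, false), (false, false), (false, false), (false, false)]

def r0 : List (Bool × Bool) :=
  [(false, false), (true, false), (false, false), (true, false), (false, false), (true, false),
   (true, false), (false, true)]

def r1 : List (Bool × Bool) :=
  [(false, false), (false, false), (true, false), (true, false), (true, false), (true, false)]

theorem chk_r0 : chk w0 [] r0 = false := by decide +kernel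

theorem chk_r1 : chk w0 [] r1 = false := by decide +kernel

/-- The free group on x and t. -/
abbrev F : Type := FreeGroup (Fin 2)

/-- The free group on the two letters standing for x and z. -/
abbrev L : Type := FreeGroup Bool

def xF : F := FreeGroup.of 0
def tF : F := FreeGroup.of 1
/-- z = t x^-1 t^-2. -/
def zF : F := tF * xF⁻¹ * tF⁻¹ * tF⁻¹

/-- The homomorphism with image S. -/
def rho : L →* F := FreeGroup.lift (fun b => if b then zF else xF)

def xL : L := FreeGroup.of false
def zL : L := FreeGroup.of true

theorem rho_x : rho xL = xF := by simp [rho, xL]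

theorem rho_z : rho zL = zF := by simp [rho, zL]

/-- The permutation of three sheets times L given by x. -/
def permX : Equiv.Perm (Fin 3 × L) where
  toFun p := if p.1 = 0 then (0, xL * p.2) else if p.1 = 1 then (2, p.2) else (1, zL⁻¹ * p.2)
  invFun p := if p.1 = 0 then (0, xL⁻¹ * p.2) else if p.1 = 2 then (1, p.2) else (2, zL * p.2)
  left_inv p := by
    obtain ⟨i, m⟩ := p
    fin_cases i <;> simp
  right_inv p := by
    obtain ⟨i, m⟩ := p
    fin_cases i <;> simp

/-- The permutation of three sheets times L given by t. -/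
def permT : Equiv.Perm (Fin 3 × L) where
  toFun p := (p.1 + 1, p.2)
  invFun p := (p.1 - 1, p.2)
  left_inv p := by simp
  right_inv p := by simp

def act : F →* Equiv.Perm (Fin 3 × L) := FreeGroup.lift ![permX, permT]

theorem act_x : act xF = permX := by simp [act, xF]

theorem act_t : act tF = permT := by simp [act, tF]

theorem act_rho_x (m : L) : act (rho xL) (0, m) = (0, xL * m) := by
  rw [rho_x, act_x]
  simp [permX]

theorem act_rho_z (m : L) : act (rho zL) (0, m) = (0, zL * m) := by
  rw [rho_z, zF, map_mul, map_mul, map_mul, map_inv, map_inv, act_x, act_t]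
  simp only [Equiv.Perm.mul_apply, Equiv.Perm.inv_def]
  have h1 : permT.symm (0, m) = (2, m) := rfl
  have h2 : permT.symm (2, m) = (1, m) := rfl
  have h3 : permX.symm (1, m) = (2, zL * m) := rfl
  have h4 : permT (2, zL * m) = (0, zL * m) := rfl
  rw [h1, h2, h3, h4]

theorem act_rho (l : L) : ∀ m : L, act (rho l) (0, m) = (0, l * m) := by
  have hinv : ∀ g : L, (∀ m : L, act (rho g) (0, m) = (0, g * m)) →
      ∀ m : L, act (rho g⁻¹) (0, m) = (0, g⁻¹ * m) := by
    intro g hg m
    rw [map_inv, map_inv, Equiv.Perm.inv_eq_iff_eq, hg]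
    simp
  induction l using FreeGroup.induction_on with
  | C1 => intro m; simp
  | of b =>
    cases b
    · exact act_rho_x
    · exact act_rho_z
  | inv_of b ih => exact hinv _ ih
  | mul a b iha ihb =>
    intro m
    rw [map_mul, map_mul, Equiv.Perm.mul_apply, ihb, iha, mul_assoc]

theorem rho_injective : Function.Injective rho := by
  rw [injective_iff_map_eq_one]
  intro l hl
  have h := act_rho l 1
  rw [hl, map_one] at h
  have h2 := congrArg Prod.snd h
  simpa using h2.symm

/-- The subgroup S generated by x and z. -/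
def S : Subgroup F := rho.range

def toS : L →* S := rho.rangeRestrict

theorem toS_surjective : Function.Surjective toS := rho.rangeRestrict_surjective

theorem coe_toS (l : L) : ((toS l : S) : F) = rho l := rfl

/-- The inverse on the first homology. -/
def back : F →* Abelianization S :=
  FreeGroup.lift ![Abelianization.of (toS xL),
    (Abelianization.of (toS xL))⁻¹ * (Abelianization.of (toS zL))⁻¹]

theorem back_x : back xF = Abelianization.of (toS xL) := by simp [back, xF]

theorem back_t : back tF = (Abelianization.of (toS xL))⁻¹ * (Abelianization.of (toS zL))⁻¹ := by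
  simp [back, tF]

theorem comm_id {G : Type*} [CommGroup G] (A Z : G) :
    A⁻¹ * Z⁻¹ * A⁻¹ * (A⁻¹ * Z⁻¹)⁻¹ * (A⁻¹ * Z⁻¹)⁻¹ = Z := by
  have h : ∀ a z : Additive G, -a + -z + -a + -(-a + -z) + -(-a + -z) = z := by
    intro a z
    abel
  exact h (Additive.ofMul A) (Additive.ofMul Z)

theorem comm_id2 {G : Type*} [CommGroup G] (X T : G) :
    X⁻¹ * (T * X⁻¹ * T⁻¹ * T⁻¹)⁻¹ = T := by
  have h : ∀ a z : Additive G, -a + -(z + -a + -z + -z) = z := by
    intro a z
    abel
  exact h (Additive.ofMul X) (Additive.ofMul T)

theorem back_z : back zF = Abelianization.of (toS zL) := by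
  rw [zF, map_mul, map_mul, map_mul, map_inv, map_inv, back_x, back_t]
  exact comm_id _ _

theorem back_subtype (s : S) : back (s : F) = Abelianization.of s := by
  obtain ⟨l, rfl⟩ := toS_surjective s
  have h : back.comp rho = Abelianization.of.comp toS := by
    refine FreeGroup.ext_hom _ _ ?_
    intro b
    cases b
    · change back (rho xL) = Abelianization.of (toS xL)
      rw [rho_x, back_x]
    · change back (rho zL) = Abelianization.of (toS zL)
      rw [rho_z, back_z]
  exact DFunLike.congr_fun h l

/-- The map induced by the inclusion on abelianisations. -/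
def inc : Abelianization S →* Abelianization F := Abelianization.map S.subtype

theorem inc_of (s : S) : inc (Abelianization.of s) = Abelianization.of (s : F) := rfl

def backAb : Abelianization F →* Abelianization S := Abelianization.lift back

theorem backAb_of (f : F) : backAb (Abelianization.of f) = back f := rfl

theorem backAb_inc (a : Abelianization S) : backAb (inc a) = a := by
  have h : backAb.comp inc = MonoidHom.id _ := by
    ext s
    change backAb (inc (Abelianization.of s)) = Abelianization.of s
    rw [inc_of, backAb_of, back_subtype]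
  exact DFunLike.congr_fun h a

theorem inc_backAb (a : Abelianization F) : inc (backAb a) = a := by
  have h : (inc.comp backAb).comp Abelianization.of = Abelianization.of := by
    refine FreeGroup.ext_hom _ _ ?_
    intro i
    change inc (backAb (Abelianization.of (FreeGroup.of i))) = Abelianization.of (FreeGroup.of i)
    rw [backAb_of]
    fin_cases i
    · change inc (back xF) = Abelianization.of xF
      rw [back_x, inc_of, coe_toS, rho_x]
    · change inc (back tF) = Abelianization.of tF
      rw [back_t, map_mul, map_inv, map_inv, inc_of, inc_of, coe_toS, coe_toS, rho_x, rho_z, zF,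
        map_mul, map_mul, map_mul, map_inv, map_inv]
      exact comm_id2 _ _
  have h2 : (inc.comp backAb) = MonoidHom.id _ := by
    refine Abelianization.hom_ext _ _ ?_
    rw [h]
    rfl
  exact DFunLike.congr_fun h2 a

theorem bijective_rTensor (p : ℕ) : Function.Bijective (LinearMap.rTensor (ZMod p)
    (AddMonoidHom.toIntLinearMap (MonoidHom.toAdditive (Abelianization.map S.subtype)))) := by
  let e : Additive (Abelianization S) ≃+ Additive (Abelianization F) :=
    { toFun := (MonoidHom.toAdditive inc)
      invFun := (MonoidHom.toAdditive backAb)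
      left_inv := fun a => backAb_inc a
      right_inv := fun a => inc_backAb a
      map_add' := fun a b => map_add (MonoidHom.toAdditive inc) a b }
  exact (LinearEquiv.rTensor (ZMod p) e.toIntLinearEquiv).bijective

/-- The element a. -/
def aL : L := FreeGroup.mk w0

def gL : Fin 8 → (Bool × Bool) :=
  ![(false, false), (true, false), (false, false), (true, false), (false, false), (true, false),
   (true, false), (false, true)]

def cF : Fin 8 → F :=
  ![tF, tF⁻¹ * tF⁻¹ * tF⁻¹, xF * tF⁻¹ * xF⁻¹ * tF, xF * tF⁻¹ * xF⁻¹ * tF⁻¹ * tF⁻¹ * tF⁻¹,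
    xF * xF * tF⁻¹ * xF⁻¹ * tF, xF * xF * tF⁻¹ * xF⁻¹ * tF⁻¹ * tF⁻¹ * tF⁻¹,
    xF * xF * xF * tF⁻¹ * tF⁻¹ * tF⁻¹, xF * xF * xF * xF * tF]

theorem relF : rho aL =
    (List.ofFn (fun i => cF i * rho (FreeGroup.mk [gL i]) * (cF i)⁻¹)).prod := by
  decide +kernel

/-- The family of multisets of the check is closed under removing inverse pairs. -/
theorem closed_K (m : Multiset (Bool × Bool)) (x : Bool) (b : Bool) (m1 : Multiset (Bool × Bool))
    (hm : m = (↑r0 : Multiset (Bool × Bool)) ∨ m = (↑r1 : Multiset (Bool × Bool)))
    (hmm : m = (x, b) ::ₘ (x, !b) ::ₘ m1) :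
    m1 = (↑r0 : Multiset (Bool × Bool)) ∨ m1 = (↑r1 : Multiset (Bool × Bool)) := by
  have h1 : m1 = (m.erase (x, b)).erase (x, !b) := by
    rw [hmm, Multiset.erase_cons_head, Multiset.erase_cons_head]
  have h2 : (x, b) ∈ m := by rw [hmm]; simp
  have h3 : (x, !b) ∈ m := by rw [hmm]; simp
  rcases hm with rfl | rfl
  · cases x <;> cases b
    · right
      rw [h1]
      decide
    · right
      rw [h1]
      decide
    · exact absurd h3 (by decide)
    · exact absurd h2 (by decide)
  · cases x <;> cases b
    · exact absurd h3 (by decide)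
    · exact absurd h2 (by decide)
    · exact absurd h3 (by decide)
    · exact absurd h2 (by decide)

theorem relS (d : Fin 8 → L) :
    aL ≠ (List.ofFn (fun i => d i * FreeGroup.mk [gL i] * (d i)⁻¹)).prod := by
  intro h
  obtain ⟨w, h1, h2⟩ := exists_word (List.ofFn fun i => (d i, gL i))
  have h3 : FreeGroup.mk w = aL := by
    rw [h1, h, List.map_ofFn]
    rfl
  have h4 : FreeGroup.reduce w = w0 := by
    rw [← FreeGroup.toWord_mk, h3]
    decide +kernel
  have h5 : FreeGroup.Red w w0 := by
    rw [← h4]
    exact FreeGroup.reduce.red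
  have h6 : (List.ofFn fun i => (d i, gL i)).map Prod.snd = r0 := by
    rw [List.map_ofFn]
    rfl
  rw [h6] at h2
  obtain ⟨m', h7, h8⟩ := Del.red (K := fun m => m = (↑r0 : Multiset (Bool × Bool)) ∨
    m = (↑r1 : Multiset (Bool × Bool))) closed_K h5 _ (Or.inl rfl) h2
  · rcases h7 with rfl | rfl
    · have h9 := Rd.chk w0 1 r0 h8.rd
      rw [FreeGroup.toWord_one, chk_r0] at h9
      exact Bool.false_ne_true h9
    · have h9 := Rd.chk w0 1 r1 h8.rd
      rw [FreeGroup.toWord_one, chk_r1] at h9
      exact Bool.false_ne_true h9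

/-- The negation of the preceding statement: For all n, primes p, and subgroups S of a finitely generated free group F whose inclusion induces an iso on H_1 with Z/p coefficients: if a in S is a product of F-conjugates of g_1..g_n in S (in order), it is such a product of S-conjugates. -/
theorem result :
    ¬ (∀ (n k p : ℕ), p.Prime → ∀ (S : Subgroup (FreeGroup (Fin k))),
      Function.Bijective (LinearMap.rTensor (ZMod p)
        (AddMonoidHom.toIntLinearMap (MonoidHom.toAdditive (Abelianization.map S.subtype)))) →
      ∀ (a : S) (g : Fin n → S),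
        (∃ c : Fin n → FreeGroup (Fin k),
          (a : FreeGroup (Fin k)) =
            (List.ofFn (fun i => c i * (g i : FreeGroup (Fin k)) * (c i)⁻¹)).prod) →
        ∃ c : Fin n → S, a = (List.ofFn (fun i => c i * g i * (c i)⁻¹)).prod) := by
  intro H
  obtain ⟨c, hc⟩ := H 8 2 2 Nat.prime_two S (bijective_rTensor 2) (toS aL)
    (fun i => toS (FreeGroup.mk [gL i])) ⟨cF, relF⟩
  choose d hd using fun i => toS_surjective (c i)
  refine relS d (rho_injective ?_)
  have h := congrArg (fun s : S => (s : F)) hc
  change rho aL = _ at h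
  rw [h, Subgroup.val_list_prod, map_list_prod, List.map_ofFn, List.map_ofFn]
  congr 2
  funext i
  simp only [Function.comp_apply, ← hd, ← map_mul, ← map_inv]
  rfl

end Pool.Agent.S03428
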