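import Pool.Statements.S04013
import Pool.Agent.H89.Cheb.Fin2

set_option autoImplicit false
open Pool Pool.MP_1f4776_an

namespace Pool.Agent.S04013

/-- There is c>0 such that the least number N of equal-weight nodes in [-1,1] giving a quadrature exact for ½∫ of all polynomials of degree ≤ p satisfies N/p² → c as p → ∞. -/
theorem result :
    ∃ c : ℝ, 0 < c ∧
      Filter.Tendsto
        (fun p : ℕ =>
          ((sInf {N : ℕ | 0 < N ∧ ∃ x : Fin N → ℝ,
              (∀ i, x i ∈ Set.Icc (-1 : ℝ) 1) ∧
              ∀ f : Polynomial ℝ, f.natDegree ≤ p →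
                (1 / (N : ℝ)) * ∑ i, f.eval (x i) =
                  (1 / 2 : ℝ) * intervalIntegral (fun t => f.eval t) (-1) 1 MeasureTheory.volume}
            : ℕ) : ℝ) / ((p : ℝ) ^ 2))
        Filter.atTop (nhds c) := by
  exact Pool.Agent.H89.Cheb.main_of_core Pool.Agent.H89.Cheb.core

end Pool.Agent.S04013
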