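import Pool.Statements.S04035
import Pool.Agent.H66.GSC.Fin
import Pool.Agent.H24.GN.FrzB

set_option autoImplicit false
open scoped Manifold
open Pool Pool.MP_20ddb5_an

namespace Pool.Agent.S04035

/-- For finitely many C^2 circle diffeomorphisms whose generated group acts minimally (no nonempty proper closed invariant set), every measurable invariant set has Lebesgue measure zero or full measure. -/
theorem result :
    ∀ (n : ℕ) (f : Fin n → Diffeomorph (𝓡 1) (𝓡 1) Circle Circle 2),
      (∀ C : Set Circle, IsClosed C → (∀ i, ⇑(f i) ⁻¹' C = C) →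
          C = ∅ ∨ C = Set.univ) →
      ∀ A : Set Circle, MeasurableSet (⇑Circle.exp ⁻¹' A) →
        (∀ i, ⇑(f i) ⁻¹' A = A) →
          MeasureTheory.volume (⇑Circle.exp ⁻¹' A) = 0 ∨
            MeasureTheory.volume (⇑Circle.exp ⁻¹' Aᶜ) = 0 := by
  exact Pool.Agent.H24.GN.frozen_of
    (fun _ hC hfg hm => Pool.Agent.H66.GSC.ergodic_c2 hC hm hfg)

end Pool.Agent.S04035
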