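import Pool.Statements.S04450
import Pool.Agent.H14.GP.Final

set_option autoImplicit false
open Pool Pool.MP_40d375_an

namespace Pool.Agent.S04450

/-- The negation of the preceding statement: Every character of H^∞ that is neither a point evaluation on the disk nor in the Shilov boundary lies in the weak-* closure of some Gleason part with at least two points that is not the disk part. -/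
theorem result :
    ¬ (∀ (H : Set (ℂ → ℂ)),
    H = {f | DifferentiableOn ℂ f (Metric.ball (0:ℂ) 1) ∧
              ∃ C : ℝ, ∀ z ∈ Metric.ball (0:ℂ) 1, ‖f z‖ ≤ C} →
  ∀ (IsChar : ((ℂ → ℂ) → ℂ) → Prop),
    IsChar = (fun φ => φ 1 = 1 ∧
      (∀ f ∈ H, ∀ g ∈ H, φ (f + g) = φ f + φ g ∧ φ (f * g) = φ f * φ g ∧
          (Set.EqOn f g (Metric.ball (0:ℂ) 1) → φ f = φ g)) ∧
      (∀ c : ℂ, ∀ f ∈ H, φ (c • f) = c * φ f) ∧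
      (∀ f, f ∉ H → φ f = 0)) →
  ∀ (Gl : ((ℂ → ℂ) → ℂ) → ((ℂ → ℂ) → ℂ) → Prop),
    Gl = (fun φ ψ => ∃ c : ℝ, c < 2 ∧ ∀ f ∈ H,
      (∀ z ∈ Metric.ball (0:ℂ) 1, ‖f z‖ ≤ 1) → ‖φ f - ψ f‖ ≤ c) →
  ∀ (InClosure : ((ℂ → ℂ) → ℂ) → Set ((ℂ → ℂ) → ℂ) → Prop),
    InClosure = (fun φ S => ∀ s : Finset (ℂ → ℂ), ∀ ε : ℝ, 0 < ε →
      ∃ ψ ∈ S, ∀ f ∈ s, ‖ψ f - φ f‖ < ε) →
  ∀ m : (ℂ → ℂ) → ℂ, IsChar m →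
    (∀ z ∈ Metric.ball (0:ℂ) 1, ∃ f ∈ H, m f ≠ f z) →
    (∃ S : Set ((ℂ → ℂ) → ℂ), (∀ ψ ∈ S, IsChar ψ) ∧
        (∀ φ, IsChar φ → InClosure φ S → φ ∈ S) ∧
        (∀ f ∈ H, ∀ z ∈ Metric.ball (0:ℂ) 1, ∀ ε : ℝ, 0 < ε →
            ∃ ψ ∈ S, ‖f z‖ < ‖ψ f‖ + ε) ∧
        m ∉ S) →
    ∃ φ : (ℂ → ℂ) → ℂ, IsChar φ ∧
      (∀ z ∈ Metric.ball (0:ℂ) 1, ¬ ∃ c : ℝ, c < 2 ∧ ∀ f ∈ H,
          (∀ w ∈ Metric.ball (0:ℂ) 1, ‖f w‖ ≤ 1) → ‖φ f - f z‖ ≤ c) ∧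
      (∃ ψ, IsChar ψ ∧ Gl φ ψ ∧ ψ ≠ φ) ∧
      InClosure m {ψ | IsChar ψ ∧ Gl φ ψ}) := by
  intro h
  obtain ⟨m, hm, hD, hS, hno⟩ := Pool.Agent.H14.GP.final
  obtain ⟨φ, hφ, h1, h2, h3⟩ := h Pool.Agent.H14.GP.Hinf rfl Pool.Agent.H14.GP.IsChar rfl
    Pool.Agent.H14.GP.Gl rfl Pool.Agent.H14.GP.InClosure rfl m hm hD hS
  exact hno φ hφ h1 h2 h3

end Pool.Agent.S04450
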