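-- Disproof of the monotonicity conjecture for the zero-strip width of center divided differences.
-- An explicit polynomial `P` of degree 8 is given with `W[P'] < 1000`, `W[δ_1000 P] ≤ 1`
-- and `W[δ_1100 P] > 1`.
import Pool.Statements.S05958

set_option autoImplicit false
open Polynomial Filter
open Pool Pool.MP_bcdbe1_an

namespace Pool.Agent.S05958

lemma norm_prod_le (s : Multiset ℂ) (u v : ℂ) (h : ∀ z ∈ s, ‖v - z‖ ≤ ‖u - z‖) :
    ‖(s.map (fun z => v - z)).prod‖ ≤ ‖(s.map (fun z => u - z)).prod‖ := by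
  induction s using Multiset.induction with
  | empty => simp
  | cons a s ih =>
    simp only [Multiset.map_cons, Multiset.prod_cons, norm_mul]
    exact mul_le_mul (h a (Multiset.mem_cons_self _ _))
      (ih fun z hz => h z (Multiset.mem_cons_of_mem hz)) (norm_nonneg _) (norm_nonneg _)

/-- If `|f(u)| < |f(v)|` then some root of `f` is closer to `u` than to `v`. -/
lemma exists_root_closer (f : ℂ[X]) (u v : ℂ) (h : ‖f.eval u‖ < ‖f.eval v‖) :
    ∃ z ∈ f.roots, ‖u - z‖ < ‖v - z‖ := by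
  by_contra hcon
  have hcon' : ∀ z ∈ f.roots, ‖v - z‖ ≤ ‖u - z‖ := by
    intro z hz
    by_contra hlt
    exact hcon ⟨z, hz, not_le.mp hlt⟩
  have hs := IsAlgClosed.splits f
  have h1 := norm_prod_le f.roots u v hcon'
  rw [hs.eval_eq_prod_roots u, hs.eval_eq_prod_roots v, norm_mul, norm_mul] at h
  exact absurd h (not_lt.mpr (mul_le_mul_of_nonneg_left h1 (norm_nonneg _)))

/-- The same for two points on a horizontal line, in terms of real parts. -/
lemma exists_root_closer' (f : ℂ[X]) (x x' y : ℝ) (h : ‖f.eval ⟨x, y⟩‖ < ‖f.eval ⟨x', y⟩‖) :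
    ∃ z ∈ f.roots, (x - x') * (x + x' - 2 * z.re) < 0 := by
  obtain ⟨z, hz, hlt⟩ := exists_root_closer f _ _ h
  refine ⟨z, hz, ?_⟩
  have h2 := pow_lt_pow_left₀ hlt (norm_nonneg _) two_ne_zero
  rw [Complex.sq_norm, Complex.sq_norm, Complex.normSq_apply, Complex.normSq_apply] at h2
  simp only [Complex.sub_re, Complex.sub_im] at h2
  nlinarith [h2]

/-- The explicit counterexample. -/
noncomputable def P : ℂ[X] :=
  C 105 * X ^ 8 + C (-480) * X ^ 7 + C ⟨-168280, 197960⟩ * X ^ 6 + C ⟨811610688, -712656⟩ * X ^ 5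
  + C ⟨335991404210, 863521019060⟩ * X ^ 4 + C ⟨-1352683558299360, -259484780240⟩ * X ^ 3
  + C ⟨-675290867170360000, -888161382550960000⟩ * X ^ 2
  + C ⟨1021072870299360000000, 972140780240000000⟩ * X

lemma hstep (a b x y c d : ℝ) :
    (⟨a, b⟩ : ℂ) * ⟨x, y⟩ + ⟨c, d⟩ = ⟨a * x - b * y + c, a * y + b * x + d⟩ := by
  apply Complex.ext <;> simp

lemma P_horner (x y : ℝ) : P.eval ⟨x, y⟩ =
   (((((((⟨105, 0⟩ * ⟨x, y⟩ + ⟨-480, 0⟩) * ⟨x, y⟩ + ⟨-168280, 197960⟩) * ⟨x, y⟩
    + ⟨811610688, -712656⟩) * ⟨x, y⟩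
    + ⟨335991404210, 863521019060⟩) * ⟨x, y⟩ + ⟨-1352683558299360, -259484780240⟩) * ⟨x, y⟩
    + ⟨-675290867170360000, -888161382550960000⟩) * ⟨x, y⟩
    + ⟨1021072870299360000000, 972140780240000000⟩) * (⟨x, y⟩ : ℂ) + ⟨0, 0⟩ := by
  have h1 : (⟨105, 0⟩ : ℂ) = 105 := rfl
  have h2 : (⟨-480, 0⟩ : ℂ) = -480 := by apply Complex.ext <;> simp
  have h3 : (⟨0, 0⟩ : ℂ) = 0 := rfl
  rw [h1, h2, h3]
  simp only [P, eval_add, eval_mul, eval_C, eval_pow, eval_X]
  ring

lemma ev0p : P.eval ⟨99/100 + 1100, -54997/50⟩ = ⟨7196960506066292047937992831282057700788581/2000000000000000, 203661195787001877867531505699617082501/25000000000000⟩ := by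
  rw [P_horner]
  norm_num [hstep]
lemma ev0m : P.eval ⟨99/100 - 1100, -54997/50⟩ = ⟨7196872923430686455569925262208939701268581/2000000000000000, 202357847697882665168243146554917278501/25000000000000⟩ := by
  rw [P_horner]
  norm_num [hstep]
lemma ev1p : P.eval ⟨93/100 + 1100, -54997/50⟩ = ⟨7195392263995411501422905315080870572412773/2000000000000000, 919980207300122187678693909500916802871/125000000000000⟩ := by
  rw [P_horner]
  norm_num [hstep]
lemma ev1m : P.eval ⟨93/100 - 1100, -54997/50⟩ = ⟨7198446716494843485567939931040664155932773/2000000000000000, 913814243884711289734015874861404342871/125000000000000⟩ := by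
  rw [P_horner]
  norm_num [hstep]
lemma ev2p : P.eval ⟨-9/100 + 1100, 45551/100⟩ = ⟨-53029760793415892786108975630424789849419/125000000000000, -1460881630182301079015886005352353341/781250000000⟩ := by
  rw [P_horner]
  norm_num [hstep]
lemma ev2m : P.eval ⟨-9/100 - 1100, 45551/100⟩ = ⟨-53030508801044421808953423990624652329419/125000000000000, -1445133439599396470493668674333872841/781250000000⟩ := by
  rw [P_horner]
  norm_num [hstep]
lemma ev3p : P.eval ⟨-3/100 + 1100, 45551/100⟩ = ⟨-53049510410243227387171960303275247444667/125000000000000, -14099349601362460252891595086421661991/7812500000000⟩ := by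
  rw [P_horner]
  norm_num [hstep]
lemma ev3m : P.eval ⟨-3/100 - 1100, 45551/100⟩ = ⟨-53010800772500285662440795424611912964667/125000000000000, -13937928395746093535214241013766996991/7812500000000⟩ := by
  rw [P_horner]
  norm_num [hstep]

lemma mk_eq (a b : ℝ) : (⟨a, b⟩ : ℂ) = (a : ℂ) + (b : ℂ) * Complex.I := by
  apply Complex.ext <;> simp

/-- Explicit factorisation of the difference at `λ = 1000`. -/
lemma diff_1000 (z : ℂ) : P.eval (z + 1000) - P.eval (z - 1000) =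
    1680000 * (z * (z - 414 * Complex.I) * (z - 1000 * Complex.I) * (z - 1 + 1000 * Complex.I)
      * (z - 1 + 414 * Complex.I) * (z - 1 - 2414 * Complex.I) * (z - 1 + 2414 * Complex.I)) := by
  simp only [P, eval_add, eval_mul, eval_C, eval_pow, eval_X, mk_eq]
  push_cast
  linear_combination ((1677967407764998560000000)*z + (5731042622276160000000)*z*Complex.I
    + (-1677967407765694080000000)*z*Complex.I^2 + (-5731041638810880000000)*z*Complex.I^3
    + (1677971172890880000000000)*z*Complex.I^4 + (-12043887589796160000)*z^2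
    + (-15810026305920000)*z^2*Complex.I + (12043887012890880000)*z^2*Complex.I^2
    + (11755956731232000000)*z^3 + (14826561025920000)*z^3*Complex.I
    + (-11755941732890880000)*z^3*Complex.I^2 + (-25483886400000)*z^4
    + (11757970560000)*z^5) * Complex.I_sq

/-- The roots of `δ_1000 P` have real part `0` or `1`. -/
lemma roots_1000 (z : ℂ)
    (hz : z ∈ ((P.comp (X + C ((1000 : ℝ) : ℂ)) - P.comp (X - C ((1000 : ℝ) : ℂ)))
      * C (1 / (2 * ((1000 : ℝ) : ℂ)))).roots) : z.re = 0 ∨ z.re = 1 := by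
  have h0 := (mem_roots'.mp hz).2
  simp only [IsRoot.def, eval_mul, eval_sub, eval_comp, eval_add, eval_X, eval_C,
    Complex.ofReal_ofNat] at h0
  rw [diff_1000 z] at h0
  simp only [mul_eq_zero, one_div, inv_eq_zero] at h0
  rcases h0 with (h0 | h0) | h0
  · norm_num at h0
  · have key : ∀ w c : ℂ, w + c = 0 → c.re = 0 → w.re = 0 := by
      intro w c h hc
      have := congrArg Complex.re h
      simpa [hc] using this
    rcases h0 with (((((h0 | h0) | h0) | h0) | h0) | h0) | h0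
    · left; rw [h0]; simp
    all_goals
      have h1 := congrArg Complex.re h0
      simp at h1
      first
        | (left; linarith)
        | (right; linarith)
  · norm_num at h0

lemma derivP (z : ℂ) : (derivative P).eval z =
    840 * z ^ 7 - 3360 * z ^ 6 + 6 * ⟨-168280, 197960⟩ * z ^ 5 + 5 * ⟨811610688, -712656⟩ * z ^ 4
    + 4 * ⟨335991404210, 863521019060⟩ * z ^ 3 + 3 * ⟨-1352683558299360, -259484780240⟩ * z ^ 2
    + 2 * ⟨-675290867170360000, -888161382550960000⟩ * z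
    + ⟨1021072870299360000000, 972140780240000000⟩ := by
  simp only [P, derivative_add, derivative_mul, derivative_C, derivative_X_pow, derivative_X,
    eval_add, eval_mul, eval_C, eval_pow, eval_X, zero_mul, zero_add, mul_one, Nat.cast_ofNat]
  norm_num
  ring

/-- All roots of `P'` lie in the disc of radius 480 about 0. -/
lemma roots_deriv (z : ℂ) (hz : z ∈ (derivative P).roots) : ‖z‖ ≤ 480 := by
  have h0 := (mem_roots'.mp hz).2
  rw [IsRoot.def, derivP] at h0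
  by_contra hlt
  have hr : 480 < ‖z‖ := not_le.mp hlt
  set r := ‖z‖ with hrdef
  have nb : ∀ (a b c : ℝ), 0 ≤ c → a ^ 2 + b ^ 2 ≤ c ^ 2 → ‖(⟨a, b⟩ : ℂ)‖ ≤ c := by
    intro a b c hc hab
    apply le_of_sq_le_sq _ hc
    rw [Complex.sq_norm, Complex.normSq_apply]
    simp only
    nlinarith
  have e : 840 * z ^ 7 = 3360 * z ^ 6 - 6 * ⟨-168280, 197960⟩ * z ^ 5
    - 5 * ⟨811610688, -712656⟩ * z ^ 4
    - 4 * ⟨335991404210, 863521019060⟩ * z ^ 3 - 3 * ⟨-1352683558299360, -259484780240⟩ * z ^ 2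
    - 2 * ⟨-675290867170360000, -888161382550960000⟩ * z
    - ⟨1021072870299360000000, 972140780240000000⟩ := by
    linear_combination h0
  have hz0 : (0 : ℝ) ≤ r := norm_nonneg _
  have n5 : ‖(⟨-168280, 197960⟩ : ℂ)‖ ≤ 260000 := nb _ _ _ (by norm_num) (by norm_num)
  have n4 : ‖(⟨811610688, -712656⟩ : ℂ)‖ ≤ 812000000 := nb _ _ _ (by norm_num) (by norm_num)
  have n3 : ‖(⟨335991404210, 863521019060⟩ : ℂ)‖ ≤ 927000000000 :=
    nb _ _ _ (by norm_num) (by norm_num)
  have n2 : ‖(⟨-1352683558299360, -259484780240⟩ : ℂ)‖ ≤ 1353000000000000 :=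
    nb _ _ _ (by norm_num) (by norm_num)
  have n1 : ‖(⟨-675290867170360000, -888161382550960000⟩ : ℂ)‖ ≤ 1116000000000000000 :=
    nb _ _ _ (by norm_num) (by norm_num)
  have n0 : ‖(⟨1021072870299360000000, 972140780240000000⟩ : ℂ)‖ ≤ 1022000000000000000000 :=
    nb _ _ _ (by norm_num) (by norm_num)
  have hn : 840 * r ^ 7 ≤ 3360 * r ^ 6 + 6 * 260000 * r ^ 5 + 5 * 812000000 * r ^ 4
      + 4 * 927000000000 * r ^ 3 + 3 * 1353000000000000 * r ^ 2 + 2 * 1116000000000000000 * r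
      + 1022000000000000000000 := by
    have h7 : 840 * r ^ 7 = ‖840 * z ^ 7‖ := by
      rw [norm_mul, norm_pow, hrdef]; norm_num
    rw [h7, e]
    have t6 : ‖3360 * z ^ 6‖ = 3360 * r ^ 6 := by rw [norm_mul, norm_pow, hrdef]; norm_num
    have t5 : ‖6 * (⟨-168280, 197960⟩ : ℂ) * z ^ 5‖ ≤ 6 * 260000 * r ^ 5 := by
      rw [norm_mul, norm_mul, norm_pow]
      have : ‖(6 : ℂ)‖ = 6 := by norm_num
      rw [this]
      gcongr
    have t4 : ‖5 * (⟨811610688, -712656⟩ : ℂ) * z ^ 4‖ ≤ 5 * 812000000 * r ^ 4 := by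
      rw [norm_mul, norm_mul, norm_pow]
      have : ‖(5 : ℂ)‖ = 5 := by norm_num
      rw [this]
      gcongr
    have t3 : ‖4 * (⟨335991404210, 863521019060⟩ : ℂ) * z ^ 3‖ ≤ 4 * 927000000000 * r ^ 3 := by
      rw [norm_mul, norm_mul, norm_pow]
      have : ‖(4 : ℂ)‖ = 4 := by norm_num
      rw [this]
      gcongr
    have t2 : ‖3 * (⟨-1352683558299360, -259484780240⟩ : ℂ) * z ^ 2‖
        ≤ 3 * 1353000000000000 * r ^ 2 := by
      rw [norm_mul, norm_mul, norm_pow]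
      have : ‖(3 : ℂ)‖ = 3 := by norm_num
      rw [this]
      gcongr
    have t1 : ‖2 * (⟨-675290867170360000, -888161382550960000⟩ : ℂ) * z‖
        ≤ 2 * 1116000000000000000 * r := by
      rw [norm_mul, norm_mul]
      have : ‖(2 : ℂ)‖ = 2 := by norm_num
      rw [this]
      gcongr
    refine le_trans (norm_sub_le _ _) ?_
    refine add_le_add ?_ n0
    refine le_trans (norm_sub_le _ _) ?_
    refine add_le_add ?_ t1
    refine le_trans (norm_sub_le _ _) ?_
    refine add_le_add ?_ t2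
    refine le_trans (norm_sub_le _ _) ?_
    refine add_le_add ?_ t3
    refine le_trans (norm_sub_le _ _) ?_
    refine add_le_add ?_ t4
    refine le_trans (norm_sub_le _ _) ?_
    exact add_le_add t6.le t5
  have hr1 : 480 ≤ r := hr.le
  have q6 : 480 * r ^ 6 ≤ r ^ 7 := by
    calc 480 * r ^ 6 ≤ r * r ^ 6 := by gcongr
      _ = r ^ 7 := by ring
  have q5 : 480 ^ 2 * r ^ 5 ≤ r ^ 7 := by
    calc 480 ^ 2 * r ^ 5 ≤ r ^ 2 * r ^ 5 := by gcongr
      _ = r ^ 7 := by ring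
  have q4 : 480 ^ 3 * r ^ 4 ≤ r ^ 7 := by
    calc 480 ^ 3 * r ^ 4 ≤ r ^ 3 * r ^ 4 := by gcongr
      _ = r ^ 7 := by ring
  have q3 : 480 ^ 4 * r ^ 3 ≤ r ^ 7 := by
    calc 480 ^ 4 * r ^ 3 ≤ r ^ 4 * r ^ 3 := by gcongr
      _ = r ^ 7 := by ring
  have q2 : 480 ^ 5 * r ^ 2 ≤ r ^ 7 := by
    calc 480 ^ 5 * r ^ 2 ≤ r ^ 5 * r ^ 2 := by gcongr
      _ = r ^ 7 := by ring
  have q1 : 480 ^ 6 * r ≤ r ^ 7 := by
    calc 480 ^ 6 * r ≤ r ^ 6 * r := by gcongr
      _ = r ^ 7 := by ring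
  have q0 : (480 : ℝ) ^ 7 ≤ r ^ 7 := by gcongr
  nlinarith [q6, q5, q4, q3, q2, q1, q0, hn]

/-- The polynomial `δ_1100 P` has two roots whose real parts differ by more than `1`. -/
lemma roots_1100 : ∃ z ∈ ((P.comp (X + C ((1100 : ℝ) : ℂ)) - P.comp (X - C ((1100 : ℝ) : ℂ)))
      * C (1 / (2 * ((1100 : ℝ) : ℂ)))).roots,
    ∃ w ∈ ((P.comp (X + C ((1100 : ℝ) : ℂ)) - P.comp (X - C ((1100 : ℝ) : ℂ)))
      * C (1 / (2 * ((1100 : ℝ) : ℂ)))).roots, 1 < z.re - w.re := by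
  set f : ℂ[X] := (P.comp (X + C ((1100 : ℝ) : ℂ)) - P.comp (X - C ((1100 : ℝ) : ℂ)))
      * C (1 / (2 * ((1100 : ℝ) : ℂ))) with hf
  have hev : ∀ x y : ℝ, f.eval ⟨x, y⟩ = (P.eval ⟨x + 1100, y⟩ - P.eval ⟨x - 1100, y⟩) *
      (1 / (2 * ((1100 : ℝ) : ℂ))) := by
    intro x y
    have h1 : (⟨x, y⟩ : ℂ) + ((1100 : ℝ) : ℂ) = ⟨x + 1100, y⟩ := by
      apply Complex.ext <;> simp
    have h2 : (⟨x, y⟩ : ℂ) - ((1100 : ℝ) : ℂ) = ⟨x - 1100, y⟩ := by
      apply Complex.ext <;> simp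
    rw [hf, eval_mul, eval_sub, eval_comp, eval_comp, eval_add, eval_sub, eval_X, eval_C, eval_C,
      h1, h2]
  have hlt : ∀ A B : ℂ, Complex.normSq A < Complex.normSq B →
      ‖A * (1 / (2 * ((1100 : ℝ) : ℂ)))‖ < ‖B * (1 / (2 * ((1100 : ℝ) : ℂ)))‖ := by
    intro A B hAB
    rw [norm_mul, norm_mul]
    have hc : 0 < ‖(1 / (2 * ((1100 : ℝ) : ℂ)))‖ := by
      rw [norm_pos_iff]; norm_num
    refine mul_lt_mul_of_pos_right ?_ hc
    rw [← Complex.sq_norm, ← Complex.sq_norm] at hAB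
    exact lt_of_pow_lt_pow_left₀ 2 (norm_nonneg _) hAB
  have hsub : ∀ a b c d : ℝ, (⟨a, b⟩ : ℂ) - ⟨c, d⟩ = ⟨a - c, b - d⟩ := by
    intro a b c d
    apply Complex.ext <;> simp
  obtain ⟨z, hz, hz1⟩ := exists_root_closer' f (99/100) (93/100) (-54997/50) (by
    rw [hev, hev, ev0p, ev0m, ev1p, ev1m]
    apply hlt
    rw [hsub, hsub, Complex.normSq_mk, Complex.normSq_mk]
    norm_num)
  obtain ⟨w, hw, hw1⟩ := exists_root_closer' f (-9/100) (-3/100) (45551/100) (by
    rw [hev, hev, ev2p, ev2m, ev3p, ev3m]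
    apply hlt
    rw [hsub, hsub, Complex.normSq_mk, Complex.normSq_mk]
    norm_num)
  exact ⟨z, hz, w, hw, by linarith⟩

lemma bdd (q : ℂ[X]) :
    BddAbove {x : ℝ | ∃ z ∈ q.roots, ∃ w ∈ q.roots, x = z.re - w.re} := by
  have hfin : {x : ℝ | ∃ z ∈ q.roots, ∃ w ∈ q.roots, x = z.re - w.re}.Finite := by
    have : {x : ℝ | ∃ z ∈ q.roots, ∃ w ∈ q.roots, x = z.re - w.re}
        ⊆ (fun t : ℂ × ℂ => t.1.re - t.2.re) '' (↑(q.roots.toFinset ×ˢ q.roots.toFinset)) := by
      rintro x ⟨z, hz, w, hw, rfl⟩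
      exact ⟨(z, w), by simp only [Finset.coe_product, Set.mem_prod, Finset.mem_coe,
        Multiset.mem_toFinset]; exact ⟨hz, hw⟩, rfl⟩
    exact Set.Finite.subset (Set.Finite.image _ (Finset.finite_toSet _)) this
  exact hfin.bddAbove

theorem result :
    ¬ (∀ W : Polynomial ℂ → ℝ,
      (∀ q : Polynomial ℂ,
        W q = sSup {x : ℝ | ∃ z ∈ q.roots, ∃ w ∈ q.roots, x = z.re - w.re}) →
      ∀ p : Polynomial ℂ,
        AntitoneOn
          (fun l : ℝ =>
            W ((p.comp (X + C (l : ℂ)) - p.comp (X - C (l : ℂ))) * C (1 / (2 * (l : ℂ)))))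
          (Set.Ioi (W (derivative p))) ∧
        Tendsto
          (fun l : ℝ =>
            W ((p.comp (X + C (l : ℂ)) - p.comp (X - C (l : ℂ))) * C (1 / (2 * (l : ℂ)))))
          atTop (nhds 0)) := by
  intro h
  obtain ⟨hanti, -⟩ := h
    (fun q => sSup {x : ℝ | ∃ z ∈ q.roots, ∃ w ∈ q.roots, x = z.re - w.re}) (fun q => rfl) P
  have hW : sSup {x : ℝ | ∃ z ∈ (derivative P).roots, ∃ w ∈ (derivative P).roots,
      x = z.re - w.re} ≤ 960 := by
    apply Real.sSup_le _ (by norm_num)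
    rintro x ⟨z, hz, w, hw, rfl⟩
    have h1 := roots_deriv z hz
    have h2 := roots_deriv w hw
    have h3 := abs_le.mp (Complex.abs_re_le_norm z)
    have h4 := abs_le.mp (Complex.abs_re_le_norm w)
    linarith [h3.1, h3.2, h4.1, h4.2]
  have h1 := hanti (a := 1000) (b := 1100) (Set.mem_Ioi.mpr (by linarith))
    (Set.mem_Ioi.mpr (by linarith)) (by norm_num)
  simp only at h1
  have hA : sSup {x : ℝ | ∃ z ∈ ((P.comp (X + C ((1000 : ℝ) : ℂ)) - P.comp (X - C ((1000 : ℝ) : ℂ)))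
      * C (1 / (2 * ((1000 : ℝ) : ℂ)))).roots, ∃ w ∈ ((P.comp (X + C ((1000 : ℝ) : ℂ))
      - P.comp (X - C ((1000 : ℝ) : ℂ))) * C (1 / (2 * ((1000 : ℝ) : ℂ)))).roots,
      x = z.re - w.re} ≤ 1 := by
    apply Real.sSup_le _ (by norm_num)
    rintro x ⟨z, hz, w, hw, rfl⟩
    rcases roots_1000 z hz with h1 | h1 <;> rcases roots_1000 w hw with h2 | h2 <;>
      rw [h1, h2] <;> norm_num
  obtain ⟨z, hz, w, hw, hzw⟩ := roots_1100
  have hB := le_csSup (bdd ((P.comp (X + C ((1100 : ℝ) : ℂ)) - P.comp (X - C ((1100 : ℝ) : ℂ)))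
      * C (1 / (2 * ((1100 : ℝ) : ℂ))))) ⟨z, hz, w, hw, rfl⟩
  linarith

end Pool.Agent.S05958
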