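import Pool.Statements.S06313
import Pool.Agent.H48.LCA.Limit

set_option autoImplicit false
open scoped Pointwise
open Pool Pool.MP_d6a70f_an

namespace Pool.Agent.S06313

/-- For every Hausdorff locally compact abelian group and continuous endomorphism, the Haar-measure algebraic entropy of the map equals the Haar-measure (Bowen) topological entropy of its dual map on the Pontryagin dual. -/
theorem result :
  ∀ (G : Type) [CommGroup G] [TopologicalSpace G] [IsTopologicalGroup G]
    [LocallyCompactSpace G] [T2Space G]
    [MeasurableSpace G] [BorelSpace G]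
    [MeasurableSpace (PontryaginDual G)] [BorelSpace (PontryaginDual G)]
    (μ : MeasureTheory.Measure G) [MeasureTheory.Measure.IsHaarMeasure μ]
    (ν : MeasureTheory.Measure (PontryaginDual G)) [MeasureTheory.Measure.IsHaarMeasure ν]
    (φ : ContinuousMonoidHom G G),
    (⨆ (K : Set G) (_ : IsCompact K ∧ K ∈ nhds (1 : G)),
        Filter.limsup
          (fun n : ℕ => (((n : ℝ)⁻¹ : ℝ) : EReal) *
            ENNReal.log (μ (∏ i ∈ Finset.range n, (⇑φ)^[i] '' K)))
          Filter.atTop)
    = ⨆ (K : Set (PontryaginDual G)) (_ : IsCompact K ∧ K ∈ nhds (1 : PontryaginDual G)),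
        Filter.limsup
          (fun n : ℕ => (((n : ℝ)⁻¹ : ℝ) : EReal) *
            -ENNReal.log (ν (⋂ i ∈ Finset.range n, (⇑(PontryaginDual.map φ))^[i] ⁻¹' K)))
          Filter.atTop := by
  intro G _ _ _ _ _ _ _ _ _ μ _ ν _ φ
  exact Pool.Agent.H48.LCA.bridge μ ν φ

end Pool.Agent.S06313
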