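import Pool.Statements.S06434
import Pool.Agent.H49.DCHull

set_option autoImplicit false
open Classical
open Pool Pool.MP_e03363_an

namespace Pool.Agent.S06434

/-- The negation of the preceding statement: For every n,m≥1, every f = g∘(all minors) with g strictly convex and C^1, and every R>0, each point of the Λ_dc-convex hull of the R-truncated set {(X, Df(X), XᵀDf(X) − f(X)·I)} already lies in that set. -/
theorem result :
    ¬ (∀ n m : ℕ, 1 ≤ n → 1 ≤ m →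
  ∀ f : (Fin n → Fin m → ℝ) → ℝ,
    (∃ g : ((Σ k : Fin (min n m),
        {r : Fin (k.1 + 1) → Fin n // StrictMono r} ×
        {c : Fin (k.1 + 1) → Fin m // StrictMono c}) → ℝ) → ℝ,
      StrictConvexOn ℝ Set.univ g ∧ ContDiff ℝ 1 g ∧
      ∀ Y : Fin n → Fin m → ℝ,
        f Y = g (fun p => Matrix.det ((Matrix.of Y).submatrix p.2.1.1 p.2.2.1))) →
  ∀ R : ℝ, 0 < R →
  ∀ A : (Fin n → Fin m → ℝ) × (Fin n → Fin m → ℝ) × (Fin m → Fin m → ℝ),
    (∀ F : (Fin n → Fin m → ℝ) × (Fin n → Fin m → ℝ) × (Fin m → Fin m → ℝ) → ℝ,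
      (∀ A' B : (Fin n → Fin m → ℝ) × (Fin n → Fin m → ℝ) × (Fin m → Fin m → ℝ),
        (∃ ξ : Fin m → ℝ, ∑ j, ξ j ^ 2 = 1 ∧
          (∀ i, ∑ j, B.2.1 i j * ξ j = 0) ∧
          (∀ a, ∑ j, B.2.2 a j * ξ j = 0) ∧
          ∃ u : Fin n → ℝ, ∀ i j, B.1 i j = u i * ξ j) →
        ConvexOn ℝ Set.univ (fun t : ℝ => F (A' + t • B))) →
      (∀ P : (Fin n → Fin m → ℝ) × (Fin n → Fin m → ℝ) × (Fin m → Fin m → ℝ),
        (∃ X : Fin n → Fin m → ℝ,
          P = (X,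
               fun i j => fderiv ℝ f X
                 (fun a b => if a = i ∧ b = j then (1 : ℝ) else 0 : Fin n → Fin m → ℝ),
               fun a b => ∑ i, X i a * fderiv ℝ f X
                 (fun c d => if c = i ∧ d = b then (1 : ℝ) else 0 : Fin n → Fin m → ℝ)
                 - f X * (if a = b then (1 : ℝ) else 0)) ∧
          (∑ i, ∑ j, P.1 i j ^ 2) + (∑ i, ∑ j, P.2.1 i j ^ 2)
            + (∑ a, ∑ b, P.2.2 a b ^ 2) ≤ R ^ 2) →
        F P ≤ 0) →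
      F A ≤ 0) →
    ∃ X : Fin n → Fin m → ℝ,
      A = (X,
           fun i j => fderiv ℝ f X
             (fun a b => if a = i ∧ b = j then (1 : ℝ) else 0 : Fin n → Fin m → ℝ),
           fun a b => ∑ i, X i a * fderiv ℝ f X
             (fun c d => if c = i ∧ d = b then (1 : ℝ) else 0 : Fin n → Fin m → ℝ)
             - f X * (if a = b then (1 : ℝ) else 0)) ∧
      (∑ i, ∑ j, A.1 i j ^ 2) + (∑ i, ∑ j, A.2.1 i j ^ 2)
        + (∑ a, ∑ b, A.2.2 a b ^ 2) ≤ R ^ 2) := by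
  intro hmain
  obtain ⟨κ, g, hg1, hg2, hg3⟩ := Pool.Agent.H49.DC.interp
    (fun A : Fin 16 => Pool.Agent.H49.DC.Phi (Pool.Agent.H49.DC.rl (Pool.Agent.H49.DC.lf A)))
    Pool.Agent.H49.DC.ell Pool.Agent.H49.DC.ell_neg
  set N : Pool.Agent.H49.DC.Mx × Pool.Agent.H49.DC.Mx × (Fin 2 → Fin 2 → ℝ) → ℝ := fun P =>
    (∑ i, ∑ j, P.1 i j ^ 2) + (∑ i, ∑ j, P.2.1 i j ^ 2) + (∑ a, ∑ b, P.2.2 a b ^ 2) with hN
  set lv : Fin 16 → Pool.Agent.H49.DC.Mx :=
    fun A => Pool.Agent.H49.DC.rl (Pool.Agent.H49.DC.lf A) with hlv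
  set S : ℝ := ∑ A : Fin 16, N (Pool.Agent.H49.DC.emb κ (lv A)) with hS
  have hNn : ∀ P, 0 ≤ N P := by
    intro P
    simp only [hN]
    positivity
  have hSn : 0 ≤ S := Finset.sum_nonneg fun A _ => hNn _
  have hNS : ∀ A, N (Pool.Agent.H49.DC.emb κ (lv A)) ≤ (1 + S) ^ 2 := by
    intro A
    have h1 : N (Pool.Agent.H49.DC.emb κ (lv A)) ≤ S :=
      Finset.single_le_sum (f := fun A => N (Pool.Agent.H49.DC.emb κ (lv A)))
        (fun B _ => hNn _) (Finset.mem_univ A)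
    nlinarith
  -- data of the leaves
  have hval : ∀ A, g (Pool.Agent.H49.DC.Phi (lv A)) = κ := fun A => (hg3 A).1
  have hder : ∀ A (i : Fin 6) (j : Fin 2),
      fderiv ℝ (fun X : Fin 6 → Fin 2 → ℝ => g (Pool.Agent.H49.DC.Phi X)) (lv A)
        (fun a b => if a = i ∧ b = j then (1 : ℝ) else 0 : Fin 6 → Fin 2 → ℝ) =
      Pool.Agent.H49.DC.YY (lv A) i j := by
    intro A i j
    have h := Pool.Agent.H49.DC.fderiv_leaf_unit A g (hg3 A).2 i j
    convert h using 3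
  have hmem := hmain 6 2 (by norm_num) (by norm_num) (fun X => g (Pool.Agent.H49.DC.Phi X))
    ⟨g, hg1, hg2, fun Y => rfl⟩ (1 + S) (by linarith)
    (Pool.Agent.H49.DC.emb κ (Pool.Agent.H49.DC.rl (Pool.Agent.H49.DC.nd 0))) (by
      intro F hF hK
      refine Pool.Agent.H49.DC.hull (F := F) hF κ (fun A => ?_) 0
      refine hK _ ⟨lv A, ?_, hNS A⟩
      refine Prod.ext rfl (Prod.ext ?_ ?_)
      · funext i j
        exact (hder A i j).symm
      · funext a b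
        show Pool.Agent.H49.DC.ZZ κ a b = ∑ i, lv A i a * _ - g (Pool.Agent.H49.DC.Phi (lv A)) * _
        rw [hval A, ← Pool.Agent.H49.DC.ZZ_leaf κ A a b]
        congr 1
        refine Finset.sum_congr rfl fun i _ => ?_
        rw [hder A i b])
  obtain ⟨X, hX, -⟩ := hmem
  have hX1 : Pool.Agent.H49.DC.rl (Pool.Agent.H49.DC.nd 0) = X := congrArg Prod.fst hX
  subst hX1
  have hX2 := congrArg (fun P => P.2.1) hX
  have hX3 := congrArg (fun P => P.2.2) hX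
  simp only [Pool.Agent.H49.DC.emb] at hX2 hX3
  have e00 := congrFun (congrFun hX3 0) 0
  have e11 := congrFun (congrFun hX3 1) 1
  have hYi : ∀ i j, fderiv ℝ (fun X : Fin 6 → Fin 2 → ℝ => g (Pool.Agent.H49.DC.Phi X))
      (Pool.Agent.H49.DC.rl (Pool.Agent.H49.DC.nd 0))
        (fun a b => if a = i ∧ b = j then (1 : ℝ) else 0 : Fin 6 → Fin 2 → ℝ) =
      Pool.Agent.H49.DC.YY (Pool.Agent.H49.DC.rl (Pool.Agent.H49.DC.nd 0)) i j := by
    intro i j
    exact (congrFun (congrFun hX2 i) j).symm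
  simp only [hYi] at e00 e11
  have f1 : ∑ i, (Pool.Agent.H49.DC.nd 0 i 0 : ℝ) *
      (Pool.Agent.H49.DC.cC i * Pool.Agent.H49.DC.nd 0 i 1) ≠ 0 := by
    exact_mod_cast Pool.Agent.H49.DC.node_not_iso
  apply f1
  simp [Pool.Agent.H49.DC.YY, Pool.Agent.H49.DC.ZZ, Pool.Agent.H49.DC.rl] at e00 e11
  have f2 : ∑ i, (Pool.Agent.H49.DC.nd 0 i 1 : ℝ) *
      (Pool.Agent.H49.DC.cC i * Pool.Agent.H49.DC.nd 0 i 0) =
      ∑ i, (Pool.Agent.H49.DC.nd 0 i 0 : ℝ) *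
      (Pool.Agent.H49.DC.cC i * Pool.Agent.H49.DC.nd 0 i 1) := by
    refine Finset.sum_congr rfl fun i _ => ?_
    ring
  rw [f2] at e11
  linarith

end Pool.Agent.S06434
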