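import Pool.Statements.S06476
import Pool.Agent.H45.KA.Fin

set_option autoImplicit false
open Filter Topology
open Pool Pool.MP_e2ead1_an

namespace Pool.Agent.S06476

/-- The negation of the preceding statement: Every separable real Banach space X admits a sequence of self-maps, uniformly equicontinuous (one δ per ε for all of them), each with relatively compact range, converging pointwise to the identity. -/
theorem result :
    ¬ (∀ (X : Type) [NormedAddCommGroup X] [NormedSpace ℝ X] [CompleteSpace X]
      [TopologicalSpace.SeparableSpace X],
      ∃ ψ : ℕ → X → X,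
        (∀ ε : ℝ, 0 < ε → ∃ δ : ℝ, 0 < δ ∧
          ∀ (n : ℕ) (x y : X), dist x y < δ → dist (ψ n x) (ψ n y) < ε) ∧
        (∀ n : ℕ, IsCompact (closure (Set.range (ψ n)))) ∧
        (∀ x : X, Tendsto (fun n => ψ n x) atTop (𝓝 x))) := by
  exact Pool.Agent.H45.KA.main

end Pool.Agent.S06476
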