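import Pool.Statements.S06590
import Pool.Agent.H13.EC.A3

set_option autoImplicit false
open Pool Pool.MP_ecfee9_an

namespace Pool.Agent.S06590

/-- The negation of the preceding statement: For bounded univalent disk maps f=Σa_n z^n (∣f∣≤1) and univalent exterior maps z+Σb_n z^(-n), log(sup∣a_n∣)/log n and log(sup∣b_n∣)/log n both tend to −3/4. -/
theorem result :
    ¬ (Filter.Tendsto
      (fun n : ℕ =>
        Real.log (sSup {x : ℝ | ∃ f : ℂ → ℂ,
          DifferentiableOn ℂ f (Metric.ball (0 : ℂ) 1) ∧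
          Set.InjOn f (Metric.ball (0 : ℂ) 1) ∧
          f 0 = 0 ∧
          (∀ z ∈ Metric.ball (0 : ℂ) 1, ‖f z‖ ≤ 1) ∧
          x = ‖iteratedDeriv n f 0‖ / (n.factorial : ℝ)}) / Real.log (n : ℝ))
      Filter.atTop (nhds (-3 / 4 : ℝ)) ∧
    Filter.Tendsto
      (fun n : ℕ =>
        Real.log (sSup {x : ℝ | ∃ h : ℂ → ℂ,
          DifferentiableOn ℂ h (Metric.ball (0 : ℂ) 1) ∧
          h 0 = 0 ∧
          Set.InjOn (fun z : ℂ => z + h z⁻¹) {z : ℂ | 1 < ‖z‖} ∧
          x = ‖iteratedDeriv n h 0‖ / (n.factorial : ℝ)}) / Real.log (n : ℝ))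
      Filter.atTop (nhds (-3 / 4 : ℝ))) := by
  exact H13.EC.not_conj

end Pool.Agent.S06590
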