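import Pool.Statements.S06693
import Pool.Agent.H45.Ent.Final

set_option autoImplicit false
open Pool Pool.MP_f39e07_an

namespace Pool.Agent.S06693

/-- There is an infinite, finitely generated, recursively presented amenable group whose SFT entropy set strictly contains {q log λ : q positive rational, λ Perron} and is strictly contained in the nonnegative right-recursively enumerable reals. -/
theorem result :
  ∃ (G : Type) (_ : Group G), Infinite G ∧ Group.FG G ∧
    (∀ K : Finset G, ∀ ε : ℝ, 0 < ε → ∃ F : Finset G, F.Nonempty ∧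
      ∀ k ∈ K, ((((fun f => k * f) '' (F : Set G)) \ (F : Set G)).ncard : ℝ) < ε * (F.card : ℝ)) ∧
    (∃ n : ℕ, ∃ φ : FreeGroup (Fin n) →* G, Function.Surjective φ ∧
      REPred (fun w : List (Fin n × Bool) => φ (FreeGroup.mk w) = 1)) ∧
    ∃ E : Set ℝ,
      E = {h : ℝ | ∃ k : ℕ, ∃ D : Finset G, ∃ P : Set (G → Fin k),
        h = ⨅ F : {F : Finset G // F.Nonempty},
          Real.log (((fun x : G → Fin k => (F.1 : Set G).restrict x) ''
            {x : G → Fin k | ∀ g : G, ∀ p ∈ P, ∃ d ∈ D, x (d * g) ≠ p d}).ncard : ℝ)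
            / (F.1.card : ℝ)} ∧
      {h : ℝ | ∃ q : ℚ, 0 < q ∧ ∃ l : ℝ, 1 ≤ l ∧ IsIntegral ℤ l ∧
        (∀ z : ℂ, Polynomial.aeval z (minpoly ℤ l) = 0 → z ≠ (l : ℂ) → ‖z‖ < l) ∧
        h = (q : ℝ) * Real.log l} ⊂ E ∧
      E ⊂ {x : ℝ | 0 ≤ x ∧ ∃ a b : ℕ → ℕ, Computable a ∧ Computable b ∧
        x = ⨅ n : ℕ, (a n : ℝ) / ((b n : ℝ) + 1)} :=
  Pool.Agent.H45.Ent.main_theorem

end Pool.Agent.S06693
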