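import Pool.Statements.S06696
import Pool.Agent.H53.SchattenFour
import Pool.Agent.H53.SchattenTrace

set_option autoImplicit false
open scoped NNReal ENNReal
open Pool Pool.MP_f41f1b_an

namespace Pool.Agent.S06696

/-- The negation of the preceding statement: For 1<p<∞, every map on S_p that is contractive in both the trace norm and the operator norm has an isometric dilation: an isometric embedding J, a contractive projection P onto J(S_p), and a linear isometry U of S_p with P Uⁿ J = J Tⁿ for all n. -/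
theorem result :
    ¬ (∀ (H : Type) [NormedAddCommGroup H] [InnerProductSpace ℂ H] [CompleteSpace H]
      (b : HilbertBasis ℕ ℂ H) (Q : ℝ → (H →L[ℂ] H) → ℝ≥0∞),
      (∀ (r : ℝ) (x : H →L[ℂ] H),
        Q r x = ∑' n : ℕ, ENNReal.ofReal
          (inner ℂ (b n) ((cfc (fun t : ℝ => t ^ (r / 2)) (star x * x)) (b n))).re) →
      ∀ p : ℝ, 1 < p →
      ∀ T : (H →L[ℂ] H) →ₗ[ℂ] (H →L[ℂ] H),
        (∀ x, Q p x < ⊤ → Q p (T x) < ⊤) →
        (∃ C : ℝ≥0, ∀ x, Q p x < ⊤ → Q p (T x) ≤ (C : ℝ≥0∞) * Q p x) →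
        (∀ x, Q p x < ⊤ → Q 1 x < ⊤ → Q 1 (T x) ≤ Q 1 x) →
        (∀ x, Q p x < ⊤ → ‖T x‖ ≤ ‖x‖) →
        ∃ J P U : (H →L[ℂ] H) →ₗ[ℂ] (H →L[ℂ] H),
          (∀ x, Q p x < ⊤ → Q p (J x) = Q p x) ∧
          (∀ y, Q p y < ⊤ → ∃ x, Q p x < ⊤ ∧ P y = J x) ∧
          (∀ x, Q p x < ⊤ → P (J x) = J x) ∧
          (∀ y, Q p y < ⊤ → Q p (P y) ≤ Q p y) ∧
          (∀ x, Q p x < ⊤ → Q p (U x) = Q p x) ∧
          (∀ n : ℕ, ∀ x, Q p x < ⊤ → P ((U ^ n) (J x)) = J ((T ^ n) x))) := by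
  intro hall
  -- the standard separable Hilbert space and its standard basis
  let b : HilbertBasis ℕ ℂ (lp (fun _ : ℕ => ℂ) 2) := ⟨LinearIsometryEquiv.refl ℂ _⟩
  have h := hall (lp (fun _ : ℕ => ℂ) 2) b (Pool.Agent.H53.Qs b) (fun r x => rfl) 4 (by norm_num)
    (Pool.Agent.H53.avg b)
  have hQ : ∀ x, Pool.Agent.H53.Qs b 4 x = Pool.Agent.H53.q4 b x := Pool.Agent.H53.Qs_four b
  simp only [hQ] at h
  obtain ⟨J, P, U, hJ, -, hPJ, hP, hU, hdil⟩ := h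
    (fun x hx => lt_of_le_of_lt (Pool.Agent.H53.q4_avg_le b x) hx)
    ⟨1, fun x _ => by
      rw [ENNReal.coe_one, one_mul]
      exact Pool.Agent.H53.q4_avg_le b x⟩
    (fun x _ _ => Pool.Agent.H53.Qs_one_avg_le b x)
    (fun x _ => Pool.Agent.H53.norm_avg_le b x)
  have hE : Pool.Agent.H53.pr b 0 + Pool.Agent.H53.pr b 1 = Pool.Agent.H53.E2 b := rfl
  have hd : (2⁻¹ : ℂ) • Pool.Agent.H53.E2 b - Pool.Agent.H53.pr b 0 =
      (2⁻¹ : ℂ) • (Pool.Agent.H53.pr b 1 - Pool.Agent.H53.pr b 0) := by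
    have e0 : Pool.Agent.H53.pr b 0 = (2⁻¹ : ℂ) • (Pool.Agent.H53.pr b 0 + Pool.Agent.H53.pr b 0) := by
      rw [← two_smul ℂ (Pool.Agent.H53.pr b 0), smul_smul]
      norm_num
    conv_lhs => rw [e0]
    rw [← smul_sub, ← hE]
    congr 1
    abel
  refine Pool.Agent.H53.no_dilation_core b (E0 := Pool.Agent.H53.pr b 0)
    (E1 := Pool.Agent.H53.pr b 1) (F := (2⁻¹ : ℂ) • Pool.Agent.H53.E2 b) ?_ ?_ ?_ ?_
    (Pool.Agent.H53.avg b) ?_ ?_ ?_ ?_ J P U hJ hPJ hP hU hdil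
  · rw [Pool.Agent.H53.q4_pr]; exact ENNReal.one_lt_top
  · rw [Pool.Agent.H53.q4_pr]; exact ENNReal.one_lt_top
  · rw [Pool.Agent.H53.star_pr, Pool.Agent.H53.pr_mul_ne b (by norm_num)]
  · rw [Pool.Agent.H53.star_pr, Pool.Agent.H53.pr_mul_ne b (by norm_num)]
  · rw [hE, Pool.Agent.H53.avg_E2]
  · exact fun n => Pool.Agent.H53.avg_pow_pr0 b n
  · intro heq
    have h1 : Pool.Agent.H53.q4 b ((2⁻¹ : ℂ) • Pool.Agent.H53.E2 b) =
        Pool.Agent.H53.q4 b (Pool.Agent.H53.pr b 0) := by rw [heq]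
    rw [Pool.Agent.H53.q4_smul, Pool.Agent.H53.q4_E2, Pool.Agent.H53.q4_pr] at h1
    have e2 : (2 : ℝ≥0∞) = ENNReal.ofReal 2 := by simp
    rw [e2, ← ENNReal.ofReal_mul (by positivity)] at h1
    have h2 : ‖(2⁻¹ : ℂ)‖ = 2⁻¹ := by simp
    rw [h2] at h1
    have h3 : ENNReal.ofReal ((2⁻¹ : ℝ) ^ 4 * 2) = ENNReal.ofReal 1 := by
      rw [h1]; simp
    rw [ENNReal.ofReal_eq_ofReal_iff (by positivity) (by norm_num)] at h3
    norm_num at h3
  · rw [hd, Pool.Agent.H53.q4_smul]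
    refine ENNReal.mul_lt_top ENNReal.ofReal_lt_top ?_
    exact Pool.Agent.H53.q4_sub_lt_top b
      (by rw [Pool.Agent.H53.q4_pr]; exact ENNReal.one_lt_top)
      (by rw [Pool.Agent.H53.q4_pr]; exact ENNReal.one_lt_top)

end Pool.Agent.S06696
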