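import Pool.Statements.S07373
import Pool.Agent.H55.AddSq

set_option autoImplicit false
open N348dff2d
open Set
open scoped NNReal
open Pool Pool.MP_1756fc_co

namespace Pool.Agent.S07373

/-- There exist K ≥ 0 and a K-Lipschitz f : ℕ → ℤ whose graph {(n, f n)} ⊆ ℤ² contains no 3-element arithmetic progression {a, a+d, a+2d} (with 3 distinct points). -/
theorem result :
    ∃ K : ℝ≥0, ∃ f : ℕ → ℤ, LipschitzWith K f ∧ IsAPOfLengthFree {((n, f n) : ℤ × ℤ) | (n : ℕ)} 3 := by
  refine ⟨955, Pool.Agent.H55.AddSq.g, ?_, ?_⟩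
  · -- Lipschitz
    have hmono : ∀ k n : ℕ, |Pool.Agent.H55.AddSq.g (n + k) - Pool.Agent.H55.AddSq.g n| ≤ 955 * k := by
      intro k
      induction k with
      | zero => intro n; simp
      | succ k ih =>
        intro n
        have h1 := ih n
        obtain ⟨h2, h3⟩ := Pool.Agent.H55.AddSq.g_step (n + k)
        rw [abs_le] at h1 ⊢
        rw [show n + (k + 1) = n + k + 1 by ring]
        push_cast
        constructor <;> linarith [h1.1, h1.2]
    have hle : ∀ a b : ℕ, a ≤ b →
        |Pool.Agent.H55.AddSq.g a - Pool.Agent.H55.AddSq.g b| ≤ 955 * |(a : ℤ) - b| := by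
      intro a b hab
      obtain ⟨k, rfl⟩ := Nat.exists_eq_add_of_le hab
      rw [abs_sub_comm]
      have := hmono k a
      have e : |(a : ℤ) - ((a + k : ℕ) : ℤ)| = k := by
        push_cast
        rw [show (a : ℤ) - (a + k) = -(k : ℤ) by ring, abs_neg]
        exact abs_of_nonneg (by positivity)
      rw [e]; exact this
    have hall : ∀ a b : ℕ,
        |Pool.Agent.H55.AddSq.g a - Pool.Agent.H55.AddSq.g b| ≤ 955 * |(a : ℤ) - b| := by
      intro a b
      rcases le_total a b with h | h
      · exact hle a b h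
      · rw [abs_sub_comm, abs_sub_comm (a : ℤ)]; exact hle b a h
    apply LipschitzWith.of_dist_le_mul
    intro a b
    rw [Int.dist_eq, Nat.dist_eq]
    have := hall a b
    have h' : ((|Pool.Agent.H55.AddSq.g a - Pool.Agent.H55.AddSq.g b| : ℤ) : ℝ) ≤
        ((955 * |(a : ℤ) - b| : ℤ) : ℝ) := by exact_mod_cast this
    push_cast at h'
    simpa using h'
  · -- no progression
    intro t ht hAP
    exfalso
    obtain ⟨a, d, hc, he⟩ := hAP
    have mem : ∀ k : ℕ, k < 3 → a + k • d ∈ t := by
      intro k hk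
      rw [he]
      exact ⟨k, by exact_mod_cast hk, rfl⟩
    have hd : d ≠ 0 := by
      rintro rfl
      have : t ⊆ {a} := by
        rw [he]; rintro x ⟨k, _, rfl⟩; simp
      have h1 : t.encard ≤ 1 := (Set.encard_le_encard this).trans (by simp)
      have h3 : t.encard = 3 := hc
      rw [h3] at h1
      exact absurd h1 (by decide)
    obtain ⟨n0, h0⟩ := ht (mem 0 (by norm_num))
    obtain ⟨n1, h1⟩ := ht (mem 1 (by norm_num))
    obtain ⟨n2, h2⟩ := ht (mem 2 (by norm_num))
    have x0 : (n0 : ℤ) = a.1 := by have := congrArg Prod.fst h0; simpa using this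
    have y0 : Pool.Agent.H55.AddSq.g n0 = a.2 := by have := congrArg Prod.snd h0; simpa using this
    have x1 : (n1 : ℤ) = a.1 + d.1 := by have := congrArg Prod.fst h1; simpa using this
    have y1 : Pool.Agent.H55.AddSq.g n1 = a.2 + d.2 := by
      have := congrArg Prod.snd h1; simpa using this
    have x2 : (n2 : ℤ) = a.1 + 2 * d.1 := by have := congrArg Prod.fst h2; simpa using this
    have y2 : Pool.Agent.H55.AddSq.g n2 = a.2 + 2 * d.2 := by
      have := congrArg Prod.snd h2; simpa using this
    rcases lt_trichotomy d.1 0 with hneg | hz | hpos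
    · -- reversed
      obtain ⟨e, he1⟩ : ∃ e : ℕ, (e : ℤ) = -d.1 := ⟨(-d.1).toNat, Int.toNat_of_nonneg (by omega)⟩
      have a1 : n1 = n2 + e := by omega
      have a0 : n0 = n2 + 2 * e := by omega
      refine Pool.Agent.H55.AddSq.g_noAP e (by omega) n2 ?_
      rw [← a1, ← a0, y0, y1, y2]; ring
    · have : n0 = n1 := by omega
      subst this
      apply hd
      have : d.2 = 0 := by linarith
      exact Prod.ext hz this
    · obtain ⟨e, he1⟩ : ∃ e : ℕ, (e : ℤ) = d.1 := ⟨d.1.toNat, Int.toNat_of_nonneg (by omega)⟩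
      have a1 : n1 = n0 + e := by omega
      have a2 : n2 = n0 + 2 * e := by omega
      refine Pool.Agent.H55.AddSq.g_noAP e (by omega) n0 ?_
      rw [← a1, ← a2, y0, y1, y2]; ring

end Pool.Agent.S07373
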