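import Pool.Statements.S07465
-- import your own Pool.Agent.* helpers here
import Pool.Agent.H78BT.Greedy

set_option autoImplicit false
open Pool Pool.MP_1c345d_co

namespace Pool.Agent.S07465

/-- For r at least 3, every r-uniform hypergraph on finitely many vertices with m edges admits a coloring of vertices with r colors such that, for each color, at least rm/(2r-1) edges contain a vertex of that color. -/
theorem result :
    ∀ r : ℕ, 3 ≤ r → ∀ n : ℕ, ∀ E : Finset (Finset (Fin n)),
      (∀ e ∈ E, e.card = r) →
      ∃ f : Fin n → Fin r, ∀ i : Fin r,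
        r * E.card ≤ (2 * r - 1) * (E.filter (fun e => ∃ v ∈ e, f v = i)).card := by
  intro r hr n E hE
  -- number of edges met by a set, and the family of good sets
  let d : Finset (Fin n) → ℕ := fun S => (E.filter (fun e => ¬ Disjoint S e)).card
  let G : Finset (Fin n) → Bool := fun S => decide (r * E.card ≤ (2 * r - 1) * d S)
  have hd : ∀ S T : Finset (Fin n), S ⊆ T → d S ≤ d T := by
    intro S T hST
    apply Finset.card_le_card
    intro e he
    rw [Finset.mem_filter] at he ⊢
    exact ⟨he.1, fun h => he.2 (h.mono_left hST)⟩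
  have hG : Pool.Agent.H78BT.Up G := by
    intro S T hST h
    have h1 : r * E.card ≤ (2 * r - 1) * d S := of_decide_eq_true h
    exact decide_eq_true (h1.trans (Nat.mul_le_mul_left _ (hd S T hST)))
  by_cases hpack : Pool.Agent.H78BT.PackN G r Finset.univ
  · obtain ⟨f, hf⟩ := Pool.Agent.H78BT.coloring_of_packN G r Finset.univ hpack
    have hr0 : 0 < r := by omega
    refine ⟨fun v => if h : f v < r then ⟨f v, h⟩ else ⟨0, hr0⟩, ?_⟩
    intro i
    obtain ⟨T, _, hfT, hGT⟩ := hf i.1 i.2
    have h1 : r * E.card ≤ (2 * r - 1) * d T := of_decide_eq_true hGT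
    refine h1.trans (Nat.mul_le_mul_left _ (Finset.card_le_card ?_))
    intro e he
    rw [Finset.mem_filter] at he ⊢
    refine ⟨he.1, ?_⟩
    obtain ⟨v, hvT, hve⟩ := Finset.not_disjoint_iff.1 he.2
    refine ⟨v, hve, ?_⟩
    have h2 : f v = i.1 := hfT v hvT
    simp [h2]
  · exfalso
    -- no edges is impossible
    have hEne : E.Nonempty := by
      rw [Finset.nonempty_iff_ne_empty]
      rintro rfl
      apply hpack
      have hall : ∀ S, G S = true := by
        intro S
        apply decide_eq_true
        simp
      have : ∀ k : ℕ, ∀ C : Finset (Fin n), Pool.Agent.H78BT.PackN G k C := by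
        intro k
        induction k with
        | zero => intro C; trivial
        | succ k ih => intro C; exact ⟨∅, Finset.empty_subset _, hall _, ih _⟩
      exact this r _
    have hEpos : (0:ℝ) < E.card := by exact_mod_cast hEne.card_pos
    have hr1 : (3:ℝ) ≤ r := by exact_mod_cast hr
    -- the empty set is not good
    have hempty : G ∅ ≠ true := by
      intro h
      have h1 : r * E.card ≤ (2 * r - 1) * d ∅ := of_decide_eq_true h
      have h2 : d ∅ = 0 := by
        simp [d]
      rw [h2, Nat.mul_zero] at h1
      have h3 : 0 < r * E.card := Nat.mul_pos (by omega) hEne.card_pos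
      omega
    -- bad sets miss many edges
    have hbad : ∀ X : Finset (Fin n), G X ≠ true →
        (fun Y => ∑ e ∈ E, - Pool.Agent.H78BT.miss e Y) X
          ≤ - (((r : ℝ) - 1) * E.card + 1) / (2 * r - 1) := by
      intro X hX
      have h1 : (2 * r - 1) * d X < r * E.card := by
        by_contra h
        exact hX (decide_eq_true (not_lt.1 h))
      have h2 : ∑ e ∈ E, Pool.Agent.H78BT.miss e X = (E.card : ℝ) - d X := by
        have h3 : ∑ e ∈ E, Pool.Agent.H78BT.miss e X
            = ((E.filter (fun e => Disjoint X e)).card : ℝ) := by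
          unfold Pool.Agent.H78BT.miss
          rw [Finset.sum_boole]
        have h4 : (E.filter (fun e => Disjoint X e)).card + d X = E.card :=
          Finset.card_filter_add_card_filter_not _
        rw [h3, ← h4]; push_cast; ring
      have h5 : (2 * (r:ℝ) - 1) * d X + 1 ≤ r * E.card := by
        have h6 : (2 * r - 1) * d X + 1 ≤ r * E.card := h1
        have h7 : (((2 * r - 1 : ℕ) : ℝ)) = 2 * (r:ℝ) - 1 := by
          rw [Nat.cast_sub (by omega)]; push_cast; ring
        rw [← h7]
        exact_mod_cast h6
      have h8 : (0:ℝ) < 2 * r - 1 := by linarith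
      simp only
      rw [Finset.sum_neg_distrib, h2, le_div_iff₀ h8]
      linarith
    have h1 := Pool.Agent.H78BT.gr_le G
      (fun Y => ∑ e ∈ E, - Pool.Agent.H78BT.miss e Y) _ hbad Finset.univ ∅ hempty
    rw [Pool.Agent.H78BT.gr_sum E G (fun e Y => - Pool.Agent.H78BT.miss e Y)] at h1
    have h8 : (0:ℝ) < 2 * r - 1 := by linarith
    -- the greedy average of each summand
    have hneg : ∀ (e : Finset (Fin n)) (C X : Finset (Fin n)),
        Pool.Agent.H78BT.gr G (fun Y => - Pool.Agent.H78BT.miss e Y) X C
          = - Pool.Agent.H78BT.gr G (Pool.Agent.H78BT.miss e) X C := by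
      intro e C
      induction C using Finset.strongInduction with
      | H C ih =>
        intro X
        rcases C.eq_empty_or_nonempty with h | h
        · subst h; rfl
        · have h4 : (0:ℝ) < C.card := by exact_mod_cast h.card_pos
          have h5 : (C.card : ℝ) * Pool.Agent.H78BT.gr G
              (fun Y => - Pool.Agent.H78BT.miss e Y) X C
              = (C.card : ℝ) * (- Pool.Agent.H78BT.gr G (Pool.Agent.H78BT.miss e) X C) := by
            rw [mul_neg, Pool.Agent.H78BT.gr_rec, Pool.Agent.H78BT.gr_rec,
              ← Finset.sum_neg_distrib]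
            exact Finset.sum_congr rfl fun x hx => ih _ (Finset.erase_ssubset hx) _
          exact mul_left_cancel₀ h4.ne' h5
    have h2 : ∑ e ∈ E, Pool.Agent.H78BT.gr G (Pool.Agent.H78BT.miss e) ∅ Finset.univ
        ≤ ∑ e ∈ E, ((r:ℝ) - 1) / (2 * r - 1) := by
      apply Finset.sum_le_sum
      intro e he
      have hec := hE e he
      have := Pool.Agent.H78BT.miss_bound G hG e (by omega) (by rw [hec]; exact hpack)
      rw [hec] at this
      rw [le_div_iff₀ h8]
      linarith
    rw [Finset.sum_const, nsmul_eq_mul] at h2
    simp only [hneg, Finset.sum_neg_distrib] at h1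
    have h3 : (((r : ℝ) - 1) * E.card + 1) / (2 * r - 1)
        ≤ (E.card : ℝ) * (((r:ℝ) - 1) / (2 * r - 1)) := by
      have e1 : - (((r : ℝ) - 1) * E.card + 1) / (2 * r - 1)
          = - ((((r : ℝ) - 1) * E.card + 1) / (2 * r - 1)) := by ring
      rw [e1] at h1
      linarith
    rw [div_le_iff₀ h8] at h3
    have e2 : (E.card : ℝ) * (((r:ℝ) - 1) / (2 * r - 1)) * (2 * r - 1)
        = E.card * ((r:ℝ) - 1) := by
      rw [mul_assoc, div_mul_cancel₀ _ h8.ne']
    rw [e2] at h3
    linarith

end Pool.Agent.S07465
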