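import Pool.Statements.S07487
import Pool.Agent.H52.SizeRamsey

set_option autoImplicit false
open Pool Pool.MP_1cfd87_co

namespace Pool.Agent.S07487

/-- For any sequence of graphs without isolated vertices, with at least one edge, bounded max degree and vertex count tending to infinity, the limsup over t of the size Ramsey number of (G_n, tK_2) divided by t times ∣E(G_n)∣ tends to 0. -/
theorem result :
  ∀ (k : ℕ → ℕ) (G : ∀ n, SimpleGraph (Fin (k n))),
    Filter.Tendsto k Filter.atTop Filter.atTop →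
    (∃ D : ℕ, ∀ n v, ((G n).neighborSet v).ncard ≤ D) →
    (∀ n, ∃ v w, (G n).Adj v w) →
    (∀ n v, ∃ w, (G n).Adj v w) →
    ∀ ε : ℝ, 0 < ε → ∃ N : ℕ, ∀ n ≥ N, ∃ T : ℕ, ∀ t ≥ T,
      ((sInf {e : ℕ | ∃ (m : ℕ) (F : SimpleGraph (Fin m)), F.edgeSet.ncard = e ∧
          ∀ R : SimpleGraph (Fin m), R ≤ F →
            (∃ f : Fin (k n) → Fin m, Function.Injective f ∧
                ∀ a b, (G n).Adj a b → R.Adj (f a) (f b)) ∨
            (∃ g : Fin t ⊕ Fin t → Fin m, Function.Injective g ∧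
                ∀ i, F.Adj (g (Sum.inl i)) (g (Sum.inr i)) ∧
                  ¬ R.Adj (g (Sum.inl i)) (g (Sum.inr i)))} : ℕ) : ℝ)
        / ((t : ℝ) * (((G n).edgeSet.ncard : ℕ) : ℝ)) ≤ ε := by
  classical
  intro k G hk hD0 _ hiso ε hε
  obtain ⟨D0, hD0⟩ := hD0
  obtain ⟨D, hDdef⟩ : ∃ D, D = D0 + 1 := ⟨_, rfl⟩
  have hDpos : 0 < D := by omega
  have hcl : ∀ n v, {w | w = v ∨ (G n).Adj v w}.ncard ≤ D := by
    intro n v
    have h1 : {w | w = v ∨ (G n).Adj v w} = insert v ((G n).neighborSet v) := by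
      ext w
      simp [SimpleGraph.mem_neighborSet]
    rw [h1]
    refine (Set.ncard_insert_le _ _).trans ?_
    have := hD0 n v
    omega
  set K := D ^ 2 + 1 with hK
  set C : ℝ := 16 * (K : ℝ) ^ 2 * (8 * D) ^ K with hC
  have hCpos : 0 < C := by positivity
  obtain ⟨M', hM'⟩ := exists_nat_gt (2 * C / ε)
  have hM'pos : (0 : ℝ) < M' := lt_trans (by positivity) hM'
  have hM'pos' : 0 < M' := by exact_mod_cast hM'pos
  set M := 2 * D * M' with hM
  have hM2 : 2 ≤ M := by
    rw [hM]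
    nlinarith [Nat.mul_pos hDpos hM'pos']
  have hMpos : (0 : ℝ) < M := by
    have : 0 < M := by omega
    exact_mod_cast this
  set Cc : ℝ := 2 * 2 ^ (K * (2 * M) ^ K) with hCc
  have hCcpos : 0 < Cc := by positivity
  obtain ⟨N, hN⟩ := (hk.eventually_ge_atTop ⌈(M : ℝ) ^ K * (Cc + 1)⌉₊).exists_forall_of_atTop
  refine ⟨N, ?_⟩
  intro n hn
  have hkn : (M : ℝ) ^ K * (Cc + 1) ≤ k n := Nat.ceil_le.mp (hN n hn)
  have hknpos : (0 : ℝ) < k n := lt_of_lt_of_le (by positivity) hkn
  set s := ⌈(k n : ℝ) / (M : ℝ) ^ K + Cc⌉₊ with hs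
  have hs1 : (k n : ℝ) / (M : ℝ) ^ K + Cc ≤ s := Nat.le_ceil _
  have hs2 : (s : ℝ) ≤ 2 * (k n / (M : ℝ) ^ K) := by
    have h1 : (s : ℝ) < (k n : ℝ) / (M : ℝ) ^ K + Cc + 1 := Nat.ceil_lt_add_one (by positivity)
    have h2 : Cc + 1 ≤ (k n : ℝ) / (M : ℝ) ^ K := by
      rw [le_div_iff₀ (by positivity)]
      linarith
    linarith
  have hspos : (0 : ℝ) < s := lt_of_lt_of_le (by positivity) hs1
  have hspos' : 0 < s := by exact_mod_cast hspos
  set m := s * M' ^ K with hm
  have hmpos : 0 < m := by positivity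
  have hmcond : 2 * m * (2 * D) ^ K ≤ s * (2 * M) ^ K := by
    have h1 : 2 * m * (2 * D) ^ K = 2 * (s * M ^ K) := by
      rw [hm, hM, mul_pow (2 * D) M']
      ring
    have h2 : s * (2 * M) ^ K = 2 ^ K * (s * M ^ K) := by
      rw [mul_pow]
      ring
    rw [h1, h2]
    apply Nat.mul_le_mul_right
    calc 2 = 2 ^ 1 := by norm_num
      _ ≤ 2 ^ K := Nat.pow_le_pow_right (by norm_num) (by rw [hK]; omega)
  refine ⟨m, ?_⟩
  intro t ht
  set q := t / m + 1 with hq
  have hqm : t ≤ q * m := by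
    have := Nat.lt_div_mul_add (a := t) hmpos
    rw [hq]
    nlinarith
  have htpos : 0 < t := lt_of_lt_of_le hmpos ht
  have htpos' : (0 : ℝ) < t := by exact_mod_cast htpos
  have hmpos' : (0 : ℝ) < m := by exact_mod_cast hmpos
  have hq2 : (q : ℝ) * m ≤ 2 * t := by
    have h1 : q * m ≤ 2 * t := by
      rw [hq, add_mul, one_mul]
      have := Nat.div_mul_le_self t m
      omega
    exact_mod_cast h1
  let H := H52.SR.Host q K (2 * M) (2 * s)
  let e := Fintype.equivFin (Fin q × ((Fin K × (Fin K → Fin (2 * M))) × Fin (2 * s)))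
  let F := H.comap e.symm
  have hmem : F.edgeSet.ncard ∈ {e : ℕ | ∃ (m : ℕ) (F : SimpleGraph (Fin m)), F.edgeSet.ncard = e ∧
          ∀ R : SimpleGraph (Fin m), R ≤ F →
            (∃ f : Fin (k n) → Fin m, Function.Injective f ∧
                ∀ a b, (G n).Adj a b → R.Adj (f a) (f b)) ∨
            (∃ g : Fin t ⊕ Fin t → Fin m, Function.Injective g ∧
                ∀ i, F.Adj (g (Sum.inl i)) (g (Sum.inr i)) ∧
                  ¬ R.Adj (g (Sum.inl i)) (g (Sum.inr i)))} := by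
    refine ⟨_, F, rfl, ?_⟩
    intro R _
    have hemb : ∀ B : Finset ((Fin K × (Fin K → Fin (2 * M))) × Fin (2 * s)), B.card < 2 * m →
        ∃ φ : Fin (k n) → (Fin K × (Fin K → Fin (2 * M))) × Fin (2 * s),
          Function.Injective φ ∧ (∀ v, φ v ∉ B) ∧
          ∀ v w, (G n).Adj v w → H52.SR.HAdj (φ v).1 (φ w).1 := by
      intro B hB
      refine H52.SR.embed (G n) D M s m (hcl n) hDpos hM2 hspos' ?_ hmcond B hB
      rw [Fintype.card_fin]
      exact hs1
    rcases H52.SR.ramsey (G n) q m t hqm (fun x y => H52.SR.HAdj x.1 y.1) H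
      (fun a x y => by simp [H, H52.SR.Host]) hemb (R.comap e) with ⟨f, hf1, hf2⟩ | ⟨g, hg1, hg2⟩
    · left
      exact ⟨fun v => e (f v), e.injective.comp hf1, fun a b hab => hf2 a b hab⟩
    · right
      refine ⟨fun v => e (g v), e.injective.comp hg1, fun i => ⟨?_, (hg2 i).2⟩⟩
      show H.Adj (e.symm (e _)) (e.symm (e _))
      rw [e.symm_apply_apply, e.symm_apply_apply]
      exact (hg2 i).1
  have hle := Nat.sInf_le hmem
  have hcard1 : F.edgeSet.ncard * (2 * M) ≤
      ((2 * M) ^ K * (2 * M) ^ K) * (q * (2 * s) * (2 * s) * K * K) := by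
    refine le_trans (Nat.mul_le_mul_right _ ?_) (H52.SR.host_card q K (2 * M) (2 * s))
    have hsub : F.edgeSet ⊆ (fun p : (Fin q × ((Fin K × (Fin K → Fin (2 * M))) × Fin (2 * s))) ×
        (Fin q × ((Fin K × (Fin K → Fin (2 * M))) × Fin (2 * s))) => s(e p.1, e p.2)) ''
        {p | H.Adj p.1 p.2} := by
      intro x hx
      induction x using Sym2.ind with
      | _ a b =>
        rw [SimpleGraph.mem_edgeSet] at hx
        exact ⟨(e.symm a, e.symm b), hx, by simp⟩
    exact (Set.ncard_le_ncard hsub (Set.toFinite _)).trans (Set.ncard_image_le (Set.toFinite _))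
  have hcard2 : ((F.edgeSet.ncard : ℕ) : ℝ) * (2 * M) ≤ C * t * k n := by
    have h1 : ((F.edgeSet.ncard : ℕ) : ℝ) * (2 * M) ≤
      ((2 * M) ^ K * (2 * M) ^ K) * (q * (2 * s) * (2 * s) * K * K) := by
      exact_mod_cast hcard1
    refine h1.trans ?_
    have h2 : (M : ℝ) = 2 * D * M' := by rw [hM]; push_cast; ring
    have hmr : (m : ℝ) = s * M' ^ K := by rw [hm]; push_cast; ring
    have h3 : (q : ℝ) * s * M' ^ K ≤ 2 * t := by
      rw [hmr] at hq2
      linarith
    have h4 : (s : ℝ) * M ^ K ≤ 2 * k n := by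
      have := mul_le_mul_of_nonneg_right hs2 (show (0 : ℝ) ≤ M ^ K by positivity)
      rw [mul_assoc, div_mul_cancel₀ _ (by positivity)] at this
      exact this
    have h5 : ((2 * (M : ℝ)) ^ K * (2 * M) ^ K) * (q * (2 * s) * (2 * s) * K * K) =
        (4 * K ^ 2 * (8 * D) ^ K) * (((q : ℝ) * s * M' ^ K) * (s * M ^ K)) := by
      have h6 : (2 * (M : ℝ)) ^ K * (2 * M) ^ K = (8 * D) ^ K * M' ^ K * M ^ K := by
        rw [← mul_pow, ← mul_pow, ← mul_pow]
        congr 1
        nth_rewrite 1 [h2]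
        ring
      rw [h6]
      ring
    rw [h5]
    calc (4 * (K : ℝ) ^ 2 * (8 * D) ^ K) * (((q : ℝ) * s * M' ^ K) * (s * M ^ K))
        ≤ (4 * (K : ℝ) ^ 2 * (8 * D) ^ K) * ((2 * t) * (2 * k n)) := by
          apply mul_le_mul_of_nonneg_left _ (by positivity)
          exact mul_le_mul h3 h4 (by positivity) (by positivity)
      _ = C * t * k n := by rw [hC]; ring
  have hedges : (k n : ℝ) ≤ 2 * ((G n).edgeSet.ncard : ℝ) := by
    have h1 : k n ≤ 2 * (G n).edgeSet.ncard := by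
      have h2 := (G n).sum_degrees_eq_twice_card_edges
      have h3 : (G n).edgeFinset.card = (G n).edgeSet.ncard := by
        rw [Set.ncard_eq_toFinset_card']
        rfl
      rw [← h3, ← h2]
      calc k n = ∑ v : Fin (k n), 1 := by simp
        _ ≤ ∑ v : Fin (k n), (G n).degree v := by
          apply Finset.sum_le_sum
          intro v _
          obtain ⟨w, hw⟩ := hiso n v
          rw [Nat.one_le_iff_ne_zero, ← Nat.pos_iff_ne_zero, SimpleGraph.degree_pos_iff_exists_adj]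
          exact ⟨w, hw⟩
    exact_mod_cast h1
  have hepos : (0 : ℝ) < (G n).edgeSet.ncard := by linarith
  rw [div_le_iff₀ (by positivity)]
  have hle' : ((sInf {e : ℕ | ∃ (m : ℕ) (F : SimpleGraph (Fin m)), F.edgeSet.ncard = e ∧
          ∀ R : SimpleGraph (Fin m), R ≤ F →
            (∃ f : Fin (k n) → Fin m, Function.Injective f ∧
                ∀ a b, (G n).Adj a b → R.Adj (f a) (f b)) ∨
            (∃ g : Fin t ⊕ Fin t → Fin m, Function.Injective g ∧
                ∀ i, F.Adj (g (Sum.inl i)) (g (Sum.inr i)) ∧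
                  ¬ R.Adj (g (Sum.inl i)) (g (Sum.inr i)))} : ℕ) : ℝ) ≤ (F.edgeSet.ncard : ℝ) := by
    exact_mod_cast hle
  refine hle'.trans ?_
  have h2M : (2 * C / ε) ≤ 2 * M := by
    have h1 : (M' : ℝ) ≤ 2 * M := by
      have : M' ≤ 2 * M := by rw [hM]; nlinarith
      exact_mod_cast this
    linarith
  have hfin : ((F.edgeSet.ncard : ℕ) : ℝ) * (2 * M) ≤ (ε * (t * (G n).edgeSet.ncard)) * (2 * M) := by
    refine hcard2.trans ?_
    have h1 : 2 * C ≤ 2 * M * ε := by
      rwa [div_le_iff₀ hε] at h2M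
    calc C * t * k n ≤ C * t * (2 * ((G n).edgeSet.ncard : ℝ)) :=
          mul_le_mul_of_nonneg_left hedges (by positivity)
      _ = (2 * C) * (t * (G n).edgeSet.ncard) := by ring
      _ ≤ (2 * M * ε) * (t * (G n).edgeSet.ncard) :=
          mul_le_mul_of_nonneg_right h1 (by positivity)
      _ = _ := by ring
  exact le_of_mul_le_mul_right hfin (by positivity)

end Pool.Agent.S07487
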