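import Pool.Statements.S07995
import Mathlib

set_option autoImplicit false
open Pool Pool.MP_32c2cb_co

namespace Pool.Agent.S07995

/-- The signed restriction of a permutation `τ` to `T`: the sign of the permutation of `T` induced
by `τ` if `τ` preserves `T`, and `0` otherwise.  (These are the principal minors of the
permutation matrix of `τ`.) -/
noncomputable def g {n : ℕ} (T : Finset (Fin n)) (τ : Equiv.Perm (Fin n)) : ℤ :=
  if h : ∀ x, τ x ∈ T ↔ x ∈ T then ((Equiv.Perm.sign (τ.subtypePerm h) : ℤˣ) : ℤ) else 0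

lemma g_one {n : ℕ} (T : Finset (Fin n)) : g T 1 = 1 := by
  have h : ∀ x, (1 : Equiv.Perm (Fin n)) x ∈ T ↔ x ∈ T := fun x => Iff.rfl
  rw [g, dif_pos h]
  have : (1 : Equiv.Perm (Fin n)).subtypePerm h = 1 := by
    ext x
    rfl
  rw [this]
  simp

lemma g_empty {n : ℕ} (τ : Equiv.Perm (Fin n)) : g ∅ τ = 1 := by
  have h : ∀ x, τ x ∈ (∅ : Finset (Fin n)) ↔ x ∈ (∅ : Finset (Fin n)) := by simp
  rw [g, dif_pos h]
  have : τ.subtypePerm h = 1 := by
    ext x
    exact absurd x.2 (Finset.notMem_empty _)
  rw [this]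
  simp

/-- On the stabiliser of `T` the signed restriction is a homomorphism. -/
lemma g_mul {n : ℕ} (T : Finset (Fin n)) (u w : Equiv.Perm (Fin n)) :
    g T (u * w) * g T u = g T u ^ 2 * g T w := by
  by_cases hu : ∀ x, u x ∈ T ↔ x ∈ T
  · by_cases hw : ∀ x, w x ∈ T ↔ x ∈ T
    · have huw : ∀ x, (u * w) x ∈ T ↔ x ∈ T := fun x => by
        rw [Equiv.Perm.mul_apply, hu, hw]
      have h : (u * w).subtypePerm huw = u.subtypePerm hu * w.subtypePerm hw := by
        ext x
        rfl
      have e1 : g T u = ((Equiv.Perm.sign (u.subtypePerm hu) : ℤˣ) : ℤ) := by rw [g, dif_pos hu]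
      have e2 : g T w = ((Equiv.Perm.sign (w.subtypePerm hw) : ℤˣ) : ℤ) := by rw [g, dif_pos hw]
      have e3 : g T (u * w) = g T u * g T w := by
        rw [g, dif_pos huw, h, map_mul, Units.val_mul, e1, e2]
      rw [e3]
      ring
    · have huw : ¬ ∀ x, (u * w) x ∈ T ↔ x ∈ T := fun h => hw fun x => by
        rw [← hu (w x)]
        exact h x
      have e2 : g T w = 0 := by rw [g, dif_neg hw]
      have e3 : g T (u * w) = 0 := by rw [g, dif_neg huw]
      rw [e2, e3]
      ring
  · have e1 : g T u = 0 := by rw [g, dif_neg hu]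
    rw [e1]
    ring

/-- The kernel `(x, y) ↦ g T (y⁻¹ x)` is positive semidefinite. -/
lemma sum_nonneg {n : ℕ} (T : Finset (Fin n)) (A : Finset (Equiv.Perm (Fin n))) :
    0 ≤ ∑ x ∈ A, ∑ y ∈ A, g T (y⁻¹ * x) := by
  set K : ℤ := ∑ u : Equiv.Perm (Fin n), g T u ^ 2 with hK
  have hKpos : 0 < K := by
    have h1 : g T 1 ^ 2 ≤ K :=
      Finset.single_le_sum (f := fun u : Equiv.Perm (Fin n) => g T u ^ 2)
        (fun u _ => sq_nonneg _) (Finset.mem_univ 1)
    rw [g_one] at h1
    linarith
  have hconv : ∀ x y : Equiv.Perm (Fin n),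
      ∑ z : Equiv.Perm (Fin n), g T (z⁻¹ * x) * g T (z⁻¹ * y) = K * g T (y⁻¹ * x) := by
    intro x y
    rw [hK, Finset.sum_mul]
    refine Fintype.sum_equiv ((Equiv.inv _).trans (Equiv.mulRight y)) _ _ ?_
    intro z
    simp only [Equiv.trans_apply, Equiv.inv_apply, Equiv.coe_mulRight]
    rw [← g_mul]
    congr 2
    group
  have hsum : K * ∑ x ∈ A, ∑ y ∈ A, g T (y⁻¹ * x)
      = ∑ z : Equiv.Perm (Fin n), (∑ x ∈ A, g T (z⁻¹ * x)) ^ 2 := by
    have h1 : ∀ z : Equiv.Perm (Fin n), (∑ x ∈ A, g T (z⁻¹ * x)) ^ 2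
        = ∑ x ∈ A, ∑ y ∈ A, g T (z⁻¹ * x) * g T (z⁻¹ * y) := by
      intro z
      rw [sq, Finset.sum_mul_sum]
    simp_rw [h1]
    symm
    rw [Finset.sum_comm, Finset.mul_sum]
    apply Finset.sum_congr rfl
    intro x _
    rw [Finset.sum_comm, Finset.mul_sum]
    apply Finset.sum_congr rfl
    intro y _
    rw [hconv]
  have h2 : 0 ≤ K * ∑ x ∈ A, ∑ y ∈ A, g T (y⁻¹ * x) := by
    rw [hsum]
    exact Finset.sum_nonneg fun z _ => sq_nonneg _
  exact nonneg_of_mul_nonneg_right h2 hKpos

/-- Adding a swapped pair to `T` changes the sign of the signed restriction. -/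
lemma g_insert {n : ℕ} (T : Finset (Fin n)) (τ : Equiv.Perm (Fin n)) (i j : Fin n)
    (hij : i ≠ j) (h1 : τ i = j) (h2 : τ j = i) (hi : i ∉ T) (hj : j ∉ T) :
    g T τ + g (insert i (insert j T)) τ = 0 := by
  have key : (∀ x, τ x ∈ insert i (insert j T) ↔ x ∈ insert i (insert j T)) ↔
      ∀ x, τ x ∈ T ↔ x ∈ T := by
    constructor
    · intro h x
      have hx := h x
      by_cases hxi : x = i
      · subst hxi
        rw [h1]
        exact iff_of_false hj hi
      by_cases hxj : x = j
      · subst hxj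
        rw [h2]
        exact iff_of_false hi hj
      have hti : τ x ≠ i := fun h' => hxj (τ.injective (h'.trans h2.symm))
      have htj : τ x ≠ j := fun h' => hxi (τ.injective (h'.trans h1.symm))
      simpa [hxi, hxj, hti, htj] using hx
    · intro h x
      by_cases hxi : x = i
      · subst hxi
        rw [h1]
        simp
      by_cases hxj : x = j
      · subst hxj
        rw [h2]
        simp
      have hti : τ x ≠ i := fun h' => hxj (τ.injective (h'.trans h2.symm))
      have htj : τ x ≠ j := fun h' => hxi (τ.injective (h'.trans h1.symm))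
      simpa [hxi, hxj, hti, htj] using h x
  by_cases hT : ∀ x, τ x ∈ T ↔ x ∈ T
  · have hT' := key.2 hT
    have e : Equiv.Perm.ofSubtype (τ.subtypePerm hT')
        = Equiv.swap i j * Equiv.Perm.ofSubtype (τ.subtypePerm hT) := by
      ext x
      rw [Equiv.Perm.mul_apply]
      by_cases hxT : x ∈ T
      · have hx' : x ∈ insert i (insert j T) := by simp [hxT]
        rw [Equiv.Perm.ofSubtype_apply_of_mem (p := fun y => y ∈ insert i (insert j T)) _ hx',
          Equiv.Perm.ofSubtype_apply_of_mem (p := fun y => y ∈ T) _ hxT]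
        simp only [Equiv.Perm.subtypePerm_apply]
        have hτ : τ x ∈ T := (hT x).2 hxT
        rw [Equiv.swap_apply_of_ne_of_ne]
        · rintro rfl
          exact hi hτ
        · rintro rfl
          exact hj hτ
      · rw [Equiv.Perm.ofSubtype_apply_of_not_mem (p := fun y => y ∈ T) _ hxT]
        by_cases hxi : x = i
        · subst hxi
          have hx' : x ∈ insert x (insert j T) := by simp
          rw [Equiv.Perm.ofSubtype_apply_of_mem (p := fun y => y ∈ insert x (insert j T)) _ hx']
          simp [h1]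
        by_cases hxj : x = j
        · subst hxj
          have hx' : x ∈ insert i (insert x T) := by simp
          rw [Equiv.Perm.ofSubtype_apply_of_mem (p := fun y => y ∈ insert i (insert x T)) _ hx']
          simp [h2]
        have hx' : x ∉ insert i (insert j T) := by simp [hxi, hxj, hxT]
        rw [Equiv.Perm.ofSubtype_apply_of_not_mem
          (p := fun y => y ∈ insert i (insert j T)) _ hx',
          Equiv.swap_apply_of_ne_of_ne hxi hxj]
    have hs : Equiv.Perm.sign (τ.subtypePerm hT') = - Equiv.Perm.sign (τ.subtypePerm hT) := by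
      rw [← Equiv.Perm.sign_ofSubtype (τ.subtypePerm hT'), e, map_mul,
        Equiv.Perm.sign_ofSubtype, Equiv.Perm.sign_swap hij]
      simp
    rw [g, dif_pos hT, g, dif_pos hT', hs]
    simp
  · have hT' := mt key.1 hT
    rw [g, dif_neg hT, g, dif_neg hT']
    simp

/-- A set containing exactly one of two swapped points is not preserved. -/
lemma g_eq_zero {n : ℕ} (T : Finset (Fin n)) (τ : Equiv.Perm (Fin n)) (i j : Fin n)
    (h1 : τ i = j) (h : ¬ (j ∈ T ↔ i ∈ T)) : g T τ = 0 := by
  rw [g, dif_neg]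
  intro h'
  apply h
  rw [← h' i, h1]

/-- If `τ` swaps two distinct points, its signed restrictions add up to `0`
(this is `det (1 + P_τ) = 0`). -/
lemma sum_g_eq_zero {n : ℕ} (τ : Equiv.Perm (Fin n)) (i j : Fin n)
    (hij : i ≠ j) (h1 : τ i = j) (h2 : τ j = i) :
    ∑ T : Finset (Fin n), g T τ = 0 := by
  refine Finset.sum_involution (fun T _ => symmDiff T {i, j}) ?_ ?_ ?_ ?_
  · intro T _
    by_cases hi : i ∈ T
    · by_cases hj : j ∈ T
      · have hT : T = insert i (insert j (symmDiff T {i, j})) := by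
          ext x
          simp only [Finset.mem_insert, Finset.mem_symmDiff, Finset.mem_singleton]
          by_cases hxi : x = i
          · subst hxi; simp [hi]
          by_cases hxj : x = j
          · subst hxj; simp [hj]
          simp [hxi, hxj]
        have h := g_insert (symmDiff T {i, j}) τ i j hij h1 h2
          (by simp [Finset.mem_symmDiff, hi]) (by simp [Finset.mem_symmDiff, hj])
        rw [← hT] at h
        linarith
      · rw [g_eq_zero T τ i j h1 (by simp [hi, hj]),
          g_eq_zero (symmDiff T {i, j}) τ i j h1 (by simp [Finset.mem_symmDiff, hi, hj])]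
        simp
    · by_cases hj : j ∈ T
      · rw [g_eq_zero T τ i j h1 (by simp [hi, hj]),
          g_eq_zero (symmDiff T {i, j}) τ i j h1 (by simp [Finset.mem_symmDiff, hi, hj])]
        simp
      · have hT : symmDiff T {i, j} = insert i (insert j T) := by
          ext x
          simp only [Finset.mem_insert, Finset.mem_symmDiff, Finset.mem_singleton]
          by_cases hxi : x = i
          · subst hxi; simp [hi]
          by_cases hxj : x = j
          · subst hxj; simp [hj]
          simp [hxi, hxj]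
        rw [hT]
        exact g_insert T τ i j hij h1 h2 hi hj
  · intro T _ _ h
    have h3 : ({i, j} : Finset (Fin n)) = ∅ := by
      exact symmDiff_eq_left.mp h
    have : i ∈ ({i, j} : Finset (Fin n)) := by simp
    rw [h3] at this
    simp at this
  · intro T _
    exact Finset.mem_univ _
  · intro T _
    exact symmDiff_symmDiff_cancel_right _ _

/-- A reversing family in `S_n` has at most `2 ^ n` members. -/
theorem card_le {n : ℕ} (A : Finset (Equiv.Perm (Fin n)))
    (hA : ∀ σ ∈ A, ∀ π ∈ A, σ ≠ π → ∃ i j : Fin n, i ≠ j ∧ σ i = π j ∧ σ j = π i) :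
    (A.card : ℤ) ≤ 2 ^ n := by
  have h1 : ∑ T : Finset (Fin n), ∑ x ∈ A, ∑ y ∈ A, g T (y⁻¹ * x) = A.card * 2 ^ n := by
    rw [Finset.sum_comm]
    have h2 : ∀ x ∈ A, ∑ T : Finset (Fin n), ∑ y ∈ A, g T (y⁻¹ * x) = 2 ^ n := by
      intro x hx
      rw [Finset.sum_comm, Finset.sum_eq_single_of_mem x hx]
      · simp [g_one]
      · intro y hy hyx
        obtain ⟨i, j, hij, hi, hj⟩ := hA x hx y hy (Ne.symm hyx)
        apply sum_g_eq_zero (y⁻¹ * x) i j hij
        · rw [Equiv.Perm.mul_apply, hi]
          simp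
        · rw [Equiv.Perm.mul_apply, hj]
          simp
    rw [Finset.sum_congr rfl h2]
    simp
  have h3 : (A.card : ℤ) * A.card ≤ A.card * 2 ^ n := by
    rw [← h1]
    have h4 : ∑ x ∈ A, ∑ y ∈ A, g ∅ (y⁻¹ * x) = (A.card : ℤ) * A.card := by
      simp [g_empty]
    rw [← h4]
    exact Finset.single_le_sum
      (f := fun T : Finset (Fin n) => ∑ x ∈ A, ∑ y ∈ A, g T (y⁻¹ * x))
      (fun T _ => sum_nonneg T A) (Finset.mem_univ ∅)
  rcases Nat.eq_zero_or_pos A.card with h | h
  · rw [h]
    positivity
  · have h5 : (0 : ℤ) < A.card := by exact_mod_cast h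
    exact le_of_mul_le_mul_left h3 h5

/-- There is a real constant C such that for every n, any set of permutations of n points in which every two distinct members swap the images of some two distinct points has at most C^n elements. -/
theorem result :
    ∃ C : ℝ, ∀ n : ℕ, ∀ A : Finset (Equiv.Perm (Fin n)),
      (∀ σ ∈ A, ∀ π ∈ A, σ ≠ π →
        ∃ i j : Fin n, i ≠ j ∧ σ i = π j ∧ σ j = π i) →
      (A.card : ℝ) ≤ C ^ n := by
  refine ⟨2, fun n A hA => ?_⟩
  have h := card_le A hA
  exact_mod_cast h

end Pool.Agent.S07995
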