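import Pool.Statements.S08248
import Pool.Agent.H62.Sphere.Main
-- import your own Pool.Agent.* helpers here

set_option autoImplicit false
open Pool Pool.MP_3d13a5_co

namespace Pool.Agent.S08248

/-- The negation of the preceding statement: For every d ≥ 1, whenever the unit sphere in R^d is covered by d+1 sets, some set meets the sphere in diameter at least that of one nearest-vertex cell of an inscribed regular simplex. -/
theorem result :
    ¬ (∀ d : ℕ, 1 ≤ d →
      ∀ v : Fin (d + 1) → EuclideanSpace ℝ (Fin d),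
        (∀ i, ‖v i‖ = 1) →
        (∀ i j, i ≠ j → inner ℝ (v i) (v j) = -1 / (d : ℝ)) →
        ∀ A : Fin (d + 1) → Set (EuclideanSpace ℝ (Fin d)),
          Metric.sphere (0 : EuclideanSpace ℝ (Fin d)) 1 ⊆ ⋃ i, A i →
          ∃ i, Metric.diam {x ∈ Metric.sphere (0 : EuclideanSpace ℝ (Fin d)) 1 |
                  ∀ j, inner ℝ x (v j) ≤ inner ℝ x (v 0)}
                ≤ Metric.diam (A i ∩ Metric.sphere (0 : EuclideanSpace ℝ (Fin d)) 1)) := by
  intro h
  obtain ⟨i, hi⟩ := h 6 (by norm_num) H62.Sphere.vtx H62.Sphere.norm_vtx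
    (fun i j hij => by
      rw [H62.Sphere.inner_vtx_ne hij]; norm_num)
    H62.Sphere.cell (fun x _ => H62.Sphere.mem_iUnion_cell x)
  exact absurd (H62.Sphere.diam_lt i) (not_lt.2 hi)

end Pool.Agent.S08248
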