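import Pool.Statements.S08294

set_option autoImplicit false
open Pool Pool.MP_3ee535_co

namespace Pool.Agent.S08294

/-- `l` is an elimination order: the neighbours of each entry among the later entries form a clique. -/
def peo {V : Type} [DecidableEq V] (adj : V → V → Bool) : List V → Bool
  | [] => true
  | a :: l => (!(l.contains a)) &&
      (l.all fun x => l.all fun y => !(adj a x) || !(adj a y) || (x == y) || adj x y) && peo adj l

/-- the product of the factors `k - d` along an elimination order. -/
def facs {V : Type} (adj : V → V → Bool) (k : ℕ) : List V → ℕ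
  | [] => 1
  | a :: l => (k - (l.filter (adj a)).length) * facs adj k l

/-- maps that are proper on the entries of `l`. -/
def prop {V : Type} [Fintype V] [DecidableEq V] (adj : V → V → Bool) (k : ℕ) (l : List V) :
    Finset (V → Fin k) :=
  Finset.univ.filter fun c => ∀ x ∈ l, ∀ y ∈ l, adj x y = true → c x ≠ c y

theorem nodup_of_peo {V : Type} [DecidableEq V] (adj : V → V → Bool) (l : List V)
    (h : peo adj l = true) : l.Nodup := by
  induction l with
  | nil => exact List.nodup_nil
  | cons b l ih =>
    simp only [peo, Bool.and_eq_true, Bool.not_eq_true', List.all_eq_true, Bool.or_eq_true,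
      beq_iff_eq] at h
    refine List.nodup_cons.2 ⟨?_, ih h.2⟩
    intro hh
    have : l.contains b = true := by simpa using hh
    rw [this] at h; exact Bool.noConfusion h.1.1

theorem card_prop {V : Type} [Fintype V] [DecidableEq V] (adj : V → V → Bool)
    (hs : ∀ x y, adj x y = adj y x) (hi : ∀ x, adj x x = false) (k : ℕ) (l : List V) (h : peo adj l = true) :
    k ^ l.length * (prop adj k l).card = facs adj k l * k ^ Fintype.card V := by
  induction l with
  | nil => simp [prop, facs]
  | cons a l ih =>
    simp only [peo, Bool.and_eq_true, Bool.not_eq_true', List.all_eq_true, Bool.or_eq_true,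
      beq_iff_eq] at h
    obtain ⟨⟨hal, hcl⟩, hpeo⟩ := h
    have hal : a ∉ l := by
      intro hh
      have : l.contains a = true := by simpa using hh
      rw [this] at hal; exact Bool.noConfusion hal
    have ih := ih hpeo
    have hnd : l.Nodup := nodup_of_peo adj l hpeo
    have key : (prop adj k l).card * (k - (l.filter (adj a)).length)
        = (prop adj k (a :: l)).card * k := by
      have e1 : ((prop adj k l).sigma
          (fun c => Finset.univ.filter fun x : Fin k => ∀ y ∈ l, adj a y = true → x ≠ c y)).card
          = (prop adj k l).card * (k - (l.filter (adj a)).length) := by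
        rw [Finset.card_sigma, Finset.sum_const_nat]
        intro c hc
        simp only [prop, Finset.mem_filter, Finset.mem_univ, true_and] at hc
        have : (Finset.univ.filter fun x : Fin k => ∀ y ∈ l, adj a y = true → x ≠ c y)
            = Finset.univ \ ((l.filter (adj a)).toFinset.image c) := by
          ext x
          simp only [Finset.mem_filter, Finset.mem_univ, true_and, Finset.mem_sdiff,
            Finset.mem_image, List.mem_toFinset, List.mem_filter, not_exists, not_and]
          constructor
          · intro hx y hy hyx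
            exact hx y hy.1 hy.2 hyx.symm
          · intro hx y hy hay hxy
            exact hx y ⟨hy, hay⟩ hxy.symm
        rw [this, Finset.card_sdiff_of_subset (Finset.subset_univ _), Finset.card_univ,
          Fintype.card_fin, Finset.card_image_of_injOn, List.toFinset_card_of_nodup (hnd.filter _)]
        intro x hx y hy hxy
        simp only [List.coe_toFinset, Set.mem_ofPred_eq, List.mem_filter] at hx hy
        by_contra hne
        have := hcl x hx.1 y hy.1
        rcases this with ((h1 | h1) | h1) | h1
        · rw [hx.2] at h1; exact Bool.noConfusion h1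
        · rw [hy.2] at h1; exact Bool.noConfusion h1
        · exact hne h1
        · exact hc x hx.1 y hy.1 h1 hxy
      have e2 : ((prop adj k l).sigma
          (fun c => Finset.univ.filter fun x : Fin k => ∀ y ∈ l, adj a y = true → x ≠ c y)).card
          = ((prop adj k (a :: l)) ×ˢ (Finset.univ : Finset (Fin k))).card := by
        refine Finset.card_nbij' (fun p => (Function.update p.1 a p.2, p.1 a))
          (fun q => ⟨Function.update q.1 a q.2, q.1 a⟩) ?_ ?_ ?_ ?_
        · rintro ⟨c, x⟩ hp
          simp only [prop, Finset.coe_sigma, Set.mem_sigma_iff, Finset.mem_coe, Finset.mem_filter,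
            Finset.mem_univ, true_and] at hp
          simp only [prop, Finset.coe_product, Set.mem_prod, Finset.mem_coe, Finset.mem_filter,
            Finset.mem_univ, true_and, and_true]
          obtain ⟨h1, h2⟩ := hp
          intro u hu w hw huw
          rcases List.mem_cons.1 hu with rfl | hu'
          · rcases List.mem_cons.1 hw with rfl | hw'
            · rw [hi] at huw; exact Bool.noConfusion huw
            · have hne : w ≠ u := fun e => hal (e ▸ hw')
              rw [Function.update_self, Function.update_of_ne hne]
              exact h2 w hw' huw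
          · rcases List.mem_cons.1 hw with rfl | hw'
            · have hne : u ≠ w := fun e => hal (e ▸ hu')
              rw [Function.update_self, Function.update_of_ne hne]
              rw [hs] at huw
              exact (h2 u hu' huw).symm
            · have hne : u ≠ a := fun e => hal (e ▸ hu')
              have hne' : w ≠ a := fun e => hal (e ▸ hw')
              rw [Function.update_of_ne hne, Function.update_of_ne hne']
              exact h1 u hu' w hw' huw
        · rintro ⟨c, x⟩ hp
          simp only [prop, Finset.coe_product, Set.mem_prod, Finset.mem_coe, Finset.mem_filter,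
            Finset.mem_univ, true_and, and_true] at hp
          simp only [prop, Finset.coe_sigma, Set.mem_sigma_iff, Finset.mem_coe, Finset.mem_filter,
            Finset.mem_univ, true_and]
          refine ⟨?_, ?_⟩
          · intro u hu w hw huw
            have hne : u ≠ a := fun e => hal (e ▸ hu)
            have hne' : w ≠ a := fun e => hal (e ▸ hw)
            rw [Function.update_of_ne hne, Function.update_of_ne hne']
            exact hp u (List.mem_cons_of_mem _ hu) w (List.mem_cons_of_mem _ hw) huw
          · intro y hy hay
            have hne : y ≠ a := fun e => hal (e ▸ hy)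
            rw [Function.update_of_ne hne]
            exact hp a List.mem_cons_self y (List.mem_cons_of_mem _ hy) hay
        · rintro ⟨c, x⟩ hp
          simp
        · rintro ⟨c, x⟩ hp
          simp
      rw [← e1, e2, Finset.card_product, Finset.card_univ, Fintype.card_fin]
    calc k ^ (a :: l).length * (prop adj k (a :: l)).card
        = k ^ l.length * ((prop adj k (a :: l)).card * k) := by
          rw [List.length_cons, pow_succ]; ring
      _ = (k ^ l.length * (prop adj k l).card) * (k - (l.filter (adj a)).length) := by
          rw [← key]; ring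
      _ = facs adj k (a :: l) * k ^ Fintype.card V := by
          rw [ih, facs]; ring

/-- the graph with a new vertex `none`, adjacent to `v` and to the neighbours of `v`. -/
def dup {V : Type} [DecidableEq V] (adj : V → V → Bool) (v : V) : Option V → Option V → Bool
  | some x, some y => adj x y
  | some x, none => (x == v) || adj v x
  | none, some y => (y == v) || adj v y
  | none, none => false

theorem card_pairs {n : ℕ} (G : SimpleGraph (Fin n)) (adj : Fin n → Fin n → Bool)
    (hG : ∀ x y, G.Adj x y ↔ adj x y = true) (k : ℕ) :
    Nat.card {p : G.Coloring (Fin k) × G.Coloring (Fin k) //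
            Nat.card {v : Fin n // p.1 v ≠ p.2 v} = 1}
      = ∑ v : Fin n, (Finset.univ.filter fun c : Option (Fin n) → Fin k =>
          ∀ x y, dup adj v x y = true → c x ≠ c y).card := by
  classical
  have hsym : ∀ x y, adj x y = true → adj y x = true := fun x y h =>
    (hG y x).1 ((hG x y).2 h).symm
  have hirr : ∀ x, ¬ adj x x = true := fun x h => ((hG x x).2 h).ne rfl
  -- the map from the sigma type
  let f : (Σ v : Fin n, {c : Option (Fin n) → Fin k // ∀ x y, dup adj v x y = true → c x ≠ c y}) →
      {p : G.Coloring (Fin k) × G.Coloring (Fin k) //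
            Nat.card {v : Fin n // p.1 v ≠ p.2 v} = 1} := fun q =>
    ⟨(SimpleGraph.Coloring.mk (fun x => q.2.1 (some x)) (by
        intro x y hxy
        exact q.2.2 (some x) (some y) ((hG x y).1 hxy)),
      SimpleGraph.Coloring.mk (fun x => if x = q.1 then q.2.1 none else q.2.1 (some x)) (by
        intro x y hxy
        have h1 : adj x y = true := (hG x y).1 hxy
        by_cases hx : x = q.1
        · by_cases hy : y = q.1
          · exact absurd (hx.trans hy.symm) hxy.ne
          · simp only [hx, if_true, if_neg hy]
            apply q.2.2 none (some y)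
            subst hx
            simp [dup, h1]
        · by_cases hy : y = q.1
          · simp only [hy, if_true, if_neg hx]
            apply q.2.2 (some x) none
            subst hy
            simp [dup, hsym _ _ h1]
          · simp only [if_neg hx, if_neg hy]
            exact q.2.2 (some x) (some y) h1)), by
      have : {v : Fin n // q.2.1 (some v) ≠ (if v = q.1 then q.2.1 none else q.2.1 (some v))}
          ≃ Unit := by
        refine ⟨fun _ => (), fun _ => ⟨q.1, ?_⟩, ?_, ?_⟩
        · simp only [if_true]
          apply q.2.2 (some q.1) none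
          simp [dup]
        · rintro ⟨v, hv⟩
          by_cases h : v = q.1
          · simp [h]
          · simp [h] at hv
        · intro _; rfl
      exact (Nat.card_congr this).trans Nat.card_unique⟩
  have hf : Function.Bijective f := by
    constructor
    · rintro ⟨v, c, hc⟩ ⟨w, d, hd⟩ h
      have h1 : ∀ x, c (some x) = d (some x) := fun x => by
        exact congrArg (fun p => p.1.1 x) h
      have h2 : ∀ x, (if x = v then c none else c (some x)) =
          (if x = w then d none else d (some x)) := fun x => by
        exact congrArg (fun p => p.1.2 x) h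
      have hvw : v = w := by
        by_contra hne
        have := h2 v
        rw [if_pos rfl, if_neg hne, ← h1] at this
        exact hc none (some v) (by simp [dup]) this
      subst hvw
      have h3 : c none = d none := by simpa using h2 v
      have : c = d := by
        funext x
        cases x with
        | none => exact h3
        | some x => exact h1 x
      subst this
      rfl
    · rintro ⟨⟨c, d⟩, h⟩
      obtain ⟨hss, ⟨⟨v, hv⟩⟩⟩ := (Nat.card_eq_one_iff_unique.1 h)
      have hother : ∀ w, w ≠ v → c w = d w := by
        intro w hw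
        by_contra hne
        exact hw (congrArg Subtype.val (Subsingleton.elim (⟨w, hne⟩ : {v // c v ≠ d v}) ⟨v, hv⟩))
      refine ⟨⟨v, fun o => o.elim (d v) (fun x => c x), ?_⟩, ?_⟩
      · intro x y hxy
        cases x with
        | none =>
          cases y with
          | none => simp [dup] at hxy
          | some y =>
            simp only [dup, Bool.or_eq_true, beq_iff_eq] at hxy
            simp only [Option.elim]
            rcases hxy with rfl | hxy
            · exact hv.symm
            · have hne : y ≠ v := fun e => hirr v (e ▸ hxy)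
              rw [hother y hne]
              exact d.valid ((hG _ _).2 hxy)
        | some x =>
          cases y with
          | none =>
            simp only [dup, Bool.or_eq_true, beq_iff_eq] at hxy
            simp only [Option.elim]
            rcases hxy with rfl | hxy
            · exact hv
            · have hne : x ≠ v := fun e => hirr v (e ▸ hxy)
              rw [hother x hne]
              exact (d.valid ((hG _ _).2 hxy)).symm
          | some y =>
            simp only [Option.elim]
            exact c.valid ((hG _ _).2 hxy)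
      · apply Subtype.ext
        apply Prod.ext
        · ext x; rfl
        · apply DFunLike.ext
          intro x
          change (if x = v then d v else c x) = d x
          by_cases hx : x = v
          · rw [if_pos hx, hx]
          · rw [if_neg hx, hother x hx]
  rw [← Nat.card_congr (Equiv.ofBijective f hf), Nat.card_sigma]
  refine Finset.sum_congr rfl fun v _ => ?_
  rw [Nat.card_eq_fintype_card, Fintype.card_subtype]

/-- the numbers of later neighbours along `l`. -/
def degs {V : Type} (adj : V → V → Bool) : List V → List ℕ
  | [] => []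
  | a :: l => (l.filter (adj a)).length :: degs adj l

theorem facs_eq {V : Type} (adj : V → V → Bool) (k : ℕ) (l : List V) :
    facs adj k l = ((degs adj l).map fun d => k - d).prod := by
  induction l with
  | nil => rfl
  | cons a l ih => simp [facs, degs, ih]

theorem card_one {V : Type} [Fintype V] [DecidableEq V] (adj : V → V → Bool)
    (hs : ∀ x y, adj x y = adj y x) (hi : ∀ x, adj x x = false) (k : ℕ) (l : List V)
    (h : peo adj l = true) (hall : ∀ x, x ∈ l) (hlen : l.length = Fintype.card V)
    (ds : List ℕ) (hds : degs adj l = ds) (hk : 0 < k) :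
    (Finset.univ.filter fun c : V → Fin k => ∀ x y, adj x y = true → c x ≠ c y).card
      = (ds.map fun d => k - d).prod := by
  have h1 := card_prop adj hs hi k l h
  have h2 : prop adj k l = Finset.univ.filter fun c : V → Fin k =>
      ∀ x y, adj x y = true → c x ≠ c y := by
    ext c
    simp only [prop, Finset.mem_filter, Finset.mem_univ, true_and]
    exact ⟨fun hc x y hxy => hc x (hall x) y (hall y) hxy, fun hc x _ y _ hxy => hc x y hxy⟩
  rw [h2, hlen, facs_eq, hds, mul_comm] at h1
  exact Nat.eq_of_mul_eq_mul_right (pow_pos hk _) h1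

/-- adjacency from a list of edges. -/
def adjOf (E : List (ℕ × ℕ)) (x y : Fin 8) : Bool :=
  E.contains (x.1, y.1) || E.contains (y.1, x.1)

/-- two disjoint copies of the diamond (`K₄` minus an edge). -/
def E1 : List (ℕ × ℕ) :=
  [(0,6),(0,7),(1,6),(1,7),(6,7),(2,4),(2,5),(3,4),(3,5),(4,5)]

/-- `K₄` on `4,5,6,7`, a vertex `3` adjacent to `6,7`, pendant vertices `1` at `7` and `2` at `6`,
and an isolated vertex `0`. -/
def E2 : List (ℕ × ℕ) :=
  [(1,7),(2,6),(3,6),(3,7),(4,5),(4,6),(4,7),(5,6),(5,7),(6,7)]

theorem adjOf_symm (E : List (ℕ × ℕ)) (x y : Fin 8) : adjOf E x y = adjOf E y x := by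
  simp [adjOf, Bool.or_comm]

theorem dup_symm (adj : Fin 8 → Fin 8 → Bool) (h : ∀ x y, adj x y = adj y x) (v : Fin 8)
    (x y : Option (Fin 8)) : dup adj v x y = dup adj v y x := by
  cases x <;> cases y <;> simp [dup, h]

theorem dup_irr (adj : Fin 8 → Fin 8 → Bool) (h : ∀ x, adj x x = false) (v : Fin 8)
    (x : Option (Fin 8)) : dup adj v x x = false := by
  cases x <;> simp [dup, h]

/-- graph from a list of edges. -/
def gOf (E : List (ℕ × ℕ)) (h : ∀ x, adjOf E x x = false) : SimpleGraph (Fin 8) where
  Adj x y := adjOf E x y = true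
  symm := ⟨by
    intro x y hxy
    rw [adjOf_symm]; exact hxy⟩
  loopless := ⟨by
    intro x hx
    rw [h x] at hx; exact Bool.noConfusion hx⟩

theorem count_one (E : List (ℕ × ℕ)) (h : ∀ x, adjOf E x x = false) (v : Fin 8) (k : ℕ)
    (hk : 0 < k) (l : List (Option (Fin 8))) (ds : List ℕ)
    (hl : peo (dup (adjOf E) v) l = true ∧ (∀ x, x ∈ l) ∧ l.length = 9 ∧
      degs (dup (adjOf E) v) l = ds) :
    (Finset.univ.filter fun c : Option (Fin 8) → Fin k =>
      ∀ x y, dup (adjOf E) v x y = true → c x ≠ c y).card = (ds.map fun d => k - d).prod :=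
  card_one _ (dup_symm _ (adjOf_symm E) v) (dup_irr _ h v) k l hl.1 hl.2.1
    (by rw [hl.2.2.1]; rfl) ds hl.2.2.2 hk

theorem irr1 : ∀ x, adjOf E1 x x = false := by decide

theorem sum1 (k : ℕ) (hk : 0 < k) :
    (∑ v : Fin 8, (Finset.univ.filter fun c : Option (Fin 8) → Fin k =>
      ∀ x y, dup (adjOf E1) v x y = true → c x ≠ c y).card) =
      (([3, 2, 2, 1, 0, 2, 2, 1, 0] : List ℕ).map fun d => k - d).prod +
      (([3, 2, 2, 1, 0, 2, 2, 1, 0] : List ℕ).map fun d => k - d).prod +
      (([3, 2, 2, 1, 0, 2, 2, 1, 0] : List ℕ).map fun d => k - d).prod +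
      (([3, 2, 2, 1, 0, 2, 2, 1, 0] : List ℕ).map fun d => k - d).prod +
      (([3, 3, 2, 1, 0, 2, 2, 1, 0] : List ℕ).map fun d => k - d).prod +
      (([3, 3, 2, 1, 0, 2, 2, 1, 0] : List ℕ).map fun d => k - d).prod +
      (([2, 2, 1, 0, 3, 3, 2, 1, 0] : List ℕ).map fun d => k - d).prod +
      (([2, 2, 1, 0, 3, 3, 2, 1, 0] : List ℕ).map fun d => k - d).prod := by
  rw [Fin.sum_univ_eight,
    count_one E1 irr1 0 k hk [none, some 3, some 5, some 4, some 2, some 1, some 7, some 6, some 0] [3, 2, 2, 1, 0, 2, 2, 1, 0] (by decide),
    count_one E1 irr1 1 k hk [none, some 3, some 5, some 4, some 2, some 1, some 7, some 6, some 0] [3, 2, 2, 1, 0, 2, 2, 1, 0] (by decide),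
    count_one E1 irr1 2 k hk [none, some 3, some 5, some 4, some 2, some 1, some 7, some 6, some 0] [3, 2, 2, 1, 0, 2, 2, 1, 0] (by decide),
    count_one E1 irr1 3 k hk [none, some 3, some 5, some 4, some 2, some 1, some 7, some 6, some 0] [3, 2, 2, 1, 0, 2, 2, 1, 0] (by decide),
    count_one E1 irr1 4 k hk [some 3, none, some 5, some 4, some 2, some 1, some 7, some 6, some 0] [3, 3, 2, 1, 0, 2, 2, 1, 0] (by decide),
    count_one E1 irr1 5 k hk [some 3, none, some 5, some 4, some 2, some 1, some 7, some 6, some 0] [3, 3, 2, 1, 0, 2, 2, 1, 0] (by decide),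
    count_one E1 irr1 6 k hk [some 3, some 5, some 4, some 2, some 1, none, some 7, some 6, some 0] [2, 2, 1, 0, 3, 3, 2, 1, 0] (by decide),
    count_one E1 irr1 7 k hk [some 3, some 5, some 4, some 2, some 1, none, some 7, some 6, some 0] [2, 2, 1, 0, 3, 3, 2, 1, 0] (by decide)]

theorem irr2 : ∀ x, adjOf E2 x x = false := by decide

theorem sum2 (k : ℕ) (hk : 0 < k) :
    (∑ v : Fin 8, (Finset.univ.filter fun c : Option (Fin 8) → Fin k =>
      ∀ x y, dup (adjOf E2) v x y = true → c x ≠ c y).card) =
      (([1, 3, 2, 2, 1, 1, 1, 0, 0] : List ℕ).map fun d => k - d).prod +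
      (([2, 3, 2, 2, 1, 1, 1, 0, 0] : List ℕ).map fun d => k - d).prod +
      (([2, 3, 2, 2, 1, 1, 1, 0, 0] : List ℕ).map fun d => k - d).prod +
      (([3, 3, 2, 2, 1, 1, 1, 0, 0] : List ℕ).map fun d => k - d).prod +
      (([4, 3, 2, 2, 1, 1, 1, 0, 0] : List ℕ).map fun d => k - d).prod +
      (([4, 3, 2, 2, 1, 1, 1, 0, 0] : List ℕ).map fun d => k - d).prod +
      (([4, 3, 3, 2, 2, 1, 1, 0, 0] : List ℕ).map fun d => k - d).prod +
      (([4, 3, 3, 1, 2, 2, 1, 0, 0] : List ℕ).map fun d => k - d).prod := by
  rw [Fin.sum_univ_eight,
    count_one E2 irr2 0 k hk [none, some 5, some 4, some 3, some 2, some 6, some 7, some 1, some 0] [1, 3, 2, 2, 1, 1, 1, 0, 0] (by decide),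
    count_one E2 irr2 1 k hk [none, some 5, some 4, some 3, some 2, some 6, some 7, some 1, some 0] [2, 3, 2, 2, 1, 1, 1, 0, 0] (by decide),
    count_one E2 irr2 2 k hk [none, some 5, some 4, some 3, some 2, some 6, some 7, some 1, some 0] [2, 3, 2, 2, 1, 1, 1, 0, 0] (by decide),
    count_one E2 irr2 3 k hk [none, some 5, some 4, some 3, some 2, some 6, some 7, some 1, some 0] [3, 3, 2, 2, 1, 1, 1, 0, 0] (by decide),
    count_one E2 irr2 4 k hk [none, some 5, some 4, some 3, some 2, some 6, some 7, some 1, some 0] [4, 3, 2, 2, 1, 1, 1, 0, 0] (by decide),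
    count_one E2 irr2 5 k hk [none, some 5, some 4, some 3, some 2, some 6, some 7, some 1, some 0] [4, 3, 2, 2, 1, 1, 1, 0, 0] (by decide),
    count_one E2 irr2 6 k hk [some 5, some 4, some 3, some 2, none, some 6, some 7, some 1, some 0] [4, 3, 3, 2, 2, 1, 1, 0, 0] (by decide),
    count_one E2 irr2 7 k hk [some 5, some 4, some 3, some 2, some 6, none, some 7, some 1, some 0] [4, 3, 3, 1, 2, 2, 1, 0, 0] (by decide)]

theorem pairs_eq (k : ℕ) :
    Nat.card {p : (gOf E1 irr1).Coloring (Fin k) × (gOf E1 irr1).Coloring (Fin k) //
            Nat.card {v : Fin 8 // p.1 v ≠ p.2 v} = 1} =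
    Nat.card {p : (gOf E2 irr2).Coloring (Fin k) × (gOf E2 irr2).Coloring (Fin k) //
            Nat.card {v : Fin 8 // p.1 v ≠ p.2 v} = 1} := by
  rw [card_pairs (gOf E1 irr1) (adjOf E1) (fun _ _ => Iff.rfl) k,
    card_pairs (gOf E2 irr2) (adjOf E2) (fun _ _ => Iff.rfl) k]
  rcases Nat.eq_zero_or_pos k with rfl | hk
  · simp
  rw [sum1 k hk, sum2 k hk]
  rcases Nat.lt_or_ge k 4 with h4 | h4
  · interval_cases k <;> rfl
  · obtain ⟨j, rfl⟩ := Nat.exists_eq_add_of_le h4
    simp only [List.map_cons, List.map_nil, List.prod_cons, List.prod_nil]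
    have e0 : 4 + j - 0 = j + 4 := by omega
    have e1 : 4 + j - 1 = j + 3 := by omega
    have e2 : 4 + j - 2 = j + 2 := by omega
    have e3 : 4 + j - 3 = j + 1 := by omega
    have e4 : 4 + j - 4 = j := by omega
    rw [e0, e1, e2, e3, e4]
    ring

theorem col1 : Nat.card ((gOf E1 irr1).Coloring (Fin 3)) ≠ 0 := by
  classical
  have : Nonempty ((gOf E1 irr1).Coloring (Fin 3)) :=
    ⟨SimpleGraph.Coloring.mk ![0, 0, 0, 0, 1, 2, 1, 2] (by
      intro x y hxy
      change adjOf E1 x y = true at hxy
      revert x y
      decide)⟩
  exact Nat.card_pos.ne'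

theorem col2 : Nat.card ((gOf E2 irr2).Coloring (Fin 3)) = 0 := by
  have : IsEmpty ((gOf E2 irr2).Coloring (Fin 3)) := by
    constructor
    intro c
    have h1 : c 4 ≠ c 5 := c.valid (show adjOf E2 4 5 = true by decide)
    have h2 : c 4 ≠ c 6 := c.valid (show adjOf E2 4 6 = true by decide)
    have h3 : c 4 ≠ c 7 := c.valid (show adjOf E2 4 7 = true by decide)
    have h4 : c 5 ≠ c 6 := c.valid (show adjOf E2 5 6 = true by decide)
    have h5 : c 5 ≠ c 7 := c.valid (show adjOf E2 5 7 = true by decide)
    have h6 : c 6 ≠ c 7 := c.valid (show adjOf E2 6 7 = true by decide)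
    have key : ∀ a b d e : Fin 3, ¬ (a ≠ b ∧ a ≠ d ∧ a ≠ e ∧ b ≠ d ∧ b ≠ e ∧ d ≠ e) := by decide
    exact key _ _ _ _ ⟨h1, h2, h3, h4, h5, h6⟩
  exact Nat.card_of_isEmpty

/-- The negation of the preceding statement: For finite graphs G1, G2: if for every k their k-colouring graphs have equally many edges (counted as ordered pairs of proper colourings differing at exactly one vertex), then for every k they have equally many proper k-colourings. -/
theorem result :
    ¬ (∀ (n m : ℕ) (G₁ : SimpleGraph (Fin n)) (G₂ : SimpleGraph (Fin m)),
      (∀ k : ℕ,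
        Nat.card {p : G₁.Coloring (Fin k) × G₁.Coloring (Fin k) //
            Nat.card {v : Fin n // p.1 v ≠ p.2 v} = 1} =
          Nat.card {p : G₂.Coloring (Fin k) × G₂.Coloring (Fin k) //
            Nat.card {v : Fin m // p.1 v ≠ p.2 v} = 1}) →
      ∀ k : ℕ, Nat.card (G₁.Coloring (Fin k)) = Nat.card (G₂.Coloring (Fin k))) := by
  intro h
  have h1 := h 8 8 (gOf E1 irr1) (gOf E2 irr2) pairs_eq 3
  rw [col2] at h1
  exact col1 h1

end Pool.Agent.S08294
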