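import Pool.Statements.S08443

set_option autoImplicit false
open Pool Pool.MP_44d0b1_co

namespace Pool.Agent.S08443

namespace RMaux

open Finset


abbrev F (n : ℕ) := (Fin n → ZMod 2) → ZMod 2

def mono {n : ℕ} (S : Finset (Fin n)) : F n := fun x => ∏ i ∈ S, x i

def RM (k n : ℕ) : Submodule (ZMod 2) (F n) :=
  Submodule.span (ZMod 2) {f | ∃ S : Finset (Fin n), S.card ≤ k ∧ f = mono S}

lemma mono_mem {k n : ℕ} {S : Finset (Fin n)} (h : S.card ≤ k) : mono S ∈ RM k n :=
  Submodule.subset_span ⟨S, h, rfl⟩

lemma RM_mono {k l n : ℕ} (h : k ≤ l) : RM k n ≤ RM l n := by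
  apply Submodule.span_mono
  rintro f ⟨S, hS, rfl⟩
  exact ⟨S, hS.trans h, rfl⟩

theorem mem_RM_iff {k n : ℕ} (f : F n) : f ∈ RM k n ↔
    ∃ a : Finset (Fin n) → ZMod 2, ∀ x : Fin n → ZMod 2,
      f x = ∑ S ∈ (Finset.univ : Finset (Finset (Fin n))).filter (fun S => S.card ≤ k),
        a S * ∏ i ∈ S, x i := by
  constructor
  · intro hf
    unfold RM at hf
    induction hf using Submodule.span_induction with
    | mem f hf =>
      obtain ⟨S, hS, rfl⟩ := hf
      refine ⟨fun T => if T = S then 1 else 0, fun x => ?_⟩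
      rw [Finset.sum_eq_single S]
      · simp [mono]
      · intro T _ hT
        simp [hT]
      · intro h
        exact absurd (by simpa using hS) (by simpa using h)
    | zero => exact ⟨0, by simp⟩
    | add f g _ _ hf hg =>
      obtain ⟨a, ha⟩ := hf
      obtain ⟨b, hb⟩ := hg
      refine ⟨a + b, fun x => ?_⟩
      simp [ha, hb, add_mul, Finset.sum_add_distrib]
    | smul c f _ hf =>
      obtain ⟨a, ha⟩ := hf
      refine ⟨c • a, fun x => ?_⟩
      simp [ha, mul_assoc, Finset.mul_sum]
  · rintro ⟨a, ha⟩
    have : f = ∑ S ∈ (Finset.univ : Finset (Finset (Fin n))).filter (fun S => S.card ≤ k),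
        a S • mono S := by
      funext x
      rw [ha x]
      simp [Finset.sum_apply, mono]
    rw [this]
    refine Submodule.sum_mem _ fun S hS => Submodule.smul_mem _ _ (mono_mem ?_)
    simpa using hS

/-- the evaluation of an algebraic normal form -/
def ev {n : ℕ} (a : Finset (Fin n) → ZMod 2) : F n := fun x => ∑ S, a S * ∏ i ∈ S, x i

lemma ev_eq {n : ℕ} (a : Finset (Fin n) → ZMod 2) : ev a = ∑ S, a S • mono S := by
  funext x
  simp [ev, mono, Finset.sum_apply]

/-- every Boolean function has an ANF -/
theorem exists_anf {n : ℕ} (f : F n) : ∃ a, f = ev a := by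
  have h1 : ∀ p : Fin n → ZMod 2, ∀ x : Fin n → ZMod 2,
      (∏ i, (x i + (p i + 1))) = if x = p then 1 else 0 := by
    intro p x
    split_ifs with h
    · subst h
      apply Finset.prod_eq_one
      intro i _
      have : ∀ t : ZMod 2, t + (t + 1) = 1 := by decide
      exact this _
    · obtain ⟨i, hi⟩ := Function.ne_iff.mp h
      apply Finset.prod_eq_zero (Finset.mem_univ i)
      have : ∀ s t : ZMod 2, s ≠ t → s + (t + 1) = 0 := by decide
      exact this _ _ hi
  refine ⟨fun S => ∑ p, f p * ∏ i ∈ Sᶜ, (p i + 1), ?_⟩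
  funext x
  have h2 : f x = ∑ p, f p * (if x = p then 1 else 0) := by simp
  rw [h2]
  simp_rw [← h1, Finset.prod_add, Finset.mul_sum]
  rw [Finset.sum_comm]
  simp only [ev, Finset.powerset_univ, Finset.sum_mul]
  refine Finset.sum_congr rfl fun S _ => ?_
  refine Finset.sum_congr rfl fun p _ => ?_
  rw [Finset.compl_eq_univ_sdiff]
  ring_nf

lemma RM_eq_top {k n : ℕ} (h : n ≤ k) : RM k n = ⊤ := by
  rw [eq_top_iff]
  intro f _
  obtain ⟨a, rfl⟩ := exists_anf f
  rw [ev_eq]
  refine Submodule.sum_mem _ fun S _ => Submodule.smul_mem _ _ (mono_mem ?_)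
  exact (Finset.card_le_univ S).trans (by simpa using h)

/-- the sum over the cube vanishes for low degree functions -/
lemma sum_RM {k n : ℕ} (h : k < n) {f : F n} (hf : f ∈ RM k n) : ∑ x, f x = 0 := by
  unfold RM at hf
  induction hf using Submodule.span_induction with
  | mem f hf =>
    obtain ⟨S, hS, rfl⟩ := hf
    have : ∃ j, j ∉ S := by
      by_contra hcon
      push Not at hcon
      have : S = Finset.univ := Finset.eq_univ_iff_forall.mpr hcon
      subst this
      simp at hS
      omega
    obtain ⟨j, hj⟩ := this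
    apply Finset.sum_involution (fun x _ => Function.update x j (x j + 1))
    · intro x _
      have : mono S (Function.update x j (x j + 1)) = mono S x := by
        apply Finset.prod_congr rfl
        intro i hi
        rw [Function.update_of_ne]
        rintro rfl; exact hj hi
      rw [this]
      exact CharTwo.add_self_eq_zero _
    · intro x _ _ hx
      have := congrFun hx j
      simp at this
    · intro x _
      funext i
      by_cases hij : i = j
      · subst hij
        simp [add_assoc, CharTwo.add_self_eq_zero]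
      · simp [hij]
    · intro x _
      exact Finset.mem_univ _
  | zero => simp
  | add f g _ _ hf hg => simp [Finset.sum_add_distrib, hf, hg]
  | smul c f _ hf => simp [← Finset.mul_sum, hf]

lemma RM_ne_top {k n : ℕ} (h : k < n) : ∃ f : F n, f ∉ RM k n := by
  refine ⟨fun x => if x = 0 then 1 else 0, fun hf => ?_⟩
  have := sum_RM h hf
  simp at this

lemma mono_update {n : ℕ} (S : Finset (Fin n)) (x : Fin n → ZMod 2) (i : Fin n) (c : ZMod 2) :
    mono S (Function.update x i c) = if i ∈ S then c * mono (S.erase i) x else mono S x := by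
  unfold mono
  split_ifs with h
  · rw [Finset.prod_update_of_mem h, Finset.sdiff_singleton_eq_erase]
  · exact Finset.prod_update_of_notMem h _ _

/-- derivative in direction `i` -/
def D {n : ℕ} (i : Fin n) (f : F n) : F n := fun x => f (Function.update x i (x i + 1)) + f x

lemma z2 (t : ZMod 2) : t + t = 0 := CharTwo.add_self_eq_zero t

lemma D_mono {n : ℕ} (i : Fin n) (S : Finset (Fin n)) :
    D i (mono S) = if i ∈ S then mono (S.erase i) else 0 := by
  funext x
  unfold D
  rw [mono_update]
  split_ifs with h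
  · have h2 : mono S x = x i * mono (S.erase i) x := by
      unfold mono
      rw [Finset.mul_prod_erase _ _ h]
    rw [h2]
    have := z2 (x i * mono (S.erase i) x)
    linear_combination this
  · simp [z2]

lemma D_add {n : ℕ} (i : Fin n) (f g : F n) : D i (f + g) = D i f + D i g := by
  funext x; simp [D]; ring

lemma D_smul {n : ℕ} (i : Fin n) (c : ZMod 2) (f : F n) : D i (c • f) = c • D i f := by
  funext x; simp [D]; ring

lemma D_zero {n : ℕ} (i : Fin n) : D i (0 : F n) = 0 := by
  funext x; simp [D]

lemma D_sum {n : ℕ} (i : Fin n) {ι : Type*} (s : Finset ι) (f : ι → F n) :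
    D i (∑ j ∈ s, f j) = ∑ j ∈ s, D i (f j) := by
  classical
  induction s using Finset.induction_on with
  | empty => simp [D_zero]
  | insert a s ha ih => rw [Finset.sum_insert ha, Finset.sum_insert ha, D_add, ih]

lemma D_ev {n : ℕ} (i : Fin n) (a : Finset (Fin n) → ZMod 2) :
    D i (ev a) = ev (fun S => if i ∈ S then 0 else a (insert i S)) := by
  rw [ev_eq, ev_eq, D_sum]
  simp_rw [D_smul, D_mono]
  have h1 : ∑ S : Finset (Fin n), a S • (if i ∈ S then mono (S.erase i) else 0)
      = ∑ S ∈ (Finset.univ : Finset (Finset (Fin n))).filter (fun S => i ∈ S),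
        a S • mono (S.erase i) := by
    rw [Finset.sum_filter]
    refine Finset.sum_congr rfl fun S _ => ?_
    split_ifs <;> simp
  have h2 : ∑ S : Finset (Fin n), (if i ∈ S then (0 : ZMod 2) else a (insert i S)) • mono S
      = ∑ S ∈ (Finset.univ : Finset (Finset (Fin n))).filter (fun S => i ∉ S),
        a (insert i S) • mono S := by
    rw [Finset.sum_filter]
    refine Finset.sum_congr rfl fun S _ => ?_
    split_ifs <;> simp
  rw [h1, h2]
  refine Finset.sum_bij' (fun S _ => S.erase i) (fun S _ => insert i S) ?_ ?_ ?_ ?_ ?_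
  · intro S _; simp
  · intro S _; simp
  · intro S hS; simp at hS; exact Finset.insert_erase hS
  · intro S hS; simp at hS; exact Finset.erase_insert hS
  · intro S hS; simp at hS; rw [Finset.insert_erase hS]

/-- closure conditions -/
structure Cl {n : ℕ} (K : Submodule (ZMod 2) (F n)) : Prop where
  d : ∀ f ∈ K, ∀ i, D i f ∈ K
  xd : ∀ f ∈ K, ∀ i j, i ≠ j → (fun x => x j * D i f x) ∈ K

/-- projection to monomials containing `i` and not `j` -/
def P {n : ℕ} (i j : Fin n) (f : F n) : F n := fun x => x i * D j (fun x => (x j + 1) * D i f x) x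

lemma P_mem {n : ℕ} {K : Submodule (ZMod 2) (F n)} (hK : Cl K) {f : F n} (hf : f ∈ K)
    {i j : Fin n} (hij : i ≠ j) : P i j f ∈ K := by
  have h1 : (fun x => (x j + 1) * D i f x) ∈ K := by
    have : (fun x => (x j + 1) * D i f x) = (fun x => x j * D i f x) + D i f := by
      funext x; simp; ring
    rw [this]
    exact K.add_mem (hK.xd f hf i j hij) (hK.d f hf i)
  exact hK.xd _ h1 j i hij.symm

lemma P_add {n : ℕ} (i j : Fin n) (f g : F n) : P i j (f + g) = P i j f + P i j g := by
  funext x; simp [P, D]; ring

lemma P_smul {n : ℕ} (i j : Fin n) (c : ZMod 2) (f : F n) : P i j (c • f) = c • P i j f := by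
  funext x; simp [P, D]; ring

lemma P_zero {n : ℕ} (i j : Fin n) : P i j (0 : F n) = 0 := by
  funext x; simp [P, D]

lemma P_sum {n : ℕ} (i j : Fin n) {ι : Type*} (s : Finset ι) (f : ι → F n) :
    P i j (∑ l ∈ s, f l) = ∑ l ∈ s, P i j (f l) := by
  classical
  induction s using Finset.induction_on with
  | empty => simp [P_zero]
  | insert a s ha ih => rw [Finset.sum_insert ha, Finset.sum_insert ha, P_add, ih]

lemma mono_eq_mul {n : ℕ} {S : Finset (Fin n)} {i : Fin n} (h : i ∈ S) (x : Fin n → ZMod 2) :
    mono S x = x i * mono (S.erase i) x := by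
  unfold mono
  rw [Finset.mul_prod_erase _ _ h]

lemma z2m (t : ZMod 2) : (t + 1) * t = 0 := by
  revert t; decide

lemma P_mono {n : ℕ} {i j : Fin n} (hij : i ≠ j) (S : Finset (Fin n)) :
    P i j (mono S) = if i ∈ S ∧ j ∉ S then mono S else 0 := by
  funext x
  unfold P
  rw [D_mono]
  by_cases hi : i ∈ S
  · by_cases hj : j ∈ S
    · have h0 : (fun x : Fin n → ZMod 2 => (x j + 1) * (if i ∈ S then mono (S.erase i) else 0) x)
          = (0 : F n) := by
        funext y
        simp only [hi, if_true, Pi.zero_apply]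
        rw [mono_eq_mul (S := S.erase i) (i := j) (by simp [hj, hij.symm]), ← mul_assoc, z2m,
          zero_mul]
      rw [h0, D_zero]
      simp [hj]
    · simp only [hi, hj, if_true, not_false_eq_true, and_self]
      unfold D
      beta_reduce
      rw [mono_update]
      simp only [Function.update_self]
      have : j ∉ S.erase i := by simp [hj]
      simp only [this, if_false]
      rw [mono_eq_mul hi]
      have h1 := z2 (x j)
      have h2 : (1 : ZMod 2) + 1 = 0 := z2 1
      linear_combination (x i * mono (S.erase i) x) * h1 + (x i * mono (S.erase i) x) * h2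
  · simp [hi, D]

lemma P_ev {n : ℕ} {i j : Fin n} (hij : i ≠ j) (a : Finset (Fin n) → ZMod 2) :
    P i j (ev a) = ev (fun S => if i ∈ S ∧ j ∉ S then a S else 0) := by
  rw [ev_eq, ev_eq, P_sum]
  refine Finset.sum_congr rfl fun S _ => ?_
  rw [P_smul, P_mono hij]
  split_ifs <;> simp

lemma ev_filter_mem {n : ℕ} {K : Submodule (ZMod 2) (F n)} (hK : Cl K)
    (L : Finset (Fin n × Fin n)) :
    (∀ p ∈ L, p.1 ≠ p.2) → ∀ a : Finset (Fin n) → ZMod 2, ev a ∈ K →
      ev (fun S => if ∀ p ∈ L, p.1 ∈ S ∧ p.2 ∉ S then a S else 0) ∈ K := by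
  induction L using Finset.induction_on with
  | empty => intro _ a ha; simpa using ha
  | insert q L hq ih =>
    intro hL a ha
    have h1 := ih (fun p hp => hL p (Finset.mem_insert_of_mem hp)) a ha
    have h2 := P_mem hK h1 (hL q (Finset.mem_insert_self _ _))
    rw [P_ev (hL q (Finset.mem_insert_self _ _))] at h2
    convert h2 using 2
    funext S
    by_cases hc : q.1 ∈ S ∧ q.2 ∉ S
    · simp [hc]
    · simp [hc]

lemma mono_mem_of_coeff {n : ℕ} {K : Submodule (ZMod 2) (F n)} (hK : Cl K)
    (a : Finset (Fin n) → ZMod 2) (ha : ev a ∈ K) {T : Finset (Fin n)} (hT : a T ≠ 0)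
    (hne : T.Nonempty) (hne' : T ≠ Finset.univ) : mono T ∈ K := by
  obtain ⟨i0, hi0⟩ := hne
  obtain ⟨j0, hj0⟩ : ∃ j, j ∉ T := by
    by_contra hcon
    push Not at hcon
    exact hne' (Finset.eq_univ_iff_forall.mpr hcon)
  have h := ev_filter_mem hK (T ×ˢ Tᶜ) (by
    rintro ⟨i, j⟩ hp
    simp only [Finset.mem_product, Finset.mem_compl] at hp
    rintro (rfl : i = j)
    exact hp.2 hp.1) a ha
  have h2 : ev (fun S => if ∀ p ∈ T ×ˢ Tᶜ, p.1 ∈ S ∧ p.2 ∉ S then a S else 0) = mono T := by
    rw [ev_eq, Finset.sum_eq_single T]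
    · have ha1 : a T = 1 := by
        have : ∀ t : ZMod 2, t ≠ 0 → t = 1 := by decide
        exact this _ hT
      rw [if_pos, ha1, one_smul]
      rintro ⟨i, j⟩ hp
      simpa [Finset.mem_product, Finset.mem_compl] using hp
    · intro S _ hS
      rw [if_neg, zero_smul]
      intro hall
      apply hS
      ext i
      constructor
      · intro hi
        by_contra hcon
        exact (hall (i0, i) (by simp [hi0, hcon])).2 hi
      · intro hi
        exact (hall (i, j0) (by simp [hi, hj0])).1
    · simp
  rwa [h2] at h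

lemma mono_sub {n : ℕ} {K : Submodule (ZMod 2) (F n)} (hK : Cl K) (m : ℕ) :
    ∀ T S : Finset (Fin n), (T \ S).card = m → S ⊆ T → mono T ∈ K → mono S ∈ K := by
  induction m with
  | zero =>
    intro T S h0 hS hT
    have : T \ S = ∅ := Finset.card_eq_zero.mp h0
    have : T = S := Finset.Subset.antisymm (Finset.sdiff_eq_empty_iff_subset.mp this) hS
    rwa [← this]
  | succ m ih =>
    intro T S h0 hS hT
    have hne : (T \ S).Nonempty := Finset.card_pos.mp (by omega)
    obtain ⟨i, hi⟩ := hne
    have hi' := Finset.mem_sdiff.mp hi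
    refine ih (T.erase i) S ?_ ?_ ?_
    · rw [Finset.erase_sdiff_comm, Finset.card_erase_of_mem hi]; omega
    · intro s hs
      refine Finset.mem_erase.mpr ⟨?_, hS hs⟩
      rintro rfl
      exact hi'.2 hs
    · have := hK.d _ hT i
      rwa [D_mono, if_pos hi'.1] at this

lemma mono_exch {n : ℕ} {K : Submodule (ZMod 2) (F n)} (hK : Cl K) (m : ℕ) :
    ∀ T S : Finset (Fin n), (S \ T).card = m → S.card ≤ T.card → mono T ∈ K → mono S ∈ K := by
  induction m with
  | zero =>
    intro T S h0 _ hT
    have : S \ T = ∅ := Finset.card_eq_zero.mp h0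
    exact mono_sub hK _ T S rfl (Finset.sdiff_eq_empty_iff_subset.mp this) hT
  | succ m ih =>
    intro T S h0 hc hT
    obtain ⟨j, hj⟩ : (S \ T).Nonempty := Finset.card_pos.mp (by omega)
    obtain ⟨i, hi⟩ : (T \ S).Nonempty := by
      apply Finset.card_pos.mp
      have h1 := Finset.card_sdiff_add_card_inter S T
      have h2 := Finset.card_sdiff_add_card_inter T S
      rw [Finset.inter_comm] at h2
      omega
    have hi' := Finset.mem_sdiff.mp hi
    have hj' := Finset.mem_sdiff.mp hj
    have hij : i ≠ j := by rintro rfl; exact hi'.2 hj'.1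
    refine ih (insert j (T.erase i)) S ?_ ?_ ?_
    · have : S \ (insert j (T.erase i)) = (S \ T).erase j := by
        ext s
        simp only [Finset.mem_sdiff, Finset.mem_insert, Finset.mem_erase]
        constructor
        · rintro ⟨h1, h2⟩
          push Not at h2
          refine ⟨h2.1, h1, fun hsT => ?_⟩
          refine h2.2 ?_ hsT
          rintro rfl
          exact hi'.2 h1
        · rintro ⟨h1, h2, h3⟩
          refine ⟨h2, ?_⟩
          rintro (h | h)
          · exact h1 h
          · exact h3 h.2
      rw [this, Finset.card_erase_of_mem hj]; omega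
    · rw [Finset.card_insert_of_notMem (by simp [hj'.2]), Finset.card_erase_of_mem hi'.1]
      have : 0 < T.card := Finset.card_pos.mpr ⟨i, hi'.1⟩
      omega
    · have h1 := hK.xd _ hT i j hij
      rw [D_mono, if_pos hi'.1] at h1
      have h2 : mono (insert j (T.erase i)) = fun x : Fin n → ZMod 2 => x j * mono (T.erase i) x := by
        funext x
        unfold mono
        rw [Finset.prod_insert (by simp [hj'.2])]
      rwa [h2]

theorem RM_succ_le {k n : ℕ} (hkn : k < n) {K : Submodule (ZMod 2) (F n)} (hK : Cl K)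
    (hA : RM k n ≤ K) {f : F n} (hf : f ∈ K) (hf' : f ∉ RM k n) : RM (k + 1) n ≤ K := by
  obtain ⟨a, rfl⟩ := exists_anf f
  -- a monomial of degree ≥ k+1
  obtain ⟨T, hTc, hT⟩ : ∃ T : Finset (Fin n), k + 1 ≤ T.card ∧ a T ≠ 0 := by
    by_contra hcon
    push Not at hcon
    apply hf'
    rw [ev_eq]
    refine Submodule.sum_mem _ fun S _ => ?_
    by_cases hS : k + 1 ≤ S.card
    · rw [hcon S hS, zero_smul]; exact Submodule.zero_mem _
    · exact Submodule.smul_mem _ _ (mono_mem (by omega))
  -- enough : some `mono T ∈ K` with `k+1 ≤ T.card`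
  have key : ∀ T : Finset (Fin n), k + 1 ≤ T.card → mono T ∈ K → RM (k + 1) n ≤ K := by
    intro T hT1 hT2
    unfold RM
    rw [Submodule.span_le]
    rintro g ⟨S, hS, rfl⟩
    exact mono_exch hK _ T S rfl (hS.trans hT1) hT2
  have hTne : T.Nonempty := Finset.card_pos.mp (by omega)
  by_cases hTu : T = Finset.univ
  · subst hTu
    by_cases hk : k + 1 = n
    · apply key Finset.univ hTc
      have ha1 : a Finset.univ = 1 := by
        have : ∀ t : ZMod 2, t ≠ 0 → t = 1 := by decide
        exact this _ hT
      have h1 : mono (Finset.univ : Finset (Fin n)) = ev a -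
          ∑ S ∈ (Finset.univ : Finset (Finset (Fin n))).erase Finset.univ, a S • mono S := by
        rw [ev_eq, ← Finset.add_sum_erase _ _ (Finset.mem_univ (Finset.univ : Finset (Fin n))), ha1,
          one_smul]
        simp
      rw [h1]
      refine K.sub_mem hf (hA (Submodule.sum_mem _ fun S hS => Submodule.smul_mem _ _
        (mono_mem ?_)))
      have h2 : S ≠ Finset.univ := (Finset.mem_erase.mp hS).1
      have h3 : S.card < (Finset.univ : Finset (Fin n)).card :=
        Finset.card_lt_card (Finset.ssubset_univ_iff.mpr h2)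
      simp at h3
      omega
    · have hn : 0 < n := by omega
      have h1 := hK.d _ hf ⟨0, hn⟩
      rw [D_ev] at h1
      have h2 := mono_mem_of_coeff hK _ h1 (T := Finset.univ.erase ⟨0, hn⟩) (by
        simp only [Finset.mem_erase, ne_eq, not_true_eq_false, false_and, if_false]
        rwa [Finset.insert_erase (Finset.mem_univ _)]) (by
        apply Finset.card_pos.mp
        rw [Finset.card_erase_of_mem (Finset.mem_univ _)]
        simp
        omega) (by
        intro h
        have := Finset.mem_univ (⟨0, hn⟩ : Fin n)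
        rw [← h] at this
        simp at this)
      refine key _ ?_ h2
      rw [Finset.card_erase_of_mem (Finset.mem_univ _)]
      simp
      omega
  · exact key T hTc (mono_mem_of_coeff hK a hf hT hTne hTu)

/-- distance from `f` to the code -/
noncomputable def dd (k : ℕ) {n : ℕ} (f : F n) : ℕ :=
  sInf ((fun g => hammingDist f g) '' (RM k n : Set (F n)))

lemma dd_le {k n : ℕ} (f : F n) {g : F n} (hg : g ∈ RM k n) : dd k f ≤ hammingDist f g :=
  Nat.sInf_le ⟨g, hg, rfl⟩

lemma exists_dd (k : ℕ) {n : ℕ} (f : F n) : ∃ g ∈ RM k n, hammingDist f g = dd k f := by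
  have : ((fun g => hammingDist f g) '' (RM k n : Set (F n))).Nonempty :=
    ⟨_, 0, Submodule.zero_mem _, rfl⟩
  obtain ⟨g, hg, h⟩ := Nat.sInf_mem this
  exact ⟨g, hg, h⟩

lemma le_dd {k n r : ℕ} {f : F n} (h : ∀ g ∈ RM k n, r ≤ hammingDist f g) : r ≤ dd k f := by
  obtain ⟨g, hg, h2⟩ := exists_dd k f
  rw [← h2]
  exact h g hg

/-- covering radius -/
noncomputable def rho (k n : ℕ) : ℕ := (Finset.univ : Finset (F n)).sup (fun f => dd k f)

lemma dd_le_rho {k n : ℕ} (f : F n) : dd k f ≤ rho k n :=
  Finset.le_sup (f := fun f => dd k f) (Finset.mem_univ f)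

lemma exists_rho (k n : ℕ) : ∃ f : F n, dd k f = rho k n := by
  obtain ⟨f, _, hf⟩ := Finset.exists_mem_eq_sup (Finset.univ : Finset (F n)) ⟨0, Finset.mem_univ _⟩
    (fun f => dd k f)
  exact ⟨f, hf.symm⟩

/-- the two halves of a function -/
def half {n : ℕ} (t : ZMod 2) (f : F (n + 1)) : F n := fun y => f (Fin.cons t y)

lemma hammingDist_half {n : ℕ} (f g : F (n + 1)) :
    hammingDist f g = hammingDist (half 0 f) (half 0 g) + hammingDist (half 1 f) (half 1 g) := by
  classical
  have key : ∀ {m : ℕ} (u v : F m), hammingDist u v = ∑ x, if u x ≠ v x then 1 else 0 := by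
    intro m u v
    rw [Finset.sum_boole]
    rfl
  rw [key, key, key]
  rw [← (Fin.consEquiv (fun _ : Fin (n + 1) => ZMod 2)).sum_comp]
  rw [Fintype.sum_prod_type]
  have h2 : ∀ h : ZMod 2 → ℕ, ∑ t, h t = h 0 + h 1 := by
    intro h
    exact Fin.sum_univ_two h
  rw [h2]
  rfl

/-- lower part of an index set -/
def lowS {n : ℕ} (S : Finset (Fin (n + 1))) : Finset (Fin n) :=
  Finset.univ.filter (fun j : Fin n => j.succ ∈ S)

lemma lowS_card {n : ℕ} (S : Finset (Fin (n + 1))) : (lowS S).card ≤ S.card := by
  refine Finset.card_le_card_of_injOn Fin.succ ?_ (Fin.succ_injective _).injOn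
  intro j hj
  simpa [lowS] using hj

lemma mono_cons {n : ℕ} (S : Finset (Fin (n + 1))) (t : ZMod 2) (y : Fin n → ZMod 2) :
    mono S (Fin.cons t y : Fin (n + 1) → ZMod 2) = (if 0 ∈ S then t else 1) * mono (lowS S) y := by
  unfold mono lowS
  have h1 : ∀ (m : ℕ) (T : Finset (Fin m)) (z : Fin m → ZMod 2),
      ∏ i ∈ T, z i = ∏ i, if i ∈ T then z i else 1 := by
    intro m T z
    rw [Finset.prod_ite_mem, Finset.univ_inter]
  rw [h1, Fin.prod_univ_succ, Finset.prod_filter]
  simp

lemma half_mem {k n : ℕ} (t : ZMod 2) {f : F (n + 1)} (hf : f ∈ RM k (n + 1)) :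
    half t f ∈ RM k n := by
  unfold RM at hf
  induction hf using Submodule.span_induction with
  | mem f hf =>
    obtain ⟨S, hS, rfl⟩ := hf
    have : half t (mono S) = (if 0 ∈ S then t else 1) • mono (lowS S) := by
      funext y
      simp only [half, mono_cons, Pi.smul_apply, smul_eq_mul]
    rw [this]
    exact Submodule.smul_mem _ _ (mono_mem ((lowS_card S).trans hS))
  | zero => exact Submodule.zero_mem _
  | add f g _ _ hf hg => exact Submodule.add_mem _ hf hg
  | smul c f _ hf => exact Submodule.smul_mem _ c hf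

/-- lift of a function not depending on the first variable -/
def lift {n : ℕ} (u : F n) : F (n + 1) := fun x => u (Fin.tail x)

lemma mono_map {n : ℕ} (S : Finset (Fin n)) :
    mono (S.map (Fin.succEmb n)) = lift (mono S) := by
  funext x
  simp [mono, lift, Fin.tail]

lemma lift_mem {k n : ℕ} {u : F n} (hu : u ∈ RM k n) : lift u ∈ RM k (n + 1) := by
  unfold RM at hu
  induction hu using Submodule.span_induction with
  | mem f hf =>
    obtain ⟨S, hS, rfl⟩ := hf
    rw [← mono_map]
    exact mono_mem (by simpa using hS)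
  | zero => exact Submodule.zero_mem _
  | add f g _ _ hf hg => exact Submodule.add_mem _ hf hg
  | smul c f _ hf => exact Submodule.smul_mem _ c hf

lemma xlift_mem {k n : ℕ} {u : F n} (hu : u ∈ RM k n) :
    (fun x => x 0 * lift u x) ∈ RM (k + 1) (n + 1) := by
  unfold RM at hu
  induction hu using Submodule.span_induction with
  | mem f hf =>
    obtain ⟨S, hS, rfl⟩ := hf
    have h0 : (0 : Fin (n + 1)) ∉ S.map (Fin.succEmb n) := by
      simp
    have : (fun x : Fin (n + 1) → ZMod 2 => x 0 * lift (mono S) x)
        = mono (insert 0 (S.map (Fin.succEmb n))) := by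
      rw [← mono_map]
      funext x
      unfold mono
      rw [Finset.prod_insert h0]
    rw [this]
    refine mono_mem ?_
    rw [Finset.card_insert_of_notMem h0]
    simpa using hS
  | zero =>
    have : (fun x : Fin (n + 1) → ZMod 2 => x 0 * lift (0 : F n) x) = 0 := by
      funext x; simp [lift]
    rw [this]
    exact Submodule.zero_mem _
  | add f g _ _ hf hg =>
    have : (fun x : Fin (n + 1) → ZMod 2 => x 0 * lift (f + g) x)
        = (fun x => x 0 * lift f x) + (fun x => x 0 * lift g x) := by
      funext x; simp [lift]; ring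
    rw [this]
    exact Submodule.add_mem _ hf hg
  | smul c f _ hf =>
    have : (fun x : Fin (n + 1) → ZMod 2 => x 0 * lift (c • f) x)
        = c • (fun x : Fin (n + 1) → ZMod 2 => x 0 * lift f x) := by
      funext x; simp [lift]; ring
    rw [this]
    exact Submodule.smul_mem _ c hf

lemma two_rho_le (k n : ℕ) : 2 * rho k n ≤ rho k (n + 1) := by
  obtain ⟨z, hz⟩ := exists_rho k n
  refine le_trans ?_ (dd_le_rho (lift z))
  apply le_dd
  intro g hg
  rw [hammingDist_half]
  have h0 : ∀ t, rho k n ≤ hammingDist (half t (lift z)) (half t g) := by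
    intro t
    have : half t (lift z) = z := by
      funext y
      simp [half, lift]
    rw [this, ← hz]
    exact dd_le z (half_mem t hg)
  have := h0 0
  have := h0 1
  omega

lemma rho_succ_le (k n : ℕ) : rho (k + 1) (n + 1) ≤ rho (k + 1) n + rho k n := by
  obtain ⟨f, hf⟩ := exists_rho (k + 1) (n + 1)
  rw [← hf]
  obtain ⟨u, hu, hu2⟩ := exists_dd (k + 1) (half 0 f)
  obtain ⟨v, hv, hv2⟩ := exists_dd k (half 1 f - u)
  have hc : lift u + (fun x => x 0 * lift v x) ∈ RM (k + 1) (n + 1) :=
    Submodule.add_mem _ (lift_mem hu) (xlift_mem hv)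
  refine (dd_le f hc).trans ?_
  rw [hammingDist_half]
  have h0 : half 0 (lift u + (fun x => x 0 * lift v x)) = u := by
    funext y
    simp [half, lift]
  have h1 : half 1 (lift u + (fun x => x 0 * lift v x)) = u + v := by
    funext y
    simp [half, lift]
  rw [h0, h1, hu2]
  have h3 : hammingDist (half 1 f) (u + v) = hammingDist (half 1 f - u) v := by
    rw [hammingDist_eq_hammingNorm, hammingDist_eq_hammingNorm]
    congr 1
    abel
  rw [h3, hv2]
  exact add_le_add (dd_le_rho _) (dd_le_rho _)

lemma rho_lt (n : ℕ) : ∀ k, k < n → rho (k + 1) n < rho k n := by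
  induction n with
  | zero => intro k hk; omega
  | succ n ih =>
    intro k hk
    by_cases h : k < n
    · have h1 := ih k h
      have h2 := rho_succ_le k n
      have h3 := two_rho_le k n
      omega
    · have hk' : k = n := by omega
      subst hk'
      have h1 : rho (k + 1) (k + 1) = 0 := by
        obtain ⟨f, hf⟩ := exists_rho (k + 1) (k + 1)
        rw [← hf]
        have h2 : f ∈ RM (k + 1) (k + 1) := by rw [RM_eq_top le_rfl]; trivial
        have := dd_le f h2
        rw [hammingDist_self] at this
        omega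
      rw [h1]
      obtain ⟨f, hf⟩ := RM_ne_top (Nat.lt_succ_self k)
      refine lt_of_lt_of_le ?_ (dd_le_rho f)
      apply le_dd
      intro g hg
      have : f ≠ g := by rintro rfl; exact hf hg
      exact Nat.pos_of_ne_zero (by simpa using this)


/-- the map `x ↦ x + h(x) e_i` -/
def phi {n : ℕ} (i : Fin n) (h : F n) : (Fin n → ZMod 2) → (Fin n → ZMod 2) :=
  fun x => Function.update x i (x i + h x)

lemma phi_invol {n : ℕ} {i : Fin n} {h : F n}
    (hh : ∀ x c, h (Function.update x i c) = h x) (x : Fin n → ZMod 2) :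
    phi i h (phi i h x) = x := by
  unfold phi
  rw [hh, Function.update_self, Function.update_idem, add_assoc, z2, add_zero,
    Function.update_eq_self]

lemma comp_phi {n : ℕ} (i : Fin n) (h : F n) (f : F n) :
    (fun x => f (phi i h x)) = f + fun x => h x * D i f x := by
  funext x
  have h01 : ∀ t : ZMod 2, t = 0 ∨ t = 1 := by decide
  simp only [Pi.add_apply, phi, D]
  rcases h01 (h x) with h0 | h1
  · rw [h0, add_zero, Function.update_eq_self, zero_mul, add_zero]
  · rw [h1, one_mul]
    have := z2 (f x)
    linear_combination -this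

lemma hammingDist_phi {n : ℕ} {i : Fin n} {h : F n}
    (hh : ∀ x c, h (Function.update x i c) = h x) (f g : F n) :
    hammingDist (fun x => f (phi i h x)) (fun x => g (phi i h x)) = hammingDist f g := by
  unfold hammingDist
  refine Finset.card_bij' (fun x _ => phi i h x) (fun x _ => phi i h x) ?_ ?_ ?_ ?_
  · intro x hx; simpa using hx
  · intro x hx; simp only [Finset.mem_filter, Finset.mem_univ, true_and] at hx ⊢
    rwa [phi_invol hh]
  · intro x _; exact phi_invol hh x
  · intro x _; exact phi_invol hh x

lemma Cl_RM (k n : ℕ) : Cl (RM k n) := by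
  have hd : ∀ f ∈ RM k n, ∀ i, D i f ∈ RM k n := by
    intro f hf i
    unfold RM at hf
    induction hf using Submodule.span_induction with
    | mem f hf =>
      obtain ⟨S, hS, rfl⟩ := hf
      rw [D_mono]
      split_ifs with h
      · exact mono_mem ((Finset.card_erase_le).trans hS)
      · exact Submodule.zero_mem _
    | zero => rw [D_zero]; exact Submodule.zero_mem _
    | add f g _ _ hf hg => rw [D_add]; exact Submodule.add_mem _ hf hg
    | smul c f _ hf => rw [D_smul]; exact Submodule.smul_mem _ c hf
  refine ⟨hd, ?_⟩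
  intro f hf i j hij
  unfold RM at hf
  induction hf using Submodule.span_induction with
  | mem f hf =>
    obtain ⟨S, hS, rfl⟩ := hf
    rw [D_mono]
    split_ifs with h
    · by_cases hj : j ∈ S.erase i
      · have : (fun x : Fin n → ZMod 2 => x j * mono (S.erase i) x) = mono (S.erase i) := by
          funext x
          have hsq : ∀ t : ZMod 2, t * t = t := by decide
          rw [mono_eq_mul hj, ← mul_assoc, hsq]
        rw [this]
        exact mono_mem ((Finset.card_erase_le).trans hS)
      · have : (fun x : Fin n → ZMod 2 => x j * mono (S.erase i) x)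
            = mono (insert j (S.erase i)) := by
          funext x
          unfold mono
          rw [Finset.prod_insert hj]
        rw [this]
        refine mono_mem ?_
        rw [Finset.card_insert_of_notMem hj, Finset.card_erase_of_mem h]
        have : 0 < S.card := Finset.card_pos.mpr ⟨i, h⟩
        omega
    · have : (fun x : Fin n → ZMod 2 => x j * (0 : F n) x) = 0 := by
        funext x; simp
      rw [this]
      exact Submodule.zero_mem _
  | zero =>
    have : (fun x : Fin n → ZMod 2 => x j * D i (0 : F n) x) = 0 := by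
      funext x; rw [D_zero]; simp
    rw [this]
    exact Submodule.zero_mem _
  | add f g _ _ hf hg =>
    have : (fun x : Fin n → ZMod 2 => x j * D i (f + g) x)
        = (fun x => x j * D i f x) + (fun x => x j * D i g x) := by
      funext x; rw [D_add]; simp; ring
    rw [this]
    exact Submodule.add_mem _ hf hg
  | smul c f _ hf =>
    have : (fun x : Fin n → ZMod 2 => x j * D i (c • f) x)
        = c • (fun x : Fin n → ZMod 2 => x j * D i f x) := by
      funext x; rw [D_smul]; simp; ring
    rw [this]
    exact Submodule.smul_mem _ c hf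

lemma one_phi {n : ℕ} (i : Fin n) : ∀ (x : Fin n → ZMod 2) (c : ZMod 2),
    (1 : F n) (Function.update x i c) = (1 : F n) x := fun _ _ => rfl

lemma var_phi {n : ℕ} {i j : Fin n} (hij : i ≠ j) : ∀ (x : Fin n → ZMod 2) (c : ZMod 2),
    (fun x : Fin n → ZMod 2 => x j) (Function.update x i c) = (fun x => x j) x := by
  intro x c
  simp [hij.symm]

lemma dd_phi_le {k n : ℕ} {i : Fin n} {h : F n}
    (hh : ∀ x c, h (Function.update x i c) = h x)
    (hA : ∀ g ∈ RM k n, (fun x => g (phi i h x)) ∈ RM k n) (f : F n) :
    dd k (fun x => f (phi i h x)) ≤ dd k f := by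
  obtain ⟨g, hg, hg2⟩ := exists_dd k f
  rw [← hg2, ← hammingDist_phi hh]
  exact dd_le _ (hA g hg)

lemma dd_phi {k n : ℕ} {i : Fin n} {h : F n}
    (hh : ∀ x c, h (Function.update x i c) = h x)
    (hA : ∀ g ∈ RM k n, (fun x => g (phi i h x)) ∈ RM k n) (f : F n) :
    dd k (fun x => f (phi i h x)) = dd k f := by
  refine le_antisymm (dd_phi_le hh hA f) ?_
  have := dd_phi_le hh hA (fun x => f (phi i h x))
  simpa only [phi_invol hh] using this

lemma phi_RM_one {k n : ℕ} (i : Fin n) : ∀ g ∈ RM k n, (fun x => g (phi i 1 x)) ∈ RM k n := by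
  intro g hg
  rw [comp_phi]
  refine Submodule.add_mem _ hg ?_
  have := (Cl_RM k n).d g hg i
  convert this using 2
  simp

lemma phi_RM_var {k n : ℕ} {i j : Fin n} (hij : i ≠ j) :
    ∀ g ∈ RM k n, (fun x => g (phi i (fun x => x j) x)) ∈ RM k n := by
  intro g hg
  rw [comp_phi]
  exact Submodule.add_mem _ hg ((Cl_RM k n).xd g hg i j hij)

/-- the stabiliser of the set of vectors at maximal distance -/
noncomputable def K (k n : ℕ) : Submodule (ZMod 2) (F n) where
  carrier := {y | ∀ b, dd k b = rho k n → dd k (y + b) = rho k n}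
  zero_mem' := by intro b hb; simpa using hb
  add_mem' := by
    intro y z hy hz b hb
    rw [add_assoc]
    exact hy _ (hz _ hb)
  smul_mem' := by
    intro c y hy b hb
    have h01 : ∀ t : ZMod 2, t = 0 ∨ t = 1 := by decide
    rcases h01 c with h0 | h1
    · rw [h0, zero_smul, zero_add]; exact hb
    · rw [h1, one_smul]; exact hy b hb

lemma mem_K {k n : ℕ} {y : F n} :
    y ∈ K k n ↔ ∀ b, dd k b = rho k n → dd k (y + b) = rho k n := Iff.rfl

lemma add_self {n : ℕ} (f : F n) : f + f = 0 := by
  funext x; exact z2 _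

lemma dd_add_le {k n : ℕ} {a : F n} (ha : a ∈ RM k n) (f : F n) : dd k (a + f) ≤ dd k f := by
  obtain ⟨g, hg, hg2⟩ := exists_dd k f
  have h1 := dd_le (a + f) (Submodule.add_mem _ ha hg)
  have h2 : hammingDist (a + f) (a + g) = hammingDist f g := by
    rw [hammingDist_eq_hammingNorm, hammingDist_eq_hammingNorm]
    congr 1
    abel
  omega

lemma dd_add {k n : ℕ} {a : F n} (ha : a ∈ RM k n) (f : F n) : dd k (a + f) = dd k f := by
  refine le_antisymm (dd_add_le ha f) ?_
  have := dd_add_le ha (a + f)
  rwa [← add_assoc, add_self, zero_add] at this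

lemma RM_le_K (k n : ℕ) : RM k n ≤ K k n := by
  intro a ha b hb
  rw [dd_add ha, hb]

lemma K_phi {k n : ℕ} {i : Fin n} {h : F n}
    (hh : ∀ x c, h (Function.update x i c) = h x)
    (hA : ∀ g ∈ RM k n, (fun x => g (phi i h x)) ∈ RM k n) {y : F n} (hy : y ∈ K k n) :
    (fun x => h x * D i y x) ∈ K k n := by
  have h1 : (fun x => y (phi i h x)) ∈ K k n := by
    intro b hb
    have h2 := hy (fun x => b (phi i h x)) (by rw [dd_phi hh hA, hb])
    rw [← dd_phi hh hA] at h2
    rw [← h2]
    congr 1
    funext x
    simp only [Pi.add_apply, phi_invol hh]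
  rw [comp_phi] at h1
  have h2 := (K k n).add_mem hy h1
  rwa [← add_assoc, add_self, zero_add] at h2

lemma Cl_K (k n : ℕ) : Cl (K k n) := by
  constructor
  · intro y hy i
    have := K_phi (one_phi i) (phi_RM_one i) hy
    convert this using 2
    simp
  · intro y hy i j hij
    exact K_phi (var_phi hij) (phi_RM_var hij) hy

theorem K_eq (k n : ℕ) : K k n = RM k n := by
  refine le_antisymm ?_ (RM_le_K k n)
  by_cases hkn : k < n
  · intro f hf
    by_contra hf'
    have h1 := RM_succ_le hkn (Cl_K k n) (RM_le_K k n) hf hf'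
    have h2 := rho_lt n k hkn
    obtain ⟨b, hb⟩ := exists_rho k n
    have h3 : rho k n ≤ dd (k + 1) b := by
      apply le_dd
      intro c hc
      have h4 := h1 hc b hb
      rw [← h4]
      have h5 := dd_le (c + b) (Submodule.zero_mem (RM k n))
      have h6 : hammingDist (c + b) 0 = hammingDist b c := by
        rw [hammingDist_eq_hammingNorm, hammingDist_eq_hammingNorm]
        congr 1
        funext x
        have h7 : ∀ s t : ZMod 2, -(s + t) + 0 = -t + s := by decide
        exact h7 _ _
      omega
    have h4 := dd_le_rho (k := k + 1) b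
    omega
  · rw [RM_eq_top (by omega)]
    exact le_top

end RMaux

open RMaux in
/-- For all n and k ≥ 2, let A be the Boolean functions in n variables of degree at most k and B the functions at maximal Hamming distance from A. Then the functions at maximal distance from B are exactly A. -/
theorem result :
    ∀ n k : ℕ, 2 ≤ k →
      ∀ A : Set ((Fin n → ZMod 2) → ZMod 2),
        (∀ f, f ∈ A ↔ ∃ a : Finset (Fin n) → ZMod 2, ∀ x : Fin n → ZMod 2,
            f x = ∑ S ∈ (Finset.univ : Finset (Finset (Fin n))).filter (fun S => S.card ≤ k),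
              a S * ∏ i ∈ S, x i) →
        ∀ B : Set ((Fin n → ZMod 2) → ZMod 2),
          (∀ y, y ∈ B ↔ ∀ z : (Fin n → ZMod 2) → ZMod 2,
              sInf ((fun f => hammingDist z f) '' A) ≤ sInf ((fun f => hammingDist y f) '' A)) →
          ∀ z : (Fin n → ZMod 2) → ZMod 2,
            (∀ w : (Fin n → ZMod 2) → ZMod 2,
                sInf ((fun g => hammingDist w g) '' B) ≤ sInf ((fun g => hammingDist z g) '' B))
              ↔ z ∈ A := by
  intro n k _ A hA B hB z
  have hA' : A = (RM k n : Set (F n)) := by
    ext f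
    rw [hA f]
    exact (mem_RM_iff f).symm
  subst hA'
  have hB' : ∀ y, y ∈ B ↔ dd k y = rho k n := by
    intro y
    rw [hB y]
    constructor
    · intro h
      obtain ⟨f, hf⟩ := exists_rho k n
      have h1 : dd k f ≤ dd k y := h f
      have h2 := dd_le_rho (k := k) y
      omega
    · intro h w
      have h1 : dd k w ≤ dd k y := by
        rw [h]; exact dd_le_rho w
      exact h1
  obtain ⟨b0, hb0⟩ := exists_rho k n
  have hBne : B.Nonempty := ⟨b0, (hB' b0).mpr hb0⟩
  -- a vector of `B` of minimal weight
  obtain ⟨a0, ha0, ha0'⟩ := exists_dd k b0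
  have hb1 : a0 + b0 ∈ B := by
    rw [hB', dd_add ha0, hb0]
  have hle : ∀ (w : F n) {r : ℕ}, (∀ b ∈ B, r ≤ hammingDist w b) →
      r ≤ sInf ((fun g => hammingDist w g) '' B) := by
    intro w r h
    obtain ⟨b, hb, hb2⟩ := Nat.sInf_mem (hBne.image (fun g => hammingDist w g))
    rw [← hb2]
    exact h b hb
  have hge : ∀ (w : F n) {b : F n}, b ∈ B →
      sInf ((fun g => hammingDist w g) '' B) ≤ hammingDist w b := by
    intro w b hb
    exact Nat.sInf_le ⟨b, hb, rfl⟩
  -- vectors at distance at least `rho` from `B` stabilise `B`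
  have hstab : ∀ w : F n, rho k n ≤ sInf ((fun g => hammingDist w g) '' B) → w ∈ K k n := by
    intro w hw
    rw [mem_K]
    intro b hb
    refine le_antisymm (dd_le_rho _) ?_
    apply le_dd
    intro g hg
    have h1 : g + b ∈ B := by rw [hB', dd_add hg, hb]
    have h2 := hge w h1
    have h3 : hammingDist (w + b) g = hammingDist w (g + b) := by
      rw [hammingDist_eq_hammingNorm, hammingDist_eq_hammingNorm]
      congr 1
      funext x
      have h7 : ∀ s t u : ZMod 2, -(s + t) + u = -s + (u + t) := by decide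
      exact h7 _ _ _
    omega
  have hup : ∀ w : F n, sInf ((fun g => hammingDist w g) '' B) ≤ rho k n := by
    intro w
    by_contra hcon
    push Not at hcon
    have h1 := hstab w hcon.le
    have h2 : w + (a0 + b0) ∈ B := by
      rw [hB']
      exact h1 _ ((hB' _).mp hb1)
    have h3 := hge w h2
    have h4 : hammingDist w (w + (a0 + b0)) = hammingDist b0 a0 := by
      rw [hammingDist_eq_hammingNorm, hammingDist_eq_hammingNorm]
      congr 1
      funext x
      have h7 : ∀ s t u : ZMod 2, -s + (s + (t + u)) = -u + t := by decide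
      exact h7 _ _ _
    omega
  have hlow : ∀ w ∈ RM k n, rho k n ≤ sInf ((fun g => hammingDist w g) '' B) := by
    intro w hw
    apply hle
    intro b hb
    rw [hammingDist_comm, ← (hB' b).mp hb]
    exact dd_le b hw
  constructor
  · intro h
    have h1 : rho k n ≤ sInf ((fun g => hammingDist z g) '' B) :=
      (hlow 0 (Submodule.zero_mem _)).trans (h 0)
    have h2 := hstab z h1
    rw [K_eq] at h2
    exact h2
  · intro h w
    exact (hup w).trans (hlow z h)

end Pool.Agent.S08443
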