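import Pool.Statements.S08607
-- import your own Pool.Agent.* helpers here
import Pool.Agent.H73.Flag.Low

set_option autoImplicit false
open Pool Pool.MP_4b544d_co

namespace Pool.Agent.S08607

open Pool.Agent.H73.Flag Finset

/-- The relation of an oriented graph given by its arcs. -/
def rel {n : ℕ} (r : Fin n → Fin n → Bool) (i j : Fin n) : Fin 3 :=
  if r i j = true then 1 else if r j i = true then 2 else 0

lemma rel_anti {n : ℕ} (r : Fin n → Fin n → Bool)
    (h : ∀ i j, ¬ (r i j = true ∧ r j i = true)) (i j : Fin n) : rel r j i = -rel r i j := by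
  unfold rel
  have := h i j
  by_cases h1 : r i j = true
  · by_cases h2 : r j i = true
    · exact absurd ⟨h1, h2⟩ this
    · rw [if_neg h2, if_pos h1, if_pos h1]; decide
  · by_cases h2 : r j i = true
    · rw [if_pos h2, if_neg h1, if_pos h2]; decide
    · rw [if_neg h2, if_neg h1, if_neg h1, if_neg h2]; decide

lemma count_eq {n : ℕ} (R : Fin n → Fin n → Fin 3) :
    ((((Finset.univ : Finset (Fin n × Fin n × Fin n)).filter
      (fun t => isP R t.1 t.2.1 t.2.2)).card : ℕ) : ℝ) =
      ∑ u, ∑ v, ∑ w, (if isP R u v w then (1 : ℝ) else 0) := by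
  rw [← Finset.sum_boole, Fintype.sum_prod_type]
  refine Finset.sum_congr rfl fun u _ => ?_
  rw [Fintype.sum_prod_type]

/-- There is a constant C such that for every n, every oriented graph on n vertices has at most n^3/15 + C n^2 induced directed 2-edge paths, and some oriented graph on n vertices has at least n^3/15 - C n^2 of them. -/
theorem result :
    ∃ C : ℝ, ∀ n : ℕ,
      (∀ r : Fin n → Fin n → Bool,
        (∀ i, r i i = false) → (∀ i j, ¬ (r i j = true ∧ r j i = true)) →
        ((((Finset.univ : Finset (Fin n × Fin n × Fin n)).filter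
            (fun t => r t.1 t.2.1 = true ∧ r t.2.1 t.2.2 = true ∧
              r t.1 t.2.2 = false ∧ r t.2.2 t.1 = false ∧ t.1 ≠ t.2.2)).card : ℕ) : ℝ)
          ≤ (n : ℝ) ^ 3 / 15 + C * (n : ℝ) ^ 2) ∧
      (∃ r : Fin n → Fin n → Bool,
        (∀ i, r i i = false) ∧ (∀ i j, ¬ (r i j = true ∧ r j i = true)) ∧
        (n : ℝ) ^ 3 / 15 - C * (n : ℝ) ^ 2 ≤
          ((((Finset.univ : Finset (Fin n × Fin n × Fin n)).filter
            (fun t => r t.1 t.2.1 = true ∧ r t.2.1 t.2.2 = true ∧
              r t.1 t.2.2 = false ∧ r t.2.2 t.1 = false ∧ t.1 ≠ t.2.2)).card : ℕ) : ℝ)) := by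
  refine ⟨1, fun n => ⟨fun r _ h2 => ?_, ?_⟩⟩
  · have ha := rel_anti r h2
    have hu := upper (r := rel r) ha
    rw [tS_eq ha, ← count_eq, Fintype.card_fin] at hu
    have hsub : ((Finset.univ : Finset (Fin n × Fin n × Fin n)).filter
            (fun t => r t.1 t.2.1 = true ∧ r t.2.1 t.2.2 = true ∧
              r t.1 t.2.2 = false ∧ r t.2.2 t.1 = false ∧ t.1 ≠ t.2.2)) ⊆
        ((Finset.univ : Finset (Fin n × Fin n × Fin n)).filter
      (fun t => isP (rel r) t.1 t.2.1 t.2.2)) := by
      intro t ht
      simp only [Finset.mem_filter, Finset.mem_univ, true_and] at ht ⊢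
      obtain ⟨h3, h4, h5, h6, -⟩ := ht
      refine ⟨?_, ?_, ?_⟩
      · unfold rel; rw [if_pos h3]
      · unfold rel; rw [if_pos h4]
      · unfold rel; rw [h5, h6]; simp
    have hcard : ((((Finset.univ : Finset (Fin n × Fin n × Fin n)).filter
            (fun t => r t.1 t.2.1 = true ∧ r t.2.1 t.2.2 = true ∧
              r t.1 t.2.2 = false ∧ r t.2.2 t.1 = false ∧ t.1 ≠ t.2.2)).card : ℕ) : ℝ) ≤
        ((((Finset.univ : Finset (Fin n × Fin n × Fin n)).filter
      (fun t => isP (rel r) t.1 t.2.1 t.2.2)).card : ℕ) : ℝ) := by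
      exact_mod_cast Finset.card_le_card hsub
    have hn : (0 : ℝ) ≤ (n : ℝ) ^ 2 := by positivity
    linarith
  · have hanti := RR_anti n
    have k1 : ∀ a : Fin 3, a = 1 → -a ≠ 1 := by decide
    refine ⟨fun i j => decide (RR n i j = 1), fun i => ?_, fun i j => ?_, ?_⟩
    · have h0 : ∀ a : Fin 3, a = -a → decide (a = 1) = false := by decide
      exact h0 _ (hanti i i)
    · rintro ⟨h3, h4⟩
      rw [decide_eq_true_eq] at h3 h4
      rw [hanti i j] at h4
      exact k1 _ h3 h4
    · have hge := TT4_ge n n (Nat.lt_pow_self (by norm_num)).le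
      have hT : ((TT4 n n : ℕ) : ℝ) =
          ((((Finset.univ : Finset (Fin n × Fin n × Fin n)).filter
            (fun t => isP (fun i j : Fin n => RR n i j) t.1 t.2.1 t.2.2)).card : ℕ) : ℝ) := by
        rw [count_eq]
        unfold TT4
        push_cast
        rw [Finset.sum_range]
        refine Finset.sum_congr rfl fun i _ => ?_
        rw [Finset.sum_range]
        refine Finset.sum_congr rfl fun j _ => ?_
        rw [Finset.sum_range]
        rfl
      have hsub : ((Finset.univ : Finset (Fin n × Fin n × Fin n)).filter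
          (fun t => isP (fun i j : Fin n => RR n i j) t.1 t.2.1 t.2.2)) ⊆
          ((Finset.univ : Finset (Fin n × Fin n × Fin n)).filter
            (fun t => decide (RR n t.1 t.2.1 = 1) = true ∧ decide (RR n t.2.1 t.2.2 = 1) = true ∧
              decide (RR n t.1 t.2.2 = 1) = false ∧ decide (RR n t.2.2 t.1 = 1) = false ∧
              t.1 ≠ t.2.2)) := by
        intro t ht
        simp only [Finset.mem_filter, Finset.mem_univ, true_and] at ht ⊢
        obtain ⟨h3, h4, h5⟩ := ht
        replace h3 : RR n t.1 t.2.1 = 1 := h3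
        replace h4 : RR n t.2.1 t.2.2 = 1 := h4
        replace h5 : RR n t.1 t.2.2 = 0 := h5
        refine ⟨decide_eq_true h3, decide_eq_true h4, ?_, ?_, ?_⟩
        · rw [decide_eq_false_iff_not, h5]; decide
        · rw [decide_eq_false_iff_not, hanti, h5]; decide
        · intro he
          have h6 : RR n t.2.1 t.1 = 1 := by rw [he]; exact h4
          rw [hanti] at h6
          exact k1 _ h3 h6
      have hcard := Finset.card_le_card hsub
      have hcard' : ((TT4 n n : ℕ) : ℝ) ≤
          ((((Finset.univ : Finset (Fin n × Fin n × Fin n)).filter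
            (fun t => decide (RR n t.1 t.2.1 = 1) = true ∧ decide (RR n t.2.1 t.2.2 = 1) = true ∧
              decide (RR n t.1 t.2.2 = 1) = false ∧ decide (RR n t.2.2 t.1 = 1) = false ∧
              t.1 ≠ t.2.2)).card : ℕ) : ℝ) := by
        rw [hT]; exact_mod_cast hcard
      rw [one_mul]
      exact hge.trans hcard'

end Pool.Agent.S08607
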