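import Pool.Statements.S09396
import Pool.Agent.H70.Schur7

set_option autoImplicit false
open Classical
open Pool Pool.MP_6f0325_co

namespace Pool.Agent.S09396

open Pool.Agent.H70.Schur in
theorem coeff_eq :
    MvPolynomial.coeff (Finsupp.equivFunOnFinite.symm al)
      ((∑ c ∈ (Finset.univ : Finset ((Fin 2 → Fin 5) → Fin 9)).filter
            (fun c => ∀ u v : Fin 2 → Fin 5, ¬ u ≤ v → ¬ v ≤ u → c u ≠ c v),
          ∏ v : Fin 2 → Fin 5, (MvPolynomial.X (c v) : MvPolynomial (Fin 9) ℤ)) *
        ∏ p ∈ (Finset.univ : Finset (Fin 9 × Fin 9)).filter (fun p => p.1 < p.2),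
          (MvPolynomial.X p.1 - MvPolynomial.X p.2 : MvPolynomial (Fin 9) ℤ)) = -3240176 := by
  have hN : Even ((Finset.univ : Finset (Fin 9 × Fin 9)).filter (fun p => p.1 < p.2)).card := by
    have : ((Finset.univ : Finset (Fin 9 × Fin 9)).filter (fun p => p.1 < p.2)).card = 36 := by
      decide +kernel
    rw [this]; decide
  have h := coeff_chrom (P := Fin 2 → Fin 5) hN FF
    ((Finset.univ : Finset ((Fin 2 → Fin 5) → Fin 9)).filter
            (fun c => ∀ u v : Fin 2 → Fin 5, ¬ u ≤ v → ¬ v ≤ u → c u ≠ c v)) ?_
    (Finsupp.equivFunOnFinite.symm al)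
  · have h2 := det_value
    convert h.trans h2 using 2
  · intro c
    simp only [Finset.mem_filter, Finset.mem_univ, true_and, mem_FF, fib]
    constructor
    · intro h a u hu v hv
      by_contra hcon
      rw [not_or] at hcon
      exact h u v hcon.1 hcon.2 (hu.trans hv.symm)
    · intro h u v h1 h2 h3
      rcases h (c v) u h3 v rfl with h4 | h4
      · exact h1 h4
      · exact h2 h4

/-- The negation of the preceding statement: For all positive n, r and every N, the N-variable chromatic symmetric function of the incomparability graph of the product of r n-element chains, times the Vandermonde, has nonnegative coefficients on strictly decreasing exponents, i.e. is Schur positive. -/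
theorem result :
    ¬ (∀ n r N : ℕ, 0 < n → 0 < r →
      ∀ α : Fin N →₀ ℕ, StrictAnti (⇑α) →
        0 ≤ MvPolynomial.coeff α
          ((∑ c ∈ (Finset.univ : Finset ((Fin r → Fin n) → Fin N)).filter
                (fun c => ∀ u v : Fin r → Fin n, ¬ u ≤ v → ¬ v ≤ u → c u ≠ c v),
              ∏ v : Fin r → Fin n, (MvPolynomial.X (c v) : MvPolynomial (Fin N) ℤ)) *
            ∏ p ∈ (Finset.univ : Finset (Fin N × Fin N)).filter (fun p => p.1 < p.2),
              (MvPolynomial.X p.1 - MvPolynomial.X p.2 : MvPolynomial (Fin N) ℤ))) := by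
  intro hall
  have hanti : StrictAnti (⇑(Finsupp.equivFunOnFinite.symm Pool.Agent.H70.Schur.al)) := by
    rw [Finsupp.coe_equivFunOnFinite_symm]
    intro a b hab
    revert a b
    decide
  have h := hall 5 2 9 (by norm_num) (by norm_num)
    (Finsupp.equivFunOnFinite.symm Pool.Agent.H70.Schur.al) hanti
  rw [coeff_eq] at h
  norm_num at h

end Pool.Agent.S09396
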