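import Pool.Statements.S09534
import Pool.Agent.H58.SpectralMin
import Pool.Agent.H58.CircMin

set_option autoImplicit false
open Classical
open Pool Pool.MP_7523ff_co

namespace Pool.Agent.S09534

/-- The negation of the preceding statement: There are α in (0,2), c>0 and n0 such that for n≥n0 and c·n^α ≤ m ≤ C(n,2), every connected n-vertex m-edge graph of least spectral radius is r-colorable, where e(T(n,r−1)) < m ≤ e(T(n,r)). -/
theorem result :
    ¬ (∃ α : ℝ, 0 < α ∧ α < 2 ∧ ∃ c : ℝ, 0 < c ∧ ∃ n₀ : ℕ, ∀ n : ℕ, n₀ ≤ n →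
      ∀ m : ℕ, c * (n : ℝ) ^ α ≤ (m : ℝ) → m ≤ n.choose 2 →
      ∀ G : SimpleGraph (Fin n), G.Connected → G.edgeSet.ncard = m →
        (∀ H : SimpleGraph (Fin n), H.Connected → H.edgeSet.ncard = m →
          sSup (spectrum ℝ (G.adjMatrix ℝ)) ≤ sSup (spectrum ℝ (H.adjMatrix ℝ))) →
        ∀ r : ℕ, 2 ≤ r →
          (SimpleGraph.turanGraph n (r - 1)).edgeSet.ncard < m →
          m ≤ (SimpleGraph.turanGraph n r).edgeSet.ncard →
          G.Colorable r) := by
  rintro ⟨α, -, hα2, c, hc, n₀, hall⟩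
  obtain ⟨k, hk2, hn₀, hck⟩ := Pool.Agent.H58.CircMin.exists_k α c hα2 n₀
  have hncard : ∀ H : SimpleGraph (Fin (4 * k + 1)), H.edgeSet.ncard = H.edgeFinset.card := by
    intro H
    rw [← SimpleGraph.coe_edgeFinset, Set.ncard_coe_finset]
  have hcardG : (Pool.Agent.H58.CircMin.circ k).edgeSet.ncard = k * (4 * k + 1) := by
    rw [hncard]
    exact Pool.Agent.H58.CircMin.card_edges k
  refine Pool.Agent.H58.CircMin.not_colorable_two k hk2
    (hall (4 * k + 1) hn₀ (k * (4 * k + 1)) hck ?_ (Pool.Agent.H58.CircMin.circ k)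
      (Pool.Agent.H58.CircMin.connected k (by omega)) hcardG ?_ 2 le_rfl ?_ ?_)
  · rw [Nat.choose_two_right, Nat.le_div_iff_mul_le (by norm_num)]
    simp only [Nat.add_sub_cancel]
    nlinarith
  · intro H _ hHm
    rw [hncard] at hHm
    have h1 := Pool.Agent.H58.SpectralMin.sSup_spectrum_of_regular
      (Pool.Agent.H58.CircMin.circ k) (Pool.Agent.H58.CircMin.regular k)
    have h2 := Pool.Agent.H58.SpectralMin.two_mul_edges_le H
    rw [hHm, Fintype.card_fin] at h2
    refine le_trans h1 ?_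
    have hpos : (0 : ℝ) < ((4 * k + 1 : ℕ) : ℝ) := by positivity
    refine le_of_mul_le_mul_right (le_trans (le_of_eq ?_) h2) hpos
    push_cast
    ring
  · rw [Pool.Agent.H58.CircMin.turan_one, Set.ncard_empty]
    positivity
  · rw [hncard]
    convert Pool.Agent.H58.CircMin.turan_two k

end Pool.Agent.S09534
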