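import Pool.Statements.S09538
import Pool.Agent.H82.Grace.Final

set_option autoImplicit false
open Pool Pool.MP_75a5a2_co

namespace Pool.Agent.S09538

/-- The negation of the preceding statement: For any n ≥ 3 points in the plane in convex position labelled 1..n, there is a triangulation (triangles on the points, interiors disjoint, covering the hull) in which no two triangles have equal label sums. -/
theorem result :
    ¬ (∀ (n : ℕ) (p : Fin n → EuclideanSpace ℝ (Fin 2)),
      3 ≤ n →
      (∀ i : Fin n, p i ∉ convexHull ℝ (p '' {j : Fin n | j ≠ i})) →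
      ∃ T : Finset (Finset (Fin n)),
        (∀ t ∈ T, t.card = 3) ∧
        (∀ s ∈ T, ∀ t ∈ T, s ≠ t →
          Disjoint (interior (convexHull ℝ (p '' (s : Set (Fin n)))))
                   (interior (convexHull ℝ (p '' (t : Set (Fin n)))))) ∧
        (⋃ t ∈ T, convexHull ℝ (p '' (t : Set (Fin n)))) = convexHull ℝ (Set.range p) ∧
        Set.InjOn (fun t : Finset (Fin n) => ∑ i ∈ t, ((i : ℕ) + 1)) (T : Set (Finset (Fin n)))) := by
  refine Pool.Agent.H82.Grace.no_graceful 1601 (1601 ^ 6) (by norm_num) ?_ (by norm_num)
    (fun h H => Pool.Agent.H82.Grace.no_hub h H)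
  rw [Int.isCoprime_iff_gcd_eq_one]
  norm_num

end Pool.Agent.S09538
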