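import Pool.Statements.S09712
import Pool.Agent.H81.White.Graph

set_option autoImplicit false
open Pool Pool.MP_7e6f74_co

namespace Pool.Agent.S09712

/-- The negation of the preceding statement: For every finite matroid whose ground set splits into k ≥ 1 disjoint bases, the graph on bases whose complement splits into k−1 disjoint bases, joined when they differ by a single exchange, is connected. -/
theorem result :
    ¬ (∀ (α : Type) (M : Matroid α) (k : ℕ), M.Finite → 1 ≤ k →
      (∃ B : Fin k → Set α, (∀ i, M.IsBase (B i)) ∧
          Pairwise (Function.onFun Disjoint B) ∧ (⋃ i, B i) = M.E) →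
      (SimpleGraph.fromRel
        (fun (X Y : {X : Set α // M.IsBase X ∧
            ∃ C : Fin (k - 1) → Set α, (∀ i, M.IsBase (C i)) ∧
              Pairwise (Function.onFun Disjoint C) ∧ (⋃ i, C i) = M.E \ X}) =>
          (symmDiff X.1 Y.1).ncard = 2)).Connected) :=
  Pool.Agent.H81.White.not_connected

end Pool.Agent.S09712
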