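import Pool.Statements.S10986
import Pool.Agent.H71.SepConfig

set_option autoImplicit false
open Pool Pool.MP_b71966_co

namespace Pool.Agent.S10986

/-- The negation of the preceding statement: There is c>0 such that, for all large n, any n plane points with no three collinear, no four concyclic, all distances at least 1 and distinct distances differing by at least 1, have two points farther apart than n^(1+c). -/
theorem result :
    ¬ (∃ c : ℝ, 0 < c ∧ ∃ N : ℕ, ∀ n : ℕ, N ≤ n →
      ∀ p : Fin n → EuclideanSpace ℝ (Fin 2),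
        (∀ i j k : Fin n, i ≠ j → i ≠ k → j ≠ k →
          ¬ Collinear ℝ ({p i, p j, p k} : Set (EuclideanSpace ℝ (Fin 2)))) →
        (∀ i j k l : Fin n, i ≠ j → i ≠ k → i ≠ l → j ≠ k → j ≠ l → k ≠ l →
          ¬ EuclideanGeometry.Concyclic
              ({p i, p j, p k, p l} : Set (EuclideanSpace ℝ (Fin 2)))) →
        (∀ i j : Fin n, i ≠ j → 1 ≤ dist (p i) (p j)) →
        (∀ i j k l : Fin n, i ≠ j → k ≠ l →
          dist (p i) (p j) ≠ dist (p k) (p l) →
          1 ≤ |dist (p i) (p j) - dist (p k) (p l)|) →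
        ∃ i j : Fin n, (n : ℝ) ^ (1 + c) < dist (p i) (p j)) := by
  rintro ⟨c, hc, N, hN⟩
  -- choose the dimension
  obtain ⟨D, hD⟩ := exists_nat_gt (3 / c)
  have hD0 : 0 < D := by
    rcases Nat.eq_zero_or_pos D with h | h
    · subst h
      have : 0 < 3 / c := by positivity
      simp only [Nat.cast_zero] at hD
      linarith
    · exact h
  have hDc : 3 < (D : ℝ) * c := by
    rwa [div_lt_iff₀ hc] at hD
  -- choose the side length
  set k : ℕ := 5 * D * 2 ^ D + N + 1 with hk
  have hk0 : 0 < k := by omega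
  obtain ⟨p, h1, h2, h3, h4, h5⟩ := Pool.Agent.H71.Sep.exists_config_fin D k hD0 hk0
  have hn : N ≤ k ^ D := by
    calc N ≤ k := by omega
      _ = k ^ 1 := (pow_one k).symm
      _ ≤ k ^ D := Nat.pow_le_pow_right hk0 hD0
  obtain ⟨i, j, hij⟩ := hN (k ^ D) hn p h1 h2 h3 h4
  have h6 := h5 i j
  have hk1 : (1 : ℝ) ≤ k := by exact_mod_cast hk0
  have h7 : (5 * D * 2 ^ D : ℝ) ≤ k := by
    have : 5 * D * 2 ^ D ≤ k := by omega
    exact_mod_cast this
  have h8 : (k : ℝ) ^ (D + 3) ≤ ((k ^ D : ℕ) : ℝ) ^ (1 + c) := by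
    push_cast
    rw [← Real.rpow_natCast (k : ℝ) D, ← Real.rpow_mul (by positivity),
      ← Real.rpow_natCast (k : ℝ) (D + 3)]
    apply Real.rpow_le_rpow_of_exponent_le hk1
    push_cast
    nlinarith
  have h9 : (5 * D * 2 ^ D : ℝ) * (k : ℝ) ^ (D + 2) ≤ (k : ℝ) ^ (D + 3) := by
    rw [pow_succ (k : ℝ) (D + 2), mul_comm ((k : ℝ) ^ (D + 2))]
    exact mul_le_mul_of_nonneg_right h7 (by positivity)
  linarith

end Pool.Agent.S10986
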