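import Pool.Statements.S11084
-- import your own Pool.Agent.* helpers here
import Pool.Agent.H54.Bryl.Deck
import Pool.Agent.H54.Bryl.NonIso

set_option autoImplicit false
open Pool Pool.MP_bb0839_co

namespace Pool.Agent.S11084

/-- The negation of the preceding statement: Let M be a finite binary matroid (circuits meet cocircuits evenly) of rank at least 2, and N a finite matroid. If some bijection between their hyperplanes has isomorphic restrictions on each hyperplane, then M and N are isomorphic. -/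
theorem result :
    ¬ (∀ (M N : Matroid ℕ), M.Finite → N.Finite → 2 ≤ M.eRank →
    (∀ C D : Set ℕ, M.IsCircuit C → M.IsCocircuit D → Even (C ∩ D).ncard) →
    ∀ α : {H : Set ℕ // H ⊆ M.E ∧ M.IsCocircuit (M.E \ H)} ≃
          {H : Set ℕ // H ⊆ N.E ∧ N.IsCocircuit (N.E \ H)},
      (∀ H : {H : Set ℕ // H ⊆ M.E ∧ M.IsCocircuit (M.E \ H)},
        ∃ e : ↥H.1 ≃ ↥(α H).1, ∀ I : Set ↥H.1,
          (M.restrict H.1).Indep (Subtype.val '' I) ↔
            (N.restrict (α H).1).Indep (Subtype.val '' (e '' I))) →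
      ∃ e : ↥M.E ≃ ↥N.E, ∀ I : Set ↥M.E,
        M.Indep (Subtype.val '' I) ↔ N.Indep (Subtype.val '' (e '' I))) := by
  intro h
  have hrank : 2 ≤ Pool.Agent.H54.Bryl.M1.eRank := by
    have hi : Pool.Agent.H54.Bryl.M1.Indep {1, 2} := by
      refine (Pool.Agent.H54.Bryl.VM_indep _ _ _ _).2 ⟨?_, ?_⟩
      · rintro x (rfl | rfl)
        · exact Pool.Agent.H54.Bryl.mem_E1 (by decide +kernel)
        · exact Pool.Agent.H54.Bryl.mem_E1 (by decide +kernel)
      · exact (Pool.Agent.H54.Bryl.indep3 (a := 1) (b := 2) (c := 4) (by norm_num) (by norm_num)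
          (by norm_num) (by norm_num) (by norm_num) (by norm_num) (by norm_num) (by norm_num)
          (by norm_num) (by decide)).mono (by
            intro x hx
            rcases hx with rfl | rfl
            · simp
            · simp)
    have h2 := hi.encard_le_eRank
    rwa [Set.encard_pair (by norm_num)] at h2
  obtain ⟨e, he⟩ := h Pool.Agent.H54.Bryl.M1 Pool.Agent.H54.Bryl.M2
    (Pool.Agent.H54.Bryl.VM_finite _ _ _) (Pool.Agent.H54.Bryl.VM_finite _ _ _) hrank
    (fun C D hC hD => Pool.Agent.H54.Bryl.circuit_cocircuit_even _ _ _ hC hD)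
    Pool.Agent.H54.Bryl.alpha Pool.Agent.H54.Bryl.deck
  exact Pool.Agent.H54.Bryl.no_iso
    { hE := Pool.Agent.H54.Bryl.E1_fin
      hE' := Pool.Agent.H54.Bryl.E2_fin
      lt := Pool.Agent.H54.Bryl.L1_lt
      lt' := Pool.Agent.H54.Bryl.L2_lt
      pos := Pool.Agent.H54.Bryl.L1_pos
      pos' := Pool.Agent.H54.Bryl.L2_pos
      e := e
      he := he }

end Pool.Agent.S11084
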