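import Pool.Statements.S11118
import Pool.Agent.H75.RNC.VF

set_option autoImplicit false
open Pool Pool.MP_bd0985_co

namespace Pool.Agent.S11118

/-- The negation of the preceding statement: There are constants C, d1, d2 such that for all m ≤ n and point lists A (size m), B (size n) in the plane, the number of injective maps that are the strict unique least-squares matching for some translate of B is at most C(m+1)^d1 (n+1)^d2. -/
theorem result :
    ¬ (∃ C : ℝ, ∃ d₁ d₂ : ℕ, ∀ m n : ℕ, m ≤ n →
      ∀ (A : Fin m → EuclideanSpace ℝ (Fin 2)) (B : Fin n → EuclideanSpace ℝ (Fin 2)),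
        ((({π : Fin m ↪ Fin n | ∃ t : EuclideanSpace ℝ (Fin 2),
            ∀ σ : Fin m ↪ Fin n, σ ≠ π →
              ∑ i, ‖A i - (B (π i) + t)‖ ^ 2 < ∑ i, ‖A i - (B (σ i) + t)‖ ^ 2}
            : Set (Fin m ↪ Fin n)).ncard : ℕ) : ℝ)
          ≤ C * ((m : ℝ) + 1) ^ d₁ * ((n : ℝ) + 1) ^ d₂) := by
  exact RNB.B3.final fun g K _ hK => RNB.B3.vFields g K hK

end Pool.Agent.S11118
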