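import Pool.Statements.S11193
import Pool.Agent.H56.RTFinal

set_option autoImplicit false
open Pool Pool.MP_c044fe_co

namespace Pool.Agent.S11193

open Pool.Agent.H56.RT

/-- The set in the frozen statement. -/
theorem mem_set_of_arr {k n N : ℕ} {G : SimpleGraph (Fin k)}
    (hkn : k * n ≤ N)
    (hN : Arr (G.comap (Subtype.val : {a : Fin k // ∃ a', G.Adj a a'} → Fin k)) N n) :
    ∀ c : Fin N → Fin N → Bool,
      (∀ x y : Fin N, c x y = c y x) → ∃ b : Bool,
      ∃ g : Fin n × Fin k → Fin N, Function.Injective g ∧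
        ∀ p q : Fin n × Fin k, p.1 = q.1 → G.Adj p.2 q.2 →
          c (g p) (g q) = b := by
  classical
  intro c hc
  obtain ⟨b, f, -, h2, h3⟩ := hN c hc
  rcases Nat.eq_zero_or_pos N with h0 | h0
  · have hemp : IsEmpty (Fin n × Fin k) := by
      refine ⟨fun p => ?_⟩
      have h1 : 0 < n := lt_of_le_of_lt (Nat.zero_le _) p.1.2
      have h2 : 0 < k := lt_of_le_of_lt (Nat.zero_le _) p.2.2
      have := Nat.mul_pos h2 h1
      omega
    exact ⟨b, fun p => hemp.elim p, fun p => hemp.elim p, fun p => hemp.elim p⟩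
  · let f₀ : Fin n × Fin k → Fin N := fun p =>
      if h : ∃ a', G.Adj p.2 a' then f p.1 ⟨p.2, h⟩ else ⟨0, h0⟩
    have hf₀ : ∀ p (h : ∃ a', G.Adj p.2 a'), f₀ p = f p.1 ⟨p.2, h⟩ := by
      intro p h
      simp only [f₀, h, dif_pos]
    obtain ⟨g, hg1, hg2⟩ := exists_extend
      (Finset.univ.filter (fun p : Fin n × Fin k => ∃ a', G.Adj p.2 a')) f₀ (by
        intro p hp q hq hpq
        have hp' : ∃ a', G.Adj p.2 a' := by simpa using hp
        have hq' : ∃ a', G.Adj q.2 a' := by simpa using hq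
        rw [hf₀ p hp', hf₀ q hq'] at hpq
        obtain ⟨h4, h5⟩ := h2 _ _ _ _ hpq
        exact Prod.ext h4 (Subtype.mk.inj h5)) (by
        rw [Fintype.card_prod, Fintype.card_fin, Fintype.card_fin, Fintype.card_fin, mul_comm]
        exact hkn)
    refine ⟨b, g, hg1, ?_⟩
    intro p q hpq hadj
    have hp : ∃ a', G.Adj p.2 a' := ⟨q.2, hadj⟩
    have hq : ∃ a', G.Adj q.2 a' := ⟨p.2, hadj.symm⟩
    rw [hg2 p (by simpa using hp), hg2 q (by simpa using hq), hf₀ p hp, hf₀ q hq, ← hpq]
    exact h3 p.1 ⟨p.2, hp⟩ ⟨q.2, hq⟩ hadj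

/-- For every graph G on k≥1 vertices, for all large n, every graph F such that every 2-colouring of F's edges has a monochromatic copy of nG contains floor(r(nG)/k) vertex-disjoint copies of G. -/
theorem result :
    ∀ k : ℕ, 0 < k → ∀ G : SimpleGraph (Fin k), ∃ n₀ : ℕ, ∀ n : ℕ, n₀ ≤ n →
      ∀ m : ℕ, ∀ F : SimpleGraph (Fin m),
        (∀ c : Fin m → Fin m → Bool, (∀ x y : Fin m, c x y = c y x) →
          ∃ b : Bool, ∃ f : Fin n × Fin k → Fin m,
            Function.Injective f ∧
              ∀ p q : Fin n × Fin k, p.1 = q.1 → G.Adj p.2 q.2 →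
                F.Adj (f p) (f q) ∧ c (f p) (f q) = b) →
        ∃ f : Fin (sInf {N : ℕ | ∀ c : Fin N → Fin N → Bool,
                (∀ x y : Fin N, c x y = c y x) → ∃ b : Bool,
                ∃ g : Fin n × Fin k → Fin N, Function.Injective g ∧
                  ∀ p q : Fin n × Fin k, p.1 = q.1 → G.Adj p.2 q.2 →
                    c (g p) (g q) = b} / k) × Fin k → Fin m,
          Function.Injective f ∧
            ∀ p q : Fin (sInf {N : ℕ | ∀ c : Fin N → Fin N → Bool,
                (∀ x y : Fin N, c x y = c y x) → ∃ b : Bool,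
                ∃ g : Fin n × Fin k → Fin N, Function.Injective g ∧
                  ∀ p q : Fin n × Fin k, p.1 = q.1 → G.Adj p.2 q.2 →
                    c (g p) (g q) = b} / k) × Fin k,
              p.1 = q.1 → G.Adj p.2 q.2 → F.Adj (f p) (f q) := by
  classical
  intro k hk G
  -- the non-isolated part
  set H : SimpleGraph {a : Fin k // ∃ a', G.Adj a a'} :=
    G.comap (Subtype.val : {a : Fin k // ∃ a', G.Adj a a'} → Fin k) with hH
  have hiso : ∀ a, ∃ a', H.Adj a a' := by
    rintro ⟨a, a', ha⟩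
    exact ⟨⟨a', a, ha.symm⟩, ha⟩
  have hcardle : Fintype.card {a : Fin k // ∃ a', G.Adj a a'} ≤ k := by
    have := Fintype.card_subtype_le (fun a : Fin k => ∃ a', G.Adj a a')
    simpa using this
  -- threshold
  obtain ⟨n₀, hn₀⟩ : ∃ n₀ : ℕ, ∀ n, n₀ ≤ n → ∀ m : ℕ, ∀ F : SimpleGraph (Fin m),
      (∀ c : Fin m → Fin m → Bool, (∀ x y, c x y = c y x) → ∃ b, ∃ f : Fin n →
        {a : Fin k // ∃ a', G.Adj a a'} → Fin m,
        (∀ l a l' a', f l a = f l' a' → l = l' ∧ a = a') ∧
        ∀ l a a', H.Adj a a' → F.Adj (f l a) (f l a') ∧ c (f l a) (f l a') = b) →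
      ∀ t : ℕ, t * k ≤ RN H n → Nonempty {a : Fin k // ∃ a', G.Adj a a'} →
        FCop H F t Finset.univ := by
    rcases isEmpty_or_nonempty {a : Fin k // ∃ a', G.Adj a a'} with he | hne
    · exact ⟨0, fun n _ m F _ t _ hne => absurd hne (not_nonempty_iff.mpr he)⟩
    · obtain ⟨n₀, hn₀⟩ := main_noiso hiso
      refine ⟨n₀, fun n hn m F harr t ht _ => hn₀ n hn F harr t ?_⟩
      exact (Nat.mul_le_mul_left _ hcardle).trans ht
  refine ⟨n₀, fun n hn m F harr => ?_⟩
  set RG : ℕ := sInf {N : ℕ | ∀ c : Fin N → Fin N → Bool,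
                (∀ x y : Fin N, c x y = c y x) → ∃ b : Bool,
                ∃ g : Fin n × Fin k → Fin N, Function.Injective g ∧
                  ∀ p q : Fin n × Fin k, p.1 = q.1 → G.Adj p.2 q.2 →
                    c (g p) (g q) = b} with hRG
  set t := RG / k with ht
  have htk : t * k ≤ RG := Nat.div_mul_le_self _ _
  have hRGm : RG ≤ m := by
    refine Nat.sInf_le ?_
    intro c hc
    obtain ⟨b, f, h1, h2⟩ := harr c hc
    exact ⟨b, f, h1, fun p q hpq hadj => (h2 p q hpq hadj).2⟩
  have hRGmax : RG ≤ max (RN H n) (k * n) := by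
    refine Nat.sInf_le ?_
    refine mem_set_of_arr (le_max_right _ _) ?_
    intro c hc
    exact (arr_RN H n).apply c hc Finset.univ (by
      rw [Finset.card_univ, Fintype.card_fin]; exact le_max_left _ _)
  rcases le_or_gt RG (k * n) with hcase | hcase
  · -- t ≤ n
    have htn : t ≤ n := by
      have h1 : t * k ≤ n * k := by rw [mul_comm n k]; exact htk.trans hcase
      exact Nat.le_of_mul_le_mul_right h1 hk
    obtain ⟨b, f, h1, h2⟩ := harr (fun _ _ => true) (fun _ _ => rfl)
    refine ⟨fun p => f (Fin.castLE htn p.1, p.2), ?_, ?_⟩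
    · intro p q hpq
      have h3 := h1 hpq
      rw [Prod.mk.injEq] at h3
      exact Prod.ext (Fin.castLE_injective htn h3.1) h3.2
    · intro p q hpq hadj
      exact (h2 (Fin.castLE htn p.1, p.2) (Fin.castLE htn q.1, q.2) (by simp [hpq]) hadj).1
  · have hRH : RG ≤ RN H n := by
      rcases le_max_iff.mp hRGmax with h | h
      · exact h
      · omega
    have hne : Nonempty {a : Fin k // ∃ a', G.Adj a a'} := by
      by_contra he
      rw [not_nonempty_iff] at he
      have h0 : RN H n ≤ 0 := by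
        refine RN_le ?_
        intro c _
        exact ⟨true, fun _ a => he.elim a, fun _ a => he.elim a, fun _ a => he.elim a,
          fun _ a => he.elim a⟩
      omega
    have hcop := hn₀ n hn m F (by
      intro c hc
      obtain ⟨b, f, h1, h2⟩ := harr c hc
      refine ⟨b, fun l a => f (l, a.1), ?_, ?_⟩
      · intro l a l' a' h
        have h3 := h1 h
        rw [Prod.mk.injEq] at h3
        exact ⟨h3.1, Subtype.ext h3.2⟩
      · intro l a a' hadj
        exact h2 (l, a.1) (l, a'.1) rfl hadj) t (htk.trans hRH) hne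
    obtain ⟨f, -, h2, h3⟩ := hcop
    obtain ⟨a₀⟩ := hne
    rcases Nat.eq_zero_or_pos t with ht0 | ht0
    · have hemp : IsEmpty (Fin t × Fin k) := by
        rw [ht0]
        infer_instance
      exact ⟨fun p => hemp.elim p, fun p => hemp.elim p, fun p => hemp.elim p⟩
    · let f₀ : Fin t × Fin k → Fin m := fun p =>
        if h : ∃ a', G.Adj p.2 a' then f p.1 ⟨p.2, h⟩ else f ⟨0, ht0⟩ a₀
      have hf₀ : ∀ p (h : ∃ a', G.Adj p.2 a'), f₀ p = f p.1 ⟨p.2, h⟩ := by
        intro p h
        simp only [f₀, h, dif_pos]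
      obtain ⟨g, hg1, hg2⟩ := exists_extend
        (Finset.univ.filter (fun p : Fin t × Fin k => ∃ a', G.Adj p.2 a')) f₀ (by
          intro p hp q hq hpq
          have hp' : ∃ a', G.Adj p.2 a' := by simpa using hp
          have hq' : ∃ a', G.Adj q.2 a' := by simpa using hq
          rw [hf₀ p hp', hf₀ q hq'] at hpq
          obtain ⟨h4, h5⟩ := h2 _ _ _ _ hpq
          exact Prod.ext h4 (Subtype.mk.inj h5)) (by
          rw [Fintype.card_prod, Fintype.card_fin, Fintype.card_fin, Fintype.card_fin]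
          exact htk.trans hRGm)
      refine ⟨g, hg1, ?_⟩
      intro p q hpq hadj
      have hp : ∃ a', G.Adj p.2 a' := ⟨q.2, hadj⟩
      have hq : ∃ a', G.Adj q.2 a' := ⟨p.2, hadj.symm⟩
      rw [hg2 p (by simpa using hp), hg2 q (by simpa using hq), hf₀ p hp, hf₀ q hq, ← hpq]
      have := h3 p.1 ⟨p.2, hp⟩ ⟨q.2, hq⟩ hadj
      simpa using this

end Pool.Agent.S11193
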