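import Pool.Statements.S11399
import Pool.Agent.H54.V.Final

set_option autoImplicit false
open MeasureTheory
open Pool Pool.MP_c8b0e0_co

namespace Pool.Agent.S11399

/-- For any set of centres in 3-space containing the origin with pairwise distances at least 2, and any r in (2/√3, √3·tan(π/5)], the origin's Voronoi cell meets the ball of radius r in at least the volume that a regular dodecahedron of inradius 1 does. -/
theorem result :
    ∀ C : Set (EuclideanSpace ℝ (Fin 3)),
      (0 : EuclideanSpace ℝ (Fin 3)) ∈ C →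
      (∀ a ∈ C, ∀ b ∈ C, a ≠ b → (2 : ℝ) ≤ dist a b) →
      ∀ r : ℝ, 2 / Real.sqrt 3 < r → r ≤ Real.sqrt 3 * Real.tan (Real.pi / 5) →
        volume ({x : EuclideanSpace ℝ (Fin 3) |
            |x 1| + Real.goldenRatio * |x 2| ≤ Real.sqrt (Real.goldenRatio + 2) ∧
            |x 0| + Real.goldenRatio * |x 1| ≤ Real.sqrt (Real.goldenRatio + 2) ∧
            Real.goldenRatio * |x 0| + |x 2| ≤ Real.sqrt (Real.goldenRatio + 2)}
            ∩ Metric.closedBall (0 : EuclideanSpace ℝ (Fin 3)) r)
          ≤ volume ({x : EuclideanSpace ℝ (Fin 3) | ∀ c ∈ C, ‖x‖ ≤ dist x c}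
            ∩ Metric.closedBall (0 : EuclideanSpace ℝ (Fin 3)) r) := by
  intro C h0 hC r hr1 hr2
  refine Pool.Agent.H54.V.final C h0 hC r ?_ hr2
  refine lt_of_le_of_lt ?_ hr1
  have h3 : (0 : ℝ) < Real.sqrt 3 := Real.sqrt_pos.2 (by norm_num)
  rw [le_div_iff₀ h3, one_mul]
  exact (Real.sqrt_le_left (by norm_num)).2 (by norm_num)

end Pool.Agent.S11399
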