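import Pool.Statements.S11917
import Pool.Agent.H68.KB.Zero

set_option autoImplicit false
open Pool Pool.MP_de67d6_co

namespace Pool.Agent.S11917

/-- For every k ≥ 1 and every nonempty k-bounded partition λ, the closed k-Schur Katalan function of λ is an integer combination of level-(k+1) ones, each coefficient times (−1)^(∣λ∣+∣μ∣) being nonnegative. -/
theorem result :
  ∀ (h : ℕ → MvPowerSeries ℕ ℤ) (K : ℕ → ℤ → MvPowerSeries ℕ ℤ)
    (g : (ℓ : ℕ) → (Fin ℓ → ℤ) → MvPowerSeries ℕ ℤ)
    (D : ℕ → (lam : List ℕ) → Finset (Fin lam.length × Fin lam.length))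
    (G : ℕ → List ℕ → MvPowerSeries ℕ ℤ),
  (∀ m : ℕ, h m = (fun s : ℕ →₀ ℕ => if (s.sum fun _ e => e) = m then (1 : ℤ) else 0)) →
  (∀ (r : ℕ) (m : ℤ), K r m = if m < 0 then 0 else
      ∑ i ∈ Finset.range (m.toNat + 1),
        (((Nat.choose (r + i - 1) i : ℤ)) : MvPowerSeries ℕ ℤ) * h (m.toNat - i)) →
  (∀ (ℓ : ℕ) (γ : Fin ℓ → ℤ), g ℓ γ =
      Matrix.det (Matrix.of fun i j : Fin ℓ => K i.val (γ i + (j.val : ℤ) - (i.val : ℤ)))) →
  (∀ (k : ℕ) (lam : List ℕ), D k lam =
      (Finset.univ : Finset (Fin lam.length × Fin lam.length)).filter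
        (fun p => p.1 < p.2 ∧ (k : ℤ) - (lam.get p.1 : ℤ) + (p.1.val : ℤ) < (p.2.val : ℤ))) →
  (∀ (k : ℕ) (lam : List ℕ), G k lam =
      ∑ S ∈ (D k lam).powerset,
        ∑ᶠ n : Fin lam.length × Fin lam.length → ℕ,
          if (∀ p, p ∉ D k lam → n p = 0) then
            (-1 : MvPowerSeries ℕ ℤ) ^ S.card *
              g lam.length (fun t => (lam.get t : ℤ)
                + ∑ p ∈ D k lam, (n p : ℤ) * ((if p.1 = t then (1 : ℤ) else 0) - (if p.2 = t then (1 : ℤ) else 0))
                - ∑ p ∈ S, (if p.2 = t then (1 : ℤ) else 0))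
          else 0) →
  ∀ k : ℕ, 1 ≤ k → ∀ lam : List ℕ, lam ≠ [] → lam.Pairwise (· ≥ ·) →
    (∀ x ∈ lam, 0 < x ∧ x ≤ k) →
    ∃ (S : Finset (List ℕ)) (c : List ℕ → ℤ),
      (∀ μ ∈ S, μ.Pairwise (· ≥ ·) ∧ (∀ x ∈ μ, 0 < x ∧ x ≤ k + 1) ∧
        0 ≤ (-1 : ℤ) ^ (lam.sum + μ.sum) * c μ) ∧
      G k lam = ∑ μ ∈ S, (c μ : MvPowerSeries ℕ ℤ) * G (k + 1) μ := by
  intro h K g D G hh hK hg hD hG k _ lam _ hpw hbd
  have h0 : h 0 = 1 := by
    rw [hh 0]
    ext s
    rw [MvPowerSeries.coeff_one]
    show (if (s.sum fun _ e => e) = 0 then (1 : ℤ) else 0) = _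
    have hs : (s.sum fun _ e => e) = 0 ↔ s = 0 := by
      constructor
      · intro hs
        ext i
        rw [Finsupp.coe_zero, Pi.zero_apply]
        by_contra hne
        have h1 : i ∈ s.support := Finsupp.mem_support_iff.2 hne
        have h2 := Finset.sum_eq_zero_iff.1 hs i h1
        exact hne h2
      · rintro rfl; simp
    by_cases h1 : s = 0
    · rw [if_pos (hs.2 h1), if_pos h1]
    · rw [if_neg (fun h2 => h1 (hs.1 h2)), if_neg h1]
  have hKf : ∀ r m, K r m = H68.KB.Kf h r m := fun r m => hK r m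
  -- the Katalan functions are values of the functional
  have hGP : ∀ (k : ℕ) (mu : List ℕ), (∀ x ∈ mu, x ≤ k) → ∀ b : ℕ → ℕ,
      (∀ i : Fin mu.length, b i = i + 1 + (k - mu.get i)) →
      G k mu = (H68.KB.cs H68.KB.lam_two h mu.length k).Phi
        ((H68.KB.cs H68.KB.lam_two h mu.length k).W b) := by
    intro k mu hmu b hb
    rw [hG, ← H68.KB.G_eq H68.KB.lam_two h mu.length k (fun i => mu.get i)
      (fun i => hmu _ (List.get_mem mu i)) b hb (D k mu) (by intro p; rw [hD]; simp)]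
    refine Finset.sum_congr rfl fun S _ => finsum_congr fun n => ?_
    by_cases hn : ∀ p, p ∉ D k mu → n p = 0
    · rw [if_pos hn, if_pos hn, hg]
      simp only [hKf]
    · rw [if_neg hn, if_neg hn]
  set l := lam.length with hl
  set C : ℕ := ∑ i ∈ Finset.range l, (k + 1 + i + 1) with hC
  -- representability
  let Rep : MvPowerSeries ℕ ℤ → Prop := fun x => ∃ (S : Finset (List ℕ)) (c : List ℕ → ℤ),
      (∀ μ ∈ S, μ.Pairwise (· ≥ ·) ∧ (∀ x ∈ μ, 0 < x ∧ x ≤ k + 1) ∧
        0 ≤ (-1 : ℤ) ^ (C + μ.sum) * c μ) ∧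
      x = ∑ μ ∈ S, (c μ : MvPowerSeries ℕ ℤ) * G (k + 1) μ
  have hRep0 : Rep 0 := ⟨∅, fun _ => 0, by simp, by simp⟩
  have hRepAdd : ∀ x y, Rep x → Rep y → Rep (x + y) := by
    classical
    rintro x y ⟨S1, c1, h1, rfl⟩ ⟨S2, c2, h2, rfl⟩
    refine ⟨S1 ∪ S2, fun μ => (if μ ∈ S1 then c1 μ else 0) + (if μ ∈ S2 then c2 μ else 0), ?_, ?_⟩
    · intro μ hμ
      rw [Finset.mem_union] at hμ
      refine ⟨?_, ?_, ?_⟩
      · rcases hμ with hμ | hμ
        · exact (h1 μ hμ).1
        · exact (h2 μ hμ).1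
      · rcases hμ with hμ | hμ
        · exact (h1 μ hμ).2.1
        · exact (h2 μ hμ).2.1
      · rw [mul_add]
        apply add_nonneg
        · split_ifs with h3
          · exact (h1 μ h3).2.2
          · simp
        · split_ifs with h3
          · exact (h2 μ h3).2.2
          · simp
    · have e1 : ∑ μ ∈ S1, (c1 μ : MvPowerSeries ℕ ℤ) * G (k + 1) μ =
          ∑ μ ∈ S1 ∪ S2, ((if μ ∈ S1 then c1 μ else 0 : ℤ) : MvPowerSeries ℕ ℤ) * G (k + 1) μ := by
        rw [← Finset.sum_subset Finset.subset_union_left]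
        · exact Finset.sum_congr rfl fun μ hμ => by rw [if_pos hμ]
        · intro μ _ hμ; rw [if_neg hμ]; simp
      have e2 : ∑ μ ∈ S2, (c2 μ : MvPowerSeries ℕ ℤ) * G (k + 1) μ =
          ∑ μ ∈ S1 ∪ S2, ((if μ ∈ S2 then c2 μ else 0 : ℤ) : MvPowerSeries ℕ ℤ) * G (k + 1) μ := by
        rw [← Finset.sum_subset Finset.subset_union_right]
        · exact Finset.sum_congr rfl fun μ hμ => by rw [if_pos hμ]
        · intro μ _ hμ; rw [if_neg hμ]; simp
      rw [e1, e2, ← Finset.sum_add_distrib]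
      refine Finset.sum_congr rfl fun μ _ => ?_
      push_cast
      ring
  set Sy := H68.KB.cs H68.KB.lam_two h l (k + 1) with hSy
  have hcone : ∀ x ∈ Sy.cone 0, Rep x := by
    intro x hx
    unfold H68.KB.Sys.cone at hx
    induction hx using AddSubmonoid.closure_induction with
    | mem x hx =>
      obtain ⟨b, ⟨hlt, hmono', _⟩, rfl⟩ := hx
      have hmono : ∀ i, i + 1 < l → b i < b (i + 1) := hmono'
      rw [H68.KB.Sys.LL_zero, one_mul]
      rcases H68.KB.to_partition H68.KB.lam_two h h0 (k + 1) l b hlt hmono with h1 | ⟨l', h1, h2, h3, h4⟩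
      · rw [hSy, h1, smul_zero]; exact hRep0
      · obtain ⟨μ, hμ⟩ : ∃ μ : List ℕ, μ = List.ofFn (fun i : Fin l' => k + 1 + i + 1 - b i) :=
          ⟨_, rfl⟩
        have hlen : μ.length = l' := by rw [hμ]; simp
        have hget : ∀ i : Fin μ.length, μ.get i = k + 1 + i + 1 - b i := by
          subst hμ
          intro i
          simp
        have hG1 := hGP (k + 1) μ (by
          intro x hx
          rw [hμ, List.mem_ofFn] at hx
          obtain ⟨i, rfl⟩ := hx
          have := hlt i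
          omega) b (by
          intro i
          rw [hget]
          have e1 := h2 i (by rw [← hlen]; exact i.2)
          have e2 := hlt i
          omega)
        rw [hlen] at hG1
        have hsum : μ.sum = ∑ i ∈ Finset.range l', (k + 1 + i + 1 - b i) := by
          rw [hμ, List.sum_ofFn, Finset.sum_range]
        refine ⟨{μ}, fun _ => (-1 : ℤ) ^ H68.KB.wt l b, ?_, ?_⟩
        · intro ν hν
          rw [Finset.mem_singleton] at hν
          rw [hν]
          refine ⟨?_, ?_, ?_⟩
          · rw [hμ, List.pairwise_ofFn]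
            intro i j hij
            have hij' : (i : ℕ) < (j : ℕ) := hij
            have e1 := H68.KB.mono_add hmono (i : ℕ) ((j : ℕ) - i) (by have := j.2; omega)
            rw [show (i : ℕ) + ((j : ℕ) - i) = j by omega] at e1
            have e2 := h2 i (by have := j.2; omega)
            show k + 1 + (j : ℕ) + 1 - b j ≤ k + 1 + (i : ℕ) + 1 - b i
            omega
          · intro x hx
            rw [hμ, List.mem_ofFn] at hx
            obtain ⟨i, rfl⟩ := hx
            have e1 := hlt i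
            have e2 := h2 i i.2
            omega
          · rw [← pow_add]
            have : C + μ.sum + H68.KB.wt l b = 2 * C := by
              rw [hsum]; omega
            rw [this, pow_mul]
            simp
        · rw [Finset.sum_singleton, hG1, ← h4, zsmul_eq_mul]
          rfl
    | zero => exact hRep0
    | add x y _ _ hx hy => exact hRepAdd x y hx hy
  -- the given partition
  set b : ℕ → ℕ := fun i => i + 1 + (k - lam.getD i 0) with hb
  have hbget : ∀ i : Fin lam.length, b i = i + 1 + (k - lam.get i) := by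
    intro i
    rw [hb]
    simp
  have hlt : ∀ i, i < b i := by intro i; rw [hb]; show i < i + 1 + _; omega
  have hle : ∀ i : ℕ, lam.getD i 0 ≤ k := by
    intro i
    by_cases hi : i < lam.length
    · rw [List.getD_eq_getElem _ _ hi]
      exact (hbd _ (List.getElem_mem hi)).2
    · rw [List.getD_eq_default _ _ (by omega)]; omega
  have hmono : ∀ i, i + 1 < l → b i < b (i + 1) := by
    intro i hi
    have h1 : lam.getD (i + 1) 0 ≤ lam.getD i 0 := by
      rw [List.getD_eq_getElem _ _ (by omega), List.getD_eq_getElem _ _ (by omega)]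
      exact (List.pairwise_iff_getElem.1 hpw) i (i + 1) (by omega) (by omega) (by omega)
    rw [hb]
    show i + 1 + (k - lam.getD i 0) < i + 1 + 1 + (k - lam.getD (i + 1) 0)
    omega
  have hA := Sy.assembly l b le_rfl hlt hmono (fun _ h => absurd h (lt_irrefl _))
  have hGlam : G k lam = Sy.Phi (Sy.LL (Finset.range l) * Sy.W b) := by
    rw [hGP k lam (fun x hx => (hbd x hx).2) b hbget]
    have e1 := H68.KB.Tf_Xprod h (Sy.W b) (fun _ : Fin l => (k : ℤ)) (fun _ => 1)
    have e2 : (∏ i : Fin l, (MvPowerSeries.X (i : ℕ) : MvPowerSeries ℕ (MvPowerSeries ℕ ℤ)) ^ 1) =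
        Sy.LL (Finset.range l) := by
      unfold H68.KB.Sys.LL H68.KB.Sys.L
      rw [Finset.prod_range]
      refine Finset.prod_congr rfl fun i _ => ?_
      rw [pow_one]
      show _ = 1 - H68.KB.oo (MvPowerSeries ℕ ℤ) l i
      unfold H68.KB.oo
      rw [if_pos i.2]
      ring
    rw [e2] at e1
    unfold H68.KB.Tf at e1
    rw [if_pos (fun i => by positivity), if_pos (fun i => by positivity)] at e1
    have e3 : (fun _ : Fin l => (k : ℤ) + ((1 : ℕ) : ℤ)) = fun _ : Fin l => ((k + 1 : ℕ) : ℤ) := by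
      funext i; push_cast; rfl
    rw [e3] at e1
    exact e1.symm
  obtain ⟨S, c, hS, hc⟩ := hcone _ hA
  have hSl : Sy.l = l := rfl
  rw [← hGlam, hSl] at hc
  have hwt : lam.sum + H68.KB.wt l b + l = C := by
    have e1 : lam.sum = ∑ i ∈ Finset.range l, lam.getD i 0 := by
      rw [Finset.sum_range]
      have : lam = List.ofFn (fun i : Fin l => lam.get i) := (List.ofFn_get lam).symm
      conv_lhs => rw [this]
      rw [List.sum_ofFn]
      refine Finset.sum_congr rfl fun i _ => ?_
      rw [List.getD_eq_getElem _ _ i.2]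
      rfl
    have e2 : ∀ i ∈ Finset.range l, k + 1 + i + 1 = (lam.getD i 0 + b i) + 1 := by
      intro i _
      have := hle i
      rw [hb]
      show _ = lam.getD i 0 + (i + 1 + (k - lam.getD i 0)) + 1
      omega
    rw [e1, hC, Finset.sum_congr rfl e2, Finset.sum_add_distrib, Finset.sum_add_distrib]
    unfold H68.KB.wt
    simp
  refine ⟨S, fun μ => (-1 : ℤ) ^ (H68.KB.wt l b + l) * c μ, ?_, ?_⟩
  · intro μ hμ
    obtain ⟨a1, a2, a3⟩ := hS μ hμ
    refine ⟨a1, a2, ?_⟩
    rw [← mul_assoc, ← pow_add]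
    have e : lam.sum + μ.sum + (H68.KB.wt l b + l) = C + μ.sum := by omega
    rw [e]
    exact a3
  · have e1 : (-1 : ℤ) ^ (H68.KB.wt l b + l) * (-1 : ℤ) ^ (H68.KB.wt l b + l) = 1 := by
      rw [← mul_pow]; simp
    have e2 : G k lam = ((-1 : ℤ) ^ (H68.KB.wt l b + l)) • (((-1 : ℤ) ^ (H68.KB.wt l b + l)) • G k lam) := by
      rw [smul_smul, e1, one_smul]
    rw [e2, hc, Finset.smul_sum]
    refine Finset.sum_congr rfl fun μ _ => ?_
    rw [zsmul_eq_mul]
    push_cast
    ring

end Pool.Agent.S11917
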