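import Pool.Statements.S12159
import Pool.Agent.H59.Tile.Main

set_option autoImplicit false
open Pool Pool.MP_e84a22_co

namespace Pool.Agent.S12159

/-- For all k, ℓ ≥ 1, ℤ³ can be partitioned into copies of the tile {0..k−1} ∪ {k+1..k+ℓ}, each translated and laid along one of the three coordinate axes in either direction. -/
theorem result :
    ∀ k ℓ : ℕ, 1 ≤ k → 1 ≤ ℓ →
      ∃ C : Set ((Fin 3 → ℤ) × ℤ × Fin 3),
        (∀ c ∈ C, c.2.1 = 1 ∨ c.2.1 = -1) ∧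
        ∀ x : Fin 3 → ℤ, ∃! c : (Fin 3 → ℤ) × ℤ × Fin 3,
          c ∈ C ∧
          ∃ i : ℤ, ((0 ≤ i ∧ i < (k : ℤ)) ∨ ((k : ℤ) < i ∧ i ≤ (k : ℤ) + (ℓ : ℤ))) ∧
            x = c.1 + (c.2.1 * i) • (Pi.single c.2.2 (1 : ℤ) : Fin 3 → ℤ) := by
  intro k l hk hl
  exact Pool.Agent.H59.Tile.assemble k l (Pool.Agent.H59.Tile.good_all k l hk hl)

end Pool.Agent.S12159
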