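import Pool.Statements.S12526

set_option autoImplicit false
open Pool Pool.MP_fa3e6d_co

namespace Pool.Agent.S12526

/-- adjacency masks of the graph with edges
05 06 07 08 13 14 16 17 18 23 24 25 27 28 34 36 38 45 47 56 57 68 -/
def mask : Fin 9 → ℕ := ![480, 472, 440, 342, 174, 213, 299, 55, 79]

/-- A graph on nine vertices whose IR-graph is the path on seven vertices. -/
def G : SimpleGraph (Fin 9) where
  Adj i j := (mask i).testBit j.1 = true
  symm := ⟨by decide⟩
  loopless := ⟨by decide⟩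

instance : DecidableRel G.Adj := fun i j => inferInstanceAs (Decidable ((mask i).testBit j.1 = true))

/-- irredundant sets -/
abbrev Irr (S : Finset (Fin 9)) : Prop :=
  ∀ v ∈ S, ∃ w, (w = v ∨ G.Adj v w) ∧ ∀ u ∈ S, u ≠ v → ¬ (w = u ∨ G.Adj u w)

theorem Irr.mono {S T : Finset (Fin 9)} (h : Irr T) (hST : S ⊆ T) : Irr S := by
  intro v hv
  obtain ⟨w, hw, hu⟩ := h v (hST hv)
  exact ⟨w, hw, fun u hu' => hu u (hST hu')⟩

/-- the seven IR-sets, in the order in which they form a path -/
def f : Fin 7 → Finset (Fin 9) :=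
  ![{1, 3, 6}, {1, 6, 8}, {0, 1, 8}, {0, 1, 2}, {0, 2, 7}, {2, 5, 7}, {2, 4, 5}]

theorem f_irr : ∀ i, Irr (f i) := by decide

theorem f_card : ∀ i, (f i).card = 3 := by decide

theorem f_inj : Function.Injective f := by decide

theorem four : ∀ a b c d : Fin 9, a < b → b < c → c < d → ¬ Irr {a, b, c, d} := by decide

theorem three : ∀ a b c : Fin 9, a < b → b < c → Irr {a, b, c} → ∃ i, f i = {a, b, c} := by decide

theorem adj_iff : ∀ i j : Fin 7, (f i ≠ f j ∧
    ((∃ v ∈ f i, ∃ v' ∈ f j, G.Adj v v' ∧ f j = insert v' ((f i).erase v)) ∨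
     (∃ v ∈ f j, ∃ v' ∈ f i, G.Adj v v' ∧ f i = insert v' ((f j).erase v)))) ↔
    (i.1 + 1 = j.1 ∨ j.1 + 1 = i.1) := by decide

/-- IR-sets: irredundant sets of maximum size -/
abbrev IsIR (S : Finset (Fin 9)) : Prop := Irr S ∧ ∀ T : Finset (Fin 9), Irr T → T.card ≤ S.card

theorem card_le {T : Finset (Fin 9)} (hT : Irr T) : T.card ≤ 3 := by
  by_contra hcon
  push Not at hcon
  obtain ⟨U, hU, hUc⟩ := Finset.exists_subset_card_eq (show 4 ≤ T.card from hcon)
  have hUi := hT.mono hU
  set e := U.orderEmbOfFin hUc with he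
  have hUe : U = {e 0, e 1, e 2, e 3} := by
    have h1 : Finset.image e Finset.univ = U := U.image_orderEmbOfFin_univ hUc
    rw [← h1]
    ext x
    simp only [Finset.mem_image, Finset.mem_univ, true_and, Finset.mem_insert,
      Finset.mem_singleton]
    constructor
    · rintro ⟨i, rfl⟩
      fin_cases i <;> simp
    · rintro (rfl | rfl | rfl | rfl) <;> exact ⟨_, rfl⟩
  rw [hUe] at hUi
  exact four _ _ _ _ (e.strictMono (by decide)) (e.strictMono (by decide))
    (e.strictMono (by decide)) hUi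

theorem isIR_iff (S : Finset (Fin 9)) : IsIR S ↔ ∃ i, f i = S := by
  constructor
  · rintro ⟨hS, hmax⟩
    have h3 : S.card = 3 := by
      apply le_antisymm (card_le hS)
      have := hmax (f 0) (f_irr 0)
      rwa [f_card] at this
    set e := S.orderEmbOfFin h3 with he
    have hSe : S = {e 0, e 1, e 2} := by
      have h1 : Finset.image e Finset.univ = S := S.image_orderEmbOfFin_univ h3
      rw [← h1]
      ext x
      simp only [Finset.mem_image, Finset.mem_univ, true_and, Finset.mem_insert,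
        Finset.mem_singleton]
      constructor
      · rintro ⟨i, rfl⟩
        fin_cases i <;> simp
      · rintro (rfl | rfl | rfl) <;> exact ⟨_, rfl⟩
    rw [hSe] at hS ⊢
    exact three _ _ _ (e.strictMono (by decide)) (e.strictMono (by decide)) hS
  · rintro ⟨i, rfl⟩
    exact ⟨f_irr i, fun T hT => by rw [f_card]; exact card_le hT⟩

/-- The negation of the preceding statement: For every finite graph G, its slide IR-graph (maximum irredundant sets, adjacent when one is obtained from the other by sliding a vertex along an edge) is not isomorphic to any path on n≥3 vertices nor any cycle on n≥5 vertices. -/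
theorem result :
    ¬ (∀ (m : ℕ) (G : SimpleGraph (Fin m)),
      (∀ n : ℕ, 3 ≤ n →
        IsEmpty (SimpleGraph.pathGraph n ≃g
          SimpleGraph.fromRel
            (fun D D' : {S : Finset (Fin m) //
                (∀ v ∈ S, ∃ w, (w = v ∨ G.Adj v w) ∧ ∀ u ∈ S, u ≠ v → ¬ (w = u ∨ G.Adj u w)) ∧
                ∀ T : Finset (Fin m),
                  (∀ v ∈ T, ∃ w, (w = v ∨ G.Adj v w) ∧ ∀ u ∈ T, u ≠ v → ¬ (w = u ∨ G.Adj u w)) →
                  T.card ≤ S.card} =>
              ∃ v ∈ D.1, ∃ v' ∈ D'.1, G.Adj v v' ∧ D'.1 = insert v' (D.1.erase v)))) ∧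
      (∀ n : ℕ, 5 ≤ n →
        IsEmpty (SimpleGraph.cycleGraph n ≃g
          SimpleGraph.fromRel
            (fun D D' : {S : Finset (Fin m) //
                (∀ v ∈ S, ∃ w, (w = v ∨ G.Adj v w) ∧ ∀ u ∈ S, u ≠ v → ¬ (w = u ∨ G.Adj u w)) ∧
                ∀ T : Finset (Fin m),
                  (∀ v ∈ T, ∃ w, (w = v ∨ G.Adj v w) ∧ ∀ u ∈ T, u ≠ v → ¬ (w = u ∨ G.Adj u w)) →
                  T.card ≤ S.card} =>
              ∃ v ∈ D.1, ∃ v' ∈ D'.1, G.Adj v v' ∧ D'.1 = insert v' (D.1.erase v))))) := by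
  intro h
  refine ((h 9 G).1 7 (by norm_num)).false ?_
  let F : Fin 7 → {S : Finset (Fin 9) // IsIR S} := fun i => ⟨f i, (isIR_iff _).2 ⟨i, rfl⟩⟩
  have hF : Function.Bijective F := by
    constructor
    · intro i j hij
      exact f_inj (congrArg Subtype.val hij)
    · rintro ⟨S, hS⟩
      obtain ⟨i, hi⟩ := (isIR_iff S).1 hS
      exact ⟨i, Subtype.ext hi⟩
  refine ⟨Equiv.ofBijective F hF, ?_⟩
  intro i j
  rw [SimpleGraph.fromRel_adj, SimpleGraph.pathGraph_adj]
  have h1 := adj_iff i j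
  rw [← h1]
  have h2 : (Equiv.ofBijective F hF i ≠ Equiv.ofBijective F hF j) ↔ f i ≠ f j :=
    not_congr ⟨fun h => congrArg Subtype.val h, fun h => Subtype.ext h⟩
  exact and_congr h2 Iff.rfl

end Pool.Agent.S12526
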