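import Pool.Statements.S12629
import Pool.Agent.H67.LC.PartB

set_option autoImplicit false
open scoped NNReal
open Pool Pool.MP_fe87ae_co

namespace Pool.Agent.S12629

/-- There is a compact metric space with Lion and Christian start points where, in the unbounded-time game with 1-Lipschitz paths and no-lookahead strategies, neither the Lion nor the Christian has a winning strategy. -/
theorem result :
    ∃ (M : Type) (_ : MetricSpace M), CompactSpace M ∧ ∃ (x₀ y₀ : M),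
      (¬ ∃ F : (ℝ≥0 → M) → (ℝ≥0 → M),
          (∀ c : ℝ≥0 → M, LipschitzWith 1 c → c 0 = y₀ →
              LipschitzWith 1 (F c) ∧ F c 0 = x₀) ∧
          (∀ c c' : ℝ≥0 → M, LipschitzWith 1 c → c 0 = y₀ →
              LipschitzWith 1 c' → c' 0 = y₀ →
              ∀ t : ℝ≥0, (∀ s, s ≤ t → c s = c' s) → ∀ s, s ≤ t → F c s = F c' s) ∧
          (∀ c : ℝ≥0 → M, LipschitzWith 1 c → c 0 = y₀ → ∃ t : ℝ≥0, F c t = c t)) ∧
      (¬ ∃ G : (ℝ≥0 → M) → (ℝ≥0 → M),
          (∀ l : ℝ≥0 → M, LipschitzWith 1 l → l 0 = x₀ →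
              LipschitzWith 1 (G l) ∧ G l 0 = y₀) ∧
          (∀ l l' : ℝ≥0 → M, LipschitzWith 1 l → l 0 = x₀ →
              LipschitzWith 1 l' → l' 0 = x₀ →
              ∀ t : ℝ≥0, (∀ s, s ≤ t → l s = l' s) → ∀ s, s ≤ t → G l s = G l' s) ∧
          (∀ l : ℝ≥0 → M, LipschitzWith 1 l → l 0 = x₀ → ∀ t : ℝ≥0, G l t ≠ l t)) := by
  exact ⟨Pool.H67.LC.MQ, inferInstance, inferInstance, Pool.H67.LC.mk Pool.H67.LC.xs,
    Pool.H67.LC.mk Pool.H67.LC.ys, Pool.H67.LC.partA, Pool.H67.LC.partB⟩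

end Pool.Agent.S12629
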