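import Pool.Statements.S13729
import Pool.Agent.H64.Ray.Final

set_option autoImplicit false
open Pool Pool.MP_a96c68_gt

namespace Pool.Agent.S13729

/-- There is a smooth Riemannian metric on the 2-sphere and an injective unit-speed geodesic ray (locally distance-realizing) whose distance to the image of every simple closed geodesic does not tend to 0. -/
theorem result :
    ∃ G : EuclideanSpace ℝ (Fin 3) → (EuclideanSpace ℝ (Fin 3) →L[ℝ] (EuclideanSpace ℝ (Fin 3) →L[ℝ] ℝ)),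
      ContDiff ℝ ((⊤ : ℕ∞) : WithTop ℕ∞) G ∧
      (∀ x ∈ Metric.sphere (0 : EuclideanSpace ℝ (Fin 3)) 1, ∀ v w : EuclideanSpace ℝ (Fin 3),
          inner ℝ x v = (0:ℝ) → inner ℝ x w = (0:ℝ) → G x v w = G x w v) ∧
      (∀ x ∈ Metric.sphere (0 : EuclideanSpace ℝ (Fin 3)) 1, ∀ v : EuclideanSpace ℝ (Fin 3),
          inner ℝ x v = (0:ℝ) → v ≠ 0 → 0 < G x v v) ∧
      ∃ c : ℝ → EuclideanSpace ℝ (Fin 3),
        (∀ t : ℝ, 0 ≤ t → c t ∈ Metric.sphere (0 : EuclideanSpace ℝ (Fin 3)) 1) ∧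
        Set.InjOn c (Set.Ici 0) ∧
        (∀ t ∈ Set.Ici (0:ℝ), ∃ ε > (0:ℝ), ∀ s₁ ∈ Set.Ici (0:ℝ), ∀ s₂ ∈ Set.Ici (0:ℝ),
          t - ε < s₁ → s₁ ≤ s₂ → s₂ < t + ε →
          (∀ σ : ℝ → EuclideanSpace ℝ (Fin 3), ContDiff ℝ 1 σ →
              (∀ u ∈ Set.Icc (0:ℝ) 1, σ u ∈ Metric.sphere (0 : EuclideanSpace ℝ (Fin 3)) 1) →
              σ 0 = c s₁ → σ 1 = c s₂ →
              s₂ - s₁ ≤ ∫ u in (0:ℝ)..1, Real.sqrt (G (σ u) (deriv σ u) (deriv σ u))) ∧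
          (∀ δ > (0:ℝ), ∃ σ : ℝ → EuclideanSpace ℝ (Fin 3), ContDiff ℝ 1 σ ∧
              (∀ u ∈ Set.Icc (0:ℝ) 1, σ u ∈ Metric.sphere (0 : EuclideanSpace ℝ (Fin 3)) 1) ∧
              σ 0 = c s₁ ∧ σ 1 = c s₂ ∧
              (∫ u in (0:ℝ)..1, Real.sqrt (G (σ u) (deriv σ u) (deriv σ u))) < s₂ - s₁ + δ)) ∧
        ¬ ∃ γ : ℝ → EuclideanSpace ℝ (Fin 3), ∃ L > (0:ℝ),
          (∀ t : ℝ, γ t ∈ Metric.sphere (0 : EuclideanSpace ℝ (Fin 3)) 1) ∧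
          (∀ t : ℝ, γ (t + L) = γ t) ∧
          Set.InjOn γ (Set.Ico 0 L) ∧
          (∀ t : ℝ, ∃ ε > (0:ℝ), ∀ s₁ s₂ : ℝ,
            t - ε < s₁ → s₁ ≤ s₂ → s₂ < t + ε →
            (∀ σ : ℝ → EuclideanSpace ℝ (Fin 3), ContDiff ℝ 1 σ →
                (∀ u ∈ Set.Icc (0:ℝ) 1, σ u ∈ Metric.sphere (0 : EuclideanSpace ℝ (Fin 3)) 1) →
                σ 0 = γ s₁ → σ 1 = γ s₂ →
                s₂ - s₁ ≤ ∫ u in (0:ℝ)..1, Real.sqrt (G (σ u) (deriv σ u) (deriv σ u))) ∧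
            (∀ δ > (0:ℝ), ∃ σ : ℝ → EuclideanSpace ℝ (Fin 3), ContDiff ℝ 1 σ ∧
                (∀ u ∈ Set.Icc (0:ℝ) 1, σ u ∈ Metric.sphere (0 : EuclideanSpace ℝ (Fin 3)) 1) ∧
                σ 0 = γ s₁ ∧ σ 1 = γ s₂ ∧
                (∫ u in (0:ℝ)..1, Real.sqrt (G (σ u) (deriv σ u) (deriv σ u))) < s₂ - s₁ + δ)) ∧
          Filter.Tendsto (fun t => Metric.infDist (c t) (Set.range γ)) Filter.atTop (nhds 0) := by
  obtain ⟨m, hm, hlow⟩ := H64.Ray.exists_low H64.Ray.GG H64.Ray.contDiff_GG.continuous H64.Ray.GG_pos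
  refine ⟨H64.Ray.GG, H64.Ray.contDiff_GG, fun x _ v w _ _ => H64.Ray.GG_symm x v w, H64.Ray.GG_pos,
    H64.Ray.cur, fun t _ => H64.Ray.cur_sphere t, H64.Ray.cur_injOn, ?_, ?_⟩
  · intro t ht
    exact H64.Ray.cur_locMin hm hlow ht
  · rintro ⟨γ, L, hL, _, hper, hinj, hmin, hlim⟩
    have hγ : Continuous γ := by
      apply H64.Ray.continuous_of_locMin H64.Ray.contDiff_GG.continuous hm hlow
      intro t
      obtain ⟨ε, hε, H⟩ := hmin t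
      exact ⟨ε, hε, fun s₁ _ s₂ _ h1 h2 h3 => H s₁ s₂ h1 h2 h3⟩
    exact H64.Ray.no_simple_closed H64.Ray.continuousOn_cur H64.Ray.cur_injOn
      (fun t₀ ht₀ => H64.Ray.cur_recurrent ht₀) hL hγ hper hinj hlim

end Pool.Agent.S13729
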