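import Pool.Statements.S13865
import Pool.Agent.H56.SR.Final

set_option autoImplicit false
open Pool Pool.MP_c06d29_gt

namespace Pool.Agent.S13865

/-- Every separable metrizable space locally homeomorphic to open subsets of the Hilbert cube embeds in the cube with image a union of a star-finite family of boxes of closed nondegenerate intervals, full in almost all coordinates. -/
theorem result :
  ∀ (M : Type) [TopologicalSpace M] [TopologicalSpace.SeparableSpace M]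
    [TopologicalSpace.MetrizableSpace M],
    (∀ x : M, ∃ U : Set M, IsOpen U ∧ x ∈ U ∧
      ∃ V : Set (ℕ → Set.Icc (0:ℝ) 1), IsOpen V ∧ Nonempty (U ≃ₜ V)) →
    ∃ f : M → (ℕ → Set.Icc (0:ℝ) 1), Topology.IsEmbedding f ∧
      ∃ 𝒞 : Set (Set (ℕ → Set.Icc (0:ℝ) 1)),
        (∀ B ∈ 𝒞, ∃ a b : ℕ → ℝ, (∀ i, 0 ≤ a i ∧ a i < b i ∧ b i ≤ 1) ∧
          {i : ℕ | a i ≠ 0 ∨ b i ≠ 1}.Finite ∧
          B = {x | ∀ i, a i ≤ (x i : ℝ) ∧ (x i : ℝ) ≤ b i}) ∧
        (∀ B ∈ 𝒞, {D ∈ 𝒞 | (B ∩ D).Nonempty}.Finite) ∧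
        Set.range f = ⋃₀ 𝒞 := by
  exact Pool.Agent.H56.SR.main

end Pool.Agent.S13865
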