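import Pool.Statements.S14063
import Pool.Agent.H59.S5.Whole

set_option autoImplicit false
open scoped InnerProductSpace
open Pool Pool.MP_db5e86_gt

namespace Pool.Agent.S14063

/-- For every compact smooth submanifold of Euclidean space (a model of every compact Riemannian manifold), every two points can be separated by finitely many blocking points on all geodesics between them iff it has local isometric flat parametrizations everywhere. -/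
theorem result :
  ∀ (n k : ℕ) (S : Set (EuclideanSpace ℝ (Fin (n + k)))),
    IsCompact S →
    (∀ p ∈ S, ∃ U : Set (EuclideanSpace ℝ (Fin (n + k))), IsOpen U ∧ p ∈ U ∧
      ∃ f : EuclideanSpace ℝ (Fin (n + k)) → EuclideanSpace ℝ (Fin k),
        ContDiffOn ℝ ((⊤ : ℕ∞) : WithTop ℕ∞) f U ∧
        (∀ q ∈ U, Function.Surjective ⇑(fderiv ℝ f q)) ∧
        S ∩ U = U ∩ f ⁻¹' {0}) →
    ((∀ x ∈ S, ∀ y ∈ S, ∃ B : Finset (EuclideanSpace ℝ (Fin (n + k))),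
        (↑B : Set (EuclideanSpace ℝ (Fin (n + k)))) ⊆ S ∧ x ∉ B ∧ y ∉ B ∧
        ∀ γ : ℝ → EuclideanSpace ℝ (Fin (n + k)),
          ContDiff ℝ ((⊤ : ℕ∞) : WithTop ℕ∞) γ →
          (∀ t, γ t ∈ S) →
          (∀ t : ℝ, ∀ c : ℝ → EuclideanSpace ℝ (Fin (n + k)), ContDiff ℝ 1 c →
              (∀ s, c s ∈ S) → c 0 = γ t →
              ⟪deriv (deriv γ) t, deriv c 0⟫_ℝ = 0) →
          γ 0 = x → γ 1 = y → deriv γ 0 ≠ 0 →
          ∃ t ∈ Set.Ioo (0 : ℝ) 1, γ t ∈ B)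
      ↔
     (∀ p ∈ S, ∃ V : Set (EuclideanSpace ℝ (Fin n)), IsOpen V ∧
        ∃ φ : EuclideanSpace ℝ (Fin n) → EuclideanSpace ℝ (Fin (n + k)),
          ContDiffOn ℝ ((⊤ : ℕ∞) : WithTop ℕ∞) φ V ∧ φ '' V ⊆ S ∧
          (∃ W : Set (EuclideanSpace ℝ (Fin (n + k))), IsOpen W ∧ p ∈ W ∧ S ∩ W ⊆ φ '' V) ∧
          ∀ u ∈ V, ∀ a b : EuclideanSpace ℝ (Fin n),
            ⟪fderiv ℝ φ u a, fderiv ℝ φ u b⟫_ℝ = ⟪a, b⟫_ℝ)) :=
  Pool.Agent.H59.S5.final7 Pool.Agent.H59.S5.sec7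

end Pool.Agent.S14063
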