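import Pool.Statements.S14805
import Pool.Agent.H84.Chain.PP

set_option autoImplicit false
open Pool Pool.MP_64a558_lc

namespace Pool.Agent.S14805

open Pool.Agent.H84.Chain Equiv.Perm

/-- The embedding of an alternating group into the next one. -/
theorem exists_hom (n : ℕ) : ∃ ι : alternatingGroup (Fin n) →* alternatingGroup (Fin (n + 1)),
    Function.Injective ι := by
  classical
  let f : Fin n ≃ {x : Fin (n + 1) // x ∈ Set.range (Fin.castSucc : Fin n → Fin (n + 1))} :=
    Equiv.ofInjective _ (Fin.castSucc_injective n)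
  have h : ∀ σ : alternatingGroup (Fin n),
      (extendDomainHom f).comp (alternatingGroup (Fin n)).subtype σ ∈
        alternatingGroup (Fin (n + 1)) := by
    intro σ
    have h1 := σ.2
    rw [mem_alternatingGroup] at h1 ⊢
    rw [← h1]
    exact sign_extendDomain σ.1 f
  refine ⟨((extendDomainHom f).comp (alternatingGroup (Fin n)).subtype).codRestrict _ h, ?_⟩
  intro σ τ hστ
  have h2 := congrArg Subtype.val hστ
  exact Subtype.ext (extendDomainHom_injective f h2)

instance simple_alt (i : ℕ) : IsSimpleGroup (alternatingGroup (Fin (i + 5))) :=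
  alternatingGroup.isSimpleGroup (by simp)

theorem card_lt (i : ℕ) : Nat.card (alternatingGroup (Fin (i + 5))) <
    Nat.card (alternatingGroup (Fin (i + 1 + 5))) := by
  have h1 := two_mul_nat_card_alternatingGroup (α := Fin (i + 5))
  have h2 := two_mul_nat_card_alternatingGroup (α := Fin (i + 1 + 5))
  rw [Nat.card_perm, Nat.card_fin] at h1 h2
  have h3 : (i + 5).factorial < (i + 1 + 5).factorial := by
    apply (Nat.factorial_lt (by omega)).2
    omega
  omega

/-- There is an infinite sequence of finite nonempty digraphs in which each one pp-constructs the next (is homomorphically equivalent to a pp-power of it) but the next does not pp-construct it, i.e. a strictly ascending chain in the pp-constructability poset. -/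
theorem result :
  ∃ (C : (kB : ℕ) → Digraph (Fin kB) → (kA : ℕ) → Digraph (Fin kA) → Prop),
    (∀ (kB : ℕ) (B : Digraph (Fin kB)) (kA : ℕ) (A : Digraph (Fin kA)),
      C kB B kA A ↔
        ∃ (n m : ℕ)
          (Es Qs : Set (((Fin 2 × Fin n) ⊕ Fin m) × ((Fin 2 × Fin n) ⊕ Fin m)))
          (E : (Fin n → Fin kB) → (Fin n → Fin kB) → Prop),
          0 < n ∧
          (∀ x y : Fin n → Fin kB, E x y ↔ ∃ s : Fin m → Fin kB,
              (∀ p ∈ Es,
                B.Adj (Sum.elim (fun q : Fin 2 × Fin n => (![x, y] q.1) q.2) s p.1)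
                      (Sum.elim (fun q : Fin 2 × Fin n => (![x, y] q.1) q.2) s p.2)) ∧
              (∀ p ∈ Qs,
                Sum.elim (fun q : Fin 2 × Fin n => (![x, y] q.1) q.2) s p.1 =
                  Sum.elim (fun q : Fin 2 × Fin n => (![x, y] q.1) q.2) s p.2)) ∧
          (∃ f : Fin kA → (Fin n → Fin kB), ∀ a b : Fin kA, A.Adj a b → E (f a) (f b)) ∧
          (∃ g : (Fin n → Fin kB) → Fin kA,
              ∀ x y : Fin n → Fin kB, E x y → A.Adj (g x) (g y))) ∧
    ∃ (k : ℕ → ℕ) (G : (i : ℕ) → Digraph (Fin (k i))),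
      (∀ i, 0 < k i) ∧
      ∀ i, C (k i) (G i) (k (i + 1)) (G (i + 1)) ∧
           ¬ C (k (i + 1)) (G (i + 1)) (k i) (G i) := by
  classical
  refine ⟨PPC, fun kB B kA A => Iff.rfl, ?_⟩
  have hen : ∀ i : ℕ, ∃ l : ℕ, Nonempty (Fin l ≃ Fin 4 ⊕ alternatingGroup (Fin (i + 5))) :=
    fun i => ⟨_, ⟨(Finite.equivFin (Fin 4 ⊕ alternatingGroup (Fin (i + 5)))).symm⟩⟩
  choose l hl using hen
  let e : ∀ i : ℕ, Fin (l i) ≃ Fin 4 ⊕ alternatingGroup (Fin (i + 5)) := fun i => (hl i).some
  refine ⟨fun i => Nat.card (Vert (Set (alternatingGroup (Fin (i + 5)))) (l i)),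
    fun i => toDigraph (Edge (RX (e i))), ?_, ?_⟩
  · intro i
    have : Nonempty (Vert (Set (alternatingGroup (Fin (i + 5)))) (l i)) := ⟨.bot ∅⟩
    exact Nat.card_pos
  · intro i
    have hne : Nonempty (Vert (Set (alternatingGroup (Fin (i + 5)))) (l i)) := ⟨.bot ∅⟩
    constructor
    · obtain ⟨ι, hι⟩ := exists_hom (i + 5)
      have hι' : ∃ q, ι q ≠ 1 := by
        obtain ⟨q, hq⟩ := exists_ne (1 : alternatingGroup (Fin (i + 5)))
        refine ⟨q, fun h => hq (hι ?_)⟩
        rw [h, map_one]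
      obtain ⟨Φ, hΦ⟩ := up_step (P := alternatingGroup (Fin (i + 1 + 5))) ι hι' (e i) (e (i + 1))
      exact ppc_toDigraph _ _ Φ hΦ
    · intro h
      obtain ⟨g, hg, hsym⟩ := exists_sym (Q := alternatingGroup (Fin (i + 5)))
        (P := alternatingGroup (Fin (i + 1 + 5))) (card_lt i) (e (i + 1))
      obtain ⟨g', hg', hsym'⟩ := sym_toDigraph (Edge (RX (e (i + 1))))
        (fun (q : alternatingGroup (Fin (i + 5))) (n : NN (alternatingGroup (Fin (i + 5)))) => q • n)
        g hg hsym
      obtain ⟨g'', hg'', hsym''⟩ := h.sym _ g' hg' hsym'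
      obtain ⟨g₃, hg₃, hsym₃⟩ := sym_of_toDigraph (Edge (RX (e i))) _ g'' hg'' hsym''
      exact not_sym (e i) g₃ hg₃ hsym₃

end Pool.Agent.S14805
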