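import Pool.Statements.S17740
import Pool.Agent.H89.Greedy

set_option autoImplicit false
open N435e839e
open Pool Pool.MP_8f0c89_nt

namespace Pool.Agent.S17740

/-- The negation of the preceding statement: The sum of 1/a over greedy-selected a (a0=0, a1=1, each next a coprime-shifted: gcd(n-a, n-b)=1 for all earlier b incl. 0) with 0<a<n and some prime p≤a dividing n-a tends to +∞ as n→∞. -/
theorem result :
    ¬ (Filter.Tendsto (properSum true) Filter.atTop Filter.atTop) := by
  intro h
  obtain ⟨X, hX⟩ := Filter.eventually_atTop.1 (h.eventually_gt_atTop 32)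
  obtain ⟨n, hn, hle⟩ := Pool.Agent.H89.Greedy.exists_bounded (X + 1) (by omega)
  rw [Finset.mem_Ico] at hn
  have := hX n (by omega)
  linarith

end Pool.Agent.S17740
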