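import Pool.Statements.S18075
import Pool.Agent.H89.Alg.Core
-- import your own Pool.Agent.* helpers here

set_option autoImplicit false
open Pool Pool.MP_a85dd6_nt

namespace Pool.Agent.S18075

/-- For all n ≥ 2 and reals 0 < c1 < c2, τ > 1, some real ξ has infinitely many real degree-n algebraic α with ∣ξ−α∣ < c2·H(α)^(−(n+1)τ), but only finitely many with c1 in place of c2; H is the naive height. -/
theorem result :
    ∀ n : ℕ, 2 ≤ n → ∀ c₁ c₂ τ : ℝ, 0 < c₁ → c₁ < c₂ → 1 < τ →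
      ∃ ξ : ℝ,
        {α : ℝ | (minpoly ℚ α).natDegree = n ∧
          ∃ P : Polynomial ℤ, P.IsPrimitive ∧ P.natDegree = n ∧
            Polynomial.aeval α P = 0 ∧
            |ξ - α| < c₂ * ((((Finset.range (n + 1)).sup
              (fun i => (P.coeff i).natAbs) : ℕ) : ℝ) ^ (-((n + 1 : ℝ) * τ)))}.Infinite ∧
        {α : ℝ | (minpoly ℚ α).natDegree = n ∧
          ∃ P : Polynomial ℤ, P.IsPrimitive ∧ P.natDegree = n ∧
            Polynomial.aeval α P = 0 ∧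
            |ξ - α| < c₁ * ((((Finset.range (n + 1)).sup
              (fun i => (P.coeff i).natAbs) : ℕ) : ℝ) ^ (-((n + 1 : ℝ) * τ)))}.Finite := by
  intro n hn c₁ c₂ τ hc₁ hc hτ
  have hs : (n : ℝ) + 1 < (n + 1 : ℝ) * τ := by
    have h0 : (0 : ℝ) < n + 1 := by positivity
    nlinarith
  obtain ⟨ξ, h1, h2⟩ := Pool.Agent.H89.Alg.core_sets n hn _ hs c₁ c₂ hc₁ hc
  refine ⟨ξ, ?_, ?_⟩
  · refine h1.mono ?_
    rintro α ⟨P, ⟨ha, hb, hc', hd⟩, he⟩
    exact ⟨ha, P, hb, hc', hd, he⟩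
  · refine h2.subset ?_
    rintro α ⟨ha, P, hb, hc', hd, he⟩
    exact ⟨P, ⟨ha, hb, hc', hd⟩, he⟩

end Pool.Agent.S18075
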