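import Pool.Statements.S18189
-- import your own Pool.Agent.* helpers here

set_option autoImplicit false
open Pool Pool.MP_b2c262_nt

namespace Pool.Agent.S18189

/-- Every positive integer `U` divides `U' * h ^ N` for some `U'` coprime to `h`. -/
theorem free_part (h : ℕ) (U : ℕ) :
    0 < U → ∃ U' N : ℕ, 0 < U' ∧ Nat.Coprime U' h ∧ U ∣ U' * h ^ N := by
  induction U using Nat.strong_induction_on with
  | _ U ih =>
    intro hU
    by_cases hc : Nat.Coprime U h
    · exact ⟨U, 0, hU, hc, by simp⟩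
    · have hgpos : 0 < Nat.gcd U h := Nat.gcd_pos_of_pos_left _ hU
      have hg1 : 1 < Nat.gcd U h := by
        rcases Nat.lt_or_ge 1 (Nat.gcd U h) with h1 | h1
        · exact h1
        · exfalso
          apply hc
          unfold Nat.Coprime
          omega
      obtain ⟨U1, hU1⟩ := Nat.gcd_dvd_left U h
      have hU1pos : 0 < U1 := by
        rcases Nat.eq_zero_or_pos U1 with h0 | h0
        · rw [h0] at hU1; omega
        · exact h0
      have hlt : U1 < U := by
        calc U1 = 1 * U1 := by ring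
          _ < Nat.gcd U h * U1 := by exact Nat.mul_lt_mul_of_pos_right hg1 hU1pos
          _ = U := hU1.symm
      obtain ⟨U', N, hU', hcop, hdvd⟩ := ih U1 hlt hU1pos
      refine ⟨U', N + 1, hU', hcop, ?_⟩
      have h1 : Nat.gcd U h * U1 ∣ h * (U' * h ^ N) :=
        Nat.mul_dvd_mul (Nat.gcd_dvd_right U h) hdvd
      rw [← hU1] at h1
      calc U ∣ h * (U' * h ^ N) := h1
        _ = U' * h ^ (N + 1) := by ring

/-- Arbitrarily long chains in which any two terms `u i < u j` have the form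
`δ * w`, `δ * (w + 1)` with `g ∣ w`, `h ∣ w + 1` and `w` large. -/
theorem chain (g h : ℕ) (hg : 0 < g) (hh : 0 < h) (hc : Nat.Coprime g h) (X : ℕ) (m : ℕ) :
    ∃ u : ℕ → ℕ, (∀ i, 0 < u i) ∧
      ∀ i j, i < j → j < m → ∃ δ w : ℕ, 0 < δ ∧ X ≤ w ∧ g ∣ w ∧ h ∣ (w + 1) ∧
        u i = δ * w ∧ u j = δ * (w + 1) := by
  induction m with
  | zero => exact ⟨fun _ => 1, fun _ => Nat.one_pos, fun i j _ hj => absurd hj (Nat.not_lt_zero _)⟩
  | succ m ih =>
    obtain ⟨u, hupos, hu⟩ := ih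
    set U : ℕ := ∏ i ∈ Finset.range m, u i with hUdef
    have hUpos : 0 < U := Finset.prod_pos (fun i _ => hupos i)
    obtain ⟨U', N, hU'pos, hU'cop, hU'dvd⟩ := free_part h U hUpos
    set M : ℕ := g * U' with hM
    have hMpos : 0 < M := Nat.mul_pos hg hU'pos
    have hMcop : Nat.Coprime M h := Nat.Coprime.mul_left hc hU'cop
    set Φ : ℕ := ∏ i ∈ Finset.range m, (M + h * u i) with hΦ
    have hfac : ∀ i, Nat.Coprime (M + h * u i) h := by
      intro i
      have : Nat.Coprime (M + h * u i) h ↔ Nat.Coprime M h := by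
        rw [Nat.coprime_add_mul_left_left]
      exact this.mpr hMcop
    have hΦcop : Nat.Coprime Φ h := Nat.Coprime.prod_left (fun i _ => hfac i)
    have hΦpos : 0 < Φ := Finset.prod_pos (fun i _ => by positivity)
    set A : ℕ := g * (h ^ 2 * U) with hA
    set B : ℕ := g * Φ with hB
    have hApos : 0 < A := by positivity
    have hBpos : 0 < B := by positivity
    have hgcd : Nat.gcd A B ∣ M := by
      rw [hA, hB, Nat.gcd_mul_left, hM]
      apply Nat.mul_dvd_mul_left
      have h1 : Nat.Coprime (Nat.gcd (h ^ 2 * U) Φ) (h ^ (N + 2)) :=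
        Nat.Coprime.pow_right _ (Nat.Coprime.coprime_dvd_left (Nat.gcd_dvd_right _ _) hΦcop)
      have h2 : Nat.gcd (h ^ 2 * U) Φ ∣ U' * h ^ (N + 2) := by
        calc Nat.gcd (h ^ 2 * U) Φ ∣ h ^ 2 * U := Nat.gcd_dvd_left _ _
          _ ∣ h ^ 2 * (U' * h ^ N) := Nat.mul_dvd_mul_left _ hU'dvd
          _ = U' * h ^ (N + 2) := by ring
      exact h1.dvd_of_dvd_mul_right h2
    have hcong : (0 : ℕ) ≡ M [MOD Nat.gcd A B] := by
      exact ((Nat.modEq_zero_iff_dvd).mpr hgcd).symm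
    obtain ⟨k, hk1, hk2⟩ := Nat.chineseRemainder' hcong
    set T : ℕ := k + A * B * (M + X * Φ + 1) with hT
    have hAT : A ∣ T := by
      have h1 : A ∣ k := (Nat.modEq_zero_iff_dvd).mp hk1
      exact dvd_add h1 (Dvd.intro _ (by ring : A * (B * (M + X * Φ + 1)) = A * B * (M + X * Φ + 1)))
    have hTM : T ≡ M [MOD B] := by
      have h1 : T ≡ k [MOD B] := by
        rw [hT]
        have : k + A * B * (M + X * Φ + 1) = k + B * (A * (M + X * Φ + 1)) := by ring
        rw [this]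
        exact Nat.add_modulus_mul_modEq_iff.mpr rfl |>.trans (Nat.ModEq.refl k)
      exact h1.trans hk2
    have hTge : M + X * Φ + 1 ≤ T := by
      have : 1 ≤ A * B := Nat.mul_pos hApos hBpos
      calc M + X * Φ + 1 = 1 * (M + X * Φ + 1) := by ring
        _ ≤ A * B * (M + X * Φ + 1) := Nat.mul_le_mul_right _ this
        _ ≤ T := Nat.le_add_left _ _
    have hTM' : M ≤ T := by omega
    have hBdvd : B ∣ T - M := (Nat.modEq_iff_dvd' hTM').mp hTM.symm
    have hTh : ∀ i, i < m → g * (h ^ 2 * u i) ∣ T := by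
      intro i hi
      refine dvd_trans ?_ hAT
      rw [hA]
      apply Nat.mul_dvd_mul_left
      apply Nat.mul_dvd_mul_left
      exact Finset.dvd_prod_of_mem u (Finset.mem_range.mpr hi)
    refine ⟨fun i => match i with
      | 0 => T - M
      | (i + 1) => T + h * u i, ?_, ?_⟩
    · intro i
      match i with
      | 0 =>
        show 0 < T - M
        omega
      | (i + 1) =>
        have : 0 < h * u i := Nat.mul_pos hh (hupos i)
        show 0 < T + h * u i
        omega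
    · intro i j hij hj
      match i, j, hij, hj with
      | 0, (j + 1), _, hj =>
        have hjm : j < m := by omega
        show ∃ δ w : ℕ, 0 < δ ∧ X ≤ w ∧ g ∣ w ∧ h ∣ (w + 1) ∧
          T - M = δ * w ∧ T + h * u j = δ * (w + 1)
        have hfdvd : g * (M + h * u j) ∣ T - M := by
          refine dvd_trans ?_ hBdvd
          rw [hB]
          apply Nat.mul_dvd_mul_left
          exact Finset.dvd_prod_of_mem (fun i => M + h * u i) (Finset.mem_range.mpr hjm)
        obtain ⟨c, hcc⟩ := hfdvd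
        have hTeq : T + h * u j = (M + h * u j) * (g * c + 1) := by
          have h1 : T = M + g * (M + h * u j) * c := by omega
          calc T + h * u j = M + g * (M + h * u j) * c + h * u j := by rw [← h1]
            _ = (M + h * u j) * (g * c + 1) := by ring
        refine ⟨M + h * u j, g * c, by positivity, ?_, Dvd.intro _ rfl, ?_, ?_, hTeq⟩
        · have h1 : (M + h * u j) ≤ Φ :=
            Nat.le_of_dvd hΦpos
              (Finset.dvd_prod_of_mem (fun i => M + h * u i) (Finset.mem_range.mpr hjm))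
          have h2 : X * (M + h * u j) ≤ (g * c) * (M + h * u j) := by
            calc X * (M + h * u j) ≤ X * Φ := Nat.mul_le_mul_left _ h1
              _ ≤ T - M := by omega
              _ = (g * c) * (M + h * u j) := by rw [hcc]; ring
          exact Nat.le_of_mul_le_mul_right h2 (by positivity)
        · have h1 : h ∣ (M + h * u j) * (g * c + 1) := by
            rw [← hTeq]
            refine dvd_add ?_ (Dvd.intro _ rfl)
            refine dvd_trans ?_ (hTh j hjm)
            exact ⟨g * (h * u j), by ring⟩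
          exact (hfac j).symm.dvd_of_dvd_mul_left h1
        · rw [hcc]; ring
      | (i + 1), (j + 1), hij, hj =>
        obtain ⟨δ, w, hδ, hX, hgw, hhw, hui, huj⟩ := hu i j (by omega) (by omega)
        show ∃ δ w : ℕ, 0 < δ ∧ X ≤ w ∧ g ∣ w ∧ h ∣ (w + 1) ∧
          T + h * u i = δ * w ∧ T + h * u j = δ * (w + 1)
        have h1 : g * (h ^ 2 * δ) ∣ T := by
          refine dvd_trans ?_ (hTh i (by omega))
          apply Nat.mul_dvd_mul_left
          apply Nat.mul_dvd_mul_left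
          exact ⟨w, hui⟩
        obtain ⟨c, hcc⟩ := h1
        refine ⟨h * δ, g * h * c + w, by positivity, by omega, ?_, ?_, ?_, ?_⟩
        · exact dvd_add (by rw [mul_assoc]; exact Dvd.intro _ rfl) hgw
        · rw [add_assoc]
          refine dvd_add ?_ hhw
          exact ⟨g * c, by ring⟩
        · rw [hcc, hui]; ring
        · rw [hcc, huj]; ring

/-- The case `b < d`. -/
theorem main_lt (a : ℕ) (ha : 0 < a) (b d : ℤ)
    (hgcd : Int.gcd ((Int.gcd (a : ℤ) b : ℕ) : ℤ) d = 1)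
    (hdvd : (a : ℤ) ∣ b * d) (hbd : b < d)
    (ℓ : ℕ) (f : Fin ℓ → ℕ → ℂ)
    (hf : ∀ j, (∀ m n : ℕ, 0 < m → 0 < n → f j (m * n) = f j m * f j n) ∧
              (∀ n : ℕ, 0 < n → ‖f j n‖ = 1))
    (ε : ℝ) (hε : 0 < ε) (N : ℕ) : ∃ n : ℕ, N ≤ n ∧
          ∑ j, ‖f j (((a : ℤ) * (n : ℤ) + b).toNat) - f j (((a : ℤ) * (n : ℤ) + d).toNat)‖ < ε := by
  have haz : (a : ℤ) ≠ 0 := by exact_mod_cast ha.ne'
  set g : ℕ := Int.gcd (a : ℤ) b with hg
  set h : ℕ := Int.gcd (a : ℤ) d with hh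
  have hgpos : 0 < g := Int.gcd_pos_of_ne_zero_left _ haz
  have hhpos : 0 < h := Int.gcd_pos_of_ne_zero_left _ haz
  have hga : (g : ℤ) ∣ a := Int.gcd_dvd_left _ _
  have hgb : (g : ℤ) ∣ b := Int.gcd_dvd_right _ _
  have hha : (h : ℤ) ∣ a := Int.gcd_dvd_left _ _
  have hhd : (h : ℤ) ∣ d := Int.gcd_dvd_right _ _
  have hcop : Nat.Coprime g h := by
    have h1 : ((Nat.gcd g h : ℕ) : ℤ) ∣ ((g : ℕ) : ℤ) := by exact_mod_cast Nat.gcd_dvd_left g h
    have h2 : ((Nat.gcd g h : ℕ) : ℤ) ∣ ((h : ℕ) : ℤ) := by exact_mod_cast Nat.gcd_dvd_right g h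
    have h3 : ((Nat.gcd g h : ℕ) : ℤ) ∣ ((Int.gcd (g : ℤ) d : ℕ) : ℤ) :=
      Int.dvd_coe_gcd h1 (h2.trans hhd)
    rw [hgcd] at h3
    have h4 : Nat.gcd g h ∣ 1 := by exact_mod_cast h3
    exact Nat.dvd_one.mp h4
  have hagh : (a : ℤ) ∣ (g : ℤ) * (h : ℤ) := by
    have h1 : a ∣ Nat.gcd a b.natAbs * Nat.gcd a d.natAbs := by
      refine dvd_trans ?_ (Nat.gcd_mul_right_dvd_mul_gcd a b.natAbs d.natAbs)
      apply Nat.dvd_gcd dvd_rfl
      have h2 := Int.natAbs_dvd_natAbs.mpr hdvd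
      rwa [Int.natAbs_mul, Int.natAbs_natCast] at h2
    have h2 : g * h = Nat.gcd a b.natAbs * Nat.gcd a d.natAbs := rfl
    rw [← h2] at h1
    exact_mod_cast h1
  -- the compact set of values
  set D : ℕ := (d - b).toNat with hD
  have hDz : (D : ℤ) = d - b := Int.toNat_of_nonneg (by omega)
  have hDpos : 0 < D := by omega
  set r : ℝ := ε / (2 * (ℓ + 1)) with hr
  have hrpos : 0 < r := by positivity
  have htb : TotallyBounded (Metric.closedBall (0 : Fin ℓ → ℂ) 1) :=
    (isCompact_closedBall (0 : Fin ℓ → ℂ) 1).totallyBounded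
  obtain ⟨t, htfin, ht⟩ := Metric.totallyBounded_iff.mp htb r hrpos
  set X : ℕ := a * N + b.natAbs + 1 with hX
  obtain ⟨u, hupos, hu⟩ := chain g h hgpos hhpos hcop X (htfin.toFinset.card + 1)
  have hmem : ∀ i, ∃ c ∈ t, dist (fun j => f j (u i)) c < r := by
    intro i
    have h1 : (fun j => f j (u i)) ∈ Metric.closedBall (0 : Fin ℓ → ℂ) 1 := by
      rw [mem_closedBall_zero_iff]
      rw [pi_norm_le_iff_of_nonneg zero_le_one]
      intro j
      exact le_of_eq ((hf j).2 _ (hupos i))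
    have h2 := ht h1
    simpa using h2
  choose c hct hcr using hmem
  have hpig : ∃ i ∈ Finset.range (htfin.toFinset.card + 1),
      ∃ j ∈ Finset.range (htfin.toFinset.card + 1), i ≠ j ∧ c i = c j := by
    apply Finset.exists_ne_map_eq_of_card_lt_of_maps_to (t := htfin.toFinset)
    · rw [Finset.card_range]; exact Nat.lt_succ_self _
    · intro i _
      simpa using hct i
  have hpig2 : ∃ i j, i < j ∧ j < htfin.toFinset.card + 1 ∧ c i = c j := by
    obtain ⟨i, hi, j, hj, hij, hc⟩ := hpig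
    rw [Finset.mem_range] at hi hj
    rcases Nat.lt_or_gt_of_ne hij with h1 | h1
    · exact ⟨i, j, h1, hj, hc⟩
    · exact ⟨j, i, h1, hi, hc.symm⟩
  obtain ⟨i, j, hij, hj, hcij⟩ := hpig2
  obtain ⟨δ, w, hδ, hXw, hgw, hhw, hui, huj⟩ := hu i j hij hj
  -- the number n
  have hwdvd : (a : ℤ) ∣ (D : ℤ) * w - b := by
    refine dvd_trans hagh ?_
    have hcopz : IsCoprime (g : ℤ) (h : ℤ) := Nat.isCoprime_iff_coprime.mpr hcop
    apply hcopz.mul_dvd
    · refine dvd_sub ?_ hgb
      exact Dvd.dvd.mul_left (by exact_mod_cast hgw) _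
    · have h1 : (D : ℤ) * w - b = (D : ℤ) * ((w + 1 : ℕ) : ℤ) - d := by
        push_cast
        rw [hDz]; ring
      rw [h1]
      refine dvd_sub ?_ hhd
      exact Dvd.dvd.mul_left (by exact_mod_cast hhw) _
  obtain ⟨q, hq⟩ := hwdvd
  have hwX : ((a : ℤ) * N + b.natAbs + 1) ≤ (w : ℤ) := by exact_mod_cast hXw
  have hbabs : b ≤ (b.natAbs : ℤ) := Int.le_natAbs
  have hqN : (N : ℤ) ≤ q := by
    have h1 : (a : ℤ) * N ≤ a * q := by
      rw [← hq]
      have h2 : (w : ℤ) ≤ (D : ℤ) * w := by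
        have h3 : (1 : ℤ) ≤ D := by exact_mod_cast hDpos
        have h4 : (0 : ℤ) ≤ w := by positivity
        nlinarith
      linarith
    have ha' : (0 : ℤ) < a := by exact_mod_cast ha
    exact le_of_mul_le_mul_left h1 ha'
  obtain ⟨n, hn⟩ := Int.eq_ofNat_of_zero_le (le_trans (Int.natCast_nonneg N) hqN)
  have hNn : N ≤ n := by
    rw [hn] at hqN
    exact_mod_cast hqN
  have hwpos : 0 < w := by omega
  have e1 : ((a : ℤ) * (n : ℤ) + b).toNat = D * w := by
    have h1 : (a : ℤ) * (n : ℤ) + b = ((D * w : ℕ) : ℤ) := by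
      push_cast
      rw [hn] at hq
      have hq' : (D : ℤ) * w - b = a * (n : ℤ) := hq
      linarith
    rw [h1]; exact Int.toNat_natCast _
  have e2 : ((a : ℤ) * (n : ℤ) + d).toNat = D * (w + 1) := by
    have h1 : (a : ℤ) * (n : ℤ) + d = ((D * (w + 1) : ℕ) : ℤ) := by
      push_cast
      rw [hn] at hq
      have hq' : (D : ℤ) * w - b = a * (n : ℤ) := hq
      linarith
    rw [h1]; exact Int.toNat_natCast _
  refine ⟨n, hNn, ?_⟩
  rw [e1, e2]
  have hterm : ∀ k : Fin ℓ, ‖f k (D * w) - f k (D * (w + 1))‖ ≤ 2 * r := by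
    intro k
    obtain ⟨hmul, hnorm⟩ := hf k
    rw [hmul D w hDpos hwpos, hmul D (w + 1) hDpos (Nat.succ_pos _), ← mul_sub, norm_mul,
      hnorm D hDpos, one_mul]
    have h1 : ‖f k w - f k (w + 1)‖ = ‖f k (u i) - f k (u j)‖ := by
      rw [hui, huj, hmul δ w hδ hwpos, hmul δ (w + 1) hδ (Nat.succ_pos _), ← mul_sub, norm_mul,
        hnorm δ hδ, one_mul]
    rw [h1, ← dist_eq_norm]
    have h2 : dist (f k (u i)) (c i k) ≤ r :=
      le_of_lt (lt_of_le_of_lt (dist_le_pi_dist (fun j => f j (u i)) (c i) k) (hcr i))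
    have h3 : dist (f k (u j)) (c j k) ≤ r :=
      le_of_lt (lt_of_le_of_lt (dist_le_pi_dist (fun l => f l (u j)) (c j) k) (hcr j))
    calc dist (f k (u i)) (f k (u j)) ≤ dist (f k (u i)) (c i k) + dist (c i k) (f k (u j)) :=
          dist_triangle _ _ _
      _ = dist (f k (u i)) (c i k) + dist (f k (u j)) (c j k) := by
          rw [hcij, dist_comm (c j k)]
      _ ≤ 2 * r := by linarith
  calc ∑ k, ‖f k (D * w) - f k (D * (w + 1))‖ ≤ ∑ _k : Fin ℓ, 2 * r :=
        Finset.sum_le_sum (fun k _ => hterm k)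
    _ = ℓ * (2 * r) := by simp
    _ < ε := by
        rw [hr]
        have hl : (0 : ℝ) ≤ ℓ := Nat.cast_nonneg _
        have : (ℓ : ℝ) * (2 * (ε / (2 * (ℓ + 1)))) = ε * (ℓ / (ℓ + 1)) := by
          field_simp
        rw [this]
        have h1 : (ℓ : ℝ) / (ℓ + 1) < 1 := by
          rw [div_lt_one (by linarith)]
          linarith
        calc ε * ((ℓ : ℝ) / (ℓ + 1)) < ε * 1 := mul_lt_mul_of_pos_left h1 hε
          _ = ε := mul_one _

/-- For a ≥ 1 and integers b, d with gcd(a,b,d)=1 and (b=d or a divides bd), any finitely many completely multiplicative unit-modulus functions satisfy: the liminf over n of the sum of the differences ∣f_j(an+b) − f_j(an+d)∣ is 0. -/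
theorem result :
    ∀ a : ℕ, 0 < a → ∀ b d : ℤ,
      Int.gcd ((Int.gcd (a : ℤ) b : ℕ) : ℤ) d = 1 →
      (b = d ∨ (a : ℤ) ∣ b * d) →
      ∀ ℓ : ℕ, ∀ f : Fin ℓ → ℕ → ℂ,
        (∀ j, (∀ m n : ℕ, 0 < m → 0 < n → f j (m * n) = f j m * f j n) ∧
              (∀ n : ℕ, 0 < n → ‖f j n‖ = 1)) →
        ∀ ε : ℝ, 0 < ε → ∀ N : ℕ, ∃ n : ℕ, N ≤ n ∧
          ∑ j, ‖f j (((a : ℤ) * (n : ℤ) + b).toNat) - f j (((a : ℤ) * (n : ℤ) + d).toNat)‖ < ε := by
  intro a ha b d hgcd hor ℓ f hf ε hε N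
  rcases lt_trichotomy b d with hlt | heq | hgt
  · have hdvd : (a : ℤ) ∣ b * d := by
      rcases hor with h1 | h1
      · exact absurd h1 hlt.ne
      · exact h1
    exact main_lt a ha b d hgcd hdvd hlt ℓ f hf ε hε N
  · exact ⟨N, le_rfl, by simp [heq, hε]⟩
  · have hdvd : (a : ℤ) ∣ d * b := by
      rcases hor with h1 | h1
      · exact absurd h1 hgt.ne'
      · rw [mul_comm]; exact h1
    have hgcd' : Int.gcd ((Int.gcd (a : ℤ) d : ℕ) : ℤ) b = 1 := by
      have h1 : Int.gcd ((Int.gcd (a : ℤ) d : ℕ) : ℤ) b =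
          Int.gcd ((Int.gcd (a : ℤ) b : ℕ) : ℤ) d := by
        simp only [Int.gcd, Int.natAbs_natCast]
        rw [Nat.gcd_assoc, Nat.gcd_assoc, Nat.gcd_comm d.natAbs]
      rw [h1]; exact hgcd
    obtain ⟨n, hn, hsum⟩ := main_lt a ha d b hgcd' hdvd hgt ℓ f hf ε hε N
    refine ⟨n, hn, ?_⟩
    refine lt_of_le_of_lt (le_of_eq ?_) hsum
    exact Finset.sum_congr rfl (fun k _ => norm_sub_rev _ _)

end Pool.Agent.S18189
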