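import Pool.Statements.S19196
import Pool.Agent.H46.Ent.Main
import Pool.Agent.H46.Ent.Iid

set_option autoImplicit false
open Pool Pool.MP_1d7c3b_pr

namespace Pool.Agent.S19196

/-- The negation of the preceding statement: For i.i.d. X_1..X_n with a symmetric log-concave density and real d with sum of d_i^2 equal to 1, the differential entropy of the sum of d_i X_i is at most that of the sum of X_i/sqrt(n). -/
theorem result :
    ¬ (∀ (n : ℕ), 0 < n → ∀ (f : ℝ → ℝ), (∀ x, 0 ≤ f x) → (∀ x, f (-x) = f x) →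
      (∀ x y t : ℝ, 0 ≤ t → t ≤ 1 →
        f x ^ t * f y ^ (1 - t) ≤ f (t * x + (1 - t) * y)) →
      MeasureTheory.Integrable f → ∫ x, f x = 1 →
      ∀ (Ω : Type) [MeasureTheory.MeasureSpace Ω]
        [MeasureTheory.IsProbabilityMeasure (MeasureTheory.volume : MeasureTheory.Measure Ω)]
        (X : Fin n → Ω → ℝ),
        (∀ i, Measurable (X i)) →
        ProbabilityTheory.iIndepFun X (MeasureTheory.volume : MeasureTheory.Measure Ω) →
        (∀ i, MeasureTheory.Measure.map (X i) (MeasureTheory.volume : MeasureTheory.Measure Ω)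
            = MeasureTheory.volume.withDensity (fun x => ENNReal.ofReal (f x))) →
        ∀ d : Fin n → ℝ, ∑ i, d i ^ 2 = 1 →
          ∫ x, Real.negMulLog
              (((MeasureTheory.Measure.map (fun ω => ∑ i, d i * X i ω)
                (MeasureTheory.volume : MeasureTheory.Measure Ω)).rnDeriv
                  MeasureTheory.volume x).toReal)
            ≤ ∫ x, Real.negMulLog
              (((MeasureTheory.Measure.map (fun ω => ∑ i, (1 / Real.sqrt n) * X i ω)
                (MeasureTheory.volume : MeasureTheory.Measure Ω)).rnDeriv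
                  MeasureTheory.volume x).toReal)) := by
  intro h
  obtain ⟨d, hd, hflat⟩ : ∃ d : Fin 2 → ℝ, ∑ i, d i ^ 2 = 1 ∧ ¬ Pool.Agent.H46.Ent.Flat d := by
    refine ⟨![3 / 5, 4 / 5], ?_, fun hf => ?_⟩
    · simp [Fin.sum_univ_two]; norm_num
    · have := hf 0 1 (by simp) (by simp)
      simp at this
      rw [abs_of_pos (by norm_num), abs_of_pos (by norm_num)] at this
      norm_num at this
  obtain ⟨ω, hω1, hgd, hge, hlt⟩ := Pool.Agent.H46.Ent.exists_good le_rfl hd hflat
  have hω : 0 < ω := by linarith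
  obtain ⟨Ω, iM, iP, X, hXm, hind, hlaw⟩ :=
    Pool.Agent.H46.Ent.exists_iid 2 (f := Pool.Agent.H46.Ent.fd (Pool.Agent.H46.Ent.ep ω) ω)
      (fun x => (Pool.Agent.H46.Ent.fd_pos hω x).le)
      (Pool.Agent.H46.Ent.fd_integrable _ _)
      (Pool.Agent.H46.Ent.fd_integral ω (Pool.Agent.H46.Ent.ep_pos ω).le)
  have h1 := h 2 (by norm_num) (Pool.Agent.H46.Ent.fd (Pool.Agent.H46.Ent.ep ω) ω)
    (fun x => (Pool.Agent.H46.Ent.fd_pos hω x).le) (Pool.Agent.H46.Ent.fd_even _ _)
    (Pool.Agent.H46.Ent.fd_logconcave hω) (Pool.Agent.H46.Ent.fd_integrable _ _)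
    (Pool.Agent.H46.Ent.fd_integral ω (Pool.Agent.H46.Ent.ep_pos ω).le) Ω X hXm hind hlaw d hd
  have h2 := Pool.Agent.H46.Ent.entropy_lt (Pool.Agent.H46.Ent.ep_pos ω).le
    (Pool.Agent.H46.Ent.ep_le_one ω) hXm hind hlaw hgd hge hlt
  exact absurd h1 (not_le.2 h2)

end Pool.Agent.S19196
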